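import Pool.Agent.H.MP_cba12a_lc.SQ.Moment

namespace Pool.Agent.H.MP_cba12a_lc.SQ

open Finset Filter Topology

theorem proc_sum_choose_le {m : ℕ} (hm : 2 ≤ m) (k : ℕ) :
    ∑ i ∈ range k, m.choose i ≤ m ^ k := by
  induction k with
  | zero => simp
  | succ k ih =>
    rw [sum_range_succ, pow_succ]
    have h1 : m.choose k ≤ m ^ k := Nat.choose_le_pow m k
    nlinarith [Nat.zero_le (m ^ k)]

theorem proc_card_le {m : ℕ} (hm : 2 ≤ m) (k : ℕ) :
    ((univ : Finset (Finset (Fin m))).filter fun B => B.card < k).card ≤ m ^ k := by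
  have h1 : ((univ : Finset (Finset (Fin m))).filter fun B => B.card < k).card =
      ∑ i ∈ range k,
        (((univ : Finset (Finset (Fin m))).filter fun B => B.card < k).filter
          (fun B => B.card = i)).card :=
    Finset.card_eq_sum_card_fiberwise (fun B hB => by
      simp only [coe_filter, mem_univ, true_and, Set.mem_ofPred_eq] at hB
      simpa using hB)
  rw [h1]
  refine le_trans (Finset.sum_le_sum fun i _ => ?_) (proc_sum_choose_le hm k)
  have h2 : (((univ : Finset (Finset (Fin m))).filter fun B => B.card < k).filter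
          (fun B => B.card = i)) ⊆ powersetCard i (univ : Finset (Fin m)) := by
    intro B hB
    rw [mem_filter] at hB
    rw [mem_powersetCard]
    exact ⟨subset_univ _, hB.2⟩
  refine (card_le_card h2).trans ?_
  rw [card_powersetCard, card_univ, Fintype.card_fin]

theorem proc_var {Ω : Type} [Fintype Ω] (p : Ω → ℝ) (hp0 : ∀ ω, 0 ≤ p ω)
    (hp1 : ∑ ω, p ω = 1) (c : Ω → ℝ) (w s : ℝ) (hc : ∀ ω, p ω ≠ 0 → |c ω| ≤ w) :
    ∑ ω, p ω * (s + c ω - ∑ ω', p ω' * c ω') ^ 2 ≤ s ^ 2 + w ^ 2 := by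
  set μ : ℝ := ∑ ω', p ω' * c ω' with hμ
  have h1 : ∑ ω, p ω * (s + c ω - μ) ^ 2 =
      (s - μ) ^ 2 * (∑ ω, p ω) + 2 * (s - μ) * (∑ ω, p ω * c ω) + ∑ ω, p ω * (c ω) ^ 2 := by
    rw [mul_sum, mul_sum, ← sum_add_distrib, ← sum_add_distrib]
    exact sum_congr rfl fun ω _ => by ring
  have h2 : ∑ ω, p ω * (c ω) ^ 2 ≤ w ^ 2 := by
    calc ∑ ω, p ω * (c ω) ^ 2 ≤ ∑ ω, p ω * w ^ 2 := by
          refine sum_le_sum fun ω _ => ?_
          by_cases h : p ω = 0
          · rw [h]; simp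
          · refine mul_le_mul_of_nonneg_left ?_ (hp0 ω)
            rw [← sq_abs (c ω)]
            exact pow_le_pow_left₀ (abs_nonneg _) (hc ω h) 2
      _ = w ^ 2 := by rw [← sum_mul, hp1, one_mul]
  rw [h1, hp1, ← hμ]
  nlinarith [sq_nonneg μ]

theorem proc_exists {Ω : Type} [Fintype Ω] (p : Ω → ℝ) (hp0 : ∀ ω, 0 ≤ p ω)
    (hp1 : ∑ ω, p ω = 1) (X : Ω → ℝ) (c : ℝ) (hX : ∑ ω, p ω * X ω ≤ c) :
    ∃ ω, p ω ≠ 0 ∧ X ω ≤ c := by
  by_contra hcon
  push Not at hcon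
  have h1 : ∃ ω, 0 < p ω := by
    by_contra h
    push Not at h
    have : ∑ ω, p ω ≤ 0 := sum_nonpos fun ω _ => h ω
    linarith
  obtain ⟨ω₀, h0⟩ := h1
  have h2 : ∑ ω, p ω * c < ∑ ω, p ω * X ω := by
    refine sum_lt_sum (fun ω _ => ?_) ⟨ω₀, mem_univ _, ?_⟩
    · by_cases h : p ω = 0
      · rw [h]; simp
      · exact mul_le_mul_of_nonneg_left (hcon ω h).le (hp0 ω)
    · exact mul_lt_mul_of_pos_left (hcon ω₀ h0.ne') h0
  rw [← sum_mul, hp1, one_mul] at h2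
  linarith

theorem proc_ex_ind_le {m : ℕ} {dlo : ℕ} {E : List (Finset (Fin m))} {D : Finset (Fin m)}
    (hD : dlo ≤ D.card) (h : ∀ T ∈ E, D ⊆ T) : ex (ind E) ≤ (1 / 2 : ℝ) ^ dlo := by
  calc ex (ind E) ≤ ex (cj D) := ex_mono fun x => ind_le_cj E D h x
    _ = (1 / 2 : ℝ) ^ D.card := ex_cj D
    _ ≤ (1 / 2 : ℝ) ^ dlo := pow_le_pow_of_le_one (by norm_num) (by norm_num) hD

theorem proc_exp_half : Real.exp (1 / 2) ≤ 2 := by
  have h1 : Real.exp (1 / 2) * Real.exp (1 / 2) = Real.exp 1 := by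
    rw [← Real.exp_add]; norm_num
  have h2 := Real.exp_one_lt_d9
  have h3 : 0 < Real.exp (1 / 2) := Real.exp_pos _
  nlinarith

theorem proc_inv {m : ℕ} (hm : 2 ≤ m) {dlo U : ℕ} {K : ℝ} {F E : List (Finset (Fin m))}
    {D : Finset (Fin m)} (hDlo : dlo ≤ D.card) (hDU : D.card ≤ U) (h : ∀ T ∈ E, D ⊆ T)
    (hU : 3 * U ^ 2 ≤ m) (hinv : Inv U K F) : Inv U (K + 2 * (1 / 2) ^ dlo) (F ++ E) := by
  intro s hs
  have hm0 : (0 : ℝ) < m := by
    have : 0 < m := by omega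
    exact_mod_cast this
  have h1 : ex (fun x => (2 * (x.card : ℝ) / m) ^ s * ind (F ++ E) x) ≤
      ex (fun x => (2 * (x.card : ℝ) / m) ^ s * ind F x) +
      ex (fun x => (2 * (x.card : ℝ) / m) ^ s * cj D x) := by
    rw [← ex_add]
    refine ex_mono fun x => ?_
    have h2 : 0 ≤ (2 * (x.card : ℝ) / m) ^ s := by positivity
    rw [ind_append, ← mul_add]
    refine mul_le_mul_of_nonneg_left ?_ h2
    have h3 := ind_le_cj E D h x
    have h4 := ind_nonneg F x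
    have h5 := ind_nonneg E x
    nlinarith [mul_nonneg h4 h5]
  have h2 := ex_pow_cj (by omega : 0 < m) D s
  have h3 := hinv s hs
  have h4 : Real.exp ((s : ℝ) * D.card / m + s ^ 2 / (2 * m)) ≤ 2 := by
    refine le_trans (Real.exp_le_exp.2 ?_) proc_exp_half
    have a1 : (s : ℝ) ≤ U := by exact_mod_cast hs
    have a2 : (D.card : ℝ) ≤ U := by exact_mod_cast hDU
    have a3 : 3 * (U : ℝ) ^ 2 ≤ m := by exact_mod_cast hU
    have a4 : (s : ℝ) * D.card ≤ U ^ 2 := by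
      rw [sq]
      exact mul_le_mul a1 a2 (by positivity) (by positivity)
    have a5 : (s : ℝ) ^ 2 ≤ U ^ 2 := pow_le_pow_left₀ (by positivity) a1 2
    have a6 : (s : ℝ) * D.card / m ≤ 1 / 3 := by
      rw [div_le_div_iff₀ hm0 (by norm_num)]
      linarith
    have a7 : (s : ℝ) ^ 2 / (2 * m) ≤ 1 / 6 := by
      rw [div_le_div_iff₀ (by positivity) (by norm_num)]
      linarith
    linarith
  have h5 : (1 / 2 : ℝ) ^ D.card ≤ (1 / 2) ^ dlo :=
    pow_le_pow_of_le_one (by norm_num) (by norm_num) hDlo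
  have h6 : (1 / 2 : ℝ) ^ D.card * Real.exp ((s : ℝ) * D.card / m + s ^ 2 / (2 * m)) ≤
      (1 / 2) ^ dlo * 2 :=
    mul_le_mul h5 h4 (Real.exp_pos _).le (by positivity)
  linarith

theorem proc_step {m : ℕ} (k dlo U : ℕ)
    {Ω : Type} [Fintype Ω] (p : Ω → ℝ) (hp0 : ∀ ω, 0 ≤ p ω) (hp1 : ∑ ω, p ω = 1)
    (ev : Ω → List (Finset (Fin m)))
    (hD : ∀ ω, p ω ≠ 0 → ∃ D : Finset (Fin m), dlo ≤ D.card ∧ D.card ≤ U ∧ ∀ T ∈ ev ω, D ⊆ T)
    (havg : ∀ x : Finset (Fin m), ∑ ω, p ω * ind (ev ω) x ≤ ((x.card : ℝ) / m) ^ dlo)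
    (hdU : dlo ≤ U) (F : List (Finset (Fin m))) (K' A : ℝ) (hA : 0 ≤ A)
    (hinv : Inv U K' F) (S : Finset (Fin m) → ℝ) :
    ∃ ω, p ω ≠ 0 ∧
      A * ∑ B ∈ (univ : Finset (Finset (Fin m))).filter (fun B => B.card < k),
          (S B + co (ind (ev ω)) B - ∑ ω', p ω' * co (ind (ev ω')) B) ^ 2 +
        ex (fun x => ind F x * ind (ev ω) x) ≤
      A * ∑ B ∈ (univ : Finset (Finset (Fin m))).filter (fun B => B.card < k), (S B) ^ 2 +
        (A * ((univ : Finset (Finset (Fin m))).filter (fun B => B.card < k)).card *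
          ((1 / 2) ^ dlo) ^ 2 + (1 / 2) ^ dlo * K') := by
  set calB := (univ : Finset (Finset (Fin m))).filter (fun B => B.card < k) with hcalB
  apply proc_exists p hp0 hp1 (X := fun ω => A * ∑ B ∈ calB,
          (S B + co (ind (ev ω)) B - ∑ ω', p ω' * co (ind (ev ω')) B) ^ 2 +
        ex (fun x => ind F x * ind (ev ω) x))
  have e1 : ∑ ω, p ω * (A * ∑ B ∈ calB,
          (S B + co (ind (ev ω)) B - ∑ ω', p ω' * co (ind (ev ω')) B) ^ 2 +
        ex (fun x => ind F x * ind (ev ω) x)) =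
      A * (∑ B ∈ calB, ∑ ω, p ω *
          (S B + co (ind (ev ω)) B - ∑ ω', p ω' * co (ind (ev ω')) B) ^ 2) +
        ∑ ω, p ω * ex (fun x => ind F x * ind (ev ω) x) := by
    rw [sum_comm, mul_sum, ← sum_add_distrib]
    refine sum_congr rfl fun ω _ => ?_
    rw [← mul_sum]
    ring
  rw [e1]
  have h1 : ∑ B ∈ calB, ∑ ω, p ω *
          (S B + co (ind (ev ω)) B - ∑ ω', p ω' * co (ind (ev ω')) B) ^ 2 ≤
      ∑ B ∈ calB, (S B) ^ 2 + calB.card * ((1 / 2 : ℝ) ^ dlo) ^ 2 := by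
    rw [← nsmul_eq_mul, ← sum_const, ← sum_add_distrib]
    refine sum_le_sum fun B _ => ?_
    apply proc_var p hp0 hp1
    intro ω hω
    obtain ⟨D, d1, d2, d3⟩ := hD ω hω
    refine le_trans (abs_co_le (g := ind (ev ω)) (fun x => ?_) B) (proc_ex_ind_le d1 d3)
    rw [abs_of_nonneg (ind_nonneg _ _)]
  have h2 : ∑ ω, p ω * ex (fun x => ind F x * ind (ev ω) x) ≤ (1 / 2) ^ dlo * K' := by
    have e2 : ∑ ω, p ω * ex (fun x => ind F x * ind (ev ω) x) =
        ex (fun x => ∑ ω, p ω * (ind F x * ind (ev ω) x)) := by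
      rw [ex_sum]
      exact sum_congr rfl fun ω _ => (ex_mul_left _ _).symm
    rw [e2]
    have h3 : ex (fun x => ∑ ω, p ω * (ind F x * ind (ev ω) x)) ≤
        ex (fun x => (1 / 2 : ℝ) ^ dlo * ((2 * (x.card : ℝ) / m) ^ dlo * ind F x)) := by
      refine ex_mono fun x => ?_
      have e3 : ∑ ω, p ω * (ind F x * ind (ev ω) x) = ind F x * ∑ ω, p ω * ind (ev ω) x := by
        rw [mul_sum]
        exact sum_congr rfl fun ω _ => by ring
      rw [e3]
      refine (mul_le_mul_of_nonneg_left (havg x) (ind_nonneg F x)).trans (le_of_eq ?_)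
      have e4 : ((x.card : ℝ) / m) ^ dlo = (1 / 2 : ℝ) ^ dlo * (2 * (x.card : ℝ) / m) ^ dlo := by
        rw [← mul_pow]
        congr 1
        ring
      rw [e4]
      ring
    refine h3.trans ?_
    rw [ex_mul_left]
    exact mul_le_mul_of_nonneg_left (hinv dlo hdU) (by positivity)
  have h3 := mul_le_mul_of_nonneg_left h1 hA
  rw [mul_add] at h3
  linarith

theorem proc_loop {m : ℕ} (hm : 2 ≤ m) (k R dlo U ℓ : ℕ) (K : ℝ)
    {Ω : Type} [Fintype Ω] (p : Ω → ℝ) (hp0 : ∀ ω, 0 ≤ p ω) (hp1 : ∑ ω, p ω = 1)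
    (ev : Ω → List (Finset (Fin m))) (hlen : ∀ ω, (ev ω).length ≤ ℓ)
    (hD : ∀ ω, p ω ≠ 0 → ∃ D : Finset (Fin m), dlo ≤ D.card ∧ D.card ≤ U ∧ ∀ T ∈ ev ω, D ⊆ T)
    (havg : ∀ x : Finset (Fin m), ∑ ω, p ω * ind (ev ω) x ≤ ((x.card : ℝ) / m) ^ dlo)
    (hdU : dlo ≤ U) (hU : 3 * U ^ 2 ≤ m) (F₀ : List (Finset (Fin m)))
    (hinv : Inv U K F₀) (A : ℝ) (hA : 0 ≤ A) (r : ℕ) (hr : r ≤ R) :
    ∃ (F : List (Finset (Fin m))) (S : Finset (Fin m) → ℝ) (O : ℝ),
      F.length ≤ F₀.length + r * ℓ ∧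
      Inv U (K + 2 * r * (1 / 2) ^ dlo) F ∧
      (∀ x, ind F₀ x ≤ ind F x) ∧ ex (fun x => ind F x - ind F₀ x) ≤ r * (1 / 2) ^ dlo ∧
      (∀ B : Finset (Fin m), B.card < k →
        |co (ind F) B - co (ind F₀) B - r * (∑ ω, p ω * co (ind (ev ω)) B) - S B| ≤ O) ∧
      A * (∑ B ∈ (univ : Finset (Finset (Fin m))).filter (fun B => B.card < k), (S B) ^ 2) + O ≤
        r * (A * ((univ : Finset (Finset (Fin m))).filter (fun B => B.card < k)).card *
          ((1 / 2) ^ dlo) ^ 2 + (1 / 2) ^ dlo * (K + 2 * R * (1 / 2) ^ dlo)) := by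
  induction r with
  | zero =>
    refine ⟨F₀, fun _ => 0, 0, ?_, ?_, ?_, ?_, ?_, ?_⟩
    · simp
    · simpa using hinv
    · intro x; exact le_rfl
    · simp [ex]
    · intro B _
      simp
    · simp
  | succ r ih =>
    obtain ⟨F, S, O, i1, i2, i3, i4, i5, i6⟩ := ih (by omega)
    set w : ℝ := (1 / 2 : ℝ) ^ dlo with hw
    have hw0 : 0 < w := by rw [hw]; positivity
    have hrR : (r : ℝ) ≤ R := by
      have : r ≤ R := by omega
      exact_mod_cast this
    have hinv' : Inv U (K + 2 * R * w) F := by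
      intro s hs
      refine (i2 s hs).trans ?_
      nlinarith
    obtain ⟨ω, j1, j2⟩ := proc_step k dlo U p hp0 hp1 ev hD havg hdU F (K + 2 * R * w) A hA
      hinv' S
    obtain ⟨D, d1, d2, d3⟩ := hD ω j1
    refine ⟨F ++ ev ω, fun B => S B + co (ind (ev ω)) B - ∑ ω', p ω' * co (ind (ev ω')) B,
      O + ex (fun x => ind F x * ind (ev ω) x), ?_, ?_, ?_, ?_, ?_, ?_⟩
    · rw [List.length_append]
      have := hlen ω
      nlinarith
    · have h1 := proc_inv hm d1 d2 d3 hU i2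
      intro s hs
      refine (h1 s hs).trans (le_of_eq ?_)
      rw [← hw]
      push_cast
      ring
    · intro x
      refine (i3 x).trans ?_
      rw [ind_append]
      nlinarith [ind_nonneg (ev ω) x, ind_le_one F x,
        mul_nonneg (ind_nonneg (ev ω) x) (sub_nonneg.2 (ind_le_one F x))]
    · have h1 : ex (fun x => ind (F ++ ev ω) x - ind F₀ x) ≤
          ex (fun x => (ind F x - ind F₀ x) + ind (ev ω) x) := by
        refine ex_mono fun x => ?_
        rw [ind_append]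
        nlinarith [mul_nonneg (ind_nonneg F x) (ind_nonneg (ev ω) x)]
      rw [ex_add] at h1
      have h2 : ex (fun x => ind (ev ω) x) ≤ w := proc_ex_ind_le d1 d3
      push_cast
      linarith
    · intro B hB
      have h1 := i5 B hB
      have e1 : co (ind (F ++ ev ω)) B = co (ind F) B + co (ind (ev ω)) B -
          co (fun x => ind F x * ind (ev ω) x) B := by
        have e2 : ind (F ++ ev ω) = fun x => (ind F x + ind (ev ω) x) -
            ind F x * ind (ev ω) x := by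
          funext x
          rw [ind_append]
        rw [e2, co_sub, co_add]
      have h2 : |co (fun x => ind F x * ind (ev ω) x) B| ≤
          ex (fun x => ind F x * ind (ev ω) x) := by
        apply abs_co_le
        intro x
        rw [abs_of_nonneg (mul_nonneg (ind_nonneg F x) (ind_nonneg (ev ω) x))]
      have e3 : co (ind (F ++ ev ω)) B - co (ind F₀) B -
          ((r + 1 : ℕ) : ℝ) * (∑ ω, p ω * co (ind (ev ω)) B) -
          (S B + co (ind (ev ω)) B - ∑ ω', p ω' * co (ind (ev ω')) B) =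
          (co (ind F) B - co (ind F₀) B - r * (∑ ω, p ω * co (ind (ev ω)) B) - S B) -
          co (fun x => ind F x * ind (ev ω) x) B := by
        rw [e1]
        push_cast
        ring
      rw [e3]
      refine (abs_sub _ _).trans ?_
      linarith
    · push_cast
      linarith

theorem proc {m : ℕ} (hm : 2 ≤ m) (k R dlo U ℓ : ℕ) (K : ℝ) (hk : 1 ≤ k)
    {Ω : Type} [Fintype Ω] (p : Ω → ℝ) (hp0 : ∀ ω, 0 ≤ p ω) (hp1 : ∑ ω, p ω = 1)
    (ev : Ω → List (Finset (Fin m))) (hlen : ∀ ω, (ev ω).length ≤ ℓ)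
    (hD : ∀ ω, p ω ≠ 0 → ∃ D : Finset (Fin m), dlo ≤ D.card ∧ D.card ≤ U ∧ ∀ T ∈ ev ω, D ⊆ T)
    (havg : ∀ x : Finset (Fin m), ∑ ω, p ω * ind (ev ω) x ≤ ((x.card : ℝ) / m) ^ dlo)
    (hdU : dlo ≤ U) (hU : 3 * U ^ 2 ≤ m) (F₀ : List (Finset (Fin m)))
    (hinv : Inv U K F₀) (hK : Real.sqrt R * (K + 2 * R * (1 / 2) ^ dlo) ≤ 1) :
    ∃ F : List (Finset (Fin m)), F.length ≤ F₀.length + R * ℓ ∧
      Inv U (K + 2 * R * (1 / 2) ^ dlo) F ∧
      (∀ x, ind F₀ x ≤ ind F x) ∧ ex (fun x => ind F x - ind F₀ x) ≤ R * (1 / 2) ^ dlo ∧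
      ∀ B : Finset (Fin m), B.card < k →
        |co (ind F) B - co (ind F₀) B - R * ∑ ω, p ω * co (ind (ev ω)) B| ≤
          4 * Real.sqrt R * (1 / 2) ^ dlo * (m : ℝ) ^ k := by
  rcases Nat.eq_zero_or_pos R with hR | hR
  · subst hR
    refine ⟨F₀, ?_, ?_, ?_, ?_, ?_⟩
    · simp
    · simpa using hinv
    · intro x; exact le_rfl
    · simp [ex]
    · intro B _
      simp
  set w : ℝ := (1 / 2 : ℝ) ^ dlo with hw
  have hw0 : 0 < w := by rw [hw]; positivity
  set q : ℝ := Real.sqrt R with hq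
  have hR0 : (0 : ℝ) < R := by exact_mod_cast hR
  have hq0 : 0 < q := Real.sqrt_pos.2 hR0
  have hqq : q * q = R := Real.mul_self_sqrt hR0.le
  set calB := (univ : Finset (Finset (Fin m))).filter (fun B => B.card < k) with hcalB
  set b : ℝ := (calB.card : ℝ) with hb
  have hb1 : 1 ≤ b := by
    have : 1 ≤ calB.card := card_pos.2 ⟨∅, by rw [hcalB, mem_filter]; simp; omega⟩
    rw [hb]; exact_mod_cast this
  have hbm : b ≤ (m : ℝ) ^ k := by
    rw [hb, hcalB]; exact_mod_cast proc_card_le hm k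
  have hA : 0 ≤ 1 / (q * w) := by positivity
  obtain ⟨F, S, O, i1, i2, i3, i4, i5, i6⟩ := proc_loop hm k R dlo U ℓ K p hp0 hp1 ev hlen hD
    havg hdU hU F₀ hinv (1 / (q * w)) hA R le_rfl
  refine ⟨F, i1, i2, i3, i4, fun B hB => ?_⟩
  rw [← hcalB, ← hw, ← hb] at i6
  have hSB : (S B) ^ 2 ≤ ∑ B ∈ calB, (S B) ^ 2 := by
    refine single_le_sum (f := fun B => (S B) ^ 2) (fun B _ => sq_nonneg _) ?_
    rw [hcalB, mem_filter]
    exact ⟨mem_univ _, hB⟩
  have hO : 0 ≤ O := (abs_nonneg _).trans (i5 B hB)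
  have t1 : (R : ℝ) * (1 / (q * w) * b * w ^ 2 + w * (K + 2 * R * w)) =
      q * w * (b + q * (K + 2 * R * w)) := by
    rw [← hqq]
    field_simp
  have t2 : q * w * (b + q * (K + 2 * R * w)) ≤ 2 * q * w * b := by
    have : q * w * (b + q * (K + 2 * R * w)) ≤ q * w * (b + b) :=
      mul_le_mul_of_nonneg_left (by linarith) (by positivity)
    linarith
  set T : ℝ := 2 * q * w * b with hT
  have hT0 : 0 < T := by rw [hT]; positivity
  have t3 : 1 / (q * w) * (∑ B ∈ calB, (S B) ^ 2) + O ≤ T := by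
    rw [t1] at i6
    linarith
  have hsum0 : 0 ≤ 1 / (q * w) * (∑ B ∈ calB, (S B) ^ 2) :=
    mul_nonneg hA (sum_nonneg fun _ _ => sq_nonneg _)
  have hOT : O ≤ T := by linarith
  have t4 : ∑ B ∈ calB, (S B) ^ 2 ≤ T * (q * w) := by
    have : 1 / (q * w) * (∑ B ∈ calB, (S B) ^ 2) ≤ T := by linarith
    rw [one_div, inv_mul_le_iff₀ (by positivity)] at this
    linarith
  have t5 : q * w ≤ T := by
    rw [hT]
    nlinarith [mul_pos hq0 hw0]
  have t6 : (S B) ^ 2 ≤ T ^ 2 := by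
    refine (hSB.trans t4).trans ?_
    rw [sq]
    exact mul_le_mul_of_nonneg_left t5 hT0.le
  have t7 : |S B| ≤ T := abs_le_of_sq_le_sq t6 hT0.le
  have t8 := i5 B hB
  have t9 : |co (ind F) B - co (ind F₀) B - R * ∑ ω, p ω * co (ind (ev ω)) B| ≤ O + |S B| := by
    have e1 : co (ind F) B - co (ind F₀) B - R * ∑ ω, p ω * co (ind (ev ω)) B =
        (co (ind F) B - co (ind F₀) B - R * (∑ ω, p ω * co (ind (ev ω)) B) - S B) + S B := by
      ring
    rw [e1]
    refine (abs_add_le _ _).trans ?_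
    linarith
  have t10 : 2 * T ≤ 4 * q * w * (m : ℝ) ^ k := by
    rw [hT]
    have : 4 * q * w * b ≤ 4 * q * w * (m : ℝ) ^ k :=
      mul_le_mul_of_nonneg_left hbm (by positivity)
    linarith
  linarith

end Pool.Agent.H.MP_cba12a_lc.SQ
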