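import Pool.Agent.H.MP_cba12a_lc.SQ.Radial
import Pool.Agent.H.MP_cba12a_lc.SQ.Proc

namespace Pool.Agent.H.MP_cba12a_lc.SQ

open Finset Filter Topology

theorem blockstep_le {m U : ℕ} (hU : 3 * U ^ 2 ≤ m) : U ≤ m := by
  nlinarith [Nat.le_self_pow (two_ne_zero) U]

/-- the procedure when the average of the events is radial -/
theorem blockstep_aux {m : ℕ} (hm : 2 ≤ m) (k R d U ℓ : ℕ) (K : ℝ) (hk : 1 ≤ k)
    {Ω : Type} [Fintype Ω] (p : Ω → ℝ) (hp0 : ∀ ω, 0 ≤ p ω) (hp1 : ∑ ω, p ω = 1)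
    (ev : Ω → List (Finset (Fin m))) (hlen : ∀ ω, (ev ω).length ≤ ℓ)
    (hD : ∀ ω, ∃ D : Finset (Fin m), d ≤ D.card ∧ D.card ≤ U ∧ ∀ T ∈ ev ω, D ⊆ T)
    (Φ : ℕ → ℝ) (hΦ : ∀ x : Finset (Fin m), ∑ ω, p ω * ind (ev ω) x = Φ x.card)
    (hΦle : ∀ x : Finset (Fin m), Φ x.card ≤ ((x.card : ℝ) / m) ^ d)
    (hdU : d ≤ U) (hU : 3 * U ^ 2 ≤ m) (F₀ : List (Finset (Fin m)))
    (hinv : Inv U K F₀) (hK : Real.sqrt R * (K + 2 * R * (1 / 2) ^ d) ≤ 1) :
    ∃ F : List (Finset (Fin m)), F.length ≤ F₀.length + R * ℓ ∧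
      Inv U (K + 2 * R * (1 / 2) ^ d) F ∧
      (∀ x, ind F₀ x ≤ ind F x) ∧ ex (fun x => ind F x - ind F₀ x) ≤ R * (1 / 2) ^ d ∧
      ∀ B : Finset (Fin m), B.card < k →
        |co (ind F) B - co (ind F₀) B - R * crad m B.card Φ| ≤
          4 * Real.sqrt R * (1 / 2) ^ d * (m : ℝ) ^ k := by
  obtain ⟨F, h1, h2, h3, h4, h5⟩ := proc hm k R d U ℓ K hk p hp0 hp1 ev hlen
    (fun ω _ => hD ω) (fun x => by rw [hΦ x]; exact hΦle x) hdU hU F₀ hinv hK
  refine ⟨F, h1, h2, h3, h4, fun B hB => ?_⟩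
  have h6 := h5 B hB
  have h7 : ∑ ω, p ω * co (ind (ev ω)) B = crad m B.card Φ := by
    rw [← co_radial Φ B]
    have h8 : (fun x : Finset (Fin m) => Φ x.card) = fun x => ∑ ω, p ω * ind (ev ω) x := by
      funext x
      rw [hΦ x]
    rw [h8, co_sum]
    refine sum_congr rfl fun ω _ => ?_
    rw [co_mul_left]
  rwa [h7] at h6

theorem blockstep_sum_cj {m d : ℕ} (x : Finset (Fin m)) :
    ∑ D : {D : Finset (Fin m) // D.card = d}, cj D.1 x = (x.card.choose d : ℝ) := by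
  have h1 : ∑ D ∈ powersetCard d (univ : Finset (Fin m)), cj D x =
      ∑ D : {D : Finset (Fin m) // D.card = d}, cj D.1 x :=
    Finset.sum_subtype _ (fun D => by simp [mem_powersetCard]) _
  rw [← h1]
  unfold cj
  rw [sum_ite, sum_const_zero, add_zero, sum_const, nsmul_eq_mul, mul_one]
  congr 1
  rw [← card_powersetCard d x]
  congr 1
  ext D
  simp only [mem_filter, mem_powersetCard, subset_univ, true_and]
  tauto

theorem blockstep_card {m d : ℕ} :
    Fintype.card {D : Finset (Fin m) // D.card = d} = m.choose d := by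
  rw [Fintype.card_subtype]
  have h := card_powersetCard d (univ : Finset (Fin m))
  rw [card_univ, Fintype.card_fin] at h
  rw [← h]
  congr 1
  ext D
  simp

/-- counting the tuples inside a set -/
theorem blockstep_sum_tuple {m e : ℕ} (x : Finset (Fin m)) :
    ∑ s : Fin e → Fin m, (1 - (if ∀ i, s i ∈ x then (1 : ℝ) else 0)) =
      (m : ℝ) ^ e - (x.card : ℝ) ^ e := by
  rw [sum_sub_distrib]
  congr 1
  · simp
  · rw [sum_ite, sum_const_zero, add_zero, sum_const, nsmul_eq_mul, mul_one]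
    have h1 : (univ.filter fun s : Fin e → Fin m => ∀ i, s i ∈ x) =
        Fintype.piFinset fun _ : Fin e => x := by
      ext s
      simp
    rw [h1, Fintype.card_piFinset]
    simp

theorem blockstep_sum_tuples {m e M : ℕ} (x : Finset (Fin m)) :
    ∑ S : Fin M → Fin e → Fin m, ∏ t, (1 - (if ∀ i, S t i ∈ x then (1 : ℝ) else 0)) =
      ((m : ℝ) ^ e - (x.card : ℝ) ^ e) ^ M := by
  have h := Finset.prod_univ_sum (fun _ : Fin M => (univ : Finset (Fin e → Fin m)))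
    (fun _ s => (1 - (if ∀ i, s i ∈ x then (1 : ℝ) else 0)))
  rw [Fintype.piFinset_univ] at h
  rw [← h]
  simp only [blockstep_sum_tuple, prod_const, card_univ, Fintype.card_fin]

/-- the event of a block -/
def blockstep_ev {m d e M : ℕ} (ω : {D : Finset (Fin m) // D.card = d} × (Fin M → Fin e → Fin m)) :
    List (Finset (Fin m)) := List.ofFn fun t : Fin M => ω.1.1 ∪ univ.image (ω.2 t)

theorem blockstep_ind {m d e M : ℕ}
    (ω : {D : Finset (Fin m) // D.card = d} × (Fin M → Fin e → Fin m)) (x : Finset (Fin m)) :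
    ind (blockstep_ev ω) x =
      cj ω.1.1 x * (1 - ∏ t, (1 - (if ∀ i, ω.2 t i ∈ x then (1 : ℝ) else 0))) := by
  have hT : ∀ t, (ω.1.1 ∪ univ.image (ω.2 t) ⊆ x) ↔ (ω.1.1 ⊆ x ∧ ∀ i, ω.2 t i ∈ x) := by
    intro t
    rw [union_subset_iff, image_subset_iff]
    simp
  unfold ind cj
  by_cases h1 : ω.1.1 ⊆ x
  · rw [if_pos h1, one_mul]
    by_cases h2 : ∃ t, ∀ i, ω.2 t i ∈ x
    · obtain ⟨t, ht⟩ := h2
      rw [if_pos, prod_eq_zero (mem_univ t), sub_zero]
      · rw [if_pos ht, sub_self]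
      · refine ⟨ω.1.1 ∪ univ.image (ω.2 t), ?_, (hT t).2 ⟨h1, ht⟩⟩
        unfold blockstep_ev
        rw [List.mem_ofFn]
        exact ⟨t, rfl⟩
    · rw [if_neg, prod_eq_one, sub_self]
      · intro t _
        rw [if_neg, sub_zero]
        exact fun h => h2 ⟨t, h⟩
      · rintro ⟨T, hTm, hTx⟩
        unfold blockstep_ev at hTm
        rw [List.mem_ofFn] at hTm
        obtain ⟨t, rfl⟩ := hTm
        exact h2 ⟨t, ((hT t).1 hTx).2⟩
  · rw [if_neg h1, zero_mul, if_neg]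
    rintro ⟨T, hTm, hTx⟩
    unfold blockstep_ev at hTm
    rw [List.mem_ofFn] at hTm
    obtain ⟨t, rfl⟩ := hTm
    exact h1 ((hT t).1 hTx).1

/-- the average of a block -/
theorem blockstep_avg {m : ℕ} (d e M : ℕ) (hm : 2 ≤ m) (x : Finset (Fin m)) :
    ∑ ω : {D : Finset (Fin m) // D.card = d} × (Fin M → Fin e → Fin m),
      (1 / ((m.choose d : ℝ) * ((m : ℝ) ^ e) ^ M)) * ind (blockstep_ev ω) x =
        blk m d e M x.card := by
  have hm0 : (m : ℝ) ≠ 0 := by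
    have : (0 : ℝ) < m := by exact_mod_cast (by omega : 0 < m)
    exact this.ne'
  rw [← mul_sum]
  have h1 : ∑ ω : {D : Finset (Fin m) // D.card = d} × (Fin M → Fin e → Fin m),
      ind (blockstep_ev ω) x = (x.card.choose d : ℝ) *
        (((m : ℝ) ^ e) ^ M - ((m : ℝ) ^ e - (x.card : ℝ) ^ e) ^ M) := by
    rw [Fintype.sum_prod_type]
    simp only [blockstep_ind]
    rw [← blockstep_sum_cj x, sum_mul]
    refine sum_congr rfl fun D _ => ?_
    rw [← mul_sum, sum_sub_distrib, blockstep_sum_tuples]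
    congr 2
    simp
  rw [h1]
  unfold blk ur
  have h2 : (1 : ℝ) - ((x.card : ℝ) / m) ^ e = ((m : ℝ) ^ e - (x.card : ℝ) ^ e) / (m : ℝ) ^ e := by
    rw [div_pow, sub_div, div_self (pow_ne_zero _ hm0)]
  rw [h2, div_pow]
  have h3 : ((m : ℝ) ^ e) ^ M ≠ 0 := by positivity
  by_cases h4 : (m.choose d : ℝ) = 0
  · rw [h4]; simp
  · field_simp

theorem block_step {m : ℕ} (k R d e M U : ℕ) (K : ℝ) (hk : 1 ≤ k) (hd : d ≤ U) (he : 0 < e)
    (hU : 3 * U ^ 2 ≤ m) (hm : 2 ≤ m)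
    (F₀ : List (Finset (Fin m))) (hinv : Inv U K F₀)
    (hK : Real.sqrt R * (K + 2 * R * (1 / 2) ^ d) ≤ 1) :
    ∃ F : List (Finset (Fin m)), F.length ≤ F₀.length + R * M ∧
      Inv U (K + 2 * R * (1 / 2) ^ d) F ∧
      (∀ x, ind F₀ x ≤ ind F x) ∧ ex (fun x => ind F x - ind F₀ x) ≤ R * (1 / 2) ^ d ∧
      ∀ B : Finset (Fin m), B.card < k →
        |co (ind F) B - co (ind F₀) B - R * crad m B.card (blk m d e M)| ≤
          4 * Real.sqrt R * (1 / 2) ^ d * (m : ℝ) ^ k := by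
  have hdm : d ≤ m := hd.trans (blockstep_le hU)
  have hC : (0 : ℝ) < m.choose d := by exact_mod_cast Nat.choose_pos hdm
  have hmp : (0 : ℝ) < m := by exact_mod_cast (by omega : 0 < m)
  have hxm : ∀ x : Finset (Fin m), x.card ≤ m := fun x => by
    simpa using card_le_univ x
  refine blockstep_aux hm k R d U M K hk
    (Ω := {D : Finset (Fin m) // D.card = d} × (Fin M → Fin e → Fin m))
    (fun _ => 1 / ((m.choose d : ℝ) * ((m : ℝ) ^ e) ^ M)) (fun _ => by positivity) ?_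
    blockstep_ev (fun ω => by simp [blockstep_ev]) (fun ω => ?_) (blk m d e M)
    (fun x => blockstep_avg d e M hm x) (fun x => ?_) hd hU F₀ hinv hK
  · rw [sum_const, card_univ, nsmul_eq_mul, Fintype.card_prod, blockstep_card]
    simp only [Fintype.card_pi, Fintype.card_fin, prod_const, card_univ, Nat.cast_mul,
      Nat.cast_pow]
    field_simp
  · refine ⟨ω.1.1, ω.1.2.ge, ω.1.2.le.trans hd, fun T hT => ?_⟩
    unfold blockstep_ev at hT
    rw [List.mem_ofFn] at hT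
    obtain ⟨t, rfl⟩ := hT
    exact subset_union_left
  · exact (blk_le_ur m d e M _ (hxm x)).trans (ur_le m d _ (hxm x))

theorem pure_step {m : ℕ} (k R d U : ℕ) (K : ℝ) (hk : 1 ≤ k) (hd : d ≤ U)
    (hU : 3 * U ^ 2 ≤ m) (hm : 2 ≤ m)
    (F₀ : List (Finset (Fin m))) (hinv : Inv U K F₀)
    (hK : Real.sqrt R * (K + 2 * R * (1 / 2) ^ d) ≤ 1) :
    ∃ F : List (Finset (Fin m)), F.length ≤ F₀.length + R ∧
      Inv U (K + 2 * R * (1 / 2) ^ d) F ∧
      (∀ x, ind F₀ x ≤ ind F x) ∧ ex (fun x => ind F x - ind F₀ x) ≤ R * (1 / 2) ^ d ∧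
      ∀ B : Finset (Fin m), B.card < k →
        |co (ind F) B - co (ind F₀) B - R * crad m B.card (ur m d)| ≤
          4 * Real.sqrt R * (1 / 2) ^ d * (m : ℝ) ^ k := by
  have hdm : d ≤ m := hd.trans (blockstep_le hU)
  have hC : (0 : ℝ) < m.choose d := by exact_mod_cast Nat.choose_pos hdm
  have hxm : ∀ x : Finset (Fin m), x.card ≤ m := fun x => by
    simpa using card_le_univ x
  have h := blockstep_aux hm k R d U 1 K hk
    (Ω := {D : Finset (Fin m) // D.card = d})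
    (fun _ => 1 / (m.choose d : ℝ)) (fun _ => by positivity) ?_
    (fun ω => [ω.1]) (fun ω => by simp) (fun ω => ?_) (ur m d)
    (fun x => ?_) (fun x => ur_le m d _ (hxm x)) hd hU F₀ hinv hK
  · simpa only [mul_one] using h
  · rw [sum_const, card_univ, nsmul_eq_mul, blockstep_card]
    field_simp
  · refine ⟨ω.1, ω.2.ge, ω.2.le.trans hd, fun T hT => ?_⟩
    rw [List.mem_singleton] at hT
    rw [hT]
  · simp only [ind_singleton]
    rw [← mul_sum, blockstep_sum_cj]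
    unfold ur
    ring

end Pool.Agent.H.MP_cba12a_lc.SQ
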