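import Pool.Agent.H.MP_cba12a_lc.SQ.Radial

namespace Pool.Agent.H.MP_cba12a_lc.SQ

open Finset Filter Topology

/-- number of `n`-subsets of `S` containing `B` -/
theorem gadg_count {m : ℕ} (S B : Finset (Fin m)) (hB : B ⊆ S) (n : ℕ) :
    ((powersetCard n S).filter (fun T => B ⊆ T)).card =
      if B.card ≤ n then (S.card - B.card).choose (n - B.card) else 0 := by
  split_ifs with h
  · rw [← card_sdiff_of_subset hB, ← card_powersetCard (n - B.card) (S \ B)]
    apply card_nbij' (fun T => T \ B) (fun T => T ∪ B)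
    · intro T hT
      simp only [coe_filter, mem_powersetCard, Set.mem_ofPred_eq] at hT
      simp only [mem_coe, mem_powersetCard]
      refine ⟨sdiff_subset_sdiff hT.1.1 (Subset.refl B), ?_⟩
      rw [card_sdiff_of_subset hT.2, hT.1.2]
    · intro T hT
      simp only [mem_coe, mem_powersetCard] at hT
      simp only [coe_filter, mem_powersetCard, Set.mem_ofPred_eq]
      have hd : Disjoint T B := disjoint_of_subset_left hT.1 sdiff_disjoint
      refine ⟨⟨union_subset (hT.1.trans sdiff_subset) hB, ?_⟩, subset_union_right⟩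
      rw [card_union_of_disjoint hd, hT.2]
      omega
    · intro T hT
      simp only [coe_filter, mem_powersetCard, Set.mem_ofPred_eq] at hT
      exact sdiff_union_of_subset hT.2
    · intro T hT
      simp only [mem_coe, mem_powersetCard] at hT
      have hd : Disjoint T B := disjoint_of_subset_left hT.1 sdiff_disjoint
      exact union_sdiff_cancel_right hd
  · rw [card_eq_zero, filter_eq_empty_iff]
    intro T hT hBT
    rw [mem_powersetCard] at hT
    have := card_le_card hBT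
    omega

/-- exchanging the sum over all sets and the sum over the levels -/
theorem gadg_swap {m : ℕ} (k u : ℕ) (c : ℕ → ℝ) (f : Finset (Fin m) → ℝ) :
    ∑ T : Finset (Fin m), (∑ l ∈ range k, (if T.card = u + l then c l else 0)) * f T =
      ∑ l ∈ range k, c l * ∑ T ∈ powersetCard (u + l) (univ : Finset (Fin m)), f T := by
  simp only [sum_mul]
  rw [sum_comm]
  apply sum_congr rfl
  intro l _
  rw [powersetCard_eq_filter, powerset_univ, sum_filter, mul_sum]
  apply sum_congr rfl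
  intro T _
  split_ifs
  · rfl
  · rw [zero_mul, mul_zero]

theorem gadg_sign {m : ℕ} (B₀ B : Finset (Fin m)) :
    ∑ C ∈ B₀.powerset, (if B ∩ B₀ ⊆ C then (-1 : ℝ) ^ (B₀ \ C).card else 0) =
      if B₀ ⊆ B then 1 else 0 := by
  rw [← sum_filter]
  have h1 : ∑ C ∈ B₀.powerset.filter (fun C => B ∩ B₀ ⊆ C), (-1 : ℝ) ^ (B₀ \ C).card =
      ∑ D ∈ (B₀ \ B).powerset, (-1 : ℝ) ^ D.card := by
    apply sum_nbij' (fun C => B₀ \ C) (fun D => B₀ \ D)
    · intro C hC
      rw [mem_filter, mem_powerset] at hC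
      rw [mem_powerset]
      intro a ha
      rw [Finset.mem_sdiff] at ha ⊢
      refine ⟨ha.1, fun hb => ha.2 (hC.2 (mem_inter.2 ⟨hb, ha.1⟩))⟩
    · intro D hD
      rw [mem_powerset] at hD
      rw [mem_filter, mem_powerset]
      refine ⟨sdiff_subset, ?_⟩
      intro a ha
      rw [mem_inter] at ha
      rw [Finset.mem_sdiff]
      exact ⟨ha.2, fun h => (Finset.mem_sdiff.1 (hD h)).2 ha.1⟩
    · intro C hC
      rw [mem_filter, mem_powerset] at hC
      exact Finset.sdiff_sdiff_eq_self hC.1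
    · intro D hD
      rw [mem_powerset] at hD
      exact Finset.sdiff_sdiff_eq_self (hD.trans sdiff_subset)
    · intro C _
      rfl
  rw [h1]
  have h2 := sum_powerset_neg_one_pow_card (x := B₀ \ B)
  have h3 : (∑ D ∈ (B₀ \ B).powerset, (-1 : ℝ) ^ D.card) =
      (((∑ D ∈ (B₀ \ B).powerset, (-1 : ℤ) ^ D.card) : ℤ) : ℝ) := by
    push_cast
    rfl
  rw [h3, h2]
  by_cases h : B₀ ⊆ B
  · rw [if_pos h, if_pos (sdiff_eq_empty_iff_subset.2 h)]
    norm_num
  · rw [if_neg h, if_neg fun h' => h (sdiff_eq_empty_iff_subset.1 h')]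
    norm_num

theorem gadg_pairs {m : ℕ} (B₀ : Finset (Fin m)) (g h : Finset (Fin m) → ℝ) :
    ∑ T : Finset (Fin m), g (T ∩ B₀) * h (T \ B₀) =
      (∑ C ∈ B₀.powerset, g C) * ∑ T ∈ (univ \ B₀).powerset, h T := by
  rw [sum_mul_sum, ← sum_product']
  apply sum_nbij' (fun T => (T ∩ B₀, T \ B₀)) (fun p => p.1 ∪ p.2)
  · intro T _
    rw [mem_product, mem_powerset, mem_powerset]
    exact ⟨inter_subset_right, sdiff_subset_sdiff (subset_univ T) (Subset.refl B₀)⟩
  · intro p _
    exact mem_univ _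
  · intro T _
    show T ∩ B₀ ∪ T \ B₀ = T
    rw [union_comm, sdiff_union_inter]
  · rintro ⟨C, T⟩ hp
    rw [mem_product, mem_powerset, mem_powerset] at hp
    have hT : ∀ a ∈ T, a ∉ B₀ := fun a ha => (Finset.mem_sdiff.1 (hp.2 ha)).2
    have hC : ∀ a ∈ C, a ∈ B₀ := fun a ha => hp.1 ha
    show ((C ∪ T) ∩ B₀, (C ∪ T) \ B₀) = (C, T)
    rw [Prod.mk.injEq]
    constructor
    · ext a
      rw [mem_inter, mem_union]
      constructor
      · rintro ⟨h1 | h1, h2⟩
        · exact h1
        · exact absurd h2 (hT a h1)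
      · intro h1
        exact ⟨Or.inl h1, hC a h1⟩
    · ext a
      rw [Finset.mem_sdiff, mem_union]
      constructor
      · rintro ⟨h1 | h1, h2⟩
        · exact absurd (hC a h1) h2
        · exact h1
      · intro h1
        exact ⟨Or.inr h1, hT a h1⟩
  · intro T _
    rfl

/-- the effect of the gadget at `B₀` on the coefficient at `B` -/
theorem gadg_sum {m : ℕ} (u : ℕ) (B₀ B : Finset (Fin m)) (hu : u + B₀.card ≤ m) :
    ∑ T, gadg u B₀ T * co (cj T) B =
      if B₀ ⊆ B then ((m - (B₀ ∪ B).card).choose (u - (B \ B₀).card) : ℝ) /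
        ((m - B₀.card).choose u : ℝ) * (if (B \ B₀).card ≤ u then 1 else 0) else 0 := by
  have _ := hu
  have hpt : ∀ T : Finset (Fin m), gadg u B₀ T * co (cj T) B =
      (fun C : Finset (Fin m) => if B ∩ B₀ ⊆ C then (-1 : ℝ) ^ (B₀ \ C).card else 0) (T ∩ B₀) *
      (fun T' : Finset (Fin m) => if T'.card = u ∧ B \ B₀ ⊆ T' then
        (1 : ℝ) / ((m - B₀.card).choose u : ℝ) else 0) (T \ B₀) := by
    intro T
    rw [gadg, co_cj]
    have h1 : B₀ \ (T ∩ B₀) = B₀ \ T := by
      ext a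
      rw [Finset.mem_sdiff, Finset.mem_sdiff, mem_inter]
      tauto
    have h2 : B ⊆ T ↔ (B ∩ B₀ ⊆ T ∩ B₀ ∧ B \ B₀ ⊆ T \ B₀) := by
      constructor
      · intro h
        exact ⟨inter_subset_inter h (Subset.refl B₀), sdiff_subset_sdiff h (Subset.refl B₀)⟩
      · rintro ⟨h, h'⟩ a ha
        by_cases hb : a ∈ B₀
        · exact (mem_inter.1 (h (mem_inter.2 ⟨ha, hb⟩))).1
        · exact (Finset.mem_sdiff.1 (h' (Finset.mem_sdiff.2 ⟨ha, hb⟩))).1
    simp only [h1]
    by_cases hc : (T \ B₀).card = u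
    · by_cases hB : B ⊆ T
      · rw [if_pos hc, if_pos hB, if_pos (h2.1 hB).1, if_pos ⟨hc, (h2.1 hB).2⟩]
        have h3 : (2 : ℝ) ^ T.card * (1 / 2) ^ T.card = 1 := by
          rw [← mul_pow]
          norm_num
        calc (-1 : ℝ) ^ (B₀ \ T).card * 2 ^ T.card / ((m - B₀.card).choose u : ℝ) * (1 / 2) ^ T.card
            = (-1 : ℝ) ^ (B₀ \ T).card * (2 ^ T.card * (1 / 2) ^ T.card) /
              ((m - B₀.card).choose u : ℝ) := by ring
          _ = _ := by rw [h3]; ring
      · rw [if_neg hB, mul_zero]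
        by_cases h4 : B ∩ B₀ ⊆ T ∩ B₀
        · rw [if_neg (c := ((T \ B₀).card = u ∧ B \ B₀ ⊆ T \ B₀)) (fun h => hB (h2.2 ⟨h4, h.2⟩)),
            mul_zero]
        · rw [if_neg h4, zero_mul]
    · rw [if_neg hc, zero_mul, if_neg (c := ((T \ B₀).card = u ∧ B \ B₀ ⊆ T \ B₀))
        (fun h => hc h.1), mul_zero]
  have hpairs := gadg_pairs B₀
    (fun C : Finset (Fin m) => if B ∩ B₀ ⊆ C then (-1 : ℝ) ^ (B₀ \ C).card else 0)
    (fun T' : Finset (Fin m) => if T'.card = u ∧ B \ B₀ ⊆ T' then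
        (1 : ℝ) / ((m - B₀.card).choose u : ℝ) else 0)
  rw [sum_congr rfl fun T _ => hpt T, hpairs]
  beta_reduce
  rw [gadg_sign]
  by_cases h : B₀ ⊆ B
  · rw [if_pos h, if_pos h, one_mul]
    have h5 : ∑ T ∈ (univ \ B₀).powerset, (if T.card = u ∧ B \ B₀ ⊆ T then
        (1 : ℝ) / ((m - B₀.card).choose u : ℝ) else 0) =
        (((powersetCard u (univ \ B₀)).filter (fun T => B \ B₀ ⊆ T)).card : ℝ) *
          (1 / ((m - B₀.card).choose u : ℝ)) := by
      rw [← sum_filter, sum_const, nsmul_eq_mul, powersetCard_eq_filter, filter_filter]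
    rw [h5, gadg_count (univ \ B₀) (B \ B₀) (sdiff_subset_sdiff (subset_univ B) (Subset.refl B₀))]
    have h6 : (univ \ B₀).card - (B \ B₀).card = m - (B₀ ∪ B).card := by
      have h7 : (B₀ ∪ B).card = B₀.card + (B \ B₀).card := by
        rw [← union_sdiff_self_eq_union, card_union_of_disjoint disjoint_sdiff]
      rw [card_sdiff_of_subset (subset_univ B₀), card_univ, Fintype.card_fin, h7]
      omega
    rw [h6]
    split_ifs
    · ring
    · simp
  · rw [if_neg h, if_neg h, zero_mul]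

/-- the planned average effect of the uniform part -/
theorem plan_sum {m : ℕ} (k u : ℕ) (hku : k ≤ u) (hm : u + k ≤ m) (hk : 1 ≤ k)
    (B : Finset (Fin m)) (hB : B.card < k) :
    ∑ T : Finset (Fin m), (∑ l ∈ range k, (if T.card = u + l then
      1 / (2 * k) / (m.choose (u + l) : ℝ) else 0)) * co (cj T) B = plan m k u B.card := by
  have _ := hm
  have _ := hk
  rw [gadg_swap k u (fun l => 1 / (2 * k) / (m.choose (u + l) : ℝ)), plan]
  apply sum_congr rfl
  intro l _
  have h1 : ∑ T ∈ powersetCard (u + l) (univ : Finset (Fin m)), co (cj T) B =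
      (1 / 2) ^ (u + l) * ((m - B.card).choose (u + l - B.card) : ℝ) := by
    have h2 : ∀ T ∈ powersetCard (u + l) (univ : Finset (Fin m)), co (cj T) B =
        if B ⊆ T then (1 / 2 : ℝ) ^ (u + l) else 0 := by
      intro T hT
      rw [mem_powersetCard] at hT
      rw [co_cj, hT.2]
    rw [sum_congr rfl h2, ← sum_filter, sum_const, nsmul_eq_mul,
      gadg_count univ B (subset_univ B), if_pos (by omega), card_univ, Fintype.card_fin]
    ring
  rw [h1]
  ring

theorem plan_avg {m : ℕ} (k u : ℕ) (hm : u + k ≤ m) (hk : 1 ≤ k) (x : Finset (Fin m)) :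
    ∑ T : Finset (Fin m), (∑ l ∈ range k, (if T.card = u + l then
      1 / (2 * k) / (m.choose (u + l) : ℝ) else 0)) * cj T x ≤ 1 / 2 * ((x.card : ℝ) / m) ^ u := by
  rw [gadg_swap k u (fun l => 1 / (2 * k) / (m.choose (u + l) : ℝ))]
  have hkR : (0 : ℝ) < k := by exact_mod_cast hk
  have hmR : (0 : ℝ) < m := by exact_mod_cast (by omega : 0 < m)
  have hx : x.card ≤ m := by
    have := card_le_univ x
    rwa [Fintype.card_fin] at this
  have hr0 : (0 : ℝ) ≤ (x.card : ℝ) / m := by positivity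
  have hr1 : (x.card : ℝ) / m ≤ 1 := by
    rw [div_le_one hmR]
    exact_mod_cast hx
  have h1 : ∀ l ∈ range k, 1 / (2 * (k : ℝ)) / (m.choose (u + l) : ℝ) *
      ∑ T ∈ powersetCard (u + l) (univ : Finset (Fin m)), cj T x ≤
      1 / (2 * (k : ℝ)) * ((x.card : ℝ) / m) ^ u := by
    intro l _
    have h2 : ∑ T ∈ powersetCard (u + l) (univ : Finset (Fin m)), cj T x =
        (x.card.choose (u + l) : ℝ) := by
      simp only [cj]
      rw [← sum_filter, sum_const, nsmul_eq_mul, mul_one, ← card_powersetCard (u + l) x]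
      congr 2
      ext T
      rw [mem_filter, mem_powersetCard, mem_powersetCard]
      constructor
      · rintro ⟨⟨_, h3⟩, h4⟩
        exact ⟨h4, h3⟩
      · rintro ⟨h3, h4⟩
        exact ⟨⟨subset_univ T, h4⟩, h3⟩
    have h3 : 1 / (2 * (k : ℝ)) / (m.choose (u + l) : ℝ) *
        ∑ T ∈ powersetCard (u + l) (univ : Finset (Fin m)), cj T x =
        1 / (2 * (k : ℝ)) * ur m (u + l) x.card := by
      rw [h2, ur]
      ring
    rw [h3]
    apply mul_le_mul_of_nonneg_left _ (by positivity)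
    calc ur m (u + l) x.card ≤ ((x.card : ℝ) / m) ^ (u + l) := ur_le m (u + l) x.card hx
      _ ≤ ((x.card : ℝ) / m) ^ u := pow_le_pow_of_le_one hr0 hr1 (by omega)
  calc _ ≤ ∑ l ∈ range k, 1 / (2 * (k : ℝ)) * ((x.card : ℝ) / m) ^ u := sum_le_sum h1
    _ = 1 / 2 * ((x.card : ℝ) / m) ^ u := by
        rw [sum_const, card_range, nsmul_eq_mul]
        field_simp

theorem plan_mass {m : ℕ} (k u : ℕ) (hm : u + k ≤ m) (hk : 1 ≤ k) :
    ∑ T : Finset (Fin m), (∑ l ∈ range k, (if T.card = u + l then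
      1 / (2 * k) / (m.choose (u + l) : ℝ) else 0)) = 1 / 2 := by
  have h0 := gadg_swap (m := m) k u (fun l => 1 / (2 * (k : ℝ)) / (m.choose (u + l) : ℝ))
    (fun _ => 1)
  simp only [mul_one] at h0
  rw [h0]
  have hkR : (0 : ℝ) < k := by exact_mod_cast hk
  have h1 : ∀ l ∈ range k, 1 / (2 * (k : ℝ)) / (m.choose (u + l) : ℝ) *
      ∑ _T ∈ powersetCard (u + l) (univ : Finset (Fin m)), (1 : ℝ) = 1 / (2 * (k : ℝ)) := by
    intro l hl
    rw [mem_range] at hl
    rw [sum_const, nsmul_eq_mul, mul_one, card_powersetCard, card_univ, Fintype.card_fin]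
    have h2 : (0 : ℝ) < (m.choose (u + l) : ℝ) := by
      exact_mod_cast Nat.choose_pos (by omega)
    field_simp
  rw [sum_congr rfl h1, sum_const, card_range, nsmul_eq_mul]
  field_simp

end Pool.Agent.H.MP_cba12a_lc.SQ
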