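import Pool.Agent.H.MP_cba12a_lc.SQ.Defs

namespace Pool.Agent.H.MP_cba12a_lc.SQ

open Finset Filter Topology

private theorem tailb_prod_range (n i : ℕ) (hi : i ≤ n) :
    ∏ j ∈ (range (n + 1)).erase i, |(i : ℝ) - j| = (i.factorial : ℝ) * ((n - i).factorial : ℝ) := by
  classical
  have h1 : ∏ j ∈ (range (n + 1)).erase i, |(i : ℝ) - j|
      = ∏ j ∈ range (n + 1), (if j = i then (1 : ℝ) else |(i : ℝ) - j|) := by
    have hmem : i ∈ range (n + 1) := by simp; omega
    rw [← Finset.mul_prod_erase (range (n + 1)) _ hmem]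
    simp only [if_true, one_mul]
    refine Finset.prod_congr rfl ?_
    intro j hj
    rw [if_neg (Finset.ne_of_mem_erase hj)]
  rw [h1]
  have h2 : n + 1 = (i + 1) + (n - i) := by omega
  rw [h2, Finset.prod_range_add, Finset.prod_range_succ]
  congr 1
  · rw [if_pos rfl, mul_one]
    rw [← Finset.prod_range_reflect, ← Finset.prod_range_add_one_eq_factorial]
    push_cast
    refine Finset.prod_congr rfl ?_
    intro j hj
    have hj' : j < i := Finset.mem_range.1 hj
    rw [if_neg (by omega)]
    have : ((i - 1 - j : ℕ) : ℝ) = (i : ℝ) - 1 - j := by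
      rw [Nat.cast_sub (by omega), Nat.cast_sub (by omega)]; simp
    rw [this, abs_of_nonneg]
    · ring
    · have : (0 : ℝ) ≤ j := Nat.cast_nonneg j
      linarith
  · rw [← Finset.prod_range_add_one_eq_factorial]
    push_cast
    refine Finset.prod_congr rfl ?_
    intro j hj
    rw [if_neg (by omega)]
    rw [abs_sub_comm, abs_of_nonneg]
    · ring
    · have : (0 : ℝ) ≤ j := Nat.cast_nonneg j
      linarith

/-- interpolation at `n + 1` equally spaced nodes -/
theorem interp_eq (n : ℕ) (hn : 1 ≤ n) (Q : Polynomial ℝ) (hQ : Q.natDegree ≤ n) (s x : ℝ)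
    (hs : 0 < s) (hx : 2 * s ≤ x) :
    ∃ ℓ : ℕ → ℝ, (∀ i ∈ range (n + 1), |ℓ i| ≤ (n.choose i : ℝ) * (Real.exp 1 * x / s) ^ n) ∧
      Q.eval x = ∑ i ∈ range (n + 1), Q.eval (s * (1 + i / n)) * ℓ i := by
  classical
  have hn0 : (0 : ℝ) < n := by exact_mod_cast hn
  set v : ℕ → ℝ := fun i => s * (1 + i / n) with hv
  have hinj : Set.InjOn v (range (n + 1) : Set ℕ) := by
    intro a _ b _ hab
    simp only [hv] at hab
    have h1 := mul_left_cancel₀ hs.ne' hab
    have h2 : (a : ℝ) / n = b / n := by linarith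
    have h3 : (a : ℝ) = b := by
      field_simp at h2
      exact h2
    exact_mod_cast h3
  have hdeg : Q.degree < ((range (n + 1)).card : WithBot ℕ) := by
    rw [Finset.card_range]
    refine lt_of_le_of_lt Polynomial.degree_le_natDegree ?_
    exact_mod_cast Nat.lt_succ_of_le hQ
  refine ⟨fun i => (Lagrange.basis (range (n + 1)) v i).eval x, ?_, ?_⟩
  · intro i hi
    have hi' : i ≤ n := by
      have := Finset.mem_range.1 hi
      omega
    show |(Lagrange.basis (range (n + 1)) v i).eval x| ≤ _
    rw [Lagrange.basis, Polynomial.eval_prod, Finset.abs_prod]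
    have hstep : ∀ j ∈ (range (n + 1)).erase i,
        |(Lagrange.basisDivisor (v i) (v j)).eval x| ≤ (x * n / s) * (|(i : ℝ) - j|)⁻¹ := by
      intro j hj
      have hji : j ≠ i := Finset.ne_of_mem_erase hj
      have hjn : j ≤ n := by
        have := Finset.mem_range.1 (Finset.mem_of_mem_erase hj)
        omega
      have hjn' : (j : ℝ) ≤ n := by exact_mod_cast hjn
      have hj0 : (0 : ℝ) ≤ j := Nat.cast_nonneg j
      simp only [Lagrange.basisDivisor, Polynomial.eval_mul, Polynomial.eval_C,
        Polynomial.eval_sub, Polynomial.eval_X]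
      rw [abs_mul, abs_inv]
      have e1 : v i - v j = s / n * ((i : ℝ) - j) := by
        simp only [hv]
        field_simp
        ring
      rw [e1, abs_mul, abs_of_pos (div_pos hs hn0), mul_inv]
      have hq0 : (0 : ℝ) ≤ (j : ℝ) / n := div_nonneg hj0 hn0.le
      have hq1 : (j : ℝ) / n ≤ 1 := (div_le_one hn0).2 hjn'
      have e2 : |x - v j| ≤ x := by
        simp only [hv]
        rw [abs_of_nonneg]
        · nlinarith
        · nlinarith
      have e3 : (s / n)⁻¹ * (|(i : ℝ) - j|)⁻¹ * |x - v j|
          ≤ (s / n)⁻¹ * (|(i : ℝ) - j|)⁻¹ * x :=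
        mul_le_mul_of_nonneg_left e2 (by positivity)
      refine e3.trans (le_of_eq ?_)
      rw [inv_div]
      ring
    refine (Finset.prod_le_prod (fun j _ => abs_nonneg _) hstep).trans ?_
    rw [Finset.prod_mul_distrib, Finset.prod_const, Finset.card_erase_of_mem hi,
      Finset.card_range, Finset.prod_inv_distrib, tailb_prod_range n i hi']
    have hchoose : (n.choose i : ℝ) = n.factorial / (i.factorial * (n - i).factorial) := by
      rw [Nat.cast_choose ℝ hi']
    rw [hchoose]
    simp only [Nat.add_sub_cancel]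
    have hx0 : 0 ≤ x := by linarith
    have hfac : (n : ℝ) ^ n / n.factorial ≤ Real.exp n :=
      Real.pow_div_factorial_le_exp n hn0.le n
    have hfn : (0 : ℝ) < n.factorial := by exact_mod_cast Nat.factorial_pos n
    have hfi : (0 : ℝ) < i.factorial := by exact_mod_cast Nat.factorial_pos i
    have hfni : (0 : ℝ) < (n - i).factorial := by exact_mod_cast Nat.factorial_pos (n - i)
    have hexp : Real.exp (n : ℝ) = Real.exp 1 ^ n := by
      rw [← Real.exp_nat_mul]; simp
    have hpow : (n : ℝ) ^ n ≤ n.factorial * Real.exp 1 ^ n := by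
      rw [← hexp]
      rw [div_le_iff₀ hfn] at hfac
      linarith
    have key : (x * n / s) ^ n ≤ n.factorial * (Real.exp 1 * x / s) ^ n := by
      have a1 : (x * n / s) ^ n = (x / s) ^ n * (n : ℝ) ^ n := by
        rw [← mul_pow]; congr 1; ring
      have a2 : (Real.exp 1 * x / s) ^ n = (x / s) ^ n * Real.exp 1 ^ n := by
        rw [← mul_pow]; congr 1; ring
      rw [a1, a2]
      have : (0 : ℝ) ≤ (x / s) ^ n := by positivity
      nlinarith
    rw [mul_inv]
    have hpos : 0 ≤ ((i.factorial : ℝ))⁻¹ * ((n - i).factorial : ℝ)⁻¹ := by positivity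
    calc (x * n / s) ^ n * (((i.factorial : ℝ))⁻¹ * ((n - i).factorial : ℝ)⁻¹)
        ≤ (n.factorial * (Real.exp 1 * x / s) ^ n)
          * (((i.factorial : ℝ))⁻¹ * ((n - i).factorial : ℝ)⁻¹) :=
          mul_le_mul_of_nonneg_right key hpos
      _ = n.factorial / (i.factorial * (n - i).factorial) * (Real.exp 1 * x / s) ^ n := by
          field_simp
  · have h := Lagrange.eq_interpolate (s := range (n + 1)) (v := v) (f := Q) hinj hdeg
    conv_lhs => rw [h]
    rw [Lagrange.interpolate_apply, Polynomial.eval_finsetSum]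
    refine Finset.sum_congr rfl ?_
    intro i _
    rw [Polynomial.eval_mul, Polynomial.eval_C]

theorem tail_bound (n : ℕ) (hn : 1 ≤ n) (Q : Polynomial ℝ) (hQ : Q.natDegree ≤ n) (C : ℝ)
    (hC : 0 ≤ C)
    (hψ : ∀ y, 25 / 2 * (n : ℝ) ≤ y → y ≤ 50 * n → 0 ≤ C - Real.exp (-y) * Q.eval y)
    (x : ℝ) (hx : 100 * (n : ℝ) ≤ x) :
    |Real.exp (-x) * Q.eval x| ≤ Real.exp (-x / 2) * (16 * Real.exp 1 * x / (100 * n)) ^ n *
      (C + 8 / (100 * n) * ∫ y in (25 / 2 * (n : ℝ))..(50 * n), (C - Real.exp (-y) * Q.eval y)) := by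
  have hn0 : (0 : ℝ) < n := by exact_mod_cast hn
  have hn1 : (1 : ℝ) ≤ n := by exact_mod_cast hn
  set ψ : ℝ → ℝ := fun y => C - Real.exp (-y) * Q.eval y with hψdef
  set a : ℝ := 25 / 2 * (n : ℝ) with ha
  set b : ℝ := 25 * (n : ℝ) with hb
  have hab : a ≤ b := by rw [ha, hb]; linarith
  have hx0 : 0 < x := by linarith
  set K : ℝ := Real.exp (-x / 2) * (8 * Real.exp 1 * x / (100 * n)) ^ n with hK
  have hK0 : 0 ≤ K := by positivity
  have hψc : Continuous ψ := by
    rw [hψdef]
    exact continuous_const.sub ((Real.continuous_exp.comp continuous_neg).mul Q.continuous)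
  -- pointwise estimate
  have hpt : ∀ s ∈ Set.Icc a b, |Real.exp (-x) * Q.eval x| ≤
      ∑ i ∈ range (n + 1), K * (n.choose i : ℝ) * (C + ψ (s * (1 + i / n))) := by
    intro s hs
    have hs0 : 0 < s := lt_of_lt_of_le (by rw [ha]; linarith) hs.1
    have hs2 : 2 * s ≤ x := by
      have := hs.2
      rw [hb] at this
      linarith
    obtain ⟨ℓ, hℓ, hsum⟩ := interp_eq n hn Q hQ s x hs0 hs2
    rw [hsum, Finset.mul_sum]
    refine (Finset.abs_sum_le_sum_abs _ _).trans (Finset.sum_le_sum ?_)
    intro i hi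
    have hi' : i ≤ n := by
      have := Finset.mem_range.1 hi
      omega
    have hi'' : (i : ℝ) ≤ n := by exact_mod_cast hi'
    have hi0 : (0 : ℝ) ≤ i := Nat.cast_nonneg i
    have hq0 : (0 : ℝ) ≤ (i : ℝ) / n := div_nonneg hi0 hn0.le
    have hq1 : (i : ℝ) / n ≤ 1 := (div_le_one hn0).2 hi''
    set y : ℝ := s * (1 + i / n) with hy
    have hya : a ≤ y := by
      have := hs.1
      rw [hy]; nlinarith
    have hyb : y ≤ 50 * n := by
      have := hs.2
      rw [hb] at this
      rw [hy]; nlinarith
    have hψy : 0 ≤ ψ y := hψ y hya hyb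
    have h1 : |Real.exp (-y) * Q.eval y| ≤ C + ψ y := by
      have : Real.exp (-y) * Q.eval y = C - ψ y := by simp only [hψdef]; ring
      rw [this, abs_le]
      constructor <;> linarith
    have h2 : Real.exp (-x) * (Q.eval y * ℓ i)
        = Real.exp (-(x - y)) * (Real.exp (-y) * Q.eval y) * ℓ i := by
      have : Real.exp (-x) = Real.exp (-(x - y)) * Real.exp (-y) := by
        rw [← Real.exp_add]; congr 1; ring
      rw [this]; ring
    rw [h2, abs_mul, abs_mul, abs_of_pos (Real.exp_pos _)]
    have h3 : Real.exp (-(x - y)) ≤ Real.exp (-x / 2) := by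
      apply Real.exp_le_exp.2
      linarith
    have h4 : |ℓ i| ≤ (n.choose i : ℝ) * (8 * Real.exp 1 * x / (100 * n)) ^ n := by
      refine (hℓ i hi).trans ?_
      apply mul_le_mul_of_nonneg_left _ (Nat.cast_nonneg _)
      apply pow_le_pow_left₀ (by positivity)
      rw [div_le_div_iff₀ hs0 (by positivity)]
      have hs1 := hs.1
      rw [ha] at hs1
      have he : 0 < Real.exp 1 * x := by positivity
      nlinarith
    have hCψ : 0 ≤ C + ψ y := by linarith
    calc Real.exp (-(x - y)) * |Real.exp (-y) * Q.eval y| * |ℓ i|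
        ≤ Real.exp (-x / 2) * (C + ψ y) *
          ((n.choose i : ℝ) * (8 * Real.exp 1 * x / (100 * n)) ^ n) := by
          apply mul_le_mul _ h4 (abs_nonneg _) (by positivity)
          exact mul_le_mul h3 h1 (abs_nonneg _) (by positivity)
      _ = K * (n.choose i : ℝ) * (C + ψ y) := by rw [hK]; ring
  -- integrate
  have hint := intervalIntegral.integral_mono_on (μ := MeasureTheory.volume) (a := a) (b := b)
    (f := fun _ : ℝ => |Real.exp (-x) * Q.eval x|)
    (g := fun s => ∑ i ∈ range (n + 1), K * (n.choose i : ℝ) * (C + ψ (s * (1 + i / n))))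
    hab (by simp)
    (by
      apply Continuous.intervalIntegrable
      refine continuous_finsetSum _ (fun i _ => ?_)
      exact continuous_const.mul (continuous_const.add (hψc.comp (continuous_id.mul continuous_const))))
    hpt
  rw [intervalIntegral.integral_const, smul_eq_mul] at hint
  rw [intervalIntegral.integral_finsetSum] at hint
  swap
  · intro i _
    apply Continuous.intervalIntegrable
    exact continuous_const.mul (continuous_const.add (hψc.comp (continuous_id.mul continuous_const)))
  set J : ℝ := ∫ y in (25 / 2 * (n : ℝ))..(50 * n), ψ y with hJ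
  have hterm : ∀ i ∈ range (n + 1),
      (∫ s in a..b, K * (n.choose i : ℝ) * (C + ψ (s * (1 + i / n))))
        ≤ K * (n.choose i : ℝ) * (C * (b - a) + J) := by
    intro i hi
    have hi' : i ≤ n := by
      have := Finset.mem_range.1 hi
      omega
    have hi'' : (i : ℝ) ≤ n := by exact_mod_cast hi'
    have hi0 : (0 : ℝ) ≤ i := Nat.cast_nonneg i
    have hq0 : (0 : ℝ) ≤ (i : ℝ) / n := div_nonneg hi0 hn0.le
    have hq1 : (i : ℝ) / n ≤ 1 := (div_le_one hn0).2 hi''
    rw [intervalIntegral.integral_const_mul]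
    apply mul_le_mul_of_nonneg_left _ (by positivity)
    rw [intervalIntegral.integral_add (by simp)
      (by
        apply Continuous.intervalIntegrable
        exact hψc.comp (continuous_id.mul continuous_const))]
    rw [intervalIntegral.integral_const, smul_eq_mul]
    have hc : (1 + (i : ℝ) / n) ≠ 0 := by positivity
    have hsub : (∫ s in a..b, ψ (s * (1 + i / n)))
        = (1 + (i : ℝ) / n)⁻¹ • ∫ y in (a * (1 + i / n))..(b * (1 + i / n)), ψ y :=
      intervalIntegral.integral_comp_mul_right ψ hc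
    rw [hsub, smul_eq_mul]
    have hmono : (∫ y in (a * (1 + i / n))..(b * (1 + i / n)), ψ y) ≤ J := by
      rw [hJ]
      apply intervalIntegral.integral_mono_interval
      · rw [← ha]; nlinarith [mul_nonneg (by rw [ha]; positivity : (0:ℝ) ≤ a) hq0]
      · exact mul_le_mul_of_nonneg_right hab (by positivity)
      · rw [hb]; nlinarith
      · rw [Filter.EventuallyLE, MeasureTheory.ae_restrict_iff' measurableSet_Ioc]
        refine Filter.Eventually.of_forall ?_
        intro y hy
        exact hψ y hy.1.le hy.2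
      · exact hψc.intervalIntegrable _ _
    have hnn : 0 ≤ ∫ y in (a * (1 + i / n))..(b * (1 + i / n)), ψ y := by
      apply intervalIntegral.integral_nonneg
      · exact mul_le_mul_of_nonneg_right hab (by positivity)
      · intro y hy
        apply hψ y
        · have h1 : a ≤ a * (1 + i / n) := by
            nlinarith [mul_nonneg (by rw [ha]; positivity : (0:ℝ) ≤ a) hq0]
          exact h1.trans hy.1
        · have h1 : b * (1 + i / n) ≤ 50 * n := by rw [hb]; nlinarith
          exact hy.2.trans h1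
    have hinv : (1 + (i : ℝ) / n)⁻¹ ≤ 1 := inv_le_one_of_one_le₀ (by linarith)
    have h5 : (1 + (i : ℝ) / n)⁻¹ * ∫ y in (a * (1 + i / n))..(b * (1 + i / n)), ψ y ≤ J := by
      calc (1 + (i : ℝ) / n)⁻¹ * ∫ y in (a * (1 + i / n))..(b * (1 + i / n)), ψ y
          ≤ 1 * ∫ y in (a * (1 + i / n))..(b * (1 + i / n)), ψ y :=
            mul_le_mul_of_nonneg_right hinv hnn
        _ ≤ J := by rw [one_mul]; exact hmono
    linarith
  have hsum := hint.trans (Finset.sum_le_sum hterm)
  rw [← Finset.sum_mul, ← Finset.mul_sum] at hsum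
  have hch : (∑ i ∈ range (n + 1), (n.choose i : ℝ)) = 2 ^ n := by
    have := Nat.sum_range_choose n
    exact_mod_cast this
  rw [hch] at hsum
  have hba : b - a = 25 / 2 * n := by rw [ha, hb]; ring
  rw [hba] at hsum
  have hpos : (0 : ℝ) < 25 / 2 * n := by positivity
  have hfin : |Real.exp (-x) * Q.eval x| ≤ K * 2 ^ n * (C + 8 / (100 * n) * J) := by
    have h6 : K * 2 ^ n * (C * (25 / 2 * n) + J)
        = 25 / 2 * n * (K * 2 ^ n * (C + 8 / (100 * n) * J)) := by
      field_simp
      ring
    rw [h6] at hsum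
    exact le_of_mul_le_mul_left hsum hpos
  refine hfin.trans (le_of_eq ?_)
  have h7 : K * 2 ^ n = Real.exp (-x / 2) * (16 * Real.exp 1 * x / (100 * n)) ^ n := by
    rw [hK, mul_assoc, ← mul_pow]
    congr 2
    ring
  rw [h7]

end Pool.Agent.H.MP_cba12a_lc.SQ
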