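import Pool.Agent.H.MP_cba12a_lc.SQ.Basic

/-!
# Further definitions
-/

namespace Pool.Agent.H.MP_cba12a_lc.SQ

open Finset

/-- forward difference of a sequence -/
def fd (f : ℕ → ℝ) : ℕ → ℝ := fun n => f (n + 1) - f n

/-- the coefficient of level `j` of the radial function `Φ (card x)` on the cube of dimension `m` -/
noncomputable def crad (m j : ℕ) (Φ : ℕ → ℝ) : ℝ :=
  (∑ i ∈ range (m - j + 1), ((m - j).choose i : ℝ) * (fd^[j] Φ) i) / 2 ^ m

/-- the probability that a random `d`-subset of `m` points lies in a given set of size `n` -/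
noncomputable def ur (m d n : ℕ) : ℝ := (n.choose d : ℝ) / (m.choose d : ℝ)

/-- the average of a random block: a random `d`-subset and one of `M` random `e`-tuples -/
noncomputable def blk (m d e M n : ℕ) : ℝ := ur m d n * (1 - (1 - ((n : ℝ) / m) ^ e) ^ M)

/-- the polynomials of the derivatives of `exp (a s) * exp (- lam * exp (b s))` -/
noncomputable def PP (a b : ℝ) : ℕ → Polynomial ℝ
  | 0 => 1
  | (j + 1) => Polynomial.C a * PP a b j + Polynomial.C b * (Polynomial.X * (PP a b j).derivative)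
      - Polynomial.C b * (Polynomial.X * PP a b j)

/-- the average coefficient of level `j` planned for a correction stage of width `u` -/
noncomputable def plan (m k u j : ℕ) : ℝ :=
  ∑ l ∈ range k, 1 / (2 * k) * (1 / 2) ^ (u + l) *
    (((m - j).choose (u + l - j) : ℝ) / (m.choose (u + l) : ℝ))

/-- the value that the coefficient at `B` should have, given those of levels zero and one -/
noncomputable def Qf {m : ℕ} (F : List (Finset (Fin m))) (B : Finset (Fin m)) : ℝ :=
  -(1 - co (ind F) ∅) * ∏ a ∈ B, (-co (ind F) {a} / (1 - co (ind F) ∅))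

/-- the moment condition: all tilted averages of `F` up to order `U` are at most `K` -/
def Inv {m : ℕ} (U : ℕ) (K : ℝ) (F : List (Finset (Fin m))) : Prop :=
  ∀ s ≤ U, ex (fun x => (2 * (x.card : ℝ) / m) ^ s * ind F x) ≤ K

/-- normalised coefficients of a block -/
noncomputable def nvb (υ : ℕ) (lam : ℝ) (L j : ℕ) : ℝ := (2 : ℝ) ^ (2 * L) * ((L : ℝ) ^ 3) ^ j *
      crad (L ^ 4) j (blk (L ^ 4) (2 * L) (υ * L) ⌊lam * 2 ^ (υ * L)⌋₊)

/-- normalised coefficients of a random conjunction -/
noncomputable def nvp (L j : ℕ) : ℝ := (2 : ℝ) ^ (2 * L) * ((L : ℝ) ^ 3) ^ j *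
      crad (L ^ 4) j (ur (L ^ 4) (2 * L))

/-- difference quotient -/
noncomputable def Dh (h : ℂ) (f : ℂ → ℂ) : ℂ → ℂ := fun z => (f (z + h) - f z) / h

/-- complex form of the response of a random conjunction -/
noncomputable def AL (L : ℕ) (z : ℂ) : ℂ :=
  ∏ i ∈ range (2 * L), ((1 + z / L - 2 * i / (L : ℂ) ^ 4) / (1 - i / (L : ℂ) ^ 4))

/-- complex form of the probability that all random tuples fail -/
noncomputable def BL (υ : ℕ) (lam : ℝ) (L : ℕ) (z : ℂ) : ℂ :=
  (1 - ((1 + z / L) / 2) ^ (υ * L)) ^ ⌊lam * 2 ^ (υ * L)⌋₊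

/-- signs -/
def sg (b : Bool) : ℝ := if b then 1 else -1

/-- product weights on a column -/
noncomputable def wt {m : ℕ} (β : Fin m → ℝ) (y : Fin m → Bool) : ℝ :=
  ∏ a, (1 + β a * sg (y a)) / 2

/-- product weights on an array -/
noncomputable def WT {m N : ℕ} (β : Fin m → ℝ) (x : Fin m → Fin N → Bool) : ℝ :=
  ∏ a, ∏ c, (1 + β a * sg (x a c)) / 2

/-- the column `c` of the array `x` after permuting the rows -/
def col {m N : ℕ} (π : Fin m → Equiv.Perm (Fin N)) (c : Fin N) (x : Fin m → Fin N → Bool) :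
    Fin m → Bool := fun a => x a (π a c)

/-- product of `r` over the columns in `A` -/
noncomputable def rA {m N : ℕ} (r : (Fin m → Bool) → ℝ) (π : Fin m → Equiv.Perm (Fin N))
    (A : Finset (Fin N)) (x : Fin m → Fin N → Bool) : ℝ := ∏ c ∈ A, r (col π c x)

/-- the sum bounding the kernel -/
noncomputable def Ssum (m N κ : ℕ) (ρ : ℝ) : ℝ :=
  ∑ a ∈ Icc 1 N, (N.choose a : ℝ) * ρ ^ a * (min 1 ((m : ℝ) * a / N)) ^ (κ * a)

/-- the set of ones of a point -/
def ones {m : ℕ} (y : Fin m → Bool) : Finset (Fin m) := univ.filter fun a => y a = true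

/-- signed weights of the inclusion-exclusion gadget at `B₀` -/
noncomputable def gadg {m : ℕ} (u : ℕ) (B₀ T : Finset (Fin m)) : ℝ :=
  if (T \ B₀).card = u then
    (-1) ^ (B₀ \ T).card * 2 ^ T.card / ((m - B₀.card).choose u : ℝ)
  else 0

end Pool.Agent.H.MP_cba12a_lc.SQ
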