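import Pool.Agent.H.MP_cba12a_lc.SQ.Defs

namespace Pool.Agent.H.MP_cba12a_lc.SQ

open Finset Filter Topology

theorem qflip_prod_le {α : Type*} [DecidableEq α] (t : α → ℝ) (r : ℝ) (B : Finset α)
    (h : ∀ a ∈ B, |t a| ≤ r) : |∏ a ∈ B, t a| ≤ r ^ B.card := by
  rw [abs_prod]
  calc ∏ a ∈ B, |t a| ≤ ∏ _a ∈ B, r := prod_le_prod (fun a _ => abs_nonneg _) h
    _ = r ^ B.card := by rw [prod_const]

theorem qflip_diff {α : Type*} [DecidableEq α] (t t' : α → ℝ) (e : ℝ) (he : 0 ≤ e)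
    (B : Finset α) (h : ∀ a ∈ B, |t a| ≤ 1) (h' : ∀ a ∈ B, |t' a| ≤ 1)
    (hd : ∀ a ∈ B, |t a - t' a| ≤ e) : |∏ a ∈ B, t a - ∏ a ∈ B, t' a| ≤ B.card * e := by
  induction B using Finset.induction_on with
  | empty => simp
  | insert a s ha ih =>
    rw [prod_insert ha, prod_insert ha, card_insert_of_notMem ha]
    have h1 := ih (fun b hb => h b (mem_insert_of_mem hb)) (fun b hb => h' b (mem_insert_of_mem hb))
      (fun b hb => hd b (mem_insert_of_mem hb))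
    have h2 : |∏ b ∈ s, t b| ≤ 1 := by
      have := qflip_prod_le t 1 s (fun b hb => h b (mem_insert_of_mem hb))
      simpa using this
    have h3 : t a * ∏ b ∈ s, t b - t' a * ∏ b ∈ s, t' b
        = (t a - t' a) * ∏ b ∈ s, t b + t' a * (∏ b ∈ s, t b - ∏ b ∈ s, t' b) := by ring
    rw [h3]
    have h4 := h' a (mem_insert_self a s)
    have h5 := hd a (mem_insert_self a s)
    calc |(t a - t' a) * ∏ b ∈ s, t b + t' a * (∏ b ∈ s, t b - ∏ b ∈ s, t' b)|
        ≤ |t a - t' a| * |∏ b ∈ s, t b| + |t' a| * |∏ b ∈ s, t b - ∏ b ∈ s, t' b| := by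
          rw [← abs_mul, ← abs_mul]; exact abs_add_le _ _
      _ ≤ e * 1 + 1 * (s.card * e) := by
          gcongr
      _ = ((s.card + 1 : ℕ) : ℝ) * e := by push_cast; ring

theorem qflip_diff2 {α : Type*} [DecidableEq α] (t t' : α → ℝ) (e r : ℝ) (he : 0 ≤ e)
    (hr0 : 0 ≤ r) (hr : r ≤ 1)
    (B : Finset α) (hB : 2 ≤ B.card) (h : ∀ a ∈ B, |t a| ≤ r) (h' : ∀ a ∈ B, |t' a| ≤ r)
    (hd : ∀ a ∈ B, |t a - t' a| ≤ e) :
    |∏ a ∈ B, t a - ∏ a ∈ B, t' a| ≤ B.card * (e * r) := by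
  obtain ⟨a, ha⟩ : B.Nonempty := card_pos.1 (by omega)
  obtain ⟨s, hs, rfl⟩ : ∃ s, a ∉ s ∧ insert a s = B := ⟨B.erase a, by simp, insert_erase ha⟩
  rw [card_insert_of_notMem hs] at hB ⊢
  rw [prod_insert hs, prod_insert hs]
  have h1 := qflip_diff t t' e he s
    (fun b hb => (h b (mem_insert_of_mem hb)).trans hr)
    (fun b hb => (h' b (mem_insert_of_mem hb)).trans hr)
    (fun b hb => hd b (mem_insert_of_mem hb))
  have h2 : |∏ b ∈ s, t b| ≤ r := by
    have := qflip_prod_le t r s (fun b hb => h b (mem_insert_of_mem hb))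
    refine this.trans ?_
    calc r ^ s.card ≤ r ^ 1 := pow_le_pow_of_le_one hr0 hr (by omega)
      _ = r := pow_one r
  have h3 : t a * ∏ b ∈ s, t b - t' a * ∏ b ∈ s, t' b
      = (t a - t' a) * ∏ b ∈ s, t b + t' a * (∏ b ∈ s, t b - ∏ b ∈ s, t' b) := by ring
  rw [h3]
  have h4 := h' a (mem_insert_self a s)
  have h5 := hd a (mem_insert_self a s)
  calc |(t a - t' a) * ∏ b ∈ s, t b + t' a * (∏ b ∈ s, t b - ∏ b ∈ s, t' b)|
      ≤ |t a - t' a| * |∏ b ∈ s, t b| + |t' a| * |∏ b ∈ s, t b - ∏ b ∈ s, t' b| := by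
        rw [← abs_mul, ← abs_mul]; exact abs_add_le _ _
    _ ≤ e * r + r * (s.card * e) := by
        gcongr
    _ = ((s.card + 1 : ℕ) : ℝ) * (e * r) := by push_cast; ring

/-- the quotient that enters the product -/
theorem qflip_t {m : ℕ} (F : List (Finset (Fin m))) (z : ℝ) (hz : z ≤ 1 / 2)
    (hF : ex (ind F) ≤ z) (a : Fin m) : |-co (ind F) {a} / (1 - co (ind F) ∅)| ≤ 2 * z := by
  have h0 : 0 ≤ ex (ind F) := ex_nonneg (ind_nonneg F)
  have h1 : |co (ind F) {a}| ≤ ex (ind F) :=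
    abs_co_le (fun x => by rw [abs_of_nonneg (ind_nonneg F x)]) {a}
  rw [co_empty, abs_div, abs_neg, abs_of_pos (by linarith : (0 : ℝ) < 1 - ex (ind F)),
    div_le_iff₀ (by linarith)]
  nlinarith

/-- the target value depends little on the coefficients of levels zero and one -/
theorem Qf_lip {m : ℕ} (k : ℕ) (F F' : List (Finset (Fin m))) (z Δ : ℝ) (hz : z ≤ 1 / 2)
    (hF : ex (ind F) ≤ z) (hF' : ex (ind F') ≤ z) (hle : ∀ x, ind F x ≤ ind F' x)
    (hΔ : ex (fun x => ind F' x - ind F x) ≤ Δ) (B : Finset (Fin m)) (hB : 2 ≤ B.card)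
    (hBk : B.card < k) : |Qf F' B - Qf F B| ≤ 16 * k * z * Δ := by
  have h0 : 0 ≤ ex (ind F) := ex_nonneg (ind_nonneg F)
  have h0' : 0 ≤ ex (ind F') := ex_nonneg (ind_nonneg F')
  have hz0 : 0 ≤ z := h0.trans hF
  have hd : ex (fun x => ind F' x - ind F x) = ex (ind F') - ex (ind F) := ex_sub _ _
  have hd0 : 0 ≤ ex (fun x => ind F' x - ind F x) :=
    ex_nonneg fun x => sub_nonneg.2 (hle x)
  have hΔ0 : 0 ≤ Δ := hd0.trans hΔ
  have hy : ∀ a, |co (ind F') {a} - co (ind F) {a}| ≤ Δ := by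
    intro a
    rw [← co_sub]
    refine (abs_co_le (g := fun x => ind F' x - ind F x) (fun x => ?_) {a}).trans hΔ
    rw [abs_of_nonneg (sub_nonneg.2 (hle x))]
  set z1 := ex (ind F) with hz1
  set z2 := ex (ind F') with hz2
  have hzd : z2 - z1 ≤ Δ := by rw [← hd]; exact hΔ
  have hzd0 : 0 ≤ z2 - z1 := by rw [← hd]; exact hd0
  have hp1 : (1 : ℝ) / 2 ≤ 1 - z1 := by linarith
  have hp2 : (1 : ℝ) / 2 ≤ 1 - z2 := by linarith
  have ht : ∀ a, |-co (ind F') {a} / (1 - co (ind F') ∅) - -co (ind F) {a} / (1 - co (ind F) ∅)|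
      ≤ 4 * Δ := by
    intro a
    rw [co_empty, co_empty, ← hz1, ← hz2]
    have h1 : |co (ind F') {a}| ≤ z2 :=
      abs_co_le (fun x => by rw [abs_of_nonneg (ind_nonneg F' x)]) {a}
    have e1 : -co (ind F') {a} / (1 - z2) - -co (ind F) {a} / (1 - z1)
        = -((co (ind F') {a} - co (ind F) {a}) * (1 - z2)
            + co (ind F') {a} * (z2 - z1)) / ((1 - z1) * (1 - z2)) := by
      have : (1 - z1) ≠ 0 := by linarith
      have : (1 - z2) ≠ 0 := by linarith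
      field_simp
      ring
    have hpos : 0 < (1 - z1) * (1 - z2) := mul_pos (by linarith) (by linarith)
    rw [e1, abs_div, abs_neg, abs_of_pos hpos, div_le_iff₀ hpos]
    have h2 := hy a
    calc |(co (ind F') {a} - co (ind F) {a}) * (1 - z2) + co (ind F') {a} * (z2 - z1)|
        ≤ |co (ind F') {a} - co (ind F) {a}| * |1 - z2| + |co (ind F') {a}| * |z2 - z1| := by
          rw [← abs_mul, ← abs_mul]; exact abs_add_le _ _
      _ ≤ Δ * (1 - z2) + z2 * Δ := by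
          rw [abs_of_pos (by linarith : (0 : ℝ) < 1 - z2), abs_of_nonneg hzd0]
          gcongr
      _ = Δ := by ring
      _ ≤ 4 * Δ * ((1 - z1) * (1 - z2)) := by
          have : (1 : ℝ) / 4 ≤ (1 - z1) * (1 - z2) := by nlinarith
          nlinarith
  have hr0 : 0 ≤ 2 * z := by linarith
  have hr1 : 2 * z ≤ 1 := by linarith
  have hP := qflip_diff2 (fun a => -co (ind F') {a} / (1 - co (ind F') ∅))
    (fun a => -co (ind F) {a} / (1 - co (ind F) ∅)) (4 * Δ) (2 * z) (by linarith) hr0 hr1 B hB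
    (fun a _ => qflip_t F' z hz hF' a) (fun a _ => qflip_t F z hz hF a) (fun a _ => ht a)
  have hP2 : |∏ a ∈ B, (-co (ind F) {a} / (1 - co (ind F) ∅))| ≤ 2 * z := by
    refine (qflip_prod_le _ (2 * z) B (fun a _ => qflip_t F z hz hF a)).trans ?_
    calc (2 * z) ^ B.card ≤ (2 * z) ^ 1 := pow_le_pow_of_le_one hr0 hr1 (by omega)
      _ = 2 * z := pow_one _
  unfold Qf
  rw [co_empty (ind F), co_empty (ind F'), ← hz1, ← hz2] at *
  set P := ∏ a ∈ B, (-co (ind F) {a} / (1 - z1)) with hPdef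
  set P' := ∏ a ∈ B, (-co (ind F') {a} / (1 - z2)) with hPdef'
  have e2 : -(1 - z2) * P' - -(1 - z1) * P = -((1 - z2) * (P' - P)) + (z2 - z1) * P := by ring
  rw [e2]
  have hk : (B.card : ℝ) + 1 ≤ k := by exact_mod_cast hBk
  calc |-((1 - z2) * (P' - P)) + (z2 - z1) * P|
      ≤ |(1 - z2)| * |P' - P| + |z2 - z1| * |P| := by
        refine (abs_add_le _ _).trans ?_
        rw [abs_neg, abs_mul, abs_mul]
    _ ≤ 1 * (B.card * (4 * Δ * (2 * z))) + Δ * (2 * z) := by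
        rw [abs_of_pos (by linarith : (0 : ℝ) < 1 - z2), abs_of_nonneg hzd0]
        gcongr
        linarith
    _ ≤ 16 * k * z * Δ := by
        have hzΔ : 0 ≤ z * Δ := mul_nonneg hz0 hΔ0
        nlinarith [mul_le_mul_of_nonneg_right hk hzΔ]

/-- the target value is of second order -/
theorem abs_Qf_le {m : ℕ} (F : List (Finset (Fin m))) (z : ℝ) (hz : z ≤ 1 / 2)
    (hF : ex (ind F) ≤ z) (B : Finset (Fin m)) (hB : 2 ≤ B.card) : |Qf F B| ≤ 4 * z ^ 2 := by
  have h0 : 0 ≤ ex (ind F) := ex_nonneg (ind_nonneg F)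
  have hz0 : 0 ≤ z := h0.trans hF
  have hP : |∏ a ∈ B, (-co (ind F) {a} / (1 - co (ind F) ∅))| ≤ (2 * z) ^ 2 := by
    refine (qflip_prod_le _ (2 * z) B (fun a _ => qflip_t F z hz hF a)).trans ?_
    exact pow_le_pow_of_le_one (by linarith) (by linarith) hB
  unfold Qf
  rw [abs_mul, abs_neg]
  have h1 : |1 - co (ind F) ∅| ≤ 1 := by
    rw [co_empty, abs_of_pos (by linarith : (0 : ℝ) < 1 - ex (ind F))]
    linarith
  calc |1 - co (ind F) ∅| * |∏ a ∈ B, (-co (ind F) {a} / (1 - co (ind F) ∅))|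
      ≤ 1 * (2 * z) ^ 2 := by gcongr
    _ = 4 * z ^ 2 := by ring

end Pool.Agent.H.MP_cba12a_lc.SQ
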