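import Pool.Agent.H.MP_cba12a_lc.SQ.StageStep
import Pool.Agent.H.MP_cba12a_lc.SQ.QfLip

namespace Pool.Agent.H.MP_cba12a_lc.SQ

open Finset Filter Topology

theorem iterate_asym (a : ℕ) (c : ℝ) : ∀ᶠ L : ℕ in atTop, c * (L : ℝ) ^ a ≤ 2 ^ (L / 4) := by
  have h1 := tendsto_pow_const_div_const_pow_of_one_lt a (show (1 : ℝ) < 2 by norm_num)
  have h2 : ∀ᶠ n : ℕ in atTop, (n : ℝ) ^ a / 2 ^ n < 1 / (|c| * 7 ^ a + 1) :=
    h1.eventually_lt_const (by positivity)
  have h3 : ∀ᶠ L : ℕ in atTop, ((L / 4 : ℕ) : ℝ) ^ a / 2 ^ (L / 4) < 1 / (|c| * 7 ^ a + 1) :=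
    (Nat.tendsto_div_const_atTop (show (4 : ℕ) ≠ 0 by norm_num)).eventually h2
  filter_upwards [h3, eventually_ge_atTop 4] with L hL hL4
  have hn : (L : ℝ) ≤ 7 * ((L / 4 : ℕ) : ℝ) := by
    have : L ≤ 7 * (L / 4) := by omega
    exact_mod_cast this
  have h5 : (0 : ℝ) < 2 ^ (L / 4) := by positivity
  rw [div_lt_div_iff₀ h5 (by positivity)] at hL
  have h6 : c * (L : ℝ) ^ a ≤ |c| * (7 * ((L / 4 : ℕ) : ℝ)) ^ a := by
    apply mul_le_mul (le_abs_self c) _ (by positivity) (abs_nonneg c)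
    exact pow_le_pow_left₀ (by positivity) hn a
  rw [mul_pow] at h6
  have h7 : (0 : ℝ) ≤ ((L / 4 : ℕ) : ℝ) ^ a := by positivity
  nlinarith

theorem iterate_desc (m v : ℕ) (hv : v ≤ m) (j : ℕ) :
    v.descFactorial j * m ^ j ≤ m.descFactorial j * v ^ j := by
  induction j with
  | zero => simp
  | succ j ih =>
    rw [Nat.descFactorial_succ, Nat.descFactorial_succ, pow_succ, pow_succ]
    have h1 : (v - j) * m ≤ (m - j) * v := by
      rcases Nat.lt_or_ge j v with h | h
      · obtain ⟨a, rfl⟩ : ∃ a, v = j + a := ⟨v - j, by omega⟩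
        obtain ⟨b, rfl⟩ : ∃ b, m = j + a + b := ⟨m - (j + a), by omega⟩
        have e1 : j + a - j = a := by omega
        have e2 : j + a + b - j = a + b := by omega
        rw [e1, e2]
        nlinarith
      · have : v - j = 0 := by omega
        rw [this]; simp
    calc (v - j) * v.descFactorial j * (m ^ j * m)
        = (v.descFactorial j * m ^ j) * ((v - j) * m) := by ring
      _ ≤ (m.descFactorial j * v ^ j) * ((m - j) * v) := Nat.mul_le_mul ih h1
      _ = _ := by ring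

theorem iterate_choose (m v j : ℕ) (hjv : j ≤ v) (hv : v ≤ m) (hm : 0 < m) :
    ((m - j).choose (v - j) : ℝ) / (m.choose v : ℝ) ≤ ((v : ℝ) / m) ^ j := by
  have h1 := Nat.choose_mul (n := m) (k := v) (s := j) hjv
  have hmv : (0 : ℝ) < (m.choose v : ℝ) := by exact_mod_cast Nat.choose_pos hv
  have hmj : (0 : ℝ) < (m.choose j : ℝ) := by exact_mod_cast Nat.choose_pos (hjv.trans hv)
  have h2 : ((m - j).choose (v - j) : ℝ) / (m.choose v : ℝ) = (v.choose j : ℝ) / m.choose j := by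
    rw [div_eq_div_iff hmv.ne' hmj.ne']
    have : ((m.choose v * v.choose j : ℕ) : ℝ) = ((m.choose j * (m - j).choose (v - j) : ℕ) : ℝ) := by
      rw [h1]
    push_cast at this
    linarith
  rw [h2, div_pow, div_le_div_iff₀ hmj (by positivity)]
  have h3 := iterate_desc m v hv j
  rw [Nat.descFactorial_eq_factorial_mul_choose, Nat.descFactorial_eq_factorial_mul_choose] at h3
  have h4 : v.choose j * m ^ j ≤ m.choose j * v ^ j := by
    have : j.factorial * (v.choose j * m ^ j) ≤ j.factorial * (m.choose j * v ^ j) := by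
      calc j.factorial * (v.choose j * m ^ j) = j.factorial * v.choose j * m ^ j := by ring
        _ ≤ _ := h3
        _ = _ := by ring
    exact Nat.le_of_mul_le_mul_left this (Nat.factorial_pos j)
  calc (v.choose j : ℝ) * (m : ℝ) ^ j ≤ (m.choose j : ℝ) * (v : ℝ) ^ j := by exact_mod_cast h4
    _ = (v : ℝ) ^ j * (m.choose j : ℝ) := by ring

theorem iterate_plan (m k u j : ℕ) (hk : 0 < k) (hju : j ≤ u) (hu : u + k ≤ m) (hm : 0 < m) :
    |plan m k u j| ≤ (1 / 2) ^ u * (((u + k : ℕ) : ℝ) / m) ^ j := by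
  have hm' : (0 : ℝ) < m := by exact_mod_cast hm
  unfold plan
  have h0 : ∀ l ∈ range k, 0 ≤ 1 / (2 * (k : ℝ)) * (1 / 2) ^ (u + l) *
      (((m - j).choose (u + l - j) : ℝ) / (m.choose (u + l) : ℝ)) := by
    intro l _; positivity
  rw [abs_of_nonneg (sum_nonneg h0)]
  have h1 : ∀ l ∈ range k, 1 / (2 * (k : ℝ)) * (1 / 2) ^ (u + l) *
      (((m - j).choose (u + l - j) : ℝ) / (m.choose (u + l) : ℝ)) ≤
      1 / (2 * (k : ℝ)) * ((1 / 2) ^ u * (((u + k : ℕ) : ℝ) / m) ^ j) := by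
    intro l hl
    rw [mem_range] at hl
    have e1 := iterate_choose m (u + l) j (by omega) (by omega) hm
    have e2 : (((u + l : ℕ) : ℝ) / m) ^ j ≤ (((u + k : ℕ) : ℝ) / m) ^ j := by
      apply pow_le_pow_left₀ (by positivity)
      apply div_le_div_of_nonneg_right _ hm'.le
      have : u + l ≤ u + k := by omega
      exact_mod_cast this
    have e3 : (1 / 2 : ℝ) ^ (u + l) ≤ (1 / 2) ^ u :=
      pow_le_pow_of_le_one (by norm_num) (by norm_num) (by omega)
    rw [mul_assoc]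
    apply mul_le_mul_of_nonneg_left _ (by positivity)
    apply mul_le_mul e3 (e1.trans e2) (by positivity) (by positivity)
  refine (sum_le_sum h1).trans ?_
  rw [sum_const, card_range, nsmul_eq_mul]
  have hk' : (0 : ℝ) < k := by exact_mod_cast hk
  have h2 : 0 ≤ (1 / 2 : ℝ) ^ u * (((u + k : ℕ) : ℝ) / m) ^ j := by positivity
  have e4 : (k : ℝ) * (1 / (2 * (k : ℝ)) * ((1 / 2) ^ u * (((u + k : ℕ) : ℝ) / m) ^ j))
      = (1 / 2) * ((1 / 2) ^ u * (((u + k : ℕ) : ℝ) / m) ^ j) := by field_simp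
  rw [e4]
  linarith

theorem iterate_inv_ex {m U : ℕ} {K : ℝ} {F : List (Finset (Fin m))} (h : Inv U K F) :
    ex (ind F) ≤ K := by
  have h1 := h 0 (Nat.zero_le _)
  simpa using h1

/-- The iteration, for fixed parameters. -/
theorem iterate_fixed {m : ℕ} (k R U I : ℕ) (hk : 3 ≤ k) (hU : 3 * U ^ 2 ≤ m)
    (hmk : 2 ^ (k * k + 4 * k) ≤ m) (hR : 0 < R) (u : ℕ → ℕ) (ε K : ℕ → ℝ) (z : ℝ)
    (hε0 : ∀ i, 0 ≤ ε i)
    (hu1 : ∀ i < I, k ≤ u i) (hu2 : ∀ i < I, u i + k ≤ U)
    (hε : ∀ i < I, ε i * 2 ^ (u i) * (m : ℝ) ^ (3 * k) ≤ R)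
    (hKs : ∀ i < I, K (i + 1) = K i + 2 * R * (1 / 2) ^ (u i))
    (hKz : ∀ i ≤ I, K i ≤ z) (hz : z ≤ 1 / 2) (hzR : Real.sqrt R * z ≤ 1)
    (hstep : ∀ i < I, 4 * Real.sqrt R * (1 / 2) ^ (u i) * (m : ℝ) ^ k +
      16 * k * z * (R * (1 / 2) ^ (u i)) ≤ ε (i + 1))
    (F₀ : List (Finset (Fin m))) (hinv : Inv U (K 0) F₀)
    (h0 : ∀ B : Finset (Fin m), 2 ≤ B.card → B.card < k →
      |co (ind F₀) B + ∑ i ∈ Ico 0 I, R * plan m k (u i) B.card - Qf F₀ B| ≤ ε 0) :
    ∀ n ≤ I, ∃ F : List (Finset (Fin m)), F.length ≤ F₀.length + n * R ∧ Inv U (K n) F ∧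
      (∀ x, ind F₀ x ≤ ind F x) ∧
      ex (fun x => ind F x - ind F₀ x) ≤ ∑ i ∈ range n, (R : ℝ) * (1 / 2) ^ (u i) ∧
      ∀ B : Finset (Fin m), 2 ≤ B.card → B.card < k →
        |co (ind F) B + ∑ i ∈ Ico n I, R * plan m k (u i) B.card - Qf F B| ≤ ε n := by
  intro n
  induction n with
  | zero =>
    intro _
    refine ⟨F₀, by simp, hinv, fun x => le_refl _, ?_, h0⟩
    simp [ex_const]
  | succ n ih =>
    intro hn
    obtain ⟨F, f1, f2, f3, f4, f5⟩ := ih (by omega)
    have hnI : n < I := by omega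
    set e : Finset (Fin m) → ℝ := fun B => if 2 ≤ B.card ∧ B.card < k then
      co (ind F) B + ∑ i ∈ Ico n I, R * plan m k (u i) B.card - Qf F B else 0 with he
    have he1 : ∀ B, |e B| ≤ ε n := by
      intro B
      rw [he]
      by_cases h : 2 ≤ B.card ∧ B.card < k
      · simp only [if_pos h]; exact f5 B h.1 h.2
      · simp only [if_neg h, abs_zero]; exact hε0 n
    have hK1 : Real.sqrt R * (K n + 2 * R * (1 / 2) ^ (u n)) ≤ 1 := by
      rw [← hKs n hnI]
      refine le_trans (mul_le_mul_of_nonneg_left (hKz (n + 1) hn) (Real.sqrt_nonneg _)) hzR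
    obtain ⟨F', g1, g2, g3, g4, g5⟩ := stage_step k (u n) R U (K n) (ε n) hk (hu1 n hnI)
      (hu2 n hnI) hU hmk hR F f2 hK1 e he1 (hε n hnI)
    refine ⟨F', ?_, ?_, fun x => (f3 x).trans (g3 x), ?_, ?_⟩
    · rw [Nat.succ_mul]; omega
    · rw [hKs n hnI]; exact g2
    · rw [sum_range_succ]
      have e1 : ex (fun x => ind F' x - ind F₀ x)
          = ex (fun x => ind F x - ind F₀ x) + ex (fun x => ind F' x - ind F x) := by
        rw [← ex_add]; congr 1; funext x; ring
      rw [e1]; exact add_le_add f4 g4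
    · intro B hB2 hBk
      have h5 := g5 B hB2 hBk
      have hpos : 2 ≤ B.card ∧ B.card < k := ⟨hB2, hBk⟩
      have heB : e B = co (ind F) B + ∑ i ∈ Ico n I, R * plan m k (u i) B.card - Qf F B := by
        rw [he]; simp only [if_pos hpos]
      rw [heB] at h5
      have hsum : ∑ i ∈ Ico n I, (R : ℝ) * plan m k (u i) B.card
          = R * plan m k (u n) B.card + ∑ i ∈ Ico (n + 1) I, (R : ℝ) * plan m k (u i) B.card :=
        Finset.sum_eq_sum_Ico_succ_bot hnI (fun i => (R : ℝ) * plan m k (u i) B.card)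
      rw [hsum] at h5
      have h6 : |Qf F' B - Qf F B| ≤ 16 * k * z * (R * (1 / 2) ^ (u n)) :=
        Qf_lip k F F' z (R * (1 / 2) ^ (u n)) hz
          ((iterate_inv_ex f2).trans (hKz n (by omega)))
          ((iterate_inv_ex g2).trans (by rw [← hKs n hnI]; exact hKz (n + 1) hn))
          g3 g4 B hB2 hBk
      have h7 : co (ind F') B + ∑ i ∈ Ico (n + 1) I, (R : ℝ) * plan m k (u i) B.card - Qf F' B
          = (co (ind F') B - co (ind F) B - R * plan m k (u n) B.card +
            (co (ind F) B + (R * plan m k (u n) B.card +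
              ∑ i ∈ Ico (n + 1) I, (R : ℝ) * plan m k (u i) B.card) - Qf F B))
            - (Qf F' B - Qf F B) := by ring
      rw [h7]
      refine (abs_sub _ _).trans ((add_le_add h5 h6).trans (hstep n hnI))

/-- Choice of the widths. -/
theorem iterate_width (x : ℝ) (hx : 0 < x) (k V : ℕ) (h1 : x ≤ (1 / 2) ^ (k + 1))
    (h2 : (1 / 2) ^ V ≤ x) : ∃ u : ℕ, x ≤ (1 / 2) ^ u ∧ (1 / 2) ^ u ≤ 2 * x ∧ k ≤ u ∧ u ≤ V := by
  have hx1 : x ≤ 1 := h1.trans (pow_le_one₀ (by norm_num) (by norm_num))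
  obtain ⟨u, hu1, hu2⟩ := exists_nat_pow_near_of_lt_one hx hx1 (show (0 : ℝ) < 1 / 2 by norm_num)
    (by norm_num)
  refine ⟨u, hu2, ?_, ?_, ?_⟩
  · rw [pow_succ] at hu1; linarith
  · by_contra h
    push Not at h
    have h3 : (1 / 2 : ℝ) ^ (k + 1) ≤ (1 / 2) ^ (u + 1) :=
      pow_le_pow_of_le_one (by norm_num) (by norm_num) (by omega)
    linarith
  · by_contra h
    push Not at h
    have h3 : (1 / 2 : ℝ) ^ u < (1 / 2) ^ V :=
      pow_lt_pow_right_of_lt_one₀ (by norm_num) (by norm_num) h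
    linarith

theorem iterate (k I : ℕ) (hk : 3 ≤ k) (C ε : ℝ) (hC : 0 ≤ C) (hε : 0 < ε) :
    ∀ᶠ L : ℕ in atTop, ∃ Pl : ℕ → ℝ, (∀ j, |Pl j| * ((L : ℝ) ^ 3) ^ j * 2 ^ L ≤ ε) ∧
      ∀ F₀ : List (Finset (Fin (L ^ 4))), Inv (L ^ 2 / 2) (C / 2 ^ L) F₀ →
        (∀ B : Finset (Fin (L ^ 4)), 2 ≤ B.card → B.card < k →
          |co (ind F₀) B + Pl B.card - Qf F₀ B| ≤
            ((L : ℝ) ^ 4) ^ (2 * k) / (2 ^ L * Real.sqrt (2 ^ L))) →
        ∃ F : List (Finset (Fin (L ^ 4))), F.length ≤ F₀.length + I * 2 ^ L ∧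
          (∀ x, ind F₀ x ≤ ind F x) ∧
          ex (fun x => ind F x - ind F₀ x) ≤
            ((L : ℝ) ^ 4) ^ (6 * k) / (2 ^ L * Real.sqrt (2 ^ L)) ∧
          ∀ B : Finset (Fin (L ^ 4)), 2 ≤ B.card → B.card < k →
            |co (ind F) B - Qf F B| ≤
              ((L : ℝ) ^ 4) ^ (2 * k) / (2 ^ L * Real.sqrt (2 ^ L)) / 2 ^ (I * (L / 4)) := by
  filter_upwards [iterate_asym (20 * k) (2 ^ (k + 1)), iterate_asym (20 * k) (4 * I),
    iterate_asym 0 (2 * (C + 1)), iterate_asym (16 * k) 16,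
    iterate_asym (12 * k) (64 * k * (C + 1)), iterate_asym (20 * k) (2 * I * (3 + I + k) ^ k / ε),
    eventually_ge_atTop (2 * (3 + I) + 2 * k + 2 * I + 2 ^ (k * k + 4 * k) + 1)]
    with L E1 E2 E3 E4 E5 E6 E7
  have hL1 : 1 ≤ L := by
    have : 0 < 2 ^ (k * k + 4 * k) := by positivity
    omega
  have hL1' : (1 : ℝ) ≤ L := by exact_mod_cast hL1
  -- notation
  obtain ⟨t, ht⟩ : ∃ t : ℝ, t = 2 ^ (L / 4) := ⟨_, rfl⟩
  obtain ⟨N, hN⟩ : ∃ N : ℝ, N = 2 ^ L := ⟨_, rfl⟩
  obtain ⟨M, hM⟩ : ∃ M : ℝ, M = (L : ℝ) ^ 4 := ⟨_, rfl⟩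
  obtain ⟨s, hs⟩ : ∃ s : ℝ, s = Real.sqrt (2 ^ L) := ⟨_, rfl⟩
  have ht1 : 1 ≤ t := by rw [ht]; exact one_le_pow₀ (by norm_num)
  have ht0 : 0 < t := by linarith
  have hN0 : 0 < N := by rw [hN]; positivity
  have hNt : t ^ 4 ≤ N := by
    rw [ht, hN, ← pow_mul]
    exact pow_le_pow_right₀ (by norm_num) (by omega)
  have hst : t ^ 2 ≤ s := by
    rw [hs]
    apply Real.le_sqrt_of_sq_le
    rw [← hN]
    calc (t ^ 2) ^ 2 = t ^ 4 := by ring
      _ ≤ N := hNt
  have hss : s * s = N := by rw [hs, hN]; exact Real.mul_self_sqrt (by positivity)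
  have htt : t ≤ t ^ 2 := by nlinarith
  have hts : t ≤ s := by linarith
  have hs0 : 0 < s := by linarith
  have hs1 : 1 ≤ s := by linarith
  have hsN : s ≤ N := by rw [← hss]; nlinarith
  have htN : t ≤ N := by linarith
  have hN1 : 1 ≤ N := by linarith
  have hM1 : 1 ≤ M := by rw [hM]; exact one_le_pow₀ hL1'
  have hM0 : 0 < M := by linarith
  have eP : (L : ℝ) ^ (20 * k) = M ^ (5 * k) := by rw [hM, ← pow_mul]; congr 1; ring
  have e4k : (L : ℝ) ^ (16 * k) = M ^ (4 * k) := by rw [hM, ← pow_mul]; congr 1; ring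
  have e3k : (L : ℝ) ^ (12 * k) = M ^ (3 * k) := by rw [hM, ← pow_mul]; congr 1; ring
  rw [← ht, eP] at E1 E2 E6
  rw [← ht, pow_zero, mul_one] at E3
  rw [← ht, e4k] at E4
  rw [← ht, e3k] at E5
  rw [← hs, ← hN, ← hM]
  obtain ⟨P, hP⟩ : ∃ P : ℝ, P = M ^ (5 * k) := ⟨_, rfl⟩
  have hP1 : 1 ≤ P := by rw [hP]; exact one_le_pow₀ hM1
  rw [← hP] at E1 E2 E6
  have hmcast : ((L ^ 4 : ℕ) : ℝ) = M := by rw [hM]; push_cast; ring
  have hRcast : ((2 ^ L : ℕ) : ℝ) = N := by rw [hN]; push_cast; ring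
  have hL4 : 0 < L ^ 4 := by positivity
  -- natural number conditions
  have hV : (3 + I) * L + k ≤ L ^ 2 / 2 := by
    rw [Nat.le_div_iff_mul_le (by norm_num)]
    have h1 : (2 * (3 + I) + 2 * k) * L ≤ L * L := Nat.mul_le_mul_right _ (by
      have : 0 < 2 ^ (k * k + 4 * k) := by positivity
      omega)
    have h2 : 2 * k ≤ 2 * k * L := Nat.le_mul_of_pos_right _ hL1
    nlinarith
  have hUm : 3 * (L ^ 2 / 2) ^ 2 ≤ L ^ 4 := by
    have h1 : L ^ 2 / 2 * 2 ≤ L ^ 2 := Nat.div_mul_le_self _ _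
    have h2 : (L ^ 2 / 2 * 2) ^ 2 ≤ (L ^ 2) ^ 2 := Nat.pow_le_pow_left h1 2
    have h3 : (L ^ 2) ^ 2 = L ^ 4 := by ring
    rw [h3] at h2
    nlinarith
  have hLL4 : L ≤ L ^ 4 := Nat.le_self_pow (by norm_num) L
  have hmk : 2 ^ (k * k + 4 * k) ≤ L ^ 4 := by omega
  have h2I : (2 * I : ℝ) ≤ M ^ k := by
    have h1 : 2 * I ≤ L ^ 4 := by
      have : 0 < 2 ^ (k * k + 4 * k) := by positivity
      omega
    have h2 : (2 * I : ℝ) ≤ M := by rw [← hmcast]; exact_mod_cast h1
    exact h2.trans (le_self_pow₀ hM1 (by omega))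
  -- the sequence
  obtain ⟨η, hη⟩ : ∃ η : ℕ → ℝ, η = fun i => M ^ (2 * k) / (N * s) / t ^ i := ⟨_, rfl⟩
  have hη0 : ∀ i, 0 < η i := by intro i; rw [hη]; positivity
  have hηs : ∀ i, η (i + 1) = η i / t := by
    intro i; rw [hη]; simp only [pow_succ, div_div, mul_assoc]
  obtain ⟨x, hx⟩ : ∃ x : ℕ → ℝ, x = fun i => M ^ (3 * k) * η i / N := ⟨_, rfl⟩
  have hxP : ∀ i, x i = P / (N * N * s) / t ^ i := by
    intro i
    rw [hx, hη, hP]
    simp only
    have : M ^ (5 * k) = M ^ (3 * k) * M ^ (2 * k) := by rw [← pow_add]; congr 1; ring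
    rw [this]
    field_simp
  have hx0 : ∀ i, 0 < x i := by intro i; rw [hxP]; positivity
  have hxle : ∀ i, x i ≤ P / (N * N * s) := by
    intro i
    rw [hxP]
    apply div_le_self (by positivity)
    exact one_le_pow₀ ht1
  have hx1 : ∀ i, x i ≤ (1 / 2) ^ (k + 1) := by
    intro i
    refine (hxle i).trans ?_
    rw [one_div_pow, div_le_div_iff₀ (by positivity) (by positivity), one_mul]
    have h1 : s ≤ N * N * s := by
      have : 1 ≤ N * N := by nlinarith
      nlinarith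
    calc P * 2 ^ (k + 1) = 2 ^ (k + 1) * P := by ring
      _ ≤ t := E1
      _ ≤ s := hts
      _ ≤ _ := h1
  have hx2 : ∀ i < I, (1 / 2) ^ ((3 + I) * L) ≤ x i := by
    intro i hi
    rw [hxP]
    have h1 : t ^ i ≤ N ^ I :=
      (pow_le_pow_left₀ ht0.le htN i).trans (pow_le_pow_right₀ hN1 hi.le)
    have h2 : (1 / 2 : ℝ) ^ ((3 + I) * L) = 1 / (N * N * N * N ^ I) := by
      rw [one_div_pow, mul_comm (3 + I) L, pow_mul, ← hN]
      congr 1
      rw [pow_add]; ring
    rw [h2, div_div]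
    apply div_le_div₀ (by positivity) hP1 (by positivity)
    apply mul_le_mul _ h1 (by positivity) (by positivity)
    exact mul_le_mul_of_nonneg_left hsN (by positivity)
  have hwid : ∀ i, ∃ u : ℕ, i < I → x i ≤ (1 / 2) ^ u ∧ (1 / 2) ^ u ≤ 2 * x i ∧ k ≤ u ∧
      u ≤ (3 + I) * L := by
    intro i
    by_cases hi : i < I
    · obtain ⟨u, h⟩ := iterate_width (x i) (hx0 i) k ((3 + I) * L) (hx1 i) (hx2 i hi)
      exact ⟨u, fun _ => h⟩
    · exact ⟨0, fun h => absurd h hi⟩
  choose u hu using hwid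
  have hterm : ∀ i < I, N * (1 / 2) ^ (u i) ≤ 2 * P / (N * s) := by
    intro i hi
    obtain ⟨_, h2, _, _⟩ := hu i hi
    calc N * (1 / 2) ^ (u i) ≤ N * (2 * (P / (N * N * s))) := by
          apply mul_le_mul_of_nonneg_left _ hN0.le
          have := hxle i
          linarith
      _ = 2 * P / (N * s) := by field_simp
  -- the constants K
  obtain ⟨K, hK⟩ : ∃ K : ℕ → ℝ, K = fun i => C / N + ∑ i' ∈ range i, 2 * N * (1 / 2) ^ (u i') :=
    ⟨_, rfl⟩
  have hKz : ∀ i ≤ I, K i ≤ (C + 1) / N := by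
    intro i hi
    rw [hK]
    simp only
    have h1 : ∑ i' ∈ range i, 2 * N * (1 / 2) ^ (u i') ≤ ∑ i' ∈ range i, 4 * P / (N * s) := by
      apply sum_le_sum
      intro i' hi'
      rw [mem_range] at hi'
      have := hterm i' (by omega)
      have e : 4 * P / (N * s) = 2 * (2 * P / (N * s)) := by ring
      rw [e]; linarith
    rw [sum_const, card_range, nsmul_eq_mul] at h1
    have h2 : (i : ℝ) * (4 * P / (N * s)) ≤ 1 / N := by
      have h3 : (i : ℝ) ≤ I := by exact_mod_cast hi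
      have h4 : (i : ℝ) * (4 * P / (N * s)) ≤ I * (4 * P / (N * s)) :=
        mul_le_mul_of_nonneg_right h3 (by positivity)
      refine h4.trans ?_
      rw [← mul_div_assoc, div_le_div_iff₀ (by positivity) hN0]
      have h5 : (I : ℝ) * (4 * P) ≤ s := by
        calc (I : ℝ) * (4 * P) = 4 * I * P := by ring
          _ ≤ t := E2
          _ ≤ s := hts
      nlinarith
    rw [add_div]; linarith
  refine ⟨fun j => if 2 ≤ j ∧ j < k then ∑ i ∈ Ico 0 I, N * plan (L ^ 4) k (u i) j else 0,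
    ?_, ?_⟩
  · -- bound for Pl
    intro j
    by_cases hj : 2 ≤ j ∧ j < k
    · simp only [if_pos hj]
      have h1 : |∑ i ∈ Ico 0 I, N * plan (L ^ 4) k (u i) j| ≤
          ∑ i ∈ Ico 0 I, 2 * P / (N * s) * ((((3 + I + k : ℕ) : ℝ)) / (L : ℝ) ^ 3) ^ j := by
        refine (abs_sum_le_sum_abs _ _).trans (sum_le_sum ?_)
        intro i hi
        rw [mem_Ico] at hi
        obtain ⟨_, _, h3, h4⟩ := hu i hi.2
        rw [abs_mul, abs_of_pos hN0]
        have h5 := iterate_plan (L ^ 4) k (u i) j (by omega) (by omega)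
          (by
            have : L ^ 2 / 2 ≤ L ^ 4 := by
              have h6 : L ^ 2 / 2 ≤ L ^ 2 := Nat.div_le_self _ _
              have h7 : L ^ 2 ≤ L ^ 4 := Nat.pow_le_pow_right hL1 (by norm_num)
              omega
            omega) hL4
        have h6 : (((u i + k : ℕ) : ℝ) / ((L ^ 4 : ℕ) : ℝ)) ≤ ((3 + I + k : ℕ) : ℝ) / (L : ℝ) ^ 3 := by
          rw [hmcast, hM]
          rw [div_le_div_iff₀ (by positivity) (by positivity)]
          have h7 : u i + k ≤ (3 + I + k) * L := by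
            have : k ≤ k * L := Nat.le_mul_of_pos_right _ hL1
            nlinarith
          have h8 : ((u i + k : ℕ) : ℝ) ≤ ((3 + I + k : ℕ) : ℝ) * L := by exact_mod_cast h7
          calc ((u i + k : ℕ) : ℝ) * (L : ℝ) ^ 3 ≤ (((3 + I + k : ℕ) : ℝ) * L) * (L : ℝ) ^ 3 :=
                mul_le_mul_of_nonneg_right h8 (by positivity)
            _ = _ := by ring
        calc N * |plan (L ^ 4) k (u i) j|
            ≤ N * ((1 / 2) ^ (u i) * (((u i + k : ℕ) : ℝ) / ((L ^ 4 : ℕ) : ℝ)) ^ j) :=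
              mul_le_mul_of_nonneg_left h5 hN0.le
          _ = (N * (1 / 2) ^ (u i)) * (((u i + k : ℕ) : ℝ) / ((L ^ 4 : ℕ) : ℝ)) ^ j := by ring
          _ ≤ _ := by
              apply mul_le_mul (hterm i hi.2) _ (by positivity) (by positivity)
              exact pow_le_pow_left₀ (by positivity) h6 j
      rw [sum_const, Nat.card_Ico, nsmul_eq_mul, Nat.sub_zero] at h1
      have h2 : (((3 + I + k : ℕ) : ℝ)) ^ j ≤ (3 + I + k : ℝ) ^ k := by
        push_cast
        exact pow_le_pow_right₀ (by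
          have : (0 : ℝ) ≤ I := by positivity
          have : (0 : ℝ) ≤ k := by positivity
          linarith) (by omega)
      have h3 : |∑ i ∈ Ico 0 I, N * plan (L ^ 4) k (u i) j| * ((L : ℝ) ^ 3) ^ j * N ≤
          (I : ℝ) * (2 * P / (N * s)) * (((3 + I + k : ℕ) : ℝ)) ^ j * N := by
        apply mul_le_mul_of_nonneg_right _ hN0.le
        calc |∑ i ∈ Ico 0 I, N * plan (L ^ 4) k (u i) j| * ((L : ℝ) ^ 3) ^ j
            ≤ (I * (2 * P / (N * s) * ((((3 + I + k : ℕ) : ℝ)) / (L : ℝ) ^ 3) ^ j)) *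
                ((L : ℝ) ^ 3) ^ j := mul_le_mul_of_nonneg_right h1 (by positivity)
          _ = _ := by
              rw [div_pow]
              have : ((L : ℝ) ^ 3) ^ j ≠ 0 := by positivity
              field_simp
      refine h3.trans ?_
      have h4 : (I : ℝ) * (2 * P / (N * s)) * (((3 + I + k : ℕ) : ℝ)) ^ j * N
          = 2 * I * P * (((3 + I + k : ℕ) : ℝ)) ^ j / s := by field_simp
      rw [h4, div_le_iff₀ hs0]
      have h5 : 2 * (I : ℝ) * P * (((3 + I + k : ℕ) : ℝ)) ^ j ≤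
          2 * I * P * (3 + I + k : ℝ) ^ k := mul_le_mul_of_nonneg_left h2 (by positivity)
      refine h5.trans ?_
      have h6 : 2 * (I : ℝ) * (3 + I + k) ^ k / ε * P ≤ s := E6.trans hts
      calc 2 * (I : ℝ) * P * (3 + I + k) ^ k = ε * (2 * (I : ℝ) * (3 + I + k) ^ k / ε * P) := by
            field_simp
        _ ≤ ε * s := mul_le_mul_of_nonneg_left h6 hε.le
    · simp only [if_neg hj, abs_zero, zero_mul]
      exact hε.le
  · intro F₀ hinv h0
    obtain ⟨F, f1, f2, f3, f4, f5⟩ := iterate_fixed (m := L ^ 4) k (2 ^ L) (L ^ 2 / 2) I hk hUm hmk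
      (by positivity) u η K ((C + 1) / N) (fun i => (hη0 i).le)
      (fun i hi => (hu i hi).2.2.1)
      (fun i hi => by have := (hu i hi).2.2.2; omega)
      (by
        intro i hi
        obtain ⟨h1, _, _, _⟩ := hu i hi
        rw [hRcast, hmcast]
        have h2 : M ^ (3 * k) * η i ≤ (1 / 2) ^ (u i) * N := by
          have h3 : x i = M ^ (3 * k) * η i / N := by rw [hx]
          rw [h3, div_le_iff₀ hN0] at h1
          exact h1
        have h4 : (0 : ℝ) < 2 ^ (u i) := by positivity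
        have h5 : (2 : ℝ) ^ (u i) * (1 / 2) ^ (u i) = 1 := by rw [← mul_pow]; norm_num
        calc η i * 2 ^ (u i) * M ^ (3 * k) = 2 ^ (u i) * (M ^ (3 * k) * η i) := by ring
          _ ≤ 2 ^ (u i) * ((1 / 2) ^ (u i) * N) := mul_le_mul_of_nonneg_left h2 h4.le
          _ = (2 ^ (u i) * (1 / 2) ^ (u i)) * N := by ring
          _ = N := by rw [h5, one_mul])
      (by
        intro i _
        rw [hK, hRcast]
        simp only
        rw [sum_range_succ]; ring)
      hKz
      (by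
        rw [div_le_div_iff₀ hN0 (by norm_num)]
        linarith)
      (by
        rw [hRcast, hN, ← hs, ← hN, ← hss, ← mul_div_assoc, div_le_one (by positivity)]
        apply mul_le_mul_of_nonneg_left _ hs0.le
        linarith)
      (by
        intro i hi
        obtain ⟨_, h2, _, _⟩ := hu i hi
        rw [hRcast, hmcast, hηs, hN, ← hs, ← hN]
        have h3 : (1 / 2 : ℝ) ^ (u i) ≤ 2 * (M ^ (3 * k) * η i / N) := by
          have : x i = M ^ (3 * k) * η i / N := by rw [hx]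
          rw [← this]; exact h2
        have hηi := hη0 i
        have g1 : 4 * s * (1 / 2) ^ (u i) * M ^ k ≤ η i / t / 2 := by
          calc 4 * s * (1 / 2) ^ (u i) * M ^ k
              ≤ 4 * s * (2 * (M ^ (3 * k) * η i / N)) * M ^ k := by
                apply mul_le_mul_of_nonneg_right _ (by positivity)
                exact mul_le_mul_of_nonneg_left h3 (by positivity)
            _ = 8 * M ^ (4 * k) * η i / s := by
                rw [← hss]
                have e : M ^ (4 * k) = M ^ (3 * k) * M ^ k := by rw [← pow_add]; congr 1; ring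
                rw [e]
                field_simp
                ring
            _ ≤ η i / t / 2 := by
                rw [div_div, div_le_div_iff₀ hs0 (by positivity)]
                have h4 : 16 * M ^ (4 * k) * t ≤ s := by
                  calc 16 * M ^ (4 * k) * t ≤ t * t := mul_le_mul_of_nonneg_right E4 ht0.le
                    _ = t ^ 2 := by ring
                    _ ≤ s := hst
                calc 8 * M ^ (4 * k) * η i * (t * 2) = η i * (16 * M ^ (4 * k) * t) := by ring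
                  _ ≤ η i * s := mul_le_mul_of_nonneg_left h4 hηi.le
        have g2 : 16 * k * ((C + 1) / N) * (N * (1 / 2) ^ (u i)) ≤ η i / t / 2 := by
          calc 16 * k * ((C + 1) / N) * (N * (1 / 2) ^ (u i))
              ≤ 16 * k * ((C + 1) / N) * (N * (2 * (M ^ (3 * k) * η i / N))) := by
                apply mul_le_mul_of_nonneg_left _ (by positivity)
                exact mul_le_mul_of_nonneg_left h3 hN0.le
            _ = 32 * k * (C + 1) * M ^ (3 * k) * η i / N := by field_simp; ring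
            _ ≤ η i / t / 2 := by
                rw [div_div, div_le_div_iff₀ hN0 (by positivity)]
                have h4 : 64 * k * (C + 1) * M ^ (3 * k) * t ≤ N := by
                  calc 64 * k * (C + 1) * M ^ (3 * k) * t ≤ t * t :=
                        mul_le_mul_of_nonneg_right E5 ht0.le
                    _ = t ^ 2 := by ring
                    _ ≤ s := hst
                    _ ≤ N := hsN
                calc 32 * k * (C + 1) * M ^ (3 * k) * η i * (t * 2)
                    = η i * (64 * k * (C + 1) * M ^ (3 * k) * t) := by ring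
                  _ ≤ η i * N := mul_le_mul_of_nonneg_left h4 hηi.le
        linarith)
      F₀
      (by
        have e : K 0 = C / N := by rw [hK]; simp
        rw [e]; exact hinv)
      (by
        intro B hB2 hBk
        have h1 := h0 B hB2 hBk
        have hpos : 2 ≤ B.card ∧ B.card < k := ⟨hB2, hBk⟩
        simp only [if_pos hpos] at h1
        rw [hRcast]
        have e : η 0 = M ^ (2 * k) / (N * s) := by rw [hη]; simp
        rw [e]; exact h1)
      I (le_refl I)
    refine ⟨F, f1, f3, ?_, ?_⟩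
    · rw [hRcast] at f4
      refine f4.trans ?_
      have h1 : ∑ i ∈ range I, N * (1 / 2) ^ (u i) ≤ ∑ i ∈ range I, 2 * P / (N * s) :=
        sum_le_sum fun i hi => hterm i (mem_range.1 hi)
      rw [sum_const, card_range, nsmul_eq_mul] at h1
      refine h1.trans ?_
      rw [← mul_div_assoc]
      apply div_le_div_of_nonneg_right _ (by positivity)
      have e : M ^ (6 * k) = M ^ k * P := by rw [hP, ← pow_add]; congr 1; ring
      rw [e]
      calc (I : ℝ) * (2 * P) = 2 * I * P := by ring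
        _ ≤ M ^ k * P := mul_le_mul_of_nonneg_right h2I (by positivity)
    · intro B hB2 hBk
      have h1 := f5 B hB2 hBk
      rw [Ico_self, sum_empty, add_zero] at h1
      have e : η I = M ^ (2 * k) / (N * s) / 2 ^ (I * (L / 4)) := by
        rw [hη]
        simp only
        rw [ht, ← pow_mul, mul_comm I]
      rw [← e]; exact h1

end Pool.Agent.H.MP_cba12a_lc.SQ
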