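import Pool.Agent.H.MP_cba12a_lc.SQ.Defs

namespace Pool.Agent.H.MP_cba12a_lc.SQ

open Finset Filter Topology

theorem theta_bound {m : ℕ} (k : ℕ) (t : ℝ) (ht : 0 ≤ t) (θ : Finset (Fin m) → ℝ)
    (hθ : ∀ B, |θ B| ≤ 2 ^ (k * B.card) * t)
    (c : Finset (Fin m) → Finset (Fin m) → ℝ) (hc : ∀ B₀ B, |c B₀ B| ≤ 1)
    (B : Finset (Fin m)) (hB : 2 ≤ B.card) (hBk : B.card < k) (r : ℝ) (hr : |r| ≤ t) :
    |r - ∑ B₀ ∈ B.ssubsets, θ B₀ * c B₀ B| ≤ 2 ^ (k * B.card) * t := by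
  have h1 : |∑ B₀ ∈ B.ssubsets, θ B₀ * c B₀ B| ≤ 2 ^ B.card * (2 ^ (k * (B.card - 1)) * t) := by
    calc |∑ B₀ ∈ B.ssubsets, θ B₀ * c B₀ B| ≤ ∑ B₀ ∈ B.ssubsets, |θ B₀ * c B₀ B| :=
          abs_sum_le_sum_abs _ _
      _ ≤ ∑ _B₀ ∈ B.ssubsets, 2 ^ (k * (B.card - 1)) * t := by
          apply sum_le_sum
          intro B₀ h0
          have hlt : B₀.card < B.card := card_lt_card (mem_ssubsets.1 h0)
          rw [abs_mul]
          calc |θ B₀| * |c B₀ B| ≤ (2 ^ (k * B₀.card) * t) * 1 := by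
                have := hθ B₀
                have := hc B₀ B
                gcongr
            _ = 2 ^ (k * B₀.card) * t := mul_one _
            _ ≤ 2 ^ (k * (B.card - 1)) * t := by
                gcongr
                · norm_num
                · omega
      _ = (B.ssubsets.card : ℝ) * (2 ^ (k * (B.card - 1)) * t) := by
          rw [sum_const, nsmul_eq_mul]
      _ ≤ 2 ^ B.card * (2 ^ (k * (B.card - 1)) * t) := by
          gcongr
          have h2 : B.ssubsets.card ≤ B.powerset.card :=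
            card_le_card (fun x hx => mem_powerset.2 (mem_ssubsets.1 hx).subset)
          rw [card_powerset] at h2
          exact_mod_cast h2
  obtain ⟨j, hj⟩ : ∃ j, B.card = j + 1 := ⟨B.card - 1, by omega⟩
  have h3 : (2 : ℝ) ^ B.card * 2 ^ (k * (B.card - 1)) ≤ 2 ^ (k * B.card - 1) := by
    rw [← pow_add]
    apply pow_le_pow_right₀ (by norm_num)
    rw [hj] at hBk ⊢
    have : k * (j + 1) = k * j + k := by ring
    simp only [Nat.add_sub_cancel]
    omega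
  have h4 : (1 : ℝ) ≤ 2 ^ (k * B.card - 1) := one_le_pow₀ (by norm_num)
  have h5 : (2 : ℝ) ^ (k * B.card) = 2 ^ (k * B.card - 1) + 2 ^ (k * B.card - 1) := by
    have : k * B.card = (k * B.card - 1) + 1 := by
      have : 0 < k * B.card := by
        apply Nat.mul_pos <;> omega
      omega
    conv_lhs => rw [this, pow_succ]
    ring
  calc |r - ∑ B₀ ∈ B.ssubsets, θ B₀ * c B₀ B|
      ≤ |r| + |∑ B₀ ∈ B.ssubsets, θ B₀ * c B₀ B| := abs_sub _ _
    _ ≤ t + 2 ^ B.card * (2 ^ (k * (B.card - 1)) * t) := add_le_add hr h1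
    _ = (1 + 2 ^ B.card * 2 ^ (k * (B.card - 1))) * t := by ring
    _ ≤ (2 ^ (k * B.card - 1) + 2 ^ (k * B.card - 1)) * t := by gcongr
    _ = 2 ^ (k * B.card) * t := by rw [h5]

theorem theta_step {m : ℕ} (k : ℕ) (t : ℝ) (ht : 0 ≤ t) (τ : Finset (Fin m) → ℝ)
    (hτ : ∀ B, |τ B| ≤ t) (c : Finset (Fin m) → Finset (Fin m) → ℝ) (hc : ∀ B₀ B, |c B₀ B| ≤ 1)
    (j : ℕ) :
    ∃ θ : Finset (Fin m) → ℝ, (∀ B, |θ B| ≤ 2 ^ (k * B.card) * t) ∧
      (∀ B, ¬ (2 ≤ B.card ∧ B.card < k ∧ B.card < j) → θ B = 0) ∧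
      ∀ B, 2 ≤ B.card → B.card < k → B.card < j →
        θ B + ∑ B₀ ∈ B.ssubsets, θ B₀ * c B₀ B = τ B := by
  induction j with
  | zero =>
    refine ⟨fun _ => 0, ?_, fun _ _ => rfl, fun B _ _ h => absurd h (by omega)⟩
    intro B
    simp only [abs_zero]
    positivity
  | succ j ih =>
    obtain ⟨θ, h1, h2, h3⟩ := ih
    refine ⟨fun B => if B.card = j ∧ 2 ≤ j ∧ j < k then τ B - ∑ B₀ ∈ B.ssubsets, θ B₀ * c B₀ B
      else θ B, ?_, ?_, ?_⟩
    · intro B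
      by_cases h : B.card = j ∧ 2 ≤ j ∧ j < k
      · simp only [if_pos h]
        exact theta_bound k t ht θ h1 c hc B (by omega) (by omega) (τ B) (hτ B)
      · simp only [if_neg h]
        exact h1 B
    · intro B hB
      have h : ¬ (B.card = j ∧ 2 ≤ j ∧ j < k) := by omega
      simp only [if_neg h]
      exact h2 B (by omega)
    · intro B hB1 hB2 hB3
      have hss : ∀ B₀ ∈ B.ssubsets, (if B₀.card = j ∧ 2 ≤ j ∧ j < k then
          τ B₀ - ∑ B₁ ∈ B₀.ssubsets, θ B₁ * c B₁ B₀ else θ B₀) * c B₀ B = θ B₀ * c B₀ B := by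
        intro B₀ h0
        have hlt : B₀.card < B.card := card_lt_card (mem_ssubsets.1 h0)
        have h : ¬ (B₀.card = j ∧ 2 ≤ j ∧ j < k) := by omega
        rw [if_neg h]
      simp only []
      rw [sum_congr rfl hss]
      by_cases h : B.card = j
      · rw [if_pos ⟨h, by omega, by omega⟩]
        ring
      · rw [if_neg (by omega)]
        exact h3 B hB1 hB2 (by omega)

/-- solving a triangular system over subsets -/
theorem exists_theta {m : ℕ} (k : ℕ) (t : ℝ) (ht : 0 ≤ t) (τ : Finset (Fin m) → ℝ)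
    (hτ : ∀ B, |τ B| ≤ t) (c : Finset (Fin m) → Finset (Fin m) → ℝ) (hc : ∀ B₀ B, |c B₀ B| ≤ 1) :
    ∃ θ : Finset (Fin m) → ℝ, (∀ B, |θ B| ≤ 2 ^ (k * k) * t) ∧
      (∀ B, ¬ (2 ≤ B.card ∧ B.card < k) → θ B = 0) ∧
      ∀ B, 2 ≤ B.card → B.card < k → θ B + ∑ B₀ ∈ B.ssubsets, θ B₀ * c B₀ B = τ B := by
  obtain ⟨θ, h1, h2, h3⟩ := theta_step k t ht τ hτ c hc k
  refine ⟨θ, ?_, fun B hB => h2 B (by omega), fun B hB1 hB2 => h3 B hB1 hB2 hB2⟩
  intro B
  by_cases h : B.card < k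
  · refine (h1 B).trans ?_
    gcongr
    norm_num
  · rw [h2 B (by omega)]
    simp only [abs_zero]
    positivity

end Pool.Agent.H.MP_cba12a_lc.SQ
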