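import Pool.Agent.H.MP_cba12a_lc.SQ.Gadg
import Pool.Agent.H.MP_cba12a_lc.SQ.Theta

namespace Pool.Agent.H.MP_cba12a_lc.SQ

open Finset Filter Topology

/-- shifting both entries increases the binomial coefficient -/
theorem stagedist_choose_shift (M u t : ℕ) : M.choose u ≤ (M + t).choose (u + t) := by
  induction t with
  | zero => simp
  | succ t ih =>
    refine ih.trans ?_
    rw [← add_assoc, ← add_assoc, Nat.choose_succ_succ]
    exact Nat.le_add_right _ _

theorem stagedist_choose_up (n u c : ℕ) : n.choose (u + c) ≤ n ^ c * n.choose u := by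
  induction c with
  | zero => simp
  | succ c ih =>
    have h1 := Nat.choose_succ_right_eq n (u + c)
    have h2 : n.choose (u + c + 1) ≤ n.choose (u + c) * n := by
      calc n.choose (u + c + 1) ≤ n.choose (u + c + 1) * (u + c + 1) :=
            Nat.le_mul_of_pos_right _ (by omega)
        _ = n.choose (u + c) * (n - (u + c)) := h1
        _ ≤ n.choose (u + c) * n := Nat.mul_le_mul_left _ (Nat.sub_le _ _)
    rw [← add_assoc]
    calc n.choose (u + c + 1) ≤ n.choose (u + c) * n := h2
      _ ≤ (n ^ c * n.choose u) * n := Nat.mul_le_mul_right _ ih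
      _ = n ^ (c + 1) * n.choose u := by ring

theorem stagedist_choose_down (M u b : ℕ) (h : 2 * u ≤ M) :
    (M + b).choose u ≤ 2 ^ b * M.choose u := by
  induction b with
  | zero => simp
  | succ b ih =>
    have h1 := Nat.choose_mul_succ_eq (M + b) u
    have h2 : (M + b + 1).choose u * (M + b + 1 - u) ≤
        (2 * (M + b).choose u) * (M + b + 1 - u) := by
      rw [← h1]
      calc (M + b).choose u * (M + b + 1) ≤ (M + b).choose u * (2 * (M + b + 1 - u)) :=
            Nat.mul_le_mul_left _ (by omega)
        _ = (2 * (M + b).choose u) * (M + b + 1 - u) := by ring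
    have h3 := Nat.le_of_mul_le_mul_right h2 (by omega)
    rw [← add_assoc]
    calc (M + b + 1).choose u ≤ 2 * (M + b).choose u := h3
      _ ≤ 2 * (2 ^ b * M.choose u) := Nat.mul_le_mul_left _ ih
      _ = 2 ^ (b + 1) * M.choose u := by ring

theorem stagedist_geom (m k : ℕ) (hm : 2 ≤ m) : ∑ j ∈ range k, m ^ j ≤ m ^ k := by
  induction k with
  | zero => simp
  | succ k ih =>
    rw [sum_range_succ, pow_succ]
    calc ∑ j ∈ range k, m ^ j + m ^ k ≤ m ^ k + m ^ k := by omega
      _ = m ^ k * 2 := by ring
      _ ≤ m ^ k * m := Nat.mul_le_mul_left _ hm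

theorem stagedist_count {m : ℕ} (k : ℕ) (hm : 2 ≤ m) :
    (univ.filter fun B : Finset (Fin m) => B.card < k).card ≤ m ^ k := by
  refine le_trans ?_ (stagedist_geom m k hm)
  have h1 : (univ.filter fun B : Finset (Fin m) => B.card < k) =
      (range k).biUnion fun j => powersetCard j (univ : Finset (Fin m)) := by
    ext B
    simp [mem_powersetCard]
  rw [h1]
  refine card_biUnion_le.trans ?_
  apply sum_le_sum
  intro j _
  rw [card_powersetCard, card_univ, Fintype.card_fin]
  exact Nat.choose_le_pow m j

theorem stagedist_c_le {m : ℕ} (u : ℕ) (B₀ B : Finset (Fin m)) :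
    |(if B₀ ⊆ B then ((m - (B₀ ∪ B).card).choose (u - (B \ B₀).card) : ℝ) /
        ((m - B₀.card).choose u : ℝ) * (if (B \ B₀).card ≤ u then 1 else 0) else 0)| ≤ 1 := by
  by_cases h : B₀ ⊆ B
  · rw [if_pos h]
    by_cases h2 : (B \ B₀).card ≤ u
    · rw [if_pos h2, mul_one, abs_of_nonneg (by positivity)]
      apply div_le_one_of_le₀ _ (by positivity)
      have hc := card_sdiff_add_card_eq_card h
      have hB : B.card ≤ m := by
        have := card_le_univ B
        rwa [Fintype.card_fin] at this
      rw [union_eq_right.2 h]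
      have h3 := stagedist_choose_shift (m - B.card) (u - (B \ B₀).card) (B \ B₀).card
      have e1 : m - B.card + (B \ B₀).card = m - B₀.card := by omega
      have e2 : u - (B \ B₀).card + (B \ B₀).card = u := by omega
      rw [e1, e2] at h3
      exact_mod_cast h3
    · rw [if_neg h2, mul_zero, abs_zero]
      norm_num
  · rw [if_neg h, abs_zero]
    norm_num

theorem stagedist_gadg_abs {m : ℕ} (u : ℕ) (B₀ T : Finset (Fin m)) :
    |gadg u B₀ T| = if (T \ B₀).card = u then
      2 ^ T.card / ((m - B₀.card).choose u : ℝ) else 0 := by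
  unfold gadg
  split
  · rw [abs_div, abs_mul, abs_pow, abs_neg, abs_one, one_pow, one_mul,
      abs_of_nonneg (by positivity : (0 : ℝ) ≤ 2 ^ T.card),
      abs_of_nonneg (by positivity : (0 : ℝ) ≤ ((m - B₀.card).choose u : ℝ))]
  · exact abs_zero

/-- numerical bound for the ratio -/
theorem stagedist_ratio {m k u b₀ c : ℕ} (hb : b₀ < k) (hc : c < k) (hm : 2 * (u + k) ≤ m) :
    1 / ((m - b₀).choose u : ℝ) ≤ 2 ^ k * (m : ℝ) ^ k / (m.choose (u + c) : ℝ) := by
  have hm1 : 1 ≤ m := by omega
  have h1 : m.choose (u + c) ≤ (2 ^ k * m ^ k) * (m - b₀).choose u := by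
    have h2 := stagedist_choose_up m u c
    have h3 := stagedist_choose_down (m - b₀) u b₀ (by omega)
    have e : m - b₀ + b₀ = m := by omega
    rw [e] at h3
    calc m.choose (u + c) ≤ m ^ c * m.choose u := h2
      _ ≤ m ^ c * (2 ^ b₀ * (m - b₀).choose u) := Nat.mul_le_mul_left _ h3
      _ ≤ m ^ k * (2 ^ k * (m - b₀).choose u) := by
          apply Nat.mul_le_mul
          · exact Nat.pow_le_pow_right hm1 hc.le
          · exact Nat.mul_le_mul_right _ (Nat.pow_le_pow_right (by norm_num) hb.le)
      _ = (2 ^ k * m ^ k) * (m - b₀).choose u := by ring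
  have hp1 : (0 : ℝ) < ((m - b₀).choose u : ℝ) := by
    exact_mod_cast Nat.choose_pos (by omega)
  have hp2 : (0 : ℝ) < (m.choose (u + c) : ℝ) := by
    exact_mod_cast Nat.choose_pos (by omega)
  rw [div_le_div_iff₀ hp1 hp2, one_mul]
  exact_mod_cast h1

theorem stage_dist {m : ℕ} (k u : ℕ) (hk : 3 ≤ k) (hku : k ≤ u) (hm : 2 * (u + k) ≤ m)
    (hmk : 2 ^ (k * k + 4 * k) ≤ m) (τ : Finset (Fin m) → ℝ)
    (hτ : ∀ B, |τ B| * 2 ^ u * (m : ℝ) ^ (3 * k) ≤ 1) :
    ∃ p : Option (Finset (Fin m)) → ℝ, (∀ ω, 0 ≤ p ω) ∧ ∑ ω, p ω = 1 ∧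
      (∀ T, p (some T) ≠ 0 → u ≤ T.card ∧ T.card ≤ u + k) ∧
      (∀ x : Finset (Fin m), ∑ T, p (some T) * cj T x ≤ ((x.card : ℝ) / m) ^ u) ∧
      ∀ B : Finset (Fin m), 2 ≤ B.card → B.card < k →
        ∑ T, p (some T) * co (cj T) B = plan m k u B.card + τ B := by
  have hm0 : (0 : ℝ) < m := by
    have : 0 < m := by omega
    exact_mod_cast this
  have hm2 : 2 ≤ m := by omega
  have hkR : (0 : ℝ) < k := by
    have : 0 < k := by omega
    exact_mod_cast this
  set t0 : ℝ := 1 / (2 ^ u * (m : ℝ) ^ (3 * k)) with ht0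
  have ht0n : 0 ≤ t0 := by positivity
  have hτ' : ∀ B, |τ B| ≤ t0 := by
    intro B
    rw [ht0, le_div_iff₀ (by positivity), ← mul_assoc]
    exact hτ B
  set c : Finset (Fin m) → Finset (Fin m) → ℝ := fun B₀ B =>
    (if B₀ ⊆ B then ((m - (B₀ ∪ B).card).choose (u - (B \ B₀).card) : ℝ) /
        ((m - B₀.card).choose u : ℝ) * (if (B \ B₀).card ≤ u then 1 else 0) else 0) with hcdef
  obtain ⟨θ, hθb, hθ0, hθe⟩ := exists_theta k t0 ht0n τ hτ' c (fun B₀ B => stagedist_c_le u B₀ B)
  set b : Finset (Fin m) → ℝ := fun T => ∑ l ∈ range k, (if T.card = u + l then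
      1 / (2 * k) / (m.choose (u + l) : ℝ) else 0) with hbdef
  set s : Finset (Fin m) → ℝ := fun T => ∑ B₀, θ B₀ * gadg u B₀ T with hsdef
  have hb0 : ∀ T, 0 ≤ b T := by
    intro T
    apply sum_nonneg
    intro l _
    split
    · positivity
    · exact le_rfl
  have hbval : ∀ T : Finset (Fin m), ∀ l, l < k → T.card = u + l →
      b T = 1 / (2 * k) / (m.choose (u + l) : ℝ) := by
    intro T l hl hT
    rw [hbdef]
    simp only
    rw [sum_eq_single l]
    · rw [if_pos hT]
    · intro l' _ hne
      rw [if_neg (by omega)]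
    · intro h
      exact absurd (mem_range.2 hl) h
  have hterm : ∀ T B₀ : Finset (Fin m), θ B₀ * gadg u B₀ T ≠ 0 →
      B₀.card < k ∧ u ≤ T.card ∧ T.card < u + k := by
    intro T B₀ hne
    have h1 : θ B₀ ≠ 0 := left_ne_zero_of_mul hne
    have h2 : gadg u B₀ T ≠ 0 := right_ne_zero_of_mul hne
    have h3 : 2 ≤ B₀.card ∧ B₀.card < k := by
      by_contra h
      exact h1 (hθ0 B₀ h)
    have h4 : (T \ B₀).card = u := by
      by_contra h
      apply h2
      unfold gadg
      rw [if_neg h]
    have h5 := card_sdiff_add_card_inter T B₀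
    have h6 : (T ∩ B₀).card ≤ B₀.card := card_le_card inter_subset_right
    exact ⟨h3.2, by omega, by omega⟩
  have hkey : (2 : ℝ) ^ (k * k + 2 * k) * (2 * k) ≤ (m : ℝ) ^ k := by
    have h1 : 2 ^ (k * k + 2 * k) * (2 * k) ≤ m ^ k := by
      have h2 : 2 * k ≤ 2 ^ (2 * k) := (Nat.lt_two_pow_self).le
      calc 2 ^ (k * k + 2 * k) * (2 * k) ≤ 2 ^ (k * k + 2 * k) * 2 ^ (2 * k) :=
            Nat.mul_le_mul_left _ h2
        _ = 2 ^ (k * k + 4 * k) := by rw [← pow_add]; congr 1; ring
        _ ≤ m := hmk
        _ = m ^ 1 := (pow_one m).symm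
        _ ≤ m ^ k := Nat.pow_le_pow_right (by omega) (by omega)
    exact_mod_cast h1
  have hs : ∀ T, |s T| ≤ b T := by
    intro T
    by_cases hT : u ≤ T.card ∧ T.card < u + k
    · obtain ⟨cc, hcc⟩ := Nat.exists_eq_add_of_le hT.1
      have hcck : cc < k := by omega
      rw [hbval T cc hcck hcc]
      have hP : (0 : ℝ) < (m.choose (u + cc) : ℝ) := by
        exact_mod_cast Nat.choose_pos (by omega)
      have h1 : |s T| ≤ ∑ B₀ ∈ univ.filter (fun B : Finset (Fin m) => B.card < k),
          (2 ^ (k * k) * t0) * (2 ^ (u + k) * (2 ^ k * (m : ℝ) ^ k / (m.choose (u + cc) : ℝ))) := by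
        rw [hsdef]
        simp only
        rw [← sum_subset (subset_univ (univ.filter (fun B : Finset (Fin m) => B.card < k)))]
        · refine (abs_sum_le_sum_abs _ _).trans ?_
          apply sum_le_sum
          intro B₀ hB₀
          have hB₀' := (mem_filter.1 hB₀).2
          rw [abs_mul]
          apply mul_le_mul (hθb B₀) _ (abs_nonneg _) (by positivity)
          rw [stagedist_gadg_abs]
          split
          · rw [div_eq_mul_one_div]
            apply mul_le_mul
            · apply pow_le_pow_right₀ (by norm_num)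
              omega
            · exact stagedist_ratio hB₀' hcck hm
            · positivity
            · positivity
          · positivity
        · intro B₀ _ hB₀
          by_contra hne
          exact hB₀ (mem_filter.2 ⟨mem_univ _, (hterm T B₀ hne).1⟩)
      refine h1.trans ?_
      rw [sum_const, nsmul_eq_mul]
      have h2 : ((univ.filter (fun B : Finset (Fin m) => B.card < k)).card : ℝ) ≤ (m : ℝ) ^ k := by
        exact_mod_cast stagedist_count k hm2
      calc ((univ.filter (fun B : Finset (Fin m) => B.card < k)).card : ℝ) *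
            ((2 ^ (k * k) * t0) * (2 ^ (u + k) * (2 ^ k * (m : ℝ) ^ k / (m.choose (u + cc) : ℝ))))
          ≤ (m : ℝ) ^ k * ((2 ^ (k * k) * t0) *
            (2 ^ (u + k) * (2 ^ k * (m : ℝ) ^ k / (m.choose (u + cc) : ℝ)))) := by
            apply mul_le_mul_of_nonneg_right h2 (by positivity)
        _ = (2 ^ (k * k + 2 * k) / (m : ℝ) ^ k) / (m.choose (u + cc) : ℝ) := by
            rw [ht0]
            field_simp
            ring
        _ ≤ 1 / (2 * k) / (m.choose (u + cc) : ℝ) := by
            apply div_le_div_of_nonneg_right _ hP.le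
            rw [div_le_div_iff₀ (by positivity) (by positivity), one_mul]
            exact hkey
    · have h0 : s T = 0 := by
        rw [hsdef]
        simp only
        apply sum_eq_zero
        intro B₀ _
        by_contra hne
        exact hT (hterm T B₀ hne).2
      rw [h0, abs_zero]
      exact hb0 T
  have hp0 : ∀ T, 0 ≤ b T + s T := by
    intro T
    have := (abs_le.1 (hs T)).1
    linarith
  have hp2 : ∀ T, b T + s T ≤ 2 * b T := by
    intro T
    have := (abs_le.1 (hs T)).2
    linarith
  have hmass : ∑ T, (b T + s T) ≤ 1 := by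
    have h1 := plan_mass (m := m) k u (by omega) (by omega)
    calc ∑ T, (b T + s T) ≤ ∑ T, 2 * b T := sum_le_sum fun T _ => hp2 T
      _ = 2 * ∑ T, b T := by rw [mul_sum]
      _ = 1 := by
        rw [hbdef]
        simp only
        rw [h1]
        norm_num
  refine ⟨fun ω => match ω with
    | none => 1 - ∑ T, (b T + s T)
    | some T => b T + s T, ?_, ?_, ?_, ?_, ?_⟩
  · intro ω
    cases ω with
    | none =>
      simp only
      linarith
    | some T => exact hp0 T
  · rw [Fintype.sum_option]
    simp only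
    ring
  · intro T hT
    simp only at hT
    have hbT : b T ≠ 0 := by
      intro h
      have h1 := hs T
      rw [h] at h1
      have h2 : s T = 0 := abs_nonpos_iff.1 h1
      apply hT
      rw [h, h2, add_zero]
    have hex : ∃ l ∈ range k, (if T.card = u + l then
      1 / (2 * k) / (m.choose (u + l) : ℝ) else 0) ≠ 0 := exists_ne_zero_of_sum_ne_zero hbT
    obtain ⟨l, hl, hl2⟩ := hex
    have hl' := mem_range.1 hl
    have hTl : T.card = u + l := by
      by_contra h
      exact hl2 (if_neg h)
    omega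
  · intro x
    simp only
    have h1 := plan_avg (m := m) k u (by omega) (by omega) x
    calc ∑ T, (b T + s T) * cj T x ≤ ∑ T, (2 * b T) * cj T x := by
          apply sum_le_sum
          intro T _
          exact mul_le_mul_of_nonneg_right (hp2 T) (cj_nonneg T x)
      _ = 2 * ∑ T, b T * cj T x := by
          rw [mul_sum]
          apply sum_congr rfl
          intro T _
          ring
      _ ≤ 2 * (1 / 2 * ((x.card : ℝ) / m) ^ u) := mul_le_mul_of_nonneg_left h1 (by norm_num)
      _ = ((x.card : ℝ) / m) ^ u := by ring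
  · intro B hB2 hBk
    simp only
    have h1 := plan_sum (m := m) k u hku (by omega) (by omega) B hBk
    have h2 : ∑ T, (b T + s T) * co (cj T) B =
        ∑ T, b T * co (cj T) B + ∑ T, s T * co (cj T) B := by
      rw [← sum_add_distrib]
      apply sum_congr rfl
      intro T _
      ring
    rw [h2]
    have h3 : ∑ T, b T * co (cj T) B = plan m k u B.card := h1
    rw [h3]
    congr 1
    rw [← hθe B hB2 hBk]
    have h4 : ∑ T, s T * co (cj T) B = ∑ B₀, θ B₀ * c B₀ B := by
      calc ∑ T, s T * co (cj T) B = ∑ T, ∑ B₀, θ B₀ * (gadg u B₀ T * co (cj T) B) := by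
            apply sum_congr rfl
            intro T _
            rw [hsdef]
            simp only
            rw [sum_mul]
            apply sum_congr rfl
            intro B₀ _
            ring
        _ = ∑ B₀, ∑ T, θ B₀ * (gadg u B₀ T * co (cj T) B) := sum_comm
        _ = ∑ B₀, θ B₀ * c B₀ B := by
            apply sum_congr rfl
            intro B₀ _
            rw [← mul_sum]
            by_cases h0 : θ B₀ = 0
            · rw [h0, zero_mul, zero_mul]
            · have h5 : 2 ≤ B₀.card ∧ B₀.card < k := by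
                by_contra h
                exact h0 (hθ0 B₀ h)
              rw [gadg_sum u B₀ B (by omega)]
    rw [h4]
    have h5 : ∑ B₀, θ B₀ * c B₀ B = ∑ B₀ ∈ B.powerset, θ B₀ * c B₀ B := by
      symm
      apply sum_subset (subset_univ _)
      intro B₀ _ hB₀
      rw [hcdef]
      simp only
      rw [if_neg fun h => hB₀ (mem_powerset.2 h), mul_zero]
    rw [h5, ← add_sum_erase B.powerset (fun B₀ => θ B₀ * c B₀ B) (mem_powerset_self B)]
    have h6 : c B B = 1 := by
      rw [hcdef]
      simp only
      rw [if_pos (Subset.refl B), union_self, sdiff_self, bot_eq_empty, card_empty, Nat.sub_zero,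
        if_pos (Nat.zero_le u), mul_one]
      apply div_self
      have : 0 < (m - B.card).choose u := Nat.choose_pos (by omega)
      positivity
    rw [h6, mul_one]
    rfl

end Pool.Agent.H.MP_cba12a_lc.SQ
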