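import Pool.Agent.H.MP_cba12a_lc.SQ.Defs

namespace Pool.Agent.H.MP_cba12a_lc.SQ

open Finset Filter Topology

theorem moment_filter {m : ℕ} (x : Finset (Fin m)) : univ.filter (fun a => a ∈ x) = x := by
  ext a; simp

theorem moment_exp {m : ℕ} (hm : 0 < m) (r : ℝ) (x : Finset (Fin m)) :
    Real.exp (r * (2 * (x.card : ℝ) / m - 1)) =
      ∏ a, (if a ∈ x then Real.exp (r / m) else Real.exp (-(r / m))) := by
  have hm' : (m : ℝ) ≠ 0 := by positivity
  have h1 : ∀ a : Fin m, (if a ∈ x then Real.exp (r / m) else Real.exp (-(r / m)))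
      = Real.exp ((if a ∈ x then 2 * (r / m) else 0) - r / m) := by
    intro a
    by_cases h : a ∈ x
    · rw [if_pos h, if_pos h]; congr 1; ring
    · rw [if_neg h, if_neg h]; congr 1; ring
  rw [prod_congr rfl fun a _ => h1 a, ← Real.exp_sum, sum_sub_distrib]
  congr 1
  rw [← sum_filter]
  simp only [moment_filter, sum_const, card_univ, Fintype.card_fin, nsmul_eq_mul]
  field_simp

theorem moment_pow_le {m : ℕ} (hm : 0 < m) (s : ℕ) (x : Finset (Fin m)) :
    (2 * (x.card : ℝ) / m) ^ s ≤ Real.exp (s * (2 * (x.card : ℝ) / m - 1)) := by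
  have h0 : (0 : ℝ) ≤ 2 * (x.card : ℝ) / m := by positivity
  have h1 : 2 * (x.card : ℝ) / m ≤ Real.exp (2 * (x.card : ℝ) / m - 1) := by
    have := Real.add_one_le_exp (2 * (x.card : ℝ) / m - 1)
    linarith
  calc (2 * (x.card : ℝ) / m) ^ s ≤ (Real.exp (2 * (x.card : ℝ) / m - 1)) ^ s :=
        pow_le_pow_left₀ h0 h1 s
    _ = _ := by rw [← Real.exp_nat_mul]

theorem moment_ex_exp {m : ℕ} (hm : 0 < m) (r : ℝ) :
    ex (fun x : Finset (Fin m) => Real.exp (r * (2 * (x.card : ℝ) / m - 1))) ≤
      Real.exp (r ^ 2 / (2 * m)) := by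
  have hm' : (m : ℝ) ≠ 0 := by positivity
  have h1 : (fun x : Finset (Fin m) => Real.exp (r * (2 * (x.card : ℝ) / m - 1)))
      = fun x => ∏ a, (if a ∈ x then Real.exp (r / m) else Real.exp (-(r / m))) := by
    funext x; exact moment_exp hm r x
  rw [h1, ex_prod_mem]
  have h2 : (Real.exp (r / m) + Real.exp (-(r / m))) / 2 ≤ Real.exp ((r / m) ^ 2 / 2) := by
    rw [← Real.cosh_eq]; exact Real.cosh_le_exp_half_sq _
  calc ∏ _a : Fin m, (Real.exp (r / m) + Real.exp (-(r / m))) / 2
      ≤ ∏ _a : Fin m, Real.exp ((r / m) ^ 2 / 2) := by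
        apply Finset.prod_le_prod
        · intro a _; positivity
        · intro a _; exact h2
    _ = Real.exp (r ^ 2 / (2 * m)) := by
        rw [prod_const, card_univ, Fintype.card_fin, ← Real.exp_nat_mul]
        congr 1
        field_simp

theorem ex_pow_cj {m : ℕ} (hm : 0 < m) (D : Finset (Fin m)) (s : ℕ) :
    ex (fun x => (2 * (x.card : ℝ) / m) ^ s * cj D x) ≤
      (1 / 2) ^ D.card * Real.exp (s * D.card / m + s ^ 2 / (2 * m)) := by
  have hm' : (m : ℝ) ≠ 0 := by positivity
  have h1 : ex (fun x => (2 * (x.card : ℝ) / m) ^ s * cj D x) ≤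
      ex (fun x => ∏ a, (if a ∈ x then Real.exp (s / m) else
        (Real.exp (-((s : ℝ) / m)) * (if a ∈ D then 0 else 1)))) := by
    apply ex_mono
    intro x
    have e : (∏ a, (if a ∈ x then Real.exp (s / m) else
        (Real.exp (-((s : ℝ) / m)) * (if a ∈ D then 0 else 1))))
        = Real.exp (s * (2 * (x.card : ℝ) / m - 1)) * cj D x := by
      rw [moment_exp hm, cj_eq_prod, ← prod_mul_distrib]
      apply prod_congr rfl
      intro a _
      by_cases h : a ∈ x
      · simp only [if_pos h, mul_one]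
      · simp only [if_neg h]
    rw [e]
    exact mul_le_mul_of_nonneg_right (moment_pow_le hm s x) (cj_nonneg D x)
  refine h1.trans ?_
  rw [ex_prod_mem]
  have h2 : ∀ a : Fin m, (Real.exp (s / m) + Real.exp (-((s : ℝ) / m)) *
      (if a ∈ D then 0 else 1)) / 2 ≤
      (if a ∈ D then Real.exp (s / m) / 2 else 1) * Real.exp (((s : ℝ) / m) ^ 2 / 2) := by
    intro a
    by_cases h : a ∈ D
    · simp only [if_pos h, mul_zero, add_zero]
      have h3 : (1 : ℝ) ≤ Real.exp (((s : ℝ) / m) ^ 2 / 2) := Real.one_le_exp (by positivity)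
      have h4 : 0 ≤ Real.exp ((s : ℝ) / m) / 2 := by positivity
      nlinarith
    · simp only [if_neg h, mul_one, one_mul]
      rw [← Real.cosh_eq]; exact Real.cosh_le_exp_half_sq _
  calc ∏ a : Fin m, (Real.exp (s / m) + Real.exp (-((s : ℝ) / m)) *
      (if a ∈ D then 0 else 1)) / 2
      ≤ ∏ a : Fin m, ((if a ∈ D then Real.exp (s / m) / 2 else 1) *
          Real.exp (((s : ℝ) / m) ^ 2 / 2)) := by
        apply Finset.prod_le_prod
        · intro a _
          by_cases h : a ∈ D
          · simp only [if_pos h, mul_zero, add_zero]; positivity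
          · simp only [if_neg h]; positivity
        · intro a _; exact h2 a
    _ = (Real.exp (s / m) / 2) ^ D.card * Real.exp (s ^ 2 / (2 * m)) := by
        rw [prod_mul_distrib, prod_const, card_univ, Fintype.card_fin, ← Real.exp_nat_mul,
          prod_ite, prod_const, prod_const_one, mul_one, moment_filter]
        congr 2
        field_simp
    _ = (1 / 2) ^ D.card * Real.exp (s * D.card / m + s ^ 2 / (2 * m)) := by
        have e1 : (Real.exp ((s : ℝ) / m) / 2) ^ D.card
            = (1 / 2) ^ D.card * Real.exp (s * D.card / m) := by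
          rw [div_eq_mul_inv, mul_pow, ← Real.exp_nat_mul, one_div, mul_comm]
          congr 2
          ring
        rw [e1, Real.exp_add, mul_assoc]
    _ ≤ _ := le_refl _

theorem ex_far {m : ℕ} (hm : 0 < m) (d : ℕ) (t η : ℝ) (ht : 0 ≤ t) :
    ex (fun x : Finset (Fin m) => (2 * (x.card : ℝ) / m) ^ d *
      (if η ≤ |2 * (x.card : ℝ) / m - 1| then 1 else 0)) ≤
      Real.exp (-t * η) * (Real.exp ((d + t) ^ 2 / (2 * m)) + Real.exp ((d - t) ^ 2 / (2 * m))) := by
  have h1 : ex (fun x : Finset (Fin m) => (2 * (x.card : ℝ) / m) ^ d *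
      (if η ≤ |2 * (x.card : ℝ) / m - 1| then 1 else 0)) ≤
      ex (fun x : Finset (Fin m) => Real.exp (-t * η) *
        (Real.exp ((d + t) * (2 * (x.card : ℝ) / m - 1)) +
          Real.exp ((d - t) * (2 * (x.card : ℝ) / m - 1)))) := by
    apply ex_mono
    intro x
    have h2 := moment_pow_le hm d x
    generalize hz : 2 * (x.card : ℝ) / m - 1 = z at *
    have h3 : (if η ≤ |z| then (1 : ℝ) else 0) ≤
        Real.exp (-t * η) * (Real.exp (t * z) + Real.exp (-t * z)) := by
      split_ifs with h
      · have h4 : Real.exp (-t * η) * Real.exp (t * |z|) ≤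
            Real.exp (-t * η) * (Real.exp (t * z) + Real.exp (-t * z)) := by
          apply mul_le_mul_of_nonneg_left _ (Real.exp_pos _).le
          rcases abs_cases z with ⟨h5, _⟩ | ⟨h5, _⟩
          · rw [h5]; have := Real.exp_pos (-t * z); linarith
          · rw [h5]
            have := Real.exp_pos (t * z)
            have e : t * -z = -t * z := by ring
            rw [e]; linarith
        refine le_trans ?_ h4
        rw [← Real.exp_add]
        apply Real.one_le_exp
        nlinarith
      · positivity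
    have h6 : Real.exp (-t * η) * (Real.exp ((d + t) * z) + Real.exp ((d - t) * z))
        = Real.exp (d * z) * (Real.exp (-t * η) * (Real.exp (t * z) + Real.exp (-t * z))) := by
      have e1 : Real.exp ((d + t) * z) = Real.exp (d * z) * Real.exp (t * z) := by
        rw [← Real.exp_add]; congr 1; ring
      have e2 : Real.exp ((d - t) * z) = Real.exp (d * z) * Real.exp (-t * z) := by
        rw [← Real.exp_add]; congr 1; ring
      rw [e1, e2]; ring
    rw [h6]
    apply mul_le_mul h2 h3 _ (Real.exp_pos _).le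
    split_ifs <;> norm_num
  refine h1.trans ?_
  rw [ex_mul_left, ex_add]
  apply mul_le_mul_of_nonneg_left _ (Real.exp_pos _).le
  exact add_le_add (moment_ex_exp hm _) (moment_ex_exp hm _)

end Pool.Agent.H.MP_cba12a_lc.SQ
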