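import Pool.Agent.H.MP_cba12a_lc.SQ.Defs

namespace Pool.Agent.H.MP_cba12a_lc.SQ

open Finset Filter Topology

theorem radial_chi_insert_not_mem {m : ℕ} {b : Fin m} {B x : Finset (Fin m)} (hb : b ∉ B)
    (hx : b ∉ x) : chi (insert b B) x = - chi B x := by
  unfold chi
  rw [prod_insert hb, if_neg hx]
  ring

theorem radial_chi_insert_insert {m : ℕ} {b : Fin m} {B x : Finset (Fin m)} (hb : b ∉ B) :
    chi (insert b B) (insert b x) = chi B x := by
  unfold chi
  rw [prod_insert hb, if_pos (mem_insert_self b x), one_mul]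
  apply prod_congr rfl
  intro a ha
  have hab : a ≠ b := fun h => hb (h ▸ ha)
  simp [hab]

theorem radial_aux {m : ℕ} (B : Finset (Fin m)) : ∀ (U : Finset (Fin m)) (Φ : ℕ → ℝ), B ⊆ U →
    ∑ x ∈ U.powerset, chi B x * Φ x.card =
      ∑ x ∈ (U \ B).powerset, (fd^[B.card] Φ) x.card := by
  induction B using Finset.induction_on with
  | empty =>
    intro U Φ _
    simp [chi_empty]
  | insert b B hb ih =>
    intro U Φ hU
    have hbU : b ∈ U := hU (mem_insert_self b B)
    have h1 : U = insert b (U.erase b) := (insert_erase hbU).symm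
    have h2 : B ⊆ U.erase b := by
      intro a ha
      exact mem_erase.2 ⟨fun h => hb (h ▸ ha), hU (mem_insert_of_mem ha)⟩
    have h3 := ih (U.erase b) (fd Φ) h2
    have h4 : U \ insert b B = U.erase b \ B := by
      ext a
      simp only [Finset.mem_sdiff, Finset.mem_insert, Finset.mem_erase, not_or]
      tauto
    rw [card_insert_of_notMem hb, Function.iterate_succ_apply, h4, ← h3]
    conv_lhs => rw [h1]
    rw [sum_powerset_insert (notMem_erase b U), ← sum_add_distrib]
    apply sum_congr rfl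
    intro x hx
    have hbx : b ∉ x := fun h => notMem_erase b U (mem_powerset.1 hx h)
    rw [radial_chi_insert_not_mem hb hbx, radial_chi_insert_insert hb,
      card_insert_of_notMem hbx]
    unfold fd
    ring

theorem co_radial {m : ℕ} (Φ : ℕ → ℝ) (B : Finset (Fin m)) :
    co (fun x => Φ x.card) B = crad m B.card Φ := by
  unfold co ex crad
  congr 1
  have h1 := radial_aux B univ Φ (subset_univ B)
  rw [powerset_univ] at h1
  rw [sum_congr rfl fun x _ => mul_comm (Φ x.card) (chi B x), h1, sum_powerset_apply_card]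
  have h2 : (univ \ B).card = m - B.card := by
    rw [← compl_eq_univ_sdiff, card_compl, Fintype.card_fin]
  rw [h2]
  apply sum_congr rfl
  intro i _
  rw [nsmul_eq_mul]

/-- averages of radial functions -/
theorem ex_radial {m : ℕ} (Φ : ℕ → ℝ) :
    ex (fun x : Finset (Fin m) => Φ x.card) = (∑ i ∈ range (m + 1), (m.choose i : ℝ) * Φ i) / 2 ^ m := by
  rw [← co_empty, co_radial]
  simp [crad]

theorem ur_nonneg (m d n : ℕ) : 0 ≤ ur m d n := by
  unfold ur
  positivity

theorem ur_le (m d n : ℕ) (hn : n ≤ m) : ur m d n ≤ ((n : ℝ) / m) ^ d := by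
  induction d with
  | zero => simp [ur]
  | succ d ih =>
    have h0 : (0 : ℝ) ≤ ((n : ℝ) / m) ^ (d + 1) := by positivity
    by_cases hd : d < m
    · have hm : (0 : ℝ) < (m : ℝ) := by
        have : 0 < m := by omega
        exact_mod_cast this
      have hmd : (0 : ℝ) < ((m - d : ℕ) : ℝ) := by
        have : 0 < m - d := by omega
        exact_mod_cast this
      have h1 : ur m (d + 1) n = ur m d n * (((n - d : ℕ) : ℝ) / ((m - d : ℕ) : ℝ)) := by
        unfold ur
        have h2 := Nat.choose_succ_right_eq n d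
        have h3 := Nat.choose_succ_right_eq m d
        have h2' : (n.choose (d + 1) : ℝ) * ((d : ℝ) + 1) = (n.choose d : ℝ) * ((n - d : ℕ) : ℝ) := by
          exact_mod_cast h2
        have h3' : (m.choose (d + 1) : ℝ) * ((d : ℝ) + 1) = (m.choose d : ℝ) * ((m - d : ℕ) : ℝ) := by
          exact_mod_cast h3
        have h4 : (0 : ℝ) < (m.choose (d + 1) : ℝ) := by
          exact_mod_cast Nat.choose_pos (show d + 1 ≤ m by omega)
        have h5 : (0 : ℝ) < (m.choose d : ℝ) := by
          exact_mod_cast Nat.choose_pos (show d ≤ m by omega)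
        have h6 : (0 : ℝ) < (d : ℝ) + 1 := by positivity
        rw [div_mul_div_comm, ← h2', ← h3', mul_div_mul_right _ _ h6.ne']
      have h7 : ((n - d : ℕ) : ℝ) / ((m - d : ℕ) : ℝ) ≤ (n : ℝ) / m := by
        rw [div_le_div_iff₀ hmd hm]
        have : (n - d) * m ≤ n * (m - d) := by
          by_cases hnd : d ≤ n
          · obtain ⟨k, rfl⟩ := Nat.exists_eq_add_of_le hnd
            obtain ⟨l, rfl⟩ := Nat.exists_eq_add_of_le hd.le
            have hk : k ≤ l := by omega
            simp only [Nat.add_sub_cancel_left]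
            nlinarith
          · have : n - d = 0 := by omega
            rw [this]
            omega
        exact_mod_cast this
      rw [h1, pow_succ]
      have h8 := ur_nonneg m d n
      have h9 : (0 : ℝ) ≤ ((n - d : ℕ) : ℝ) / ((m - d : ℕ) : ℝ) := by positivity
      exact mul_le_mul ih h7 h9 (by positivity)
    · have : m.choose (d + 1) = 0 := Nat.choose_eq_zero_of_lt (by omega)
      unfold ur
      rw [this]
      simpa using h0

theorem radial_choose {m : ℕ} (d : ℕ) (x : Finset (Fin m)) :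
    (x.card.choose d : ℝ) = ∑ D ∈ powersetCard d (univ : Finset (Fin m)), cj D x := by
  have h1 : powersetCard d x = (powersetCard d (univ : Finset (Fin m))).filter (fun D => D ⊆ x) := by
    ext D
    simp only [mem_powersetCard, mem_filter, subset_univ, true_and]
    tauto
  rw [← card_powersetCard, h1, card_filter]
  push_cast
  rfl

theorem ex_ur {m : ℕ} (d : ℕ) (hd : d ≤ m) :
    ex (fun x : Finset (Fin m) => ur m d x.card) = (1 / 2) ^ d := by
  have h4 : (0 : ℝ) < (m.choose d : ℝ) := by
    exact_mod_cast Nat.choose_pos hd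
  have h1 : (fun x : Finset (Fin m) => ur m d x.card) =
      fun x => (1 / (m.choose d : ℝ)) * ∑ D ∈ powersetCard d (univ : Finset (Fin m)), cj D x := by
    funext x
    rw [← radial_choose]
    unfold ur
    ring
  rw [h1, ex_mul_left, ex_sum]
  have h2 : ∀ D ∈ powersetCard d (univ : Finset (Fin m)), ex (cj D) = (1 / 2 : ℝ) ^ d := by
    intro D hD
    rw [ex_cj, (mem_powersetCard.1 hD).2]
  rw [sum_congr rfl h2, sum_const, card_powersetCard, card_univ, Fintype.card_fin, nsmul_eq_mul]
  field_simp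

theorem radial_base (m e M n : ℕ) (hn : n ≤ m) :
    0 ≤ (1 - (1 - ((n : ℝ) / m) ^ e) ^ M) ∧ (1 - (1 - ((n : ℝ) / m) ^ e) ^ M) ≤ 1 := by
  have h0 : 0 ≤ (n : ℝ) / m := by positivity
  have h1 : (n : ℝ) / m ≤ 1 := by
    apply div_le_one_of_le₀ _ (Nat.cast_nonneg m)
    exact_mod_cast hn
  have h2 : 0 ≤ ((n : ℝ) / m) ^ e := by positivity
  have h3 : ((n : ℝ) / m) ^ e ≤ 1 := pow_le_one₀ h0 h1
  have h4 : 0 ≤ (1 - ((n : ℝ) / m) ^ e) ^ M := pow_nonneg (by linarith) M
  have h5 : (1 - ((n : ℝ) / m) ^ e) ^ M ≤ 1 := pow_le_one₀ (by linarith) (by linarith)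
  constructor <;> linarith

theorem blk_nonneg (m d e M n : ℕ) (hn : n ≤ m) : 0 ≤ blk m d e M n := by
  unfold blk
  exact mul_nonneg (ur_nonneg m d n) (radial_base m e M n hn).1

theorem blk_le_ur (m d e M n : ℕ) (hn : n ≤ m) : blk m d e M n ≤ ur m d n := by
  unfold blk
  exact mul_le_of_le_one_right (ur_nonneg m d n) (radial_base m e M n hn).2

theorem radial_abs_crad {m : ℕ} (d j : ℕ) (Φ : ℕ → ℝ) (hd : d ≤ m) (hj : j ≤ m)
    (hΦ : ∀ n ≤ m, |Φ n| ≤ ur m d n) : |crad m j Φ| ≤ (1 / 2) ^ d := by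
  obtain ⟨B, hB⟩ := Finset.exists_subset_card_eq (s := (univ : Finset (Fin m))) (n := j)
    (by simpa using hj)
  have h1 : crad m j Φ = co (fun x => Φ x.card) B := by
    rw [co_radial, hB.2]
  rw [h1, ← ex_ur (m := m) d hd]
  apply abs_co_le
  intro x
  apply hΦ
  have := card_le_univ x
  simpa using this

theorem abs_crad_ur_le (m d j : ℕ) (hd : d ≤ m) (hj : j ≤ m) :
    |crad m j (ur m d)| ≤ (1 / 2) ^ d := by
  apply radial_abs_crad d j (ur m d) hd hj
  intro n _
  rw [abs_of_nonneg (ur_nonneg m d n)]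

theorem abs_crad_blk_le (m d e M j : ℕ) (hd : d ≤ m) (hj : j ≤ m) :
    |crad m j (blk m d e M)| ≤ (1 / 2) ^ d := by
  apply radial_abs_crad d j (blk m d e M) hd hj
  intro n hn
  rw [abs_of_nonneg (blk_nonneg m d e M n hn)]
  exact blk_le_ur m d e M n hn

end Pool.Agent.H.MP_cba12a_lc.SQ
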