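import Pool.Agent.H.MP_cba12a_lc.SQ.Cols

namespace Pool.Agent.H.MP_cba12a_lc.SQ

open Finset Filter Topology

theorem sum_ones {m : ℕ} (f : Finset (Fin m) → ℝ) : ∑ y : Fin m → Bool, f (ones y) = ∑ x, f x := by
  have hb : Function.Bijective (ones : (Fin m → Bool) → Finset (Fin m)) := by
    constructor
    · intro y y' h
      funext a
      have h1 : (a ∈ ones y ↔ a ∈ ones y') := by rw [h]
      simp only [ones, Finset.mem_filter, Finset.mem_univ, true_and] at h1
      cases hy : y a <;> cases hy' : y' a <;> simp_all
    · intro x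
      refine ⟨fun a => decide (a ∈ x), ?_⟩
      ext a
      simp [ones]
  exact hb.sum_comp f

theorem fourier_chi {m : ℕ} (B : Finset (Fin m)) (y : Fin m → Bool) :
    chi B (ones y) = ∏ a ∈ B, sg (y a) := by
  unfold chi
  refine Finset.prod_congr rfl fun a _ => ?_
  simp [ones, sg]

theorem dep_expand {m : ℕ} (S : Finset (Fin m)) (G : (Fin m → Bool) → ℝ)
    (hG : ∀ y y', (∀ a ∈ S, y a = y' a) → G y = G y') :
    ∃ g : Finset (Fin m) → ℝ, ∀ y, G y = ∑ B ∈ S.powerset, g B * chi B (ones y) := by
  induction S using Finset.induction_on generalizing G with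
  | empty =>
    refine ⟨fun _ => G fun _ => false, fun y => ?_⟩
    rw [Finset.powerset_empty, Finset.sum_singleton, chi_empty, mul_one]
    exact hG _ _ (by simp)
  | insert a S ha ih =>
    have hupd : ∀ (b : Bool) (y y' : Fin m → Bool), (∀ c ∈ S, y c = y' c) →
        G (Function.update y a b) = G (Function.update y' a b) := by
      intro b y y' h
      refine hG _ _ fun c hc => ?_
      by_cases hca : c = a
      · subst hca
        rw [Function.update_self, Function.update_self]
      · rw [Function.update_of_ne hca, Function.update_of_ne hca]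
        exact h c ((Finset.mem_insert.1 hc).resolve_left hca)
    obtain ⟨g1, hg1⟩ := ih (fun y => (G (Function.update y a true)
      + G (Function.update y a false)) / 2) (fun y y' h => by
        simp only [hupd true y y' h, hupd false y y' h])
    obtain ⟨g2, hg2⟩ := ih (fun y => (G (Function.update y a true)
      - G (Function.update y a false)) / 2) (fun y y' h => by
        simp only [hupd true y y' h, hupd false y y' h])
    refine ⟨fun B => if a ∈ B then g2 (B.erase a) else g1 B, fun y => ?_⟩
    rw [Finset.sum_powerset_insert ha]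
    have e1 : ∑ B ∈ S.powerset, (if a ∈ B then g2 (B.erase a) else g1 B) * chi B (ones y)
        = (G (Function.update y a true) + G (Function.update y a false)) / 2 := by
      rw [hg1 y]
      refine Finset.sum_congr rfl fun B hB => ?_
      rw [if_neg fun h => ha (Finset.mem_powerset.1 hB h)]
    have e2 : ∑ B ∈ S.powerset, (if a ∈ insert a B then g2 ((insert a B).erase a)
          else g1 (insert a B)) * chi (insert a B) (ones y)
        = sg (y a) * ((G (Function.update y a true) - G (Function.update y a false)) / 2) := by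
      rw [hg2 y, Finset.mul_sum]
      refine Finset.sum_congr rfl fun B hB => ?_
      have haB : a ∉ B := fun h => ha (Finset.mem_powerset.1 hB h)
      rw [if_pos (Finset.mem_insert_self _ _), Finset.erase_insert haB, fourier_chi,
        Finset.prod_insert haB, fourier_chi]
      ring
    rw [e1, e2]
    cases hy : y a with
    | true =>
      have : Function.update y a true = y := by rw [← hy, Function.update_eq_self]
      rw [this]
      simp only [sg, if_true]
      ring
    | false =>
      have : Function.update y a false = y := by rw [← hy, Function.update_eq_self]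
      rw [this]
      simp [sg]
      ring

theorem fourier_prod {m : ℕ} (β : Fin m → ℝ) (B : Finset (Fin m)) :
    ∑ y : Fin m → Bool, (∏ a, (1 + β a * sg (y a))) * chi B (ones y) = 2 ^ m * ∏ a ∈ B, β a := by
  have h1 : ∀ y : Fin m → Bool, (∏ a, (1 + β a * sg (y a))) * chi B (ones y)
      = ∏ a, ((1 + β a * sg (y a)) * (if a ∈ B then sg (y a) else 1)) := by
    intro y
    rw [Finset.prod_mul_distrib, fourier_chi]
    congr 1
    simp
  rw [Finset.sum_congr rfl fun y _ => h1 y]
  have h2 := Finset.prod_univ_sum (fun _ : Fin m => (Finset.univ : Finset Bool))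
    (fun a b => (1 + β a * sg b) * (if a ∈ B then sg b else 1))
  rw [Fintype.piFinset_univ] at h2
  rw [← h2]
  have h3 : ∀ a : Fin m, ∑ b : Bool, (1 + β a * sg b) * (if a ∈ B then sg b else 1)
      = 2 * (if a ∈ B then β a else 1) := by
    intro a
    by_cases ha : a ∈ B
    · simp [ha, sg]
      ring
    · simp [ha, sg]
      ring
  rw [Finset.prod_congr rfl fun a _ => h3 a, Finset.prod_mul_distrib, Finset.prod_const,
    Finset.card_univ, Fintype.card_fin]
  congr 1
  simp

theorem orth_of_coeff {m k : ℕ} (β : Fin m → ℝ) (hβ : ∀ a, |β a| < 1) (η : ℝ) (hη : η ≠ 0)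
    (H : (Fin m → Bool) → ℝ)
    (hH : ∀ B : Finset (Fin m), B.card < k →
      (∑ y, H y * chi B (ones y)) / 2 ^ m = η * ∏ a ∈ B, β a)
    (S : Finset (Fin m)) (hS : S.card < k) (G : (Fin m → Bool) → ℝ)
    (hG : ∀ y y', (∀ a ∈ S, y a = y' a) → G y = G y') :
    ∑ y, wt β y * (H y / (η * ∏ a, (1 + β a * sg (y a))) - 1) * G y = 0 := by
  obtain ⟨g, hg⟩ := dep_expand S G hG
  have hP : ∀ y : Fin m → Bool, (∏ a, (1 + β a * sg (y a))) ≠ 0 := by
    intro y
    rw [Finset.prod_ne_zero_iff]
    intro a _
    have h1 := abs_lt.1 (hβ a)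
    cases y a with
    | true =>
      simp only [sg, if_true]
      linarith
    | false =>
      simp only [sg]
      simp
      linarith
  have h2 : ∀ y : Fin m → Bool, wt β y * (H y / (η * ∏ a, (1 + β a * sg (y a))) - 1)
      = (H y / η - ∏ a, (1 + β a * sg (y a))) / 2 ^ m := by
    intro y
    have hw : wt β y = (∏ a, (1 + β a * sg (y a))) / 2 ^ m := by
      unfold wt
      rw [Finset.prod_div_distrib, Finset.prod_const, Finset.card_univ, Fintype.card_fin]
    rw [hw]
    have := hP y
    field_simp
  have h3 : ∀ y : Fin m → Bool, wt β y * (H y / (η * ∏ a, (1 + β a * sg (y a))) - 1) * G y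
      = ∑ B ∈ S.powerset, g B * ((H y * chi B (ones y)) / η
        - (∏ a, (1 + β a * sg (y a))) * chi B (ones y)) / 2 ^ m := by
    intro y
    rw [h2, hg y, Finset.mul_sum]
    refine Finset.sum_congr rfl fun B _ => ?_
    ring
  rw [Finset.sum_congr rfl fun y _ => h3 y, Finset.sum_comm]
  refine Finset.sum_eq_zero fun B hB => ?_
  have hBk : B.card < k := lt_of_le_of_lt (Finset.card_le_card (Finset.mem_powerset.1 hB)) hS
  have h4 := hH B hBk
  have hm : (2 : ℝ) ^ m ≠ 0 := by positivity
  rw [div_eq_iff hm] at h4
  rw [← Finset.sum_div, ← Finset.mul_sum, Finset.sum_sub_distrib, ← Finset.sum_div, h4,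
    fourier_prod]
  field_simp
  ring

end Pool.Agent.H.MP_cba12a_lc.SQ
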