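import Pool.Agent.H.MP_cba12a_lc.SQ.Defs

namespace Pool.Agent.H.MP_cba12a_lc.SQ

open Finset Filter Topology

private theorem count_fiber {N : ℕ} (C A' : Finset (Fin N)) (σ : Equiv.Perm (Fin N))
    (hσ : ∀ c ∈ C, σ c ∈ A') :
    ((univ \ C).filter (fun c' => σ c' ∈ A')).card + C.card = A'.card := by
  have h1 : (univ.filter (fun c' => σ c' ∈ A')).card = A'.card := by
    apply Finset.card_equiv σ
    intro i
    simp
  rw [← h1, ← Finset.card_union_of_disjoint]
  · congr 1
    ext x
    simp only [mem_union, Finset.mem_filter, Finset.mem_sdiff, mem_univ, true_and]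
    constructor
    · rintro (h | h)
      · exact h.2
      · exact hσ x h
    · intro h
      by_cases hx : x ∈ C
      · exact Or.inr hx
      · exact Or.inl ⟨hx, h⟩
  · rw [Finset.disjoint_left]
    intro x hx
    simp only [Finset.mem_filter, Finset.mem_sdiff, mem_univ, true_and] at hx
    exact hx.1

private theorem count_swap {N : ℕ} (C A' : Finset (Fin N)) (c c' : Fin N) (hc : c ∉ C)
    (hc' : c' ∉ C) :
    (univ.filter fun σ : Equiv.Perm (Fin N) => (∀ d ∈ C, σ d ∈ A') ∧ σ c' ∈ A').card =
      (univ.filter fun σ : Equiv.Perm (Fin N) => ∀ d ∈ insert c C, σ d ∈ A').card := by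
  apply Finset.card_equiv (Equiv.mulRight (Equiv.swap c c'))
  intro σ
  simp only [mem_filter, mem_univ, true_and, Equiv.coe_mulRight, mem_insert, forall_eq_or_imp,
    Equiv.Perm.mul_apply, Equiv.swap_apply_left]
  have h : ∀ d ∈ C, Equiv.swap c c' d = d := fun d hd =>
    Equiv.swap_apply_of_ne_of_ne (fun h => hc (h ▸ hd)) (fun h => hc' (h ▸ hd))
  constructor
  · rintro ⟨h1, h2⟩
    refine ⟨h2, fun d hd => ?_⟩
    rw [h d hd]
    exact h1 d hd
  · rintro ⟨h1, h2⟩
    refine ⟨fun d hd => ?_, h1⟩
    have := h2 d hd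
    rwa [h d hd] at this

private theorem count_perm {N : ℕ} (A' C : Finset (Fin N)) :
    ((univ.filter fun σ : Equiv.Perm (Fin N) => ∀ c ∈ C, σ c ∈ A').card : ℝ) ≤
      (N.factorial : ℝ) * ((A'.card : ℝ) / N) ^ C.card := by
  induction C using Finset.induction_on with
  | empty =>
    simp [Finset.card_univ, Fintype.card_perm]
  | insert c C hc ih =>
    have hN : 0 < N := c.pos
    have hNr : (0 : ℝ) < N := by exact_mod_cast hN
    have hA'N : (A'.card : ℝ) ≤ N := by
      have := Finset.card_le_univ A'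
      rw [Fintype.card_fin] at this
      exact_mod_cast this
    set S0 := univ.filter fun σ : Equiv.Perm (Fin N) => ∀ d ∈ C, σ d ∈ A' with hS0
    set S1 := univ.filter fun σ : Equiv.Perm (Fin N) => ∀ d ∈ insert c C, σ d ∈ A' with hS1
    -- double counting
    have hdc : ∑ c' ∈ univ \ C, (S0.filter fun σ => σ c' ∈ A').card =
        ∑ σ ∈ S0, ((univ \ C).filter fun c' => σ c' ∈ A').card := by
      simp only [Finset.card_filter]
      exact Finset.sum_comm
    have hl : ∑ c' ∈ univ \ C, (S0.filter fun σ => σ c' ∈ A').card =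
        (univ \ C : Finset (Fin N)).card * S1.card := by
      rw [Finset.sum_const_nat]
      intro c' hc'
      have hc'' : c' ∉ C := by simpa using hc'
      rw [← count_swap C A' c c' hc hc'', hS0, Finset.filter_filter]
    have hr : ∑ σ ∈ S0, (((univ \ C).filter fun c' => σ c' ∈ A').card + C.card) =
        S0.card * A'.card := by
      rw [Finset.sum_const_nat]
      intro σ hσ
      apply count_fiber
      simpa [hS0] using hσ
    have hcard : (univ \ C : Finset (Fin N)).card + C.card = N := by
      rw [Finset.card_sdiff_add_card_eq_card (Finset.subset_univ C), Finset.card_univ,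
        Fintype.card_fin]
    have hclt : C.card < N := by
      have : (insert c C).card ≤ N := by
        have := Finset.card_le_univ (insert c C)
        rwa [Fintype.card_fin] at this
      rw [Finset.card_insert_of_notMem hc] at this
      omega
    -- real identity
    have e1 : ((N : ℝ) - C.card) * S1.card + C.card * S0.card = S0.card * A'.card := by
      have h1 : (univ \ C : Finset (Fin N)).card * S1.card + S0.card * C.card =
          S0.card * A'.card := by
        rw [← hl, hdc, ← hr, Finset.sum_add_distrib, Finset.sum_const, smul_eq_mul]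
      have h2 : ((univ \ C : Finset (Fin N)).card : ℝ) = (N : ℝ) - C.card := by
        rw [eq_sub_iff_add_eq]
        exact_mod_cast hcard
      rw [← h2]
      have h3 : (((univ \ C : Finset (Fin N)).card * S1.card + S0.card * C.card : ℕ) : ℝ) =
          ((S0.card * A'.card : ℕ) : ℝ) := by rw [h1]
      push_cast at h3
      linarith
    have hx : (0 : ℝ) < (N : ℝ) - C.card := by
      have : (C.card : ℝ) < N := by exact_mod_cast hclt
      linarith
    have e2 : (S1.card : ℝ) ≤ S0.card * ((A'.card : ℝ) / N) := by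
      rw [mul_div_assoc', le_div_iff₀ hNr]
      have hS0' : (0 : ℝ) ≤ S0.card := Nat.cast_nonneg _
      have hC' : (0 : ℝ) ≤ C.card := Nat.cast_nonneg _
      -- (N - x) S1 N = (a - x) S0 N <= (N - x) a S0
      have key : ((N : ℝ) - C.card) * (S1.card * N) ≤ ((N : ℝ) - C.card) * (S0.card * A'.card) := by
        have : ((N : ℝ) - C.card) * (S1.card * N) = (S0.card * A'.card - C.card * S0.card) * N := by
          rw [← e1]; ring
        rw [this]
        nlinarith [mul_nonneg (mul_nonneg hC' hS0') (sub_nonneg.mpr hA'N)]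
      exact le_of_mul_le_mul_left key hx
    rw [Finset.card_insert_of_notMem hc, pow_succ]
    calc (S1.card : ℝ) ≤ S0.card * ((A'.card : ℝ) / N) := e2
      _ ≤ ((N.factorial : ℝ) * ((A'.card : ℝ) / N) ^ C.card) * ((A'.card : ℝ) / N) := by
          apply mul_le_mul_of_nonneg_right ih
          positivity
      _ = _ := by ring

private theorem count_rows {m N : ℕ} (A' : Finset (Fin N)) (C : Fin m → Finset (Fin N)) :
    ((univ.filter fun σ : Fin m → Equiv.Perm (Fin N) => ∀ a, ∀ c ∈ C a, σ a c ∈ A').card : ℝ) ≤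
      (N.factorial : ℝ) ^ m * ((A'.card : ℝ) / N) ^ (∑ a, (C a).card) := by
  have h : (univ.filter fun σ : Fin m → Equiv.Perm (Fin N) => ∀ a, ∀ c ∈ C a, σ a c ∈ A') =
      Fintype.piFinset (fun a => univ.filter fun τ : Equiv.Perm (Fin N) => ∀ c ∈ C a, τ c ∈ A') := by
    ext σ
    simp [Fintype.mem_piFinset]
  rw [h, Fintype.card_piFinset, Nat.cast_prod]
  calc ∏ a, ((univ.filter fun τ : Equiv.Perm (Fin N) => ∀ c ∈ C a, τ c ∈ A').card : ℝ)
      ≤ ∏ a, ((N.factorial : ℝ) * ((A'.card : ℝ) / N) ^ (C a).card) := by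
        apply Finset.prod_le_prod
        · intro a _
          positivity
        · intro a _
          exact count_perm A' (C a)
    _ = _ := by
        rw [Finset.prod_mul_distrib, Finset.prod_const, Finset.card_univ, Fintype.card_fin,
          Finset.prod_pow_eq_pow_sum]

private theorem count_core {m N : ℕ} (k : ℕ) (A A' : Finset (Fin N)) :
    ((univ.filter fun σ : Fin m → Equiv.Perm (Fin N) =>
      ∀ c ∈ A, k ≤ (univ.filter fun a => σ a c ∈ A').card).card : ℝ) ≤
      (N.factorial : ℝ) ^ m * (((m : ℝ) * A'.card / N) ^ k) ^ A.card := by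
  classical
  set I : Finset (Fin N → Finset (Fin m)) :=
    Fintype.piFinset (fun c => if c ∈ A then powersetCard k univ else {∅}) with hI
  have hIcard : I.card = (m.choose k) ^ A.card := by
    rw [hI, Fintype.card_piFinset]
    have : ∀ c : Fin N, (if c ∈ A then powersetCard k (univ : Finset (Fin m)) else {∅}).card =
        if c ∈ A then m.choose k else 1 := by
      intro c
      split_ifs
      · rw [Finset.card_powersetCard, Finset.card_univ, Fintype.card_fin]
      · rfl
    rw [Finset.prod_congr rfl (fun c _ => this c), Finset.prod_ite_mem, Finset.univ_inter,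
      Finset.prod_const]
  have hsub : (univ.filter fun σ : Fin m → Equiv.Perm (Fin N) =>
      ∀ c ∈ A, k ≤ (univ.filter fun a => σ a c ∈ A').card) ⊆
      I.biUnion (fun S => univ.filter fun σ : Fin m → Equiv.Perm (Fin N) =>
        ∀ a, ∀ c ∈ A.filter (fun c => a ∈ S c), σ a c ∈ A') := by
    intro σ hσ
    simp only [mem_filter, mem_univ, true_and] at hσ
    have hch : ∀ c : Fin N, ∃ T : Finset (Fin m),
        (T ∈ (if c ∈ A then powersetCard k (univ : Finset (Fin m)) else {∅})) ∧
          ∀ a ∈ T, σ a c ∈ A' := by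
      intro c
      by_cases hc : c ∈ A
      · obtain ⟨T, hT, hTc⟩ := Finset.exists_subset_card_eq (hσ c hc)
        refine ⟨T, ?_, ?_⟩
        · rw [if_pos hc, Finset.mem_powersetCard]
          exact ⟨Finset.subset_univ _, hTc⟩
        · intro a ha
          have := hT ha
          simpa using this
      · refine ⟨∅, ?_, ?_⟩
        · rw [if_neg hc]; simp
        · intro a ha; simp at ha
    choose S hS1 hS2 using hch
    rw [Finset.mem_biUnion]
    refine ⟨S, ?_, ?_⟩
    · rw [hI, Fintype.mem_piFinset]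
      exact hS1
    · simp only [mem_filter, mem_univ, true_and]
      intro a c hc
      exact hS2 c a hc.2
  have hnn : (0 : ℝ) ≤ (A'.card : ℝ) / N := by positivity
  have hterm : ∀ S ∈ I, ((univ.filter fun σ : Fin m → Equiv.Perm (Fin N) =>
        ∀ a, ∀ c ∈ A.filter (fun c => a ∈ S c), σ a c ∈ A').card : ℝ) ≤
      (N.factorial : ℝ) ^ m * ((A'.card : ℝ) / N) ^ (k * A.card) := by
    intro S hS
    have h1 := count_rows A' (fun a => A.filter (fun c => a ∈ S c))
    have h2 : ∑ a : Fin m, (A.filter (fun c => a ∈ S c)).card = k * A.card := by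
      simp only [Finset.card_filter]
      rw [Finset.sum_comm]
      have : ∀ c ∈ A, ∑ a : Fin m, (if a ∈ S c then 1 else 0) = k := by
        intro c hc
        rw [hI, Fintype.mem_piFinset] at hS
        have hSc := hS c
        rw [if_pos hc, Finset.mem_powersetCard] at hSc
        rw [← hSc.2, Finset.sum_ite_mem, Finset.univ_inter, Finset.sum_const, smul_eq_mul, mul_one]
      rw [Finset.sum_congr rfl this, Finset.sum_const, smul_eq_mul, mul_comm]
    rw [h2] at h1
    exact h1
  have hcount : ((univ.filter fun σ : Fin m → Equiv.Perm (Fin N) =>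
      ∀ c ∈ A, k ≤ (univ.filter fun a => σ a c ∈ A').card).card : ℝ) ≤
      ∑ S ∈ I, (N.factorial : ℝ) ^ m * ((A'.card : ℝ) / N) ^ (k * A.card) := by
    calc ((univ.filter fun σ : Fin m → Equiv.Perm (Fin N) =>
      ∀ c ∈ A, k ≤ (univ.filter fun a => σ a c ∈ A').card).card : ℝ)
        ≤ ((I.biUnion (fun S => univ.filter fun σ : Fin m → Equiv.Perm (Fin N) =>
        ∀ a, ∀ c ∈ A.filter (fun c => a ∈ S c), σ a c ∈ A')).card : ℝ) := by
          exact_mod_cast Finset.card_le_card hsub
      _ ≤ ∑ S ∈ I, ((univ.filter fun σ : Fin m → Equiv.Perm (Fin N) =>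
        ∀ a, ∀ c ∈ A.filter (fun c => a ∈ S c), σ a c ∈ A').card : ℝ) := by
          exact_mod_cast Finset.card_biUnion_le
      _ ≤ _ := Finset.sum_le_sum hterm
  rw [Finset.sum_const, hIcard, nsmul_eq_mul] at hcount
  refine hcount.trans ?_
  have hch : (m.choose k : ℝ) ≤ (m : ℝ) ^ k := by
    exact_mod_cast Nat.choose_le_pow m k
  have hch' : ((m.choose k ^ A.card : ℕ) : ℝ) ≤ ((m : ℝ) ^ k) ^ A.card := by
    push_cast
    exact pow_le_pow_left₀ (by positivity) hch _
  calc ((m.choose k ^ A.card : ℕ) : ℝ) * ((N.factorial : ℝ) ^ m * ((A'.card : ℝ) / N) ^ (k * A.card))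
      ≤ ((m : ℝ) ^ k) ^ A.card * ((N.factorial : ℝ) ^ m * ((A'.card : ℝ) / N) ^ (k * A.card)) := by
        apply mul_le_mul_of_nonneg_right hch'
        positivity
    _ = (N.factorial : ℝ) ^ m * (((m : ℝ) * A'.card / N) ^ k) ^ A.card := by
        rw [mul_div_assoc, mul_pow, mul_pow, pow_mul]
        ring

theorem count_deg {m N : ℕ} (k : ℕ) (π : Fin m → Equiv.Perm (Fin N)) (A A' : Finset (Fin N)) :
    ((univ.filter fun π' : Fin m → Equiv.Perm (Fin N) =>
      ∀ c ∈ A, k ≤ (univ.filter fun a => ∃ c' ∈ A', π' a c' = π a c).card).card : ℝ) ≤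
      (N.factorial : ℝ) ^ m * (((m : ℝ) * A'.card / N) ^ k) ^ A.card := by
  refine le_of_eq_of_le ?_ (count_core k A A')
  norm_cast
  -- σ a = (π' a)⁻¹ * π a
  apply Finset.card_equiv (Equiv.piCongrRight (fun a =>
    (Equiv.inv (Equiv.Perm (Fin N))).trans (Equiv.mulRight (π a))))
  intro π'
  simp only [mem_filter, mem_univ, true_and, Equiv.piCongrRight_apply, Pi.map_apply,
    Equiv.trans_apply, Equiv.inv_apply, Equiv.coe_mulRight, Equiv.Perm.mul_apply]
  have h : ∀ (a : Fin m) (c : Fin N), (∃ c' ∈ A', π' a c' = π a c) ↔ (π' a)⁻¹ (π a c) ∈ A' := by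
    intro a c
    constructor
    · rintro ⟨c', hc', h⟩
      rw [← h]
      simpa using hc'
    · intro h
      exact ⟨_, h, by simp⟩
  simp only [h]

theorem count_deg' {m N : ℕ} (k : ℕ) (π : Fin m → Equiv.Perm (Fin N)) (A A' : Finset (Fin N)) :
    ((univ.filter fun π' : Fin m → Equiv.Perm (Fin N) =>
      ∀ c' ∈ A', k ≤ (univ.filter fun a => ∃ c ∈ A, π' a c' = π a c).card).card : ℝ) ≤
      (N.factorial : ℝ) ^ m * (((m : ℝ) * A.card / N) ^ k) ^ A'.card := by
  refine le_of_eq_of_le ?_ (count_core k A' A)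
  norm_cast
  apply Finset.card_equiv (Equiv.piCongrRight (fun a => Equiv.mulLeft ((π a)⁻¹)))
  intro π'
  simp only [mem_filter, mem_univ, true_and, Equiv.piCongrRight_apply, Pi.map_apply,
    Equiv.coe_mulLeft, Equiv.Perm.mul_apply]
  have h : ∀ (a : Fin m) (c' : Fin N), (∃ c ∈ A, π' a c' = π a c) ↔ (π a)⁻¹ (π' a c') ∈ A := by
    intro a c'
    constructor
    · rintro ⟨c, hc, h⟩
      rw [h]
      simpa using hc
    · intro h
      exact ⟨_, h, by simp⟩
  simp only [h]

end Pool.Agent.H.MP_cba12a_lc.SQ
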