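import Pool.Agent.H.MP_cba12a_lc.SQ.Cols

namespace Pool.Agent.H.MP_cba12a_lc.SQ

open Finset Filter Topology

/-- replace the column `c` of `x` by `y` -/
def vanish_upd {m N : ℕ} (π : Fin m → Equiv.Perm (Fin N)) (c : Fin N)
    (x : Fin m → Fin N → Bool) (y : Fin m → Bool) : Fin m → Fin N → Bool :=
  fun a => Function.update (x a) (π a c) (y a)

theorem vanish_col_same {m N : ℕ} (π : Fin m → Equiv.Perm (Fin N)) (c : Fin N)
    (x : Fin m → Fin N → Bool) (y : Fin m → Bool) : col π c (vanish_upd π c x y) = y := by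
  funext a
  unfold col vanish_upd
  rw [Function.update_self]

theorem vanish_col_ne {m N : ℕ} (π : Fin m → Equiv.Perm (Fin N)) {c c₂ : Fin N} (h : c₂ ≠ c)
    (x : Fin m → Fin N → Bool) (y : Fin m → Bool) :
    col π c₂ (vanish_upd π c x y) = col π c₂ x := by
  funext a
  unfold col vanish_upd
  rw [Function.update_of_ne]
  exact fun h' => h ((π a).injective h')

theorem vanish_inv {m N : ℕ} (π : Fin m → Equiv.Perm (Fin N)) (c : Fin N)
    (x : Fin m → Fin N → Bool) (y : Fin m → Bool) :
    vanish_upd π c (vanish_upd π c x y) (col π c x) = x := by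
  funext a
  unfold col vanish_upd
  rw [Function.update_idem, Function.update_eq_self]

theorem vanish_avg {m N : ℕ} (π : Fin m → Equiv.Perm (Fin N)) (c : Fin N)
    (F : (Fin m → Fin N → Bool) → ℝ) :
    ∑ x : Fin m → Fin N → Bool, ∑ y : Fin m → Bool, F (vanish_upd π c x y)
      = ∑ x : Fin m → Fin N → Bool, ∑ _y : Fin m → Bool, F x := by
  rw [← Fintype.sum_prod_type', ← Fintype.sum_prod_type']
  have hinv : Function.Involutive (fun q : (Fin m → Fin N → Bool) × (Fin m → Bool) =>
      (vanish_upd π c q.1 q.2, col π c q.1)) := by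
    rintro ⟨x, y⟩
    simp only [vanish_inv, vanish_col_same]
  exact Fintype.sum_equiv hinv.toPerm _ _ (fun q => rfl)

theorem vanish {m N : ℕ} (k : ℕ) (β : Fin m → ℝ) (r : (Fin m → Bool) → ℝ)
    (h1 : ∀ S : Finset (Fin m), S.card < k → ∀ G : (Fin m → Bool) → ℝ,
      (∀ y y', (∀ a ∈ S, y a = y' a) → G y = G y') → ∑ y, wt β y * r y * G y = 0)
    (π π' : Fin m → Equiv.Perm (Fin N)) (A A' : Finset (Fin N)) (c : Fin N) (hc : c ∈ A)
    (hS : (univ.filter fun a => ∃ c' ∈ A', π' a c' = π a c).card < k) :
    ∑ x, WT β x * rA r π A x * rA r π' A' x = 0 := by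
  have hin : ∀ x : Fin m → Fin N → Bool, ∑ y : Fin m → Bool,
      (WT β (vanish_upd π c x y) * rA r π A (vanish_upd π c x y) *
        rA r π' A' (vanish_upd π c x y)) = 0 := by
    intro x
    have h2 : ∀ y : Fin m → Bool, WT β (vanish_upd π c x y) * rA r π A (vanish_upd π c x y) *
        rA r π' A' (vanish_upd π c x y)
        = ((∏ c₂ ∈ univ.erase c, wt β (col π c₂ x)) * ∏ c₂ ∈ A.erase c, r (col π c₂ x)) *
          (wt β y * r y * rA r π' A' (vanish_upd π c x y)) := by
      intro y
      have h3 : WT β (vanish_upd π c x y)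
          = wt β y * ∏ c₂ ∈ univ.erase c, wt β (col π c₂ x) := by
        rw [WT_eq β π, ← mul_prod_erase univ _ (mem_univ c), vanish_col_same]
        congr 1
        apply prod_congr rfl
        intro c₂ hc₂
        rw [vanish_col_ne π (ne_of_mem_erase hc₂)]
      have h4 : rA r π A (vanish_upd π c x y)
          = r y * ∏ c₂ ∈ A.erase c, r (col π c₂ x) := by
        unfold rA
        rw [← mul_prod_erase A _ hc, vanish_col_same]
        congr 1
        apply prod_congr rfl
        intro c₂ hc₂
        rw [vanish_col_ne π (ne_of_mem_erase hc₂)]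
      rw [h3, h4]
      ring
    rw [sum_congr rfl (fun y _ => h2 y), ← mul_sum, h1 _ hS, mul_zero]
    intro y y' hy
    unfold rA
    apply prod_congr rfl
    intro c' hc'
    congr 1
    funext a
    unfold col vanish_upd
    by_cases h : π' a c' = π a c
    · rw [h, Function.update_self, Function.update_self]
      exact hy a (mem_filter.2 ⟨mem_univ _, c', hc', h⟩)
    · rw [Function.update_of_ne h, Function.update_of_ne h]
  have h5 := vanish_avg π c (fun x => WT β x * rA r π A x * rA r π' A' x)
  simp only [hin, sum_const_zero, sum_const, nsmul_eq_mul] at h5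
  rw [← mul_sum] at h5
  have h6 : ((Finset.card (univ : Finset (Fin m → Bool)) : ℕ) : ℝ) ≠ 0 := by
    rw [Nat.cast_ne_zero, card_univ]
    exact Fintype.card_ne_zero
  exact (mul_eq_zero.1 h5.symm).resolve_left h6

end Pool.Agent.H.MP_cba12a_lc.SQ
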