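import Pool.Agent.H.MP_cba12a_lc.SQ.Schur
import Pool.Agent.H.MP_cba12a_lc.SQ.Vanish
import Pool.Agent.H.MP_cba12a_lc.SQ.Count

namespace Pool.Agent.H.MP_cba12a_lc.SQ

open Finset Filter Topology

theorem kernel_expand {N : ℕ} (f : Fin N → ℝ) :
    ∏ c, (1 + f c) - 1 = ∑ A ∈ (univ : Finset (Finset (Fin N))).erase ∅, ∏ c ∈ A, f c := by
  have h : ∏ c, (1 + f c) = ∑ A : Finset (Fin N), ∏ c ∈ A, f c := by
    rw [Finset.prod_one_add, Finset.powerset_univ]
  rw [h, ← Finset.add_sum_erase univ _ (Finset.mem_univ (∅ : Finset (Fin N))),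
    Finset.prod_empty]
  ring

theorem kernel_group {N : ℕ} (f : ℕ → ℝ) :
    ∑ A ∈ (univ : Finset (Finset (Fin N))).erase ∅, f A.card =
      ∑ a ∈ Icc 1 N, (N.choose a : ℝ) * f a := by
  have h := Finset.sum_powerset_apply_card (x := (univ : Finset (Fin N))) f
  rw [Finset.powerset_univ, Finset.card_univ, Fintype.card_fin] at h
  have h1 := Finset.add_sum_erase univ (fun A : Finset (Fin N) => f A.card)
    (Finset.mem_univ (∅ : Finset (Fin N)))
  have h2 : ∑ a ∈ range (N + 1), N.choose a • f a = f 0 + ∑ a ∈ Icc 1 N, (N.choose a : ℝ) * f a := by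
    rw [Finset.range_eq_Ico, Finset.sum_eq_sum_Ico_succ_bot (by omega)]
    congr 1
    · simp
    · have : Finset.Ico (0 + 1) (N + 1) = Finset.Icc 1 N := by
        ext x; simp only [Finset.mem_Ico, Finset.mem_Icc]; omega
      rw [this]
      refine Finset.sum_congr rfl fun a _ => ?_
      rw [nsmul_eq_mul]
  simp only [Finset.card_empty] at h1
  linarith [h, h1, h2]

/-- the elementary inequality -/
theorem kernel_min {κ a a' : ℕ} (t : ℕ → ℝ) (ht0 : ∀ n, 0 ≤ t n) (htm : ∀ n n', n ≤ n' → t n ≤ t n')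
    (x : ℝ) (h1 : x ≤ 1) (h2 : x ≤ ((t a') ^ (2 * κ)) ^ a) (h3 : x ≤ ((t a) ^ (2 * κ)) ^ a') :
    x ≤ (min 1 (t a)) ^ (κ * a) * (min 1 (t a')) ^ (κ * a') := by
  have hX0 : ∀ n, 0 ≤ min 1 (t n) := fun n => le_min zero_le_one (ht0 n)
  have hX1 : ∀ n, min 1 (t n) ≤ 1 := fun n => min_le_left _ _
  have hXm : ∀ n n', n ≤ n' → min 1 (t n) ≤ min 1 (t n') := fun n n' h =>
    min_le_min le_rfl (htm n n' h)
  have key : ∀ n k : ℕ, x ≤ (t n) ^ k → x ≤ (min 1 (t n)) ^ k := by
    intro n k hk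
    rcases le_total 1 (t n) with h | h
    · rw [min_eq_left h, one_pow]; exact h1
    · rw [min_eq_right h]; exact hk
  rcases le_total a' a with h | h
  · have h4 := key a' (2 * κ * a) (by rw [pow_mul]; exact h2)
    calc x ≤ (min 1 (t a')) ^ (2 * κ * a) := h4
      _ = (min 1 (t a')) ^ (κ * a) * (min 1 (t a')) ^ (κ * a) := by rw [← pow_add]; congr 1; ring
      _ ≤ (min 1 (t a)) ^ (κ * a) * (min 1 (t a')) ^ (κ * a') := by
        apply mul_le_mul
        · exact pow_le_pow_left₀ (hX0 _) (hXm _ _ h) _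
        · exact pow_le_pow_of_le_one (hX0 _) (hX1 _) (Nat.mul_le_mul_left _ h)
        · exact pow_nonneg (hX0 _) _
        · exact pow_nonneg (hX0 _) _
  · have h4 := key a (2 * κ * a') (by rw [pow_mul]; exact h3)
    calc x ≤ (min 1 (t a)) ^ (2 * κ * a') := h4
      _ = (min 1 (t a)) ^ (κ * a') * (min 1 (t a)) ^ (κ * a') := by rw [← pow_add]; congr 1; ring
      _ ≤ (min 1 (t a)) ^ (κ * a) * (min 1 (t a')) ^ (κ * a') := by
        apply mul_le_mul
        · exact pow_le_pow_of_le_one (hX0 _) (hX1 _) (Nat.mul_le_mul_left _ h)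
        · exact pow_le_pow_left₀ (hX0 _) (hXm _ _ h) _
        · exact pow_nonneg (hX0 _) _
        · exact pow_nonneg (hX0 _) _

/-- the two degree conditions -/
def kernel_cond {m N : ℕ} (κ : ℕ) (π : Fin m → Equiv.Perm (Fin N)) (A A' : Finset (Fin N))
    (π' : Fin m → Equiv.Perm (Fin N)) : Prop :=
  (∀ c ∈ A, 2 * κ ≤ (univ.filter fun a => ∃ c' ∈ A', π' a c' = π a c).card) ∧
    (∀ c' ∈ A', 2 * κ ≤ (univ.filter fun a => ∃ c ∈ A, π' a c' = π a c).card)

open Classical in
theorem kernel_count {m N κ : ℕ} (hN : 0 < N) (π : Fin m → Equiv.Perm (Fin N))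
    (A A' : Finset (Fin N)) :
    ((univ.filter fun π' : Fin m → Equiv.Perm (Fin N) => kernel_cond κ π A A' π').card : ℝ) ≤
      (N.factorial : ℝ) ^ m * ((min 1 ((m : ℝ) * A.card / N)) ^ (κ * A.card) *
        (min 1 ((m : ℝ) * A'.card / N)) ^ (κ * A'.card)) := by
  have hF : (0 : ℝ) < (N.factorial : ℝ) ^ m := by
    have : 0 < N.factorial := Nat.factorial_pos N
    positivity
  have hN' : (0 : ℝ) < N := by exact_mod_cast hN
  set n : ℝ := ((univ.filter fun π' : Fin m → Equiv.Perm (Fin N) =>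
    kernel_cond κ π A A' π').card : ℝ) with hn
  have c1 : n ≤ (N.factorial : ℝ) ^ m := by
    have h1 : (univ.filter fun π' : Fin m → Equiv.Perm (Fin N) =>
        kernel_cond κ π A A' π').card ≤ (univ : Finset (Fin m → Equiv.Perm (Fin N))).card :=
      Finset.card_filter_le _ _
    rw [Finset.card_univ, Fintype.card_fun, Fintype.card_perm, Fintype.card_fin,
      Fintype.card_fin] at h1
    rw [hn]
    exact_mod_cast h1
  have c2 : n ≤ (N.factorial : ℝ) ^ m * (((m : ℝ) * A'.card / N) ^ (2 * κ)) ^ A.card := by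
    refine le_trans ?_ (count_deg (2 * κ) π A A')
    rw [hn]
    exact_mod_cast Finset.card_le_card (fun π' hπ' => by
      simp only [Finset.mem_filter, Finset.mem_univ, true_and] at hπ' ⊢
      exact hπ'.1)
  have c3 : n ≤ (N.factorial : ℝ) ^ m * (((m : ℝ) * A.card / N) ^ (2 * κ)) ^ A'.card := by
    refine le_trans ?_ (count_deg' (2 * κ) π A A')
    rw [hn]
    exact_mod_cast Finset.card_le_card (fun π' hπ' => by
      simp only [Finset.mem_filter, Finset.mem_univ, true_and] at hπ' ⊢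
      exact hπ'.2)
  have key := kernel_min (κ := κ) (a := A.card) (a' := A'.card) (fun n => (m : ℝ) * n / N)
    (fun n => by positivity) (fun n n' h => by
      have : (n : ℝ) ≤ n' := by exact_mod_cast h
      gcongr) (n / (N.factorial : ℝ) ^ m)
    (by rw [div_le_one hF]; exact c1)
    (by rw [div_le_iff₀ hF, mul_comm]; exact c2)
    (by rw [div_le_iff₀ hF, mul_comm]; exact c3)
  rw [div_le_iff₀ hF, mul_comm] at key
  exact key

open Classical in
theorem kernel_term {m N κ : ℕ} (β : Fin m → ℝ) (hβ : ∀ a, |β a| ≤ 1)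
    (r : (Fin m → Bool) → ℝ) (ρ : ℝ) (hρ : 0 ≤ ρ)
    (h1 : ∀ S : Finset (Fin m), S.card < 2 * κ → ∀ G : (Fin m → Bool) → ℝ,
      (∀ y y', (∀ a ∈ S, y a = y' a) → G y = G y') → ∑ y, wt β y * r y * G y = 0)
    (h2 : ∑ y, wt β y * r y ^ 2 ≤ ρ ^ 2) (π π' : Fin m → Equiv.Perm (Fin N))
    (A A' : Finset (Fin N)) :
    |∑ x, WT β x * rA r π A x * rA r π' A' x| ≤
      if kernel_cond κ π A A' π' then ρ ^ (A.card + A'.card) else 0 := by
  by_cases hc : kernel_cond κ π A A' π'
  · rw [if_pos hc]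
    exact norm_rA β hβ r ρ hρ h2 π π' A A'
  · rw [if_neg hc]
    have h0 : ∑ x, WT β x * rA r π A x * rA r π' A' x = 0 := by
      unfold kernel_cond at hc
      rw [not_and_or] at hc
      rcases hc with hc | hc
      · push Not at hc
        obtain ⟨c, hcA, hlt⟩ := hc
        exact vanish (2 * κ) β r h1 π π' A A' c hcA hlt
      · push Not at hc
        obtain ⟨c', hcA', hlt⟩ := hc
        have h3 := vanish (2 * κ) β r h1 π' π A' A c' hcA' (by
          refine lt_of_le_of_lt (Finset.card_le_card ?_) hlt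
          intro a ha
          simp only [Finset.mem_filter, Finset.mem_univ, true_and] at ha ⊢
          obtain ⟨c, hc1, hc2⟩ := ha
          exact ⟨c, hc1, hc2.symm⟩)
        rw [← h3]
        refine Finset.sum_congr rfl fun x _ => ?_
        ring
    rw [h0, abs_zero]

theorem kernel {m N κ : ℕ} (hN : 0 < N) (hκ : 1 ≤ κ) (β : Fin m → ℝ) (hβ : ∀ a, |β a| ≤ 1)
    (r : (Fin m → Bool) → ℝ) (ρ : ℝ) (hρ : 0 ≤ ρ)
    (h1 : ∀ S : Finset (Fin m), S.card < 2 * κ → ∀ G : (Fin m → Bool) → ℝ,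
      (∀ y y', (∀ a ∈ S, y a = y' a) → G y = G y') → ∑ y, wt β y * r y * G y = 0)
    (h2 : ∑ y, wt β y * r y ^ 2 ≤ ρ ^ 2) (ψ : (Fin m → Fin N → Bool) → ℝ)
    (hψ : ∀ x, |ψ x| ≤ 1) :
    ∑ π : Fin m → Equiv.Perm (Fin N),
      (∑ x, WT β x * ψ x * (∏ c, (1 + r (col π c x)) - 1)) ^ 2 ≤
      (N.factorial : ℝ) ^ m * Ssum m N κ ρ ^ 2 := by
  classical
  refine schur (WT β) (WT_nonneg β hβ) (sum_WT β)
    (fun π x => ∏ c, (1 + r (col π c x)) - 1) _ ?_ ψ hψ
  intro π
  set NE : Finset (Finset (Fin N)) := (univ : Finset (Finset (Fin N))).erase ∅ with hNE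
  set F : ℕ → ℝ := fun a => ρ ^ a * (min 1 ((m : ℝ) * a / N)) ^ (κ * a) with hF
  have hSs : ∑ A ∈ NE, F A.card = Ssum m N κ ρ := by
    rw [hNE, kernel_group F]
    unfold Ssum
    refine Finset.sum_congr rfl fun a _ => ?_
    rw [hF]
    ring
  -- pointwise bound
  have hpt : ∀ π' : Fin m → Equiv.Perm (Fin N),
      |∑ x, WT β x * (∏ c, (1 + r (col π c x)) - 1) * (∏ c, (1 + r (col π' c x)) - 1)| ≤
      ∑ A ∈ NE, ∑ A' ∈ NE, (if kernel_cond κ π A A' π' then ρ ^ (A.card + A'.card) else 0) := by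
    intro π'
    have e1 : ∑ x, WT β x * (∏ c, (1 + r (col π c x)) - 1) * (∏ c, (1 + r (col π' c x)) - 1) =
        ∑ A ∈ NE, ∑ A' ∈ NE, ∑ x, WT β x * rA r π A x * rA r π' A' x := by
      have e2 : ∀ x, WT β x * (∏ c, (1 + r (col π c x)) - 1) * (∏ c, (1 + r (col π' c x)) - 1) =
          ∑ A ∈ NE, ∑ A' ∈ NE, WT β x * rA r π A x * rA r π' A' x := by
        intro x
        rw [kernel_expand (fun c => r (col π c x)), kernel_expand (fun c => r (col π' c x)),
          mul_assoc, Finset.sum_mul_sum, Finset.mul_sum]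
        refine Finset.sum_congr rfl fun A _ => ?_
        rw [Finset.mul_sum]
        refine Finset.sum_congr rfl fun A' _ => ?_
        unfold rA
        ring
      rw [Finset.sum_congr rfl (fun x _ => e2 x), Finset.sum_comm]
      refine Finset.sum_congr rfl fun A _ => ?_
      rw [Finset.sum_comm]
    rw [e1]
    refine (Finset.abs_sum_le_sum_abs _ _).trans (Finset.sum_le_sum fun A _ => ?_)
    refine (Finset.abs_sum_le_sum_abs _ _).trans (Finset.sum_le_sum fun A' _ => ?_)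
    exact kernel_term β hβ r ρ hρ h1 h2 π π' A A'
  calc ∑ π', |∑ x, WT β x * (∏ c, (1 + r (col π c x)) - 1) * (∏ c, (1 + r (col π' c x)) - 1)|
      ≤ ∑ π', ∑ A ∈ NE, ∑ A' ∈ NE,
          (if kernel_cond κ π A A' π' then ρ ^ (A.card + A'.card) else 0) :=
        Finset.sum_le_sum fun π' _ => hpt π'
    _ = ∑ A ∈ NE, ∑ A' ∈ NE, ∑ π' : Fin m → Equiv.Perm (Fin N),
          (if kernel_cond κ π A A' π' then ρ ^ (A.card + A'.card) else 0) := by
        rw [Finset.sum_comm]
        refine Finset.sum_congr rfl fun A _ => ?_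
        rw [Finset.sum_comm]
    _ ≤ ∑ A ∈ NE, ∑ A' ∈ NE, (N.factorial : ℝ) ^ m * (F A.card * F A'.card) := by
        refine Finset.sum_le_sum fun A _ => Finset.sum_le_sum fun A' _ => ?_
        rw [← Finset.sum_filter, Finset.sum_const, nsmul_eq_mul]
        have h5 := kernel_count (κ := κ) hN π A A'
        have h6 : (0 : ℝ) ≤ ρ ^ (A.card + A'.card) := pow_nonneg hρ _
        calc ((univ.filter fun π' : Fin m → Equiv.Perm (Fin N) =>
              kernel_cond κ π A A' π').card : ℝ) * ρ ^ (A.card + A'.card)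
            ≤ ((N.factorial : ℝ) ^ m * ((min 1 ((m : ℝ) * A.card / N)) ^ (κ * A.card) *
              (min 1 ((m : ℝ) * A'.card / N)) ^ (κ * A'.card))) * ρ ^ (A.card + A'.card) :=
              mul_le_mul_of_nonneg_right h5 h6
          _ = (N.factorial : ℝ) ^ m * (F A.card * F A'.card) := by
              rw [hF, pow_add]
              ring
    _ = (N.factorial : ℝ) ^ m * Ssum m N κ ρ ^ 2 := by
        rw [← hSs, sq, Finset.sum_mul_sum, Finset.mul_sum]
        refine Finset.sum_congr rfl fun A _ => ?_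
        rw [Finset.mul_sum]

end Pool.Agent.H.MP_cba12a_lc.SQ
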