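import Pool.Agent.H.MP_cba12a_lc.SQ.Defs

namespace Pool.Agent.H.MP_cba12a_lc.SQ

open Finset Filter Topology

theorem mbound_pi {α : Type*} [Fintype α] [DecidableEq α] {γ : Type*} [Fintype γ] [DecidableEq γ]
    (F : α → γ → ℝ) :
    ∑ x : α → γ, ∏ a, F a (x a) = ∏ a, ∑ y, F a y := by
  rw [Finset.prod_univ_sum, Fintype.piFinset_univ]

theorem mbound_sum {m N : ℕ} (g : Fin m → Bool → ℝ) :
    ∑ x : Fin m → Fin N → Bool, ∏ a, ∏ c, g a (x a c) = ∏ a, (g a true + g a false) ^ N := by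
  rw [mbound_pi (fun a (y : Fin N → Bool) => ∏ c, g a (y c))]
  refine Finset.prod_congr rfl fun a _ => ?_
  rw [mbound_pi (fun _ (b : Bool) => g a b)]
  simp

theorem M_bound {m N : ℕ} (β : Fin m → ℝ) (η : ℝ) (hη0 : 0 ≤ η) (hη1 : η ≤ 1) :
    (∑ x : Fin m → Fin N → Bool, |η ^ N * ∏ a, ∏ c, (1 + β a * sg (x a c)) - 1 / 2|) /
      2 ^ (m * N) ≤ |η ^ N - 1 / 2| + Real.sqrt (Real.exp (N * ∑ a, β a ^ 2) - 1) := by
  set P : (Fin m → Fin N → Bool) → ℝ := fun x => ∏ a, ∏ c, (1 + β a * sg (x a c)) with hP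
  have hn0 : (0 : ℝ) < 2 ^ (m * N) := by positivity
  have hcard : (∑ _x : Fin m → Fin N → Bool, (1 : ℝ)) = 2 ^ (m * N) := by
    rw [Finset.sum_const, Finset.card_univ, Fintype.card_fun, Fintype.card_fun, Fintype.card_bool,
      Fintype.card_fin, Fintype.card_fin, nsmul_eq_mul, mul_one]
    push_cast
    rw [← pow_mul, mul_comm]
  have h1 : ∑ x, P x = 2 ^ (m * N) := by
    rw [hP, mbound_sum (fun a b => 1 + β a * sg b)]
    have : ∀ a : Fin m, ((1 + β a * sg true) + (1 + β a * sg false)) ^ N = (2 : ℝ) ^ N := by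
      intro a
      congr 1
      simp [sg]
      ring
    rw [Finset.prod_congr rfl fun a _ => this a, Finset.prod_const, Finset.card_univ,
      Fintype.card_fin, ← pow_mul, mul_comm]
  have h2 : ∑ x, P x ^ 2 = 2 ^ (m * N) * ∏ a, (1 + β a ^ 2) ^ N := by
    have e : ∀ x : Fin m → Fin N → Bool, P x ^ 2 = ∏ a, ∏ c, (1 + β a * sg (x a c)) ^ 2 := by
      intro x
      rw [hP]
      simp only [← Finset.prod_pow]
    rw [Finset.sum_congr rfl fun x _ => e x, mbound_sum (fun a b => (1 + β a * sg b) ^ 2)]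
    have : ∀ a : Fin m, ((1 + β a * sg true) ^ 2 + (1 + β a * sg false) ^ 2) ^ N
        = (2 : ℝ) ^ N * (1 + β a ^ 2) ^ N := by
      intro a
      rw [← mul_pow]
      congr 1
      simp [sg]
      ring
    rw [Finset.prod_congr rfl fun a _ => this a, Finset.prod_mul_distrib, Finset.prod_const,
      Finset.card_univ, Fintype.card_fin, ← pow_mul, mul_comm N m]
  have h3 : ∏ a, (1 + β a ^ 2) ^ N ≤ Real.exp (N * ∑ a, β a ^ 2) := by
    rw [Finset.mul_sum, Real.exp_sum]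
    refine Finset.prod_le_prod (fun a _ => by positivity) fun a _ => ?_
    rw [Real.exp_nat_mul]
    refine pow_le_pow_left₀ (by positivity) ?_ N
    have := Real.add_one_le_exp (β a ^ 2)
    linarith
  have h4 : (∑ x, |P x - 1|) ^ 2 ≤ (2 ^ (m * N)) ^ 2 * (Real.exp (N * ∑ a, β a ^ 2) - 1) := by
    have h5 : (∑ x, |P x - 1|) ^ 2 ≤ (∑ _x : Fin m → Fin N → Bool, (1 : ℝ) ^ 2)
        * ∑ x, |P x - 1| ^ 2 := by
      have := Finset.sum_mul_sq_le_sq_mul_sq (Finset.univ : Finset (Fin m → Fin N → Bool))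
        (fun _ => (1 : ℝ)) (fun x => |P x - 1|)
      simpa using this
    have h6 : ∑ x, |P x - 1| ^ 2 = 2 ^ (m * N) * (∏ a, (1 + β a ^ 2) ^ N - 1) := by
      have e : ∀ x : Fin m → Fin N → Bool, |P x - 1| ^ 2 = P x ^ 2 - 2 * P x + 1 := by
        intro x
        rw [sq_abs]
        ring
      rw [Finset.sum_congr rfl fun x _ => e x, Finset.sum_add_distrib, Finset.sum_sub_distrib,
        ← Finset.mul_sum, h1, h2, hcard]
      ring
    rw [h6] at h5
    simp only [one_pow] at h5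
    rw [hcard] at h5
    refine h5.trans ?_
    rw [← mul_assoc, ← sq]
    refine mul_le_mul_of_nonneg_left ?_ (by positivity)
    linarith
  have h7 : ∑ x, |P x - 1| ≤ 2 ^ (m * N) * Real.sqrt (Real.exp (N * ∑ a, β a ^ 2) - 1) := by
    have h8 : 0 ≤ ∑ x, |P x - 1| := Finset.sum_nonneg fun x _ => abs_nonneg _
    have h9 := Real.sqrt_le_sqrt h4
    rw [Real.sqrt_sq h8, Real.sqrt_mul (by positivity), Real.sqrt_sq hn0.le] at h9
    exact h9
  have hηN0 : 0 ≤ η ^ N := pow_nonneg hη0 N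
  have hηN1 : η ^ N ≤ 1 := pow_le_one₀ hη0 hη1
  have h10 : ∑ x, |η ^ N * P x - 1 / 2|
      ≤ ∑ x, |P x - 1| + 2 ^ (m * N) * |η ^ N - 1 / 2| := by
    rw [← hcard, Finset.sum_mul, ← Finset.sum_add_distrib]
    refine Finset.sum_le_sum fun x _ => ?_
    have e : η ^ N * P x - 1 / 2 = η ^ N * (P x - 1) + (η ^ N - 1 / 2) := by ring
    rw [e, one_mul]
    refine (abs_add_le _ _).trans ?_
    rw [abs_mul, abs_of_nonneg hηN0]
    have : η ^ N * |P x - 1| ≤ 1 * |P x - 1| :=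
      mul_le_mul_of_nonneg_right hηN1 (abs_nonneg _)
    linarith
  rw [div_le_iff₀ hn0]
  calc ∑ x, |η ^ N * P x - 1 / 2|
      ≤ ∑ x, |P x - 1| + 2 ^ (m * N) * |η ^ N - 1 / 2| := h10
    _ ≤ 2 ^ (m * N) * Real.sqrt (Real.exp (N * ∑ a, β a ^ 2) - 1)
        + 2 ^ (m * N) * |η ^ N - 1 / 2| := by linarith
    _ = _ := by ring

end Pool.Agent.H.MP_cba12a_lc.SQ
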