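import Mathlib

/-!
# The statistical query model for the uniform distribution, and monotone DNF formulas
-/

namespace Pool.Agent.H.MP_cba12a_lc.SQ

open Finset

/-- The Boolean function on `{0,1}^n` computed by the monotone DNF formula whose terms are the
conjunctions of the variables in the sets of the list `F`. -/
def mdnf {n : ℕ} (F : List (Finset (Fin n))) (x : Fin n → Bool) : Bool :=
  decide (∃ T ∈ F, ∀ a ∈ T, x a = true)

/-- A statistical query: a real function of an example `x` and a label. -/
abbrev Query (n : ℕ) : Type := (Fin n → Bool) → Bool → ℝ

/-- The expected value of the query `φ` on a uniformly random example labelled by `f`. -/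
noncomputable def mean {n : ℕ} (f : (Fin n → Bool) → Bool) (φ : Query n) : ℝ :=
  (∑ x, φ x (f x)) / 2 ^ n

/-- `O` is a statistical query oracle with tolerance `τ` for the target `f`: it answers every
query with values in `[-1, 1]` by a number within `τ` of its expected value. -/
def Valid {n : ℕ} (f : (Fin n → Bool) → Bool) (τ : ℝ) (O : Query n → ℝ) : Prop :=
  ∀ φ : Query n, (∀ x b, |φ x b| ≤ 1) → |O φ - mean f φ| ≤ τ

/-- A deterministic statistical query learner: the next query and the final hypothesis are
arbitrary functions of the list of answers obtained so far. -/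
structure Learner (n : ℕ) where
  next : List ℝ → Query n
  bounded : ∀ l x b, |next l x b| ≤ 1
  out : List ℝ → (Fin n → Bool) → Bool

/-- The answers of the oracle `O` to the first `q` queries of the learner. -/
def Learner.answers {n : ℕ} (A : Learner n) (O : Query n → ℝ) : ℕ → List ℝ
  | 0 => []
  | q + 1 => A.answers O q ++ [O (A.next (A.answers O q))]

/-- The fraction of the cube `{0,1}^n` on which `f` and `g` differ. -/
noncomputable def err {n : ℕ} (f g : (Fin n → Bool) → Bool) : ℝ :=
  ((univ.filter fun x => f x ≠ g x).card : ℝ) / 2 ^ n

end Pool.Agent.H.MP_cba12a_lc.SQ
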