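import Pool.Agent.H.MP_cba12a_lc.SQ.Defs
import Pool.Agent.H.MP_cba12a_lc.SQ.Model

/-!
# From correlation bounds to the statistical query lower bound
-/

namespace Pool.Agent.H.MP_cba12a_lc.SQ

open Finset

/-- the terms of the formula with hidden permutations `π` -/
def FF {n m N r : ℕ} (e : Fin n ≃ (Fin m × Fin N) ⊕ Fin r) (F : List (Finset (Fin m)))
    (π : Fin m → Equiv.Perm (Fin N)) : List (Finset (Fin n)) :=
  (List.finRange N).flatMap fun c => F.map fun T => T.image fun a => e.symm (Sum.inl (a, π a c))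

theorem length_FF {n m N r : ℕ} (e : Fin n ≃ (Fin m × Fin N) ⊕ Fin r) (F : List (Finset (Fin m)))
    (π : Fin m → Equiv.Perm (Fin N)) : (FF e F π).length = N * F.length := by
  unfold FF
  rw [List.length_flatMap]
  simp

/-- the array inside an input -/
def arr {n m N r : ℕ} (e : Fin n ≃ (Fin m × Fin N) ⊕ Fin r) (x : Fin n → Bool) :
    Fin m → Fin N → Bool := fun a c => x (e.symm (Sum.inl (a, c)))

/-- the value of one minus the formula, as a product over the columns -/
noncomputable def GG {m N : ℕ} (F : List (Finset (Fin m))) (π : Fin m → Equiv.Perm (Fin N))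
    (x : Fin m → Fin N → Bool) : ℝ := ∏ c, (1 - ind F (ones (col π c x)))

theorem GG_eq {n m N r : ℕ} (e : Fin n ≃ (Fin m × Fin N) ⊕ Fin r) (F : List (Finset (Fin m)))
    (π : Fin m → Equiv.Perm (Fin N)) (x : Fin n → Bool) :
    GG F π (arr e x) = if mdnf (FF e F π) x = true then 0 else 1 := by
  have key : mdnf (FF e F π) x = true ↔ ∃ c, ∃ T ∈ F, T ⊆ ones (col π c (arr e x)) := by
    unfold mdnf FF
    rw [decide_eq_true_iff]
    constructor
    · rintro ⟨T, hT, hx⟩
      rw [List.mem_flatMap] at hT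
      obtain ⟨c, _, hT⟩ := hT
      rw [List.mem_map] at hT
      obtain ⟨T', hT', rfl⟩ := hT
      refine ⟨c, T', hT', ?_⟩
      intro a ha
      have := hx _ (mem_image_of_mem _ ha)
      simpa [ones, col, arr] using this
    · rintro ⟨c, T, hT, hx⟩
      refine ⟨T.image fun a => e.symm (Sum.inl (a, π a c)), ?_, ?_⟩
      · rw [List.mem_flatMap]
        exact ⟨c, List.mem_finRange c, List.mem_map.2 ⟨T, hT, rfl⟩⟩
      · intro b hb
        rw [mem_image] at hb
        obtain ⟨a, ha, rfl⟩ := hb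
        have := hx ha
        simpa [ones, col, arr] using this
  unfold GG
  by_cases h : mdnf (FF e F π) x = true
  · rw [if_pos h]
    obtain ⟨c, hc⟩ := key.1 h
    apply prod_eq_zero (mem_univ c)
    unfold ind
    rw [if_pos hc]
    norm_num
  · rw [if_neg h]
    apply prod_eq_one
    intro c _
    unfold ind
    rw [if_neg]
    · norm_num
    · intro hc
      exact h (key.2 ⟨c, hc⟩)

/-- joining an array and the rest of the input -/
def joinA {n m N r : ℕ} (e : Fin n ≃ (Fin m × Fin N) ⊕ Fin r) (y : Fin m → Fin N → Bool)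
    (z : Fin r → Bool) : Fin n → Bool := fun i =>
  match e i with
  | Sum.inl p => y p.1 p.2
  | Sum.inr j => z j

theorem arr_joinA {n m N r : ℕ} (e : Fin n ≃ (Fin m × Fin N) ⊕ Fin r) (y : Fin m → Fin N → Bool)
    (z : Fin r → Bool) : arr e (joinA e y z) = y := by
  funext a c
  simp [arr, joinA]

theorem sum_joinA {n m N r : ℕ} (e : Fin n ≃ (Fin m × Fin N) ⊕ Fin r)
    (f : (Fin n → Bool) → ℝ) : ∑ x, f x = ∑ y, ∑ z, f (joinA e y z) := by
  rw [← Fintype.sum_prod_type']
  symm
  apply Fintype.sum_bijective (fun p : (Fin m → Fin N → Bool) × (Fin r → Bool) =>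
    joinA e p.1 p.2)
  · constructor
    · rintro ⟨y, z⟩ ⟨y', z'⟩ h
      have h1 : y = y' := by
        have := congrArg (arr e) h
        simpa only [arr_joinA] using this
      have h2 : z = z' := by
        funext j
        have := congrFun h (e.symm (Sum.inr j))
        simpa [joinA] using this
      rw [h1, h2]
    · intro x
      refine ⟨(arr e x, fun j => x (e.symm (Sum.inr j))), ?_⟩
      funext i
      have hi : x i = x (e.symm (e i)) := by rw [e.symm_apply_apply]
      rw [hi]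
      simp only [joinA, arr]
      rcases e i with p | j
      · rfl
      · rfl
  · intro p
    rfl

theorem card_n {n m N r : ℕ} (e : Fin n ≃ (Fin m × Fin N) ⊕ Fin r) : n = m * N + r := by
  have := Fintype.card_congr e
  simpa using this

/-- averages of products with functions of the array -/
theorem avg_arr {n m N r : ℕ} (e : Fin n ≃ (Fin m × Fin N) ⊕ Fin r)
    (ψ : (Fin n → Bool) → ℝ) (H : (Fin m → Fin N → Bool) → ℝ) :
    (∑ x, ψ x * H (arr e x)) / 2 ^ n =
      (∑ y, ((∑ z, ψ (joinA e y z)) / 2 ^ r) * H y) / 2 ^ (m * N) := by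
  rw [sum_joinA e]
  have h1 : ∀ y, ∑ z, ψ (joinA e y z) * H (arr e (joinA e y z)) =
      (∑ z, ψ (joinA e y z)) * H y := by
    intro y
    rw [sum_mul]
    apply sum_congr rfl
    intro z _
    rw [arr_joinA]
  rw [sum_congr rfl fun y _ => h1 y]
  have h2 : (2 : ℝ) ^ n = 2 ^ r * 2 ^ (m * N) := by
    rw [← pow_add, card_n e, add_comm]
  rw [h2, ← div_div, sum_div]
  congr 1
  apply sum_congr rfl
  intro y _
  ring

theorem avg_abs_le {n m N r : ℕ} (e : Fin n ≃ (Fin m × Fin N) ⊕ Fin r)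
    (ψ : (Fin n → Bool) → ℝ) (B : ℝ) (hψ : ∀ x, |ψ x| ≤ B) (y : Fin m → Fin N → Bool) :
    |(∑ z, ψ (joinA e y z)) / 2 ^ r| ≤ B := by
  rw [abs_div, abs_of_pos (by positivity : (0 : ℝ) < 2 ^ r), div_le_iff₀ (by positivity)]
  calc |∑ z, ψ (joinA e y z)| ≤ ∑ z, |ψ (joinA e y z)| := abs_sum_le_sum_abs _ _
    _ ≤ ∑ _z : Fin r → Bool, B := sum_le_sum fun z _ => hψ _
    _ = B * 2 ^ r := by simp [mul_comm]

/-- the reference answer -/
noncomputable def refA {n m N r : ℕ} (e : Fin n ≃ (Fin m × Fin N) ⊕ Fin r)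
    (M : (Fin m → Fin N → Bool) → ℝ) (φ : Query n) : ℝ :=
  (∑ x, φ x true) / 2 ^ n + (∑ x, (φ x false - φ x true) * M (arr e x)) / 2 ^ n

theorem mean_eq {n m N r : ℕ} (e : Fin n ≃ (Fin m × Fin N) ⊕ Fin r) (F : List (Finset (Fin m)))
    (π : Fin m → Equiv.Perm (Fin N)) (φ : Query n) :
    mean (mdnf (FF e F π)) φ =
      (∑ x, φ x true) / 2 ^ n + (∑ x, (φ x false - φ x true) * GG F π (arr e x)) / 2 ^ n := by
  unfold mean
  rw [← add_div, ← sum_add_distrib]
  congr 1
  apply sum_congr rfl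
  intro x _
  rw [GG_eq]
  by_cases h : mdnf (FF e F π) x = true
  · rw [if_pos h, h]
    ring
  · rw [if_neg h]
    rw [Bool.not_eq_true] at h
    rw [h]
    ring

/-- the deviation of the true answer from the reference answer -/
noncomputable def dev {n m N r : ℕ} (e : Fin n ≃ (Fin m × Fin N) ⊕ Fin r)
    (F : List (Finset (Fin m))) (M : (Fin m → Fin N → Bool) → ℝ) (φ : Query n)
    (π : Fin m → Equiv.Perm (Fin N)) : ℝ := mean (mdnf (FF e F π)) φ - refA e M φ

theorem sum_dev_sq {n m N r : ℕ} (e : Fin n ≃ (Fin m × Fin N) ⊕ Fin r)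
    (F : List (Finset (Fin m))) (M : (Fin m → Fin N → Bool) → ℝ) (δ : ℝ)
    (hdev : ∀ ψ : (Fin m → Fin N → Bool) → ℝ, (∀ x, |ψ x| ≤ 1) →
      ∑ π : Fin m → Equiv.Perm (Fin N),
        ((∑ x, ψ x * (GG F π x - M x)) / 2 ^ (m * N)) ^ 2 ≤ (N.factorial : ℝ) ^ m * δ)
    (φ : Query n) (hφ : ∀ x b, |φ x b| ≤ 1) :
    ∑ π, dev e F M φ π ^ 2 ≤ (N.factorial : ℝ) ^ m * (4 * δ) := by
  set ψ : (Fin m → Fin N → Bool) → ℝ := fun y =>
    (∑ z, (φ (joinA e y z) false - φ (joinA e y z) true) / 2) / 2 ^ r with hψ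
  have hb : ∀ y, |ψ y| ≤ 1 := by
    intro y
    apply avg_abs_le e (fun x => (φ x false - φ x true) / 2) 1
    intro x
    have h1 := abs_le.1 (hφ x false)
    have h2 := abs_le.1 (hφ x true)
    rw [abs_le]
    constructor <;> linarith
  have h1 : ∀ π, dev e F M φ π = 2 * ((∑ x, ψ x * (GG F π x - M x)) / 2 ^ (m * N)) := by
    intro π
    unfold dev refA
    rw [mean_eq, add_sub_add_left_eq_sub, ← sub_div, ← sum_sub_distrib]
    have h2 : ∀ x, (φ x false - φ x true) * GG F π (arr e x) -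
        (φ x false - φ x true) * M (arr e x) =
        2 * (((φ x false - φ x true) / 2) * (GG F π (arr e x) - M (arr e x))) := by
      intro x
      ring
    rw [sum_congr rfl fun x _ => h2 x, ← mul_sum, mul_div_assoc]
    congr 1
    exact avg_arr e (fun x => (φ x false - φ x true) / 2) (fun y => GG F π y - M y)
  have h3 : ∑ π, dev e F M φ π ^ 2 =
      4 * ∑ π : Fin m → Equiv.Perm (Fin N),
        ((∑ x, ψ x * (GG F π x - M x)) / 2 ^ (m * N)) ^ 2 := by
    rw [mul_sum]
    apply sum_congr rfl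
    intro π _
    rw [h1]
    ring
  rw [h3]
  have := hdev ψ hb
  linarith

/-- Markov's inequality for the deviations -/
theorem card_dev {n m N r : ℕ} (e : Fin n ≃ (Fin m × Fin N) ⊕ Fin r)
    (F : List (Finset (Fin m))) (M : (Fin m → Fin N → Bool) → ℝ) (δ : ℝ)
    (hdev : ∀ ψ : (Fin m → Fin N → Bool) → ℝ, (∀ x, |ψ x| ≤ 1) →
      ∑ π : Fin m → Equiv.Perm (Fin N),
        ((∑ x, ψ x * (GG F π x - M x)) / 2 ^ (m * N)) ^ 2 ≤ (N.factorial : ℝ) ^ m * δ)
    (φ : Query n) (hφ : ∀ x b, |φ x b| ≤ 1) (τ : ℝ) (hτ : 0 < τ) :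
    ((univ.filter fun π => τ ≤ |dev e F M φ π|).card : ℝ) ≤
      (N.factorial : ℝ) ^ m * (4 * δ / τ ^ 2) := by
  have h1 := sum_dev_sq e F M δ hdev φ hφ
  have h2 : ((univ.filter fun π => τ ≤ |dev e F M φ π|).card : ℝ) * τ ^ 2 ≤
      ∑ π, dev e F M φ π ^ 2 := by
    calc ((univ.filter fun π => τ ≤ |dev e F M φ π|).card : ℝ) * τ ^ 2
        = ∑ _π ∈ univ.filter fun π => τ ≤ |dev e F M φ π|, τ ^ 2 := by
          rw [sum_const, nsmul_eq_mul]
      _ ≤ ∑ π ∈ univ.filter fun π => τ ≤ |dev e F M φ π|, dev e F M φ π ^ 2 := by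
          apply sum_le_sum
          intro π hπ
          rw [mem_filter] at hπ
          rw [← sq_abs (dev e F M φ π)]
          exact pow_le_pow_left₀ hτ.le hπ.2 2
      _ ≤ ∑ π, dev e F M φ π ^ 2 := by
          apply sum_le_sum_of_subset_of_nonneg (filter_subset _ _)
          intro π _ _
          positivity
  rw [← mul_div_assoc, le_div_iff₀ (by positivity)]
  linarith

/-- the query measuring the error of a hypothesis -/
noncomputable def errQ {n : ℕ} (H : (Fin n → Bool) → Bool) : Query n :=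
  fun x b => if H x ≠ b then 1 else 0

theorem errQ_bd {n : ℕ} (H : (Fin n → Bool) → Bool) (x : Fin n → Bool) (b : Bool) :
    |errQ H x b| ≤ 1 := by
  unfold errQ
  split <;> simp

theorem err_eq {n : ℕ} (H f : (Fin n → Bool) → Bool) : err H f = mean f (errQ H) := by
  unfold err mean errQ
  rw [card_filter]
  push_cast
  rfl

theorem ref_errQ {n m N r : ℕ} (e : Fin n ≃ (Fin m × Fin N) ⊕ Fin r)
    (M : (Fin m → Fin N → Bool) → ℝ) (γ : ℝ)
    (hM : (∑ x, |M x - 1 / 2|) / 2 ^ (m * N) ≤ γ) (H : (Fin n → Bool) → Bool) :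
    1 / 2 - γ ≤ refA e M (errQ H) := by
  unfold refA
  rw [← add_div, ← sum_add_distrib]
  have h1 : ∀ x, 1 / 2 - |M (arr e x) - 1 / 2| ≤
      errQ H x true + (errQ H x false - errQ H x true) * M (arr e x) := by
    intro x
    have h2 := neg_abs_le (M (arr e x) - 1 / 2)
    have h3 := le_abs_self (M (arr e x) - 1 / 2)
    unfold errQ
    cases hH : H x
    · simp
      linarith
    · simp
      linarith
  have h4 : 1 / 2 - (∑ x, |M (arr e x) - 1 / 2|) / 2 ^ n ≤
      (∑ x, (errQ H x true + (errQ H x false - errQ H x true) * M (arr e x))) / 2 ^ n := by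
    rw [sub_le_iff_le_add, ← add_div, ← sum_add_distrib, le_div_iff₀ (by positivity)]
    calc 1 / 2 * (2 : ℝ) ^ n = ∑ _x : Fin n → Bool, (1 / 2 : ℝ) := by simp [mul_comm]
      _ ≤ _ := by
        apply sum_le_sum
        intro x _
        have := h1 x
        linarith
  have h5 : (∑ x, |M (arr e x) - 1 / 2|) / 2 ^ n = (∑ x, |M x - 1 / 2|) / 2 ^ (m * N) := by
    have := avg_arr e (fun _ => 1) (fun y => |M y - 1 / 2|)
    simp only [one_mul] at this
    rw [this]
    congr 1
    apply sum_congr rfl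
    intro y _
    simp
  rw [h5] at h4
  linarith

/-- a run with a different oracle giving the same answers -/
theorem answers_congr {n : ℕ} (A : Learner n) (O O' : Query n → ℝ) (q : ℕ)
    (h : ∀ i < q, O (A.next (A.answers O' i)) = O' (A.next (A.answers O' i))) :
    A.answers O q = A.answers O' q := by
  induction q with
  | zero => rfl
  | succ q ih =>
    have h1 := ih fun i hi => h i (by omega)
    simp only [Learner.answers]
    rw [h1, h q (by omega)]

open Classical in
/-- the main reduction -/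
theorem sq_core {n m N r : ℕ} (e : Fin n ≃ (Fin m × Fin N) ⊕ Fin r)
    (F : List (Finset (Fin m))) (M : (Fin m → Fin N → Bool) → ℝ) (γ δ : ℝ)
    (hM : (∑ x, |M x - 1 / 2|) / 2 ^ (m * N) ≤ γ)
    (hdev : ∀ ψ : (Fin m → Fin N → Bool) → ℝ, (∀ x, |ψ x| ≤ 1) →
      ∑ π : Fin m → Equiv.Perm (Fin N),
        ((∑ x, ψ x * (GG F π x - M x)) / 2 ^ (m * N)) ^ 2 ≤ (N.factorial : ℝ) ^ m * δ)
    (q : ℕ) (τ : ℝ) (hτ : 0 < τ) (Ω : Type) [Fintype Ω] (A : Ω → Learner n) :
    ∃ π : Fin m → Equiv.Perm (Fin N), ∃ O : Query n → ℝ, Valid (mdnf (FF e F π)) τ O ∧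
      ((univ.filter fun ω => err ((A ω).out ((A ω).answers O q)) (mdnf (FF e F π)) ≤
        1 / 2 - γ - τ).card : ℝ) ≤ Fintype.card Ω * ((q + 1) * (4 * δ / τ ^ 2)) := by
  -- the oracles
  set O : (Fin m → Equiv.Perm (Fin N)) → Query n → ℝ := fun π φ =>
    if |dev e F M φ π| < τ then refA e M φ else mean (mdnf (FF e F π)) φ with hO
  have hvalid : ∀ π, Valid (mdnf (FF e F π)) τ (O π) := by
    intro π φ _
    by_cases h : |dev e F M φ π| < τ
    · simp only [hO, if_pos h]
      rw [abs_sub_comm]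
      exact h.le
    · simp only [hO, if_neg h, sub_self, abs_zero]
      exact hτ.le
  -- bad pairs
  set Q : Ω → ℕ → Query n := fun ω i => (A ω).next ((A ω).answers (refA e M) i) with hQ
  set Hyp : Ω → (Fin n → Bool) → Bool := fun ω => (A ω).out ((A ω).answers (refA e M) q) with hHyp
  set bad : Ω → (Fin m → Equiv.Perm (Fin N)) → Prop := fun ω π =>
    (∃ i < q, τ ≤ |dev e F M (Q ω i) π|) ∨ τ ≤ |dev e F M (errQ (Hyp ω)) π| with hbad
  have hgood : ∀ ω π, ¬ bad ω π →
      1 / 2 - γ - τ < err ((A ω).out ((A ω).answers (O π) q)) (mdnf (FF e F π)) := by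
    intro ω π hb
    have hb1 : ∀ i < q, |dev e F M (Q ω i) π| < τ := by
      intro i hi
      by_contra hc
      exact hb (Or.inl ⟨i, hi, not_lt.1 hc⟩)
    have hb2 : |dev e F M (errQ (Hyp ω)) π| < τ := by
      by_contra hc
      exact hb (Or.inr (not_lt.1 hc))
    have h1 : (A ω).answers (O π) q = (A ω).answers (refA e M) q := by
      apply answers_congr
      intro i hi
      have := hb1 i hi
      simp only [hO]
      rw [if_pos this]
    rw [h1, err_eq]
    have h2 := ref_errQ e M γ hM (Hyp ω)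
    have h3 := neg_abs_le (dev e F M (errQ (Hyp ω)) π)
    have h4 : dev e F M (errQ (Hyp ω)) π =
      mean (mdnf (FF e F π)) (errQ (Hyp ω)) - refA e M (errQ (Hyp ω)) := rfl
    have h5 : mean (mdnf (FF e F π)) (errQ (Hyp ω)) = refA e M (errQ (Hyp ω)) +
      dev e F M (errQ (Hyp ω)) π := by rw [h4]; ring
    change 1 / 2 - γ - τ < mean (mdnf (FF e F π)) (errQ (Hyp ω))
    rw [h5]
    linarith
  -- counting
  have hcount : ∀ ω, ((univ.filter fun π => bad ω π).card : ℝ) ≤
      (q + 1) * ((N.factorial : ℝ) ^ m * (4 * δ / τ ^ 2)) := by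
    intro ω
    have hsub : (univ.filter fun π => bad ω π) ⊆
        ((range q).biUnion fun i => univ.filter fun π => τ ≤ |dev e F M (Q ω i) π|) ∪
          (univ.filter fun π => τ ≤ |dev e F M (errQ (Hyp ω)) π|) := by
      intro π hπ
      rw [mem_filter] at hπ
      rw [mem_union, mem_biUnion]
      rcases hπ.2 with ⟨i, hi, h⟩ | h
      · exact Or.inl ⟨i, mem_range.2 hi, mem_filter.2 ⟨mem_univ _, h⟩⟩
      · exact Or.inr (mem_filter.2 ⟨mem_univ _, h⟩)
    have h1 := (card_le_card hsub).trans (card_union_le _ _)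
    have h2 : ((((range q).biUnion fun i => univ.filter fun π =>
        τ ≤ |dev e F M (Q ω i) π|)).card : ℝ) ≤ q * ((N.factorial : ℝ) ^ m * (4 * δ / τ ^ 2)) := by
      calc ((((range q).biUnion fun i => univ.filter fun π =>
          τ ≤ |dev e F M (Q ω i) π|)).card : ℝ)
          ≤ ((∑ i ∈ range q, (univ.filter fun π => τ ≤ |dev e F M (Q ω i) π|).card : ℕ) : ℝ) := by
            exact_mod_cast card_biUnion_le
        _ = ∑ i ∈ range q, ((univ.filter fun π => τ ≤ |dev e F M (Q ω i) π|).card : ℝ) := by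
            push_cast
            rfl
        _ ≤ ∑ _i ∈ range q, ((N.factorial : ℝ) ^ m * (4 * δ / τ ^ 2)) := by
            apply sum_le_sum
            intro i _
            exact card_dev e F M δ hdev (Q ω i) (fun x b => (A ω).bounded _ x b) τ hτ
        _ = q * ((N.factorial : ℝ) ^ m * (4 * δ / τ ^ 2)) := by
            rw [sum_const, card_range, nsmul_eq_mul]
    have h3 := card_dev e F M δ hdev (errQ (Hyp ω)) (errQ_bd (Hyp ω)) τ hτ
    have h4 : ((univ.filter fun π => bad ω π).card : ℝ) ≤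
        ((((range q).biUnion fun i => univ.filter fun π =>
          τ ≤ |dev e F M (Q ω i) π|)).card : ℝ) +
        ((univ.filter fun π => τ ≤ |dev e F M (errQ (Hyp ω)) π|).card : ℝ) := by
      exact_mod_cast h1
    linarith
  -- averaging over the permutations
  by_contra hcon
  push Not at hcon
  have hlt : ∀ π : Fin m → Equiv.Perm (Fin N),
      (Fintype.card Ω : ℝ) * ((q + 1) * (4 * δ / τ ^ 2)) <
        ((univ.filter fun ω => bad ω π).card : ℝ) := by
    intro π
    have h1 := hcon π (O π) (hvalid π)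
    refine h1.trans_le ?_
    have h2 : (univ.filter fun ω => err ((A ω).out ((A ω).answers (O π) q)) (mdnf (FF e F π)) ≤
        1 / 2 - γ - τ) ⊆ univ.filter fun ω => bad ω π := by
      intro ω hω
      rw [mem_filter] at hω ⊢
      refine ⟨mem_univ _, ?_⟩
      by_contra hb
      exact absurd (hgood ω π hb) (not_lt.2 hω.2)
    exact_mod_cast card_le_card h2
  have hcardP : (Fintype.card (Fin m → Equiv.Perm (Fin N)) : ℝ) = (N.factorial : ℝ) ^ m := by
    rw [Fintype.card_fun, Fintype.card_perm, Fintype.card_fin, Fintype.card_fin]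
    push_cast
    rfl
  have hsum : ∑ _π : Fin m → Equiv.Perm (Fin N),
      (Fintype.card Ω : ℝ) * ((q + 1) * (4 * δ / τ ^ 2)) <
      ∑ π : Fin m → Equiv.Perm (Fin N), ((univ.filter fun ω => bad ω π).card : ℝ) := by
    apply sum_lt_sum_of_nonempty univ_nonempty
    intro π _
    exact hlt π
  have hswap : ∑ π : Fin m → Equiv.Perm (Fin N), ((univ.filter fun ω => bad ω π).card : ℝ) =
      ∑ ω : Ω, ((univ.filter fun π => bad ω π).card : ℝ) := by
    simp only [card_filter]
    push_cast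
    rw [sum_comm]
  rw [hswap, sum_const, card_univ, nsmul_eq_mul, hcardP] at hsum
  have hle : ∑ ω : Ω, ((univ.filter fun π => bad ω π).card : ℝ) ≤
      ∑ _ω : Ω, (q + 1) * ((N.factorial : ℝ) ^ m * (4 * δ / τ ^ 2)) :=
    sum_le_sum fun ω _ => hcount ω
  rw [sum_const, card_univ, nsmul_eq_mul] at hle
  have : (N.factorial : ℝ) ^ m * ((Fintype.card Ω : ℝ) * ((q + 1) * (4 * δ / τ ^ 2))) =
      (Fintype.card Ω : ℝ) * ((q + 1) * ((N.factorial : ℝ) ^ m * (4 * δ / τ ^ 2))) := by ring
  linarith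

end Pool.Agent.H.MP_cba12a_lc.SQ
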