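import Pool.Agent.H.MP_cba12a_lc.SQ.Defs

namespace Pool.Agent.H.MP_cba12a_lc.SQ

open Finset Filter Topology

theorem AL_differentiable (L : ℕ) : Differentiable ℂ (AL L) := by
  unfold AL
  fun_prop

/-- difference of two products -/
theorem cplxa_prod_diff (a b : ℕ → ℂ) (c δ : ℝ) (hc : 1 ≤ c) (hδ : 0 ≤ δ) (n : ℕ)
    (ha : ∀ i < n, ‖a i‖ ≤ c) (hb : ∀ i < n, ‖b i‖ ≤ c) (hab : ∀ i < n, ‖a i - b i‖ ≤ δ) :
    ‖∏ i ∈ range n, a i - ∏ i ∈ range n, b i‖ ≤ n * c ^ n * δ := by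
  induction n with
  | zero => simp
  | succ n ih =>
    have h1 := ih (fun i hi => ha i (by omega)) (fun i hi => hb i (by omega))
      (fun i hi => hab i (by omega))
    have hB : ‖∏ i ∈ range n, b i‖ ≤ c ^ n := by
      rw [norm_prod]
      calc _ ≤ ∏ _i ∈ range n, c := by
            apply Finset.prod_le_prod
            · intro i _
              exact norm_nonneg _
            · intro i hi
              exact hb i (by have := mem_range.1 hi; omega)
        _ = c ^ n := by rw [prod_const, card_range]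
    rw [prod_range_succ, prod_range_succ]
    have h2 : (∏ i ∈ range n, a i) * a n - (∏ i ∈ range n, b i) * b n
        = a n * (∏ i ∈ range n, a i - ∏ i ∈ range n, b i)
          + (a n - b n) * ∏ i ∈ range n, b i := by ring
    have hcn : (0 : ℝ) ≤ c ^ n := pow_nonneg (by linarith) n
    rw [h2]
    calc _ ≤ ‖a n * (∏ i ∈ range n, a i - ∏ i ∈ range n, b i)‖
          + ‖(a n - b n) * ∏ i ∈ range n, b i‖ := norm_add_le _ _
      _ ≤ c * (n * c ^ n * δ) + δ * c ^ n := by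
          rw [norm_mul, norm_mul]
          apply add_le_add
          · exact mul_le_mul (ha n (Nat.lt_succ_self n)) h1 (norm_nonneg _) (by linarith)
          · exact mul_le_mul (hab n (Nat.lt_succ_self n)) hB (norm_nonneg _) hδ
      _ ≤ ((n + 1 : ℕ) : ℝ) * c ^ (n + 1) * δ := by
          rw [pow_succ]
          push_cast
          have h3 : c ^ n * δ ≤ c ^ n * δ * c := le_mul_of_one_le_right (mul_nonneg hcn hδ) hc
          nlinarith

theorem cplxa_bound (ρ : ℝ) (hρ : 1 ≤ ρ) (L : ℕ) (hL2 : 2 ≤ L) (hLρ : ρ ≤ L) (z : ℂ)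
    (hz : ‖z‖ ≤ ρ) :
    ‖AL L z - Complex.exp (2 * z)‖ ≤ 2 * Real.exp (2 * (ρ + 16)) * (16 + ρ ^ 2) / L := by
  have hL : (2 : ℝ) ≤ L := by exact_mod_cast hL2
  have hL0 : (0 : ℝ) < L := by linarith
  have hLc : (L : ℂ) ≠ 0 := by
    exact_mod_cast (by omega : L ≠ 0)
  have hzL : ‖z / L‖ ≤ ρ / L := by
    rw [norm_div, Complex.norm_natCast]
    gcongr
  have hρL : ρ / L ≤ 1 := (div_le_one hL0).2 hLρ
  have hb0 : Complex.exp (2 * z) = ∏ _i ∈ range (2 * L), Complex.exp (z / L) := by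
    rw [prod_const, card_range, ← Complex.exp_nat_mul]
    congr 1
    push_cast
    field_simp
  have hkey := cplxa_prod_diff
    (fun i => (1 + z / L - 2 * i / (L : ℂ) ^ 4) / (1 - i / (L : ℂ) ^ 4))
    (fun _ => Complex.exp (z / L)) (Real.exp ((ρ + 16) / L)) ((16 + ρ ^ 2) / (L : ℝ) ^ 2)
    (Real.one_le_exp (by positivity)) (by positivity) (2 * L) ?_ ?_ ?_
  · unfold AL
    rw [hb0]
    refine hkey.trans (le_of_eq ?_)
    rw [← Real.exp_nat_mul]
    have h1 : ((2 * L : ℕ) : ℝ) * ((ρ + 16) / L) = 2 * (ρ + 16) := by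
      push_cast
      field_simp
    rw [h1]
    push_cast
    field_simp
  all_goals
    have hsmall : ∀ i < 2 * L, (i : ℝ) / (L : ℝ) ^ 4 ≤ 2 / (L : ℝ) ^ 3 := by
      intro i hi
      have hi' : (i : ℝ) ≤ 2 * L := by exact_mod_cast hi.le
      rw [div_le_div_iff₀ (by positivity) (by positivity)]
      have h3 : (0 : ℝ) ≤ (L : ℝ) ^ 3 := by positivity
      calc (i : ℝ) * (L : ℝ) ^ 3 ≤ 2 * L * (L : ℝ) ^ 3 := mul_le_mul_of_nonneg_right hi' h3
        _ = 2 * (L : ℝ) ^ 4 := by ring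
    have hsmall2 : (2 : ℝ) / (L : ℝ) ^ 3 ≤ 1 / 2 := by
      have h8 : (2 : ℝ) ^ 3 ≤ (L : ℝ) ^ 3 := pow_le_pow_left₀ (by norm_num) hL 3
      rw [div_le_div_iff₀ (by positivity) (by norm_num)]
      linarith
    have hdiff : ∀ i < 2 * L, ‖(1 + z / L - 2 * i / (L : ℂ) ^ 4) / (1 - i / (L : ℂ) ^ 4)
        - (1 + z / L)‖ ≤ 16 / (L : ℝ) ^ 2 := by
      intro i hi
      have hq := hsmall i hi
      have hqn : ‖(i : ℂ) / (L : ℂ) ^ 4‖ = (i : ℝ) / (L : ℝ) ^ 4 := by
        rw [norm_div, norm_pow, Complex.norm_natCast, Complex.norm_natCast]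
      have hden : 1 / 2 ≤ ‖1 - (i : ℂ) / (L : ℂ) ^ 4‖ := by
        have h5 := norm_sub_norm_le (1 : ℂ) ((i : ℂ) / (L : ℂ) ^ 4)
        rw [norm_one, hqn] at h5
        linarith
      have hne : 1 - (i : ℂ) / (L : ℂ) ^ 4 ≠ 0 := by
        intro h
        rw [h, norm_zero] at hden
        linarith
      have h6 : (1 + z / L - 2 * i / (L : ℂ) ^ 4) / (1 - i / (L : ℂ) ^ 4) - (1 + z / L)
          = ((-2 + (1 + z / L)) * (i / (L : ℂ) ^ 4)) / (1 - i / (L : ℂ) ^ 4) := by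
        rw [eq_div_iff hne, sub_mul, div_mul_cancel₀ _ hne]
        ring
      have h7 : ‖(-2 + (1 + z / L) : ℂ)‖ ≤ 4 := by
        calc ‖(-2 + (1 + z / L) : ℂ)‖ ≤ ‖(-2 : ℂ)‖ + ‖(1 + z / L : ℂ)‖ := norm_add_le _ _
          _ ≤ 2 + (1 + 1) := by
              have h8 : ‖(-2 : ℂ)‖ = 2 := by norm_num
              rw [h8]
              have h9 := norm_add_le (1 : ℂ) (z / L)
              rw [norm_one] at h9
              linarith
          _ = 4 := by norm_num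
      rw [h6, norm_div, norm_mul, hqn, div_le_iff₀ (by linarith)]
      have h10 : (0 : ℝ) ≤ (i : ℝ) / (L : ℝ) ^ 4 := by positivity
      have h11 : ‖(-2 + (1 + z / L) : ℂ)‖ * ((i : ℝ) / (L : ℝ) ^ 4) ≤ 4 * (2 / (L : ℝ) ^ 3) :=
        mul_le_mul h7 hq h10 (by norm_num)
      have h12 : 4 * (2 / (L : ℝ) ^ 3) ≤ 16 / (L : ℝ) ^ 2 * (1 / 2) := by
        have h13 : 4 * (2 / (L : ℝ) ^ 3) = 8 / (L : ℝ) ^ 3 := by ring
        have h14 : 16 / (L : ℝ) ^ 2 * (1 / 2) = 8 / (L : ℝ) ^ 2 := by ring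
        rw [h13, h14]
        apply div_le_div_of_nonneg_left (by norm_num) (by positivity)
        exact pow_le_pow_right₀ (by linarith) (by norm_num)
      have h15 : 16 / (L : ℝ) ^ 2 * (1 / 2) ≤ 16 / (L : ℝ) ^ 2 * ‖1 - (i : ℂ) / (L : ℂ) ^ 4‖ :=
        mul_le_mul_of_nonneg_left hden (by positivity)
      linarith
  · intro i hi
    have h1 := hdiff i hi
    have h2 : ‖(1 + z / L - 2 * i / (L : ℂ) ^ 4) / (1 - i / (L : ℂ) ^ 4)‖
        ≤ 16 / (L : ℝ) ^ 2 + (1 + ρ / L) := by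
      have h3 : (1 + z / L - 2 * i / (L : ℂ) ^ 4) / (1 - i / (L : ℂ) ^ 4)
          = ((1 + z / L - 2 * i / (L : ℂ) ^ 4) / (1 - i / (L : ℂ) ^ 4) - (1 + z / L))
            + (1 + z / L) := by ring
      rw [h3]
      refine (norm_add_le _ _).trans (add_le_add h1 ?_)
      have h9 := norm_add_le (1 : ℂ) (z / L)
      rw [norm_one] at h9
      linarith
    refine h2.trans ?_
    have h4 := Real.add_one_le_exp ((ρ + 16) / L)
    have h5 : 16 / (L : ℝ) ^ 2 ≤ 16 / L := by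
      apply div_le_div_of_nonneg_left (by norm_num) hL0
      nlinarith
    have h6 : (ρ + 16) / L = ρ / L + 16 / L := by ring
    linarith
  · intro i hi
    rw [Complex.norm_exp]
    apply Real.exp_le_exp.2
    have h1 : (z / L).re ≤ ‖z / L‖ := Complex.re_le_norm _
    have h2 : ρ / L ≤ (ρ + 16) / L := by
      apply div_le_div_of_nonneg_right _ hL0.le
      linarith
    linarith
  · intro i hi
    have h1 := hdiff i hi
    have h2 : ‖Complex.exp (z / L) - 1 - z / L‖ ≤ ‖z / L‖ ^ 2 :=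
      Complex.norm_exp_sub_one_sub_id_le (by linarith)
    have h3 : (1 + z / L - 2 * i / (L : ℂ) ^ 4) / (1 - i / (L : ℂ) ^ 4) - Complex.exp (z / L)
        = ((1 + z / L - 2 * i / (L : ℂ) ^ 4) / (1 - i / (L : ℂ) ^ 4) - (1 + z / L))
          - (Complex.exp (z / L) - 1 - z / L) := by ring
    rw [h3]
    refine (norm_sub_le _ _).trans ?_
    have h4 : ‖z / L‖ ^ 2 ≤ (ρ / L) ^ 2 := pow_le_pow_left₀ (norm_nonneg _) hzL 2
    have h5 : (16 + ρ ^ 2) / (L : ℝ) ^ 2 = 16 / (L : ℝ) ^ 2 + (ρ / L) ^ 2 := by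
      rw [div_pow]
      ring
    rw [h5]
    linarith

theorem AL_tendsto : TendstoLocallyUniformly AL (fun z => Complex.exp (2 * z)) atTop := by
  rw [← tendstoLocallyUniformlyOn_univ, tendstoLocallyUniformlyOn_iff_forall_isCompact isOpen_univ]
  intro K _ hK
  obtain ⟨R, hR⟩ := hK.isBounded.subset_closedBall (0 : ℂ)
  rw [Metric.tendstoUniformlyOn_iff]
  intro ε hε
  set ρ : ℝ := max R 1 with hρ
  have hρ1 : 1 ≤ ρ := le_max_right _ _
  have h1 : Tendsto (fun L : ℕ => 2 * Real.exp (2 * (ρ + 16)) * (16 + ρ ^ 2) / (L : ℝ)) atTop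
      (𝓝 0) := tendsto_const_div_atTop_nhds_zero_nat _
  have h2 : ∀ᶠ L : ℕ in atTop, 2 * Real.exp (2 * (ρ + 16)) * (16 + ρ ^ 2) / (L : ℝ) < ε :=
    h1.eventually_lt_const hε
  have h3 : ∀ᶠ L : ℕ in atTop, ρ ≤ L := tendsto_natCast_atTop_atTop.eventually_ge_atTop ρ
  filter_upwards [h2, h3, eventually_ge_atTop 2] with L h2L h3L h4L z hz
  rw [dist_comm, dist_eq_norm]
  have h5 : ‖z‖ ≤ ρ := by
    have := hR hz
    rw [Metric.mem_closedBall, dist_zero_right] at this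
    exact this.trans (le_max_left _ _)
  exact (cplxa_bound ρ hρ1 L h4L h3L z h5).trans_lt h2L

theorem cplxa_choose (n d : ℕ) : (n.choose d : ℝ) * (d.factorial : ℝ)
    = ∏ i ∈ range d, ((n : ℝ) - i) := by
  induction d with
  | zero => simp
  | succ d ih =>
    rw [prod_range_succ, ← ih, Nat.factorial_succ]
    rcases Nat.lt_or_ge n d with h | h
    · rw [Nat.choose_eq_zero_of_lt h, Nat.choose_eq_zero_of_lt (by omega)]
      simp
    · have h1 := Nat.choose_succ_right_eq n d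
      have h2 : (n.choose (d + 1) : ℝ) * ((d : ℝ) + 1) = n.choose d * ((n : ℝ) - d) := by
        have := congrArg (Nat.cast : ℕ → ℝ) h1
        push_cast [Nat.cast_sub h] at this
        exact this
      push_cast
      linear_combination (d.factorial : ℝ) * h2

theorem AL_eq (L n : ℕ) (hL : 2 ≤ L) :
    AL L (L * (2 * n / (L : ℂ) ^ 4 - 1)) = ((2 ^ (2 * L) * ur (L ^ 4) (2 * L) n : ℝ) : ℂ) := by
  have hL0 : (L : ℂ) ≠ 0 := by exact_mod_cast (by omega : L ≠ 0)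
  have hL4 : 2 * L ≤ L ^ 4 := by
    have h1 : 2 ^ 3 ≤ L ^ 3 := Nat.pow_le_pow_left hL 3
    calc 2 * L ≤ L ^ 3 * L := Nat.mul_le_mul_right L (by omega)
      _ = L ^ 4 := by ring
  have hcm : ((L ^ 4).choose (2 * L) : ℝ) ≠ 0 := by
    exact_mod_cast (Nat.choose_pos hL4).ne'
  have hfac : ((2 * L).factorial : ℝ) ≠ 0 := by exact_mod_cast (Nat.factorial_pos _).ne'
  have hur : ur (L ^ 4) (2 * L) n
      = ∏ i ∈ range (2 * L), (((n : ℝ) - i) / ((L : ℝ) ^ 4 - i)) := by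
    unfold ur
    rw [prod_div_distrib, ← cplxa_choose]
    have h2 := cplxa_choose (L ^ 4) (2 * L)
    push_cast at h2
    rw [← h2, mul_div_mul_right _ _ hfac]
  rw [hur]
  unfold AL
  have hr : (2 : ℝ) ^ (2 * L) = ∏ _i ∈ range (2 * L), (2 : ℝ) := by rw [prod_const, card_range]
  rw [hr, ← prod_mul_distrib]
  push_cast
  apply prod_congr rfl
  intro i hi
  have hi' := mem_range.1 hi
  have hne : (L : ℂ) ^ 4 - i ≠ 0 := by
    rw [sub_ne_zero]
    have : L ^ 4 ≠ i := by omega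
    exact_mod_cast this
  have hne2 : 1 - (i : ℂ) / (L : ℂ) ^ 4 ≠ 0 := by
    have h3 : 1 - (i : ℂ) / (L : ℂ) ^ 4 = ((L : ℂ) ^ 4 - i) / (L : ℂ) ^ 4 := by
      field_simp
    rw [h3]
    exact div_ne_zero hne (pow_ne_zero _ hL0)
  rw [div_eq_iff hne2]
  field_simp
  ring

end Pool.Agent.H.MP_cba12a_lc.SQ
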