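import Pool.Agent.H.MP_cba12a_lc.SQ.Defs

namespace Pool.Agent.H.MP_cba12a_lc.SQ

open Finset Filter Topology

theorem BL_differentiable (υ : ℕ) (lam : ℝ) (L : ℕ) : Differentiable ℂ (BL υ lam L) := by
  unfold BL
  fun_prop

private theorem cplxb_pow_sub (a b : ℂ) (r : ℝ) (hr : 1 ≤ r) (ha : ‖a‖ ≤ r) (hb : ‖b‖ ≤ r)
    (M : ℕ) : ‖a ^ M - b ^ M‖ ≤ M * r ^ M * ‖a - b‖ := by
  induction M with
  | zero => simp
  | succ M ih =>
    have h1 : a ^ (M + 1) - b ^ (M + 1) = a ^ M * (a - b) + (a ^ M - b ^ M) * b := by ring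
    have h2 : ‖a ^ M * (a - b)‖ ≤ r ^ M * ‖a - b‖ := by
      rw [norm_mul, norm_pow]
      exact mul_le_mul_of_nonneg_right (pow_le_pow_left₀ (norm_nonneg _) ha _) (norm_nonneg _)
    have h3 : ‖(a ^ M - b ^ M) * b‖ ≤ (M * r ^ M * ‖a - b‖) * r := by
      rw [norm_mul]
      exact mul_le_mul ih hb (norm_nonneg _) (by positivity)
    have h4 : r ^ M * ‖a - b‖ ≤ r ^ (M + 1) * ‖a - b‖ :=
      mul_le_mul_of_nonneg_right (pow_le_pow_right₀ hr (by omega)) (norm_nonneg _)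
    rw [h1]
    push_cast
    calc ‖a ^ M * (a - b) + (a ^ M - b ^ M) * b‖
        ≤ ‖a ^ M * (a - b)‖ + ‖(a ^ M - b ^ M) * b‖ := norm_add_le _ _
      _ ≤ r ^ (M + 1) * ‖a - b‖ + (M * r ^ M * ‖a - b‖) * r := by linarith
      _ = (M + 1) * r ^ (M + 1) * ‖a - b‖ := by ring

private theorem cplxb_exp (w : ℂ) (hw : ‖w‖ ≤ 1) : ‖(1 + w) - Complex.exp w‖ ≤ ‖w‖ ^ 2 := by
  have h := Complex.norm_exp_sub_one_sub_id_le hw
  rw [norm_sub_rev]
  have h1 : Complex.exp w - (1 + w) = Complex.exp w - 1 - w := by ring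
  rw [h1]
  exact h

private theorem cplxb_one_add (w : ℂ) : ‖1 + w‖ ≤ Real.exp ‖w‖ := by
  have h1 : ‖1 + w‖ ≤ ‖(1 : ℂ)‖ + ‖w‖ := norm_add_le _ _
  rw [norm_one] at h1
  have h2 := Real.add_one_le_exp ‖w‖
  linarith

private theorem cplxb_exp_le (w : ℂ) : ‖Complex.exp w‖ ≤ Real.exp ‖w‖ := by
  rw [Complex.norm_exp]
  exact Real.exp_le_exp.2 (Complex.re_le_norm w)

private theorem cplxb_est (υ : ℕ) (hυ : 1 ≤ υ) (lam : ℝ) (hlam : 0 < lam) (ρ : ℝ)
    (L : ℕ) (hL : 1 ≤ L) (hLρ : ρ ≤ L) (c : ℝ) (hc : c = Real.exp (υ * ρ))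
    (hLc : c + lam * υ * ρ ^ 2 * c ≤ L) (z : ℂ) (hz : ‖z‖ ≤ ρ) :
    ‖BL υ lam L z - Complex.exp (-lam * Complex.exp (υ * z))‖ ≤
      (lam * c ^ 2 * Real.exp (lam * c) +
        2 * Real.exp (lam * c) * (c + lam * υ * ρ ^ 2 * c)) / L := by
  have hρ : 0 ≤ ρ := (norm_nonneg z).trans hz
  have hL0 : (0 : ℝ) < L := by exact_mod_cast hL
  have hLC : (L : ℂ) ≠ 0 := by
    have : (L : ℕ) ≠ 0 := by omega
    exact_mod_cast this
  have hc0 : 0 < c := by rw [hc]; exact Real.exp_pos _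
  have hX : 0 ≤ lam * υ * ρ ^ 2 * c := by positivity
  have hcL : c ≤ L := by linarith
  -- norms of z / L
  have hzL : ‖z / L‖ ≤ ρ / L := by
    rw [norm_div, Complex.norm_natCast]
    exact div_le_div_of_nonneg_right hz hL0.le
  have hzL1 : ‖z / L‖ ≤ 1 := hzL.trans (by rw [div_le_one hL0]; exact hLρ)
  set e : ℕ := υ * L with he
  have heL : L ≤ e := Nat.le_mul_of_pos_left L (by omega)
  have h2e : (L : ℝ) ≤ 2 ^ e := by
    have h1 : L < 2 ^ e := (heL).trans_lt Nat.lt_two_pow_self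
    exact_mod_cast h1.le
  have h2e0 : (0 : ℝ) < 2 ^ e := by positivity
  set r : ℝ := Real.exp (ρ / L) with hr
  have hr1 : 1 ≤ r := Real.one_le_exp (div_nonneg hρ hL0.le)
  have hre : r ^ e = c := by
    rw [hr, hc, ← Real.exp_nat_mul, he]
    congr 1
    push_cast
    field_simp
  set a : ℂ := (1 + z / L) ^ e with ha
  have h1r : ‖1 + z / L‖ ≤ r := (cplxb_one_add _).trans (Real.exp_le_exp.2 hzL)
  have hac : ‖a‖ ≤ c := by
    rw [ha, norm_pow, ← hre]
    exact pow_le_pow_left₀ (norm_nonneg _) h1r _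
  have hexp : Complex.exp (z / L) ^ e = Complex.exp (υ * z) := by
    rw [← Complex.exp_nat_mul, he]
    congr 1
    push_cast
    field_simp
  have haz : ‖a - Complex.exp (υ * z)‖ ≤ υ * ρ ^ 2 * c / L := by
    rw [ha, ← hexp]
    have h1 := cplxb_pow_sub (1 + z / L) (Complex.exp (z / L)) r hr1 h1r
      ((cplxb_exp_le _).trans (Real.exp_le_exp.2 hzL)) e
    rw [hre] at h1
    have h2 : ‖(1 + z / L) - Complex.exp (z / L)‖ ≤ (ρ / L) ^ 2 :=
      (cplxb_exp _ hzL1).trans (pow_le_pow_left₀ (norm_nonneg _) hzL _)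
    calc ‖(1 + z / L) ^ e - Complex.exp (z / L) ^ e‖
        ≤ e * c * ‖(1 + z / L) - Complex.exp (z / L)‖ := h1
      _ ≤ e * c * (ρ / L) ^ 2 := mul_le_mul_of_nonneg_left h2 (by positivity)
      _ = υ * ρ ^ 2 * c / L := by
        rw [he]; push_cast; field_simp
  set w : ℂ := ((1 + z / L) / 2) ^ e with hw
  have hwa : w = a / 2 ^ e := by rw [hw, ha, div_pow]
  have hwn : ‖w‖ ≤ c / 2 ^ e := by
    have h2n : ‖(2 : ℂ) ^ e‖ = 2 ^ e := by rw [norm_pow]; norm_num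
    rw [hwa, norm_div, h2n]
    exact div_le_div_of_nonneg_right hac h2e0.le
  have hcL2 : c / 2 ^ e ≤ c / L := div_le_div_of_nonneg_left hc0.le hL0 h2e
  have hcL1 : c / 2 ^ e ≤ 1 := by
    rw [div_le_one h2e0]; linarith
  have hw1 : ‖w‖ ≤ 1 := hwn.trans hcL1
  set M : ℕ := ⌊lam * 2 ^ e⌋₊ with hM
  have hMle : (M : ℝ) ≤ lam * 2 ^ e := Nat.floor_le (by positivity)
  have hMlt : lam * 2 ^ e < M + 1 := Nat.lt_floor_add_one _
  have hMw : (M : ℝ) * ‖w‖ ≤ lam * c := by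
    calc (M : ℝ) * ‖w‖ ≤ (lam * 2 ^ e) * (c / 2 ^ e) :=
          mul_le_mul hMle hwn (norm_nonneg _) (by positivity)
      _ = lam * c := by field_simp
  -- (a)
  have hA : ‖(1 - w) ^ M - Complex.exp (-(M * w))‖ ≤
      lam * c ^ 2 * Real.exp (lam * c) / L := by
    have h1 : Complex.exp (-(M * w)) = Complex.exp (-w) ^ M := by
      rw [← Complex.exp_nat_mul]; ring_nf
    rw [h1]
    have h2 := cplxb_pow_sub (1 + -w) (Complex.exp (-w)) (Real.exp ‖w‖)
      (Real.one_le_exp (norm_nonneg _))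
      (by simpa using cplxb_one_add (-w)) (by simpa using cplxb_exp_le (-w)) M
    have h3 : ‖(1 + -w) - Complex.exp (-w)‖ ≤ ‖w‖ ^ 2 := by
      simpa using cplxb_exp (-w) (by simpa using hw1)
    have h4 : Real.exp ‖w‖ ^ M ≤ Real.exp (lam * c) := by
      rw [← Real.exp_nat_mul]
      exact Real.exp_le_exp.2 hMw
    have h5 : (1 - w) = 1 + -w := by ring
    rw [h5]
    calc ‖(1 + -w) ^ M - Complex.exp (-w) ^ M‖
        ≤ M * Real.exp ‖w‖ ^ M * ‖(1 + -w) - Complex.exp (-w)‖ := h2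
      _ ≤ M * Real.exp (lam * c) * ‖w‖ ^ 2 := by
        refine mul_le_mul (mul_le_mul_of_nonneg_left h4 (by positivity)) h3 (norm_nonneg _)
          (by positivity)
      _ = (M * ‖w‖) * Real.exp (lam * c) * ‖w‖ := by ring
      _ ≤ (lam * c) * Real.exp (lam * c) * (c / L) := by
        refine mul_le_mul (mul_le_mul_of_nonneg_right hMw (Real.exp_pos _).le)
          (hwn.trans hcL2) (norm_nonneg _) (by positivity)
      _ = lam * c ^ 2 * Real.exp (lam * c) / L := by ring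
  -- (b)
  have hB : ‖(M : ℂ) * w - lam * Complex.exp (υ * z)‖ ≤
      (c + lam * υ * ρ ^ 2 * c) / L := by
    have h1 : (M : ℂ) * w - lam * Complex.exp (υ * z) =
        (((M : ℝ) / 2 ^ e - lam : ℝ) : ℂ) * a + lam * (a - Complex.exp (υ * z)) := by
      rw [hwa]; push_cast; ring
    have h2 : |(M : ℝ) / 2 ^ e - lam| ≤ 1 / 2 ^ e := by
      have h3 : (M : ℝ) / 2 ^ e - lam = (M - lam * 2 ^ e) / 2 ^ e := by
        field_simp
      rw [h3, abs_div, abs_of_pos h2e0]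
      refine div_le_div_of_nonneg_right ?_ h2e0.le
      rw [abs_le]
      constructor <;> linarith
    rw [h1]
    calc ‖(((M : ℝ) / 2 ^ e - lam : ℝ) : ℂ) * a + lam * (a - Complex.exp (υ * z))‖
        ≤ ‖(((M : ℝ) / 2 ^ e - lam : ℝ) : ℂ) * a‖ + ‖(lam : ℂ) * (a - Complex.exp (υ * z))‖ :=
          norm_add_le _ _
      _ ≤ (1 / 2 ^ e) * c + lam * (υ * ρ ^ 2 * c / L) := by
        rw [norm_mul, norm_mul, Complex.norm_real, Complex.norm_real, Real.norm_eq_abs,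
          Real.norm_eq_abs, abs_of_pos hlam]
        refine add_le_add (mul_le_mul h2 hac (norm_nonneg _) (by positivity))
          (mul_le_mul_of_nonneg_left haz hlam.le)
      _ = c / 2 ^ e + lam * (υ * ρ ^ 2 * c / L) := by ring
      _ ≤ c / L + lam * (υ * ρ ^ 2 * c / L) := by linarith
      _ = (c + lam * υ * ρ ^ 2 * c) / L := by ring
  -- (c)
  have hC : ‖Complex.exp (-(M * w)) - Complex.exp (-lam * Complex.exp (υ * z))‖ ≤
      2 * Real.exp (lam * c) * ((c + lam * υ * ρ ^ 2 * c) / L) := by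
    set v : ℂ := -lam * Complex.exp (υ * z) with hv
    set d : ℂ := -(M * w) - v with hd
    have hdn : ‖d‖ ≤ (c + lam * υ * ρ ^ 2 * c) / L := by
      have : d = -((M : ℂ) * w - lam * Complex.exp (υ * z)) := by rw [hd, hv]; ring
      rw [this, norm_neg]
      exact hB
    have hd1 : ‖d‖ ≤ 1 := hdn.trans (by rw [div_le_one hL0]; exact hLc)
    have h1 : Complex.exp (-(M * w)) - Complex.exp v = Complex.exp v * (Complex.exp d - 1) := by
      have : -(M * w) = v + d := by rw [hd]; ring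
      rw [this, Complex.exp_add]; ring
    have h2 : ‖Complex.exp d - 1‖ ≤ 2 * ‖d‖ := Complex.norm_exp_sub_one_le hd1
    have h3 : ‖Complex.exp v‖ ≤ Real.exp (lam * c) := by
      refine (cplxb_exp_le v).trans (Real.exp_le_exp.2 ?_)
      rw [hv, norm_mul, norm_neg, Complex.norm_real, Real.norm_eq_abs, abs_of_pos hlam]
      refine mul_le_mul_of_nonneg_left ?_ hlam.le
      refine (cplxb_exp_le _).trans ?_
      rw [hc]
      refine Real.exp_le_exp.2 ?_
      rw [norm_mul, Complex.norm_natCast]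
      exact mul_le_mul_of_nonneg_left hz (by positivity)
    rw [h1, norm_mul]
    calc ‖Complex.exp v‖ * ‖Complex.exp d - 1‖ ≤ Real.exp (lam * c) * (2 * ‖d‖) :=
          mul_le_mul h3 h2 (norm_nonneg _) (Real.exp_pos _).le
      _ ≤ Real.exp (lam * c) * (2 * ((c + lam * υ * ρ ^ 2 * c) / L)) := by
        refine mul_le_mul_of_nonneg_left ?_ (Real.exp_pos _).le
        linarith
      _ = _ := by ring
  have hBL : BL υ lam L z = (1 - w) ^ M := rfl
  rw [hBL]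
  calc ‖(1 - w) ^ M - Complex.exp (-lam * Complex.exp (υ * z))‖
      = ‖((1 - w) ^ M - Complex.exp (-(M * w))) +
          (Complex.exp (-(M * w)) - Complex.exp (-lam * Complex.exp (υ * z)))‖ := by
        congr 1; ring
    _ ≤ _ := norm_add_le _ _
    _ ≤ lam * c ^ 2 * Real.exp (lam * c) / L +
        2 * Real.exp (lam * c) * ((c + lam * υ * ρ ^ 2 * c) / L) := add_le_add hA hC
    _ = _ := by ring

theorem BL_tendsto (υ : ℕ) (hυ : 1 ≤ υ) (lam : ℝ) (hlam : 0 < lam) :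
    TendstoLocallyUniformly (BL υ lam) (fun z => Complex.exp (-lam * Complex.exp (υ * z)))
      atTop := by
  rw [Metric.tendstoLocallyUniformly_iff]
  intro ε hε x
  refine ⟨Metric.ball x 1, Metric.ball_mem_nhds x one_pos, ?_⟩
  set ρ : ℝ := ‖x‖ + 1 with hρ
  set c : ℝ := Real.exp (υ * ρ) with hc
  set K : ℝ := lam * c ^ 2 * Real.exp (lam * c) +
        2 * Real.exp (lam * c) * (c + lam * υ * ρ ^ 2 * c) with hK
  have hT : Tendsto (fun L : ℕ => (L : ℝ)) atTop atTop := tendsto_natCast_atTop_atTop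
  filter_upwards [eventually_ge_atTop 1, hT.eventually_ge_atTop ρ,
    hT.eventually_ge_atTop (c + lam * υ * ρ ^ 2 * c), hT.eventually_gt_atTop (K / ε)]
    with L h1 h2 h3 h4 z hz
  have hL0 : (0 : ℝ) < L := by exact_mod_cast h1
  have hzρ : ‖z‖ ≤ ρ := by
    have h5 : dist z x < 1 := hz
    rw [dist_eq_norm] at h5
    have h6 : ‖z‖ ≤ ‖z - x‖ + ‖x‖ := by
      have := norm_add_le (z - x) x
      simpa using this
    rw [hρ]; linarith
  have h5 := cplxb_est υ hυ lam hlam ρ L h1 h2 c hc h3 z hzρ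
  rw [dist_comm, dist_eq_norm]
  refine h5.trans_lt ?_
  rw [div_lt_iff₀ hL0]
  rw [div_lt_iff₀ hε] at h4
  linarith

theorem BL_eq (υ : ℕ) (lam : ℝ) (L n : ℕ) (hL : 1 ≤ L) :
    BL υ lam L (L * (2 * n / (L : ℂ) ^ 4 - 1)) =
      (((1 - ((n : ℝ) / (L ^ 4 : ℕ)) ^ (υ * L)) ^ ⌊lam * 2 ^ (υ * L)⌋₊ : ℝ) : ℂ) := by
  have hLC : (L : ℂ) ≠ 0 := by
    have : (L : ℕ) ≠ 0 := by omega
    exact_mod_cast this
  unfold BL
  have h1 : (1 + (L * (2 * n / (L : ℂ) ^ 4 - 1)) / L) / 2 = (n : ℂ) / (L : ℂ) ^ 4 := by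
    field_simp
    ring
  rw [h1]
  push_cast
  rfl

end Pool.Agent.H.MP_cba12a_lc.SQ
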