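import Pool.Agent.H.MP_cba12a_lc.SQ.AsymGen
import Pool.Agent.H.MP_cba12a_lc.SQ.CplxA
import Pool.Agent.H.MP_cba12a_lc.SQ.CplxB

namespace Pool.Agent.H.MP_cba12a_lc.SQ

open Finset Filter Topology

theorem asym_hasDerivAt (a b lam : ℝ) (Q : Polynomial ℂ) (s : ℂ) :
    HasDerivAt (fun s : ℂ => Complex.exp (a * s) * Complex.exp (-lam * Complex.exp (b * s)) *
        Q.eval (lam * Complex.exp (b * s)))
      (Complex.exp (a * s) * Complex.exp (-lam * Complex.exp (b * s)) *
        (a * Q.eval (lam * Complex.exp (b * s)) -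
          b * (lam * Complex.exp (b * s)) * Q.eval (lam * Complex.exp (b * s)) +
          b * (lam * Complex.exp (b * s)) * Q.derivative.eval (lam * Complex.exp (b * s)))) s := by
  have h1 : HasDerivAt (fun s : ℂ => Complex.exp (a * s)) (Complex.exp (a * s) * (a * 1)) s :=
    ((hasDerivAt_id s).const_mul (a : ℂ)).cexp
  have h2 : HasDerivAt (fun s : ℂ => Complex.exp (b * s)) (Complex.exp (b * s) * (b * 1)) s :=
    ((hasDerivAt_id s).const_mul (b : ℂ)).cexp
  have h3 : HasDerivAt (fun s : ℂ => Complex.exp (-lam * Complex.exp (b * s)))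
      (Complex.exp (-lam * Complex.exp (b * s)) * (-lam * (Complex.exp (b * s) * (b * 1)))) s :=
    (h2.const_mul (-lam : ℂ)).cexp
  have h4 : HasDerivAt (fun s : ℂ => Q.eval (lam * Complex.exp (b * s)))
      (Q.derivative.eval (lam * Complex.exp (b * s)) *
        (lam * (Complex.exp (b * s) * (b * 1)))) s :=
    HasDerivAt.comp s (Q.hasDerivAt _) (h2.const_mul (lam : ℂ))
  have h5 := (h1.fun_mul h3).fun_mul h4
  refine h5.congr_deriv ?_
  ring

/-- the derivatives of `exp (a s) * exp (-lam * exp (b s))` -/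
theorem deriv_PP (a b lam : ℝ) (j : ℕ) (s : ℂ) :
    deriv^[j] (fun s : ℂ => Complex.exp (a * s) * Complex.exp (-lam * Complex.exp (b * s))) s =
      Complex.exp (a * s) * Complex.exp (-lam * Complex.exp (b * s)) *
        ((PP a b j).map (algebraMap ℝ ℂ)).eval (lam * Complex.exp (b * s)) := by
  have key : deriv^[j] (fun s : ℂ => Complex.exp (a * s) *
      Complex.exp (-lam * Complex.exp (b * s))) = fun s : ℂ =>
      Complex.exp (a * s) * Complex.exp (-lam * Complex.exp (b * s)) *
        ((PP a b j).map (algebraMap ℝ ℂ)).eval (lam * Complex.exp (b * s)) := by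
    induction j with
    | zero =>
      funext s
      simp [PP]
    | succ j ih =>
      rw [Function.iterate_succ_apply', ih]
      funext s
      rw [(asym_hasDerivAt a b lam ((PP a b j).map (algebraMap ℝ ℂ)) s).deriv]
      simp only [PP, Polynomial.map_sub, Polynomial.map_add, Polynomial.map_mul,
        Polynomial.map_C, Polynomial.map_X, Polynomial.eval_sub, Polynomial.eval_add,
        Polynomial.eval_mul, Polynomial.eval_C, Polynomial.eval_X, Polynomial.derivative_map,
        Complex.coe_algebraMap]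
      ring
  rw [key]

theorem asym_exp_cont (c : ℂ) : Continuous fun z : ℂ => Complex.exp (c * z) :=
  Complex.continuous_exp.comp (continuous_const.mul continuous_id)

theorem asym_deriv (υ : ℕ) (lam : ℝ) (j : ℕ) :
    deriv^[j] (fun z : ℂ => Complex.exp (2 * z) *
      (1 - Complex.exp (-lam * Complex.exp (υ * z)))) 0 =
      ((2 ^ j - Real.exp (-lam) * (PP 2 υ j).eval lam : ℝ) : ℂ) := by
  have h1 : (fun z : ℂ => Complex.exp (2 * z) *
      (1 - Complex.exp (-lam * Complex.exp (υ * z)))) =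
      (fun z : ℂ => Complex.exp (2 * z)) - (fun z : ℂ => Complex.exp ((2 : ℝ) * z) *
        Complex.exp (-lam * Complex.exp ((υ : ℝ) * z))) := by
    funext z
    simp only [Pi.sub_apply, Complex.ofReal_ofNat, Complex.ofReal_natCast]
    ring
  have h2 : ContDiff ℂ j (fun z : ℂ => Complex.exp (2 * z)) := by fun_prop
  have h3 : ContDiff ℂ j (fun z : ℂ => Complex.exp ((2 : ℝ) * z) *
        Complex.exp (-lam * Complex.exp ((υ : ℝ) * z))) := by fun_prop
  rw [h1, ← iteratedDeriv_eq_iterate, iteratedDeriv_sub h2.contDiffAt h3.contDiffAt,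
    iteratedDeriv_cexp_const_mul, iteratedDeriv_eq_iterate, deriv_PP]
  have h4 : ((PP 2 υ j).map (algebraMap ℝ ℂ)).eval ((lam : ℂ) * Complex.exp ((υ : ℝ) * 0)) =
      (((PP 2 υ j).eval lam : ℝ) : ℂ) := by
    rw [mul_zero, Complex.exp_zero, mul_one]
    exact Polynomial.eval_map_algebraMap _ _ |>.trans (Polynomial.aeval_algebraMap_apply_eq_algebraMap_eval lam _)
  rw [h4]
  push_cast
  simp

theorem asym_blk (υ : ℕ) (hυ : 1 ≤ υ) (lam : ℝ) (hlam : 0 < lam) (j : ℕ) :
    Tendsto (fun L : ℕ => nvb υ lam L j) atTop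
      (𝓝 (2 ^ j - Real.exp (-lam) * (PP 2 υ j).eval lam)) := by
  unfold nvb
  refine asym_gen (fun L n => blk (L ^ 4) (2 * L) (υ * L) ⌊lam * 2 ^ (υ * L)⌋₊ n)
    (fun L z => AL L z * (1 - BL υ lam L z))
    (fun z => Complex.exp (2 * z) * (1 - Complex.exp (-lam * Complex.exp (υ * z))))
    (fun L => (AL_differentiable L).mul ((differentiable_const 1).sub (BL_differentiable υ lam L)))
    ?_ ?_ ?_ j _ (asym_deriv υ lam j)
  · have h1 : TendstoLocallyUniformly (fun (_ : ℕ) (_ : ℂ) => (1 : ℂ)) (fun _ => 1) atTop := by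
      intro u hu x
      exact ⟨Set.univ, Filter.univ_mem, Filter.Eventually.of_forall fun n y _ => refl_mem_uniformity hu⟩
    refine AL_tendsto.fun_mul₀ (h1.fun_sub (BL_tendsto υ hυ lam hlam)) (asym_exp_cont 2) ?_
    fun_prop
  · filter_upwards [Filter.eventually_ge_atTop 2] with L hL n hn
    refine ⟨blk_nonneg _ _ _ _ _ hn, (blk_le_ur _ _ _ _ _ hn).trans ?_⟩
    have := ur_le (L ^ 4) (2 * L) n hn
    push_cast at this
    exact this
  · filter_upwards [Filter.eventually_ge_atTop 2] with L hL n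
    rw [AL_eq L n hL, BL_eq υ lam L n (by omega)]
    unfold blk
    push_cast
    ring

theorem asym_ur (j : ℕ) : Tendsto (fun L : ℕ => nvp L j) atTop (𝓝 (2 ^ j)) := by
  unfold nvp
  refine asym_gen (fun L n => ur (L ^ 4) (2 * L) n) AL (fun z => Complex.exp (2 * z))
    AL_differentiable AL_tendsto ?_ ?_ j _ ?_
  · filter_upwards [Filter.eventually_ge_atTop 2] with L hL n hn
    refine ⟨ur_nonneg _ _ _, ?_⟩
    have := ur_le (L ^ 4) (2 * L) n hn
    push_cast at this
    exact this
  · filter_upwards [Filter.eventually_ge_atTop 2] with L hL n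
    exact AL_eq L n hL
  · rw [← iteratedDeriv_eq_iterate, iteratedDeriv_cexp_const_mul]
    simp

end Pool.Agent.H.MP_cba12a_lc.SQ
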