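import Pool.Agent.H.MP_cba12a_lc.SQ.Defs

namespace Pool.Agent.H.MP_cba12a_lc.SQ

open Finset Filter Topology

theorem Dh_differentiable (h : ℂ) (f : ℂ → ℂ) (hf : Differentiable ℂ f) :
    Differentiable ℂ (Dh h f) := by
  unfold Dh
  exact ((hf.comp (differentiable_id.add_const h)).sub hf).div_const h

theorem findiff_tlu_iff (f : ℕ → ℂ → ℂ) (g : ℂ → ℂ) :
    TendstoLocallyUniformly f g atTop ↔
      ∀ K : Set ℂ, IsCompact K → TendstoUniformlyOn f g atTop K := by
  rw [← tendstoLocallyUniformlyOn_univ, tendstoLocallyUniformlyOn_iff_forall_isCompact isOpen_univ]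
  exact ⟨fun h K hK => h K (Set.subset_univ _) hK, fun h K _ hK => h K hK⟩

theorem Dh_tendsto (f : ℕ → ℂ → ℂ) (g : ℂ → ℂ) (h : ℕ → ℂ) (hf : ∀ n, Differentiable ℂ (f n))
    (hh0 : ∀ᶠ n in atTop, h n ≠ 0) (hh : Tendsto h atTop (𝓝 0))
    (hfg : TendstoLocallyUniformly f g atTop) :
    TendstoLocallyUniformly (fun n => Dh (h n) (f n)) (deriv g) atTop := by
  have hfg' : TendstoLocallyUniformlyOn f g atTop Set.univ := tendstoLocallyUniformlyOn_univ.2 hfg
  have hfd : ∀ᶠ n in atTop, DifferentiableOn ℂ (f n) Set.univ :=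
    Eventually.of_forall fun n => (hf n).differentiableOn
  have hg : DifferentiableOn ℂ g Set.univ := hfg'.differentiableOn hfd isOpen_univ
  have hgc : Continuous (deriv g) := by
    rw [← continuousOn_univ]
    exact (hg.deriv isOpen_univ).continuousOn
  have hd : TendstoLocallyUniformly (deriv ∘ f) (deriv g) atTop :=
    tendstoLocallyUniformlyOn_univ.1 (hfg'.deriv hfd isOpen_univ)
  rw [findiff_tlu_iff] at hd ⊢
  intro K hK
  obtain ⟨R, hR⟩ := hK.isBounded.subset_closedBall (0 : ℂ)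
  have hK' : IsCompact (Metric.closedBall (0 : ℂ) (R + 1)) := isCompact_closedBall _ _
  rw [Metric.tendstoUniformlyOn_iff]
  intro ε hε
  have h1 := Metric.tendstoUniformlyOn_iff.1 (hd _ hK') (ε / 4) (by positivity)
  obtain ⟨η, hη, h2⟩ := Metric.uniformContinuousOn_iff.1
    (hK'.uniformContinuousOn_of_continuous hgc.continuousOn) (ε / 4) (by positivity)
  have h3 : ∀ᶠ n in atTop, ‖h n‖ < min η 1 := by
    have := Metric.tendsto_nhds.1 hh (min η 1) (lt_min hη one_pos)
    simpa [dist_zero_right] using this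
  filter_upwards [h1, h3, hh0] with n h1n h3n h0n z hz
  have hzR : ‖z‖ ≤ R := by
    have := hR hz
    rwa [Metric.mem_closedBall, dist_zero_right] at this
  have hsub : Metric.closedBall z ‖h n‖ ⊆ Metric.closedBall (0 : ℂ) (R + 1) := by
    intro y hy
    rw [Metric.mem_closedBall, dist_eq_norm] at hy
    rw [Metric.mem_closedBall, dist_zero_right]
    have h4 : ‖h n‖ < 1 := h3n.trans_le (min_le_right _ _)
    have h5 : ‖y‖ ≤ ‖y - z‖ + ‖z‖ := by
      have := norm_add_le (y - z) z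
      rwa [sub_add_cancel] at this
    linarith
  have hder : ∀ y ∈ Metric.closedBall z ‖h n‖,
      HasDerivWithinAt (fun y => f n y - deriv g z * y) (deriv (f n) y - deriv g z)
        (Metric.closedBall z ‖h n‖) y := by
    intro y _
    have h6 : HasDerivAt (f n) (deriv (f n) y) y := ((hf n) y).hasDerivAt
    have h7 : HasDerivAt (fun y => deriv g z * y) (deriv g z) y := by
      simpa using (hasDerivAt_id y).const_mul (deriv g z)
    exact (h6.sub h7).hasDerivWithinAt
  have hz0 : z ∈ Metric.closedBall (0 : ℂ) (R + 1) := by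
    rw [Metric.mem_closedBall, dist_zero_right]
    linarith
  have hbd : ∀ y ∈ Metric.closedBall z ‖h n‖, ‖deriv (f n) y - deriv g z‖ ≤ ε / 2 := by
    intro y hy
    have h8 := h1n y (hsub hy)
    have hyz : dist y z < η := by
      rw [Metric.mem_closedBall] at hy
      exact hy.trans_lt (h3n.trans_le (min_le_left _ _))
    have h9 := h2 y (hsub hy) z hz0 hyz
    rw [dist_eq_norm] at h8 h9
    have h10 : deriv (f n) y - deriv g z
        = -(deriv g y - (deriv ∘ f) n y) + (deriv g y - deriv g z) := by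
      simp only [Function.comp_apply]
      ring
    rw [h10]
    refine (norm_add_le _ _).trans ?_
    rw [norm_neg]
    linarith
  have hmv := Convex.norm_image_sub_le_of_norm_hasDerivWithin_le (x := z) (y := z + h n) hder hbd
    (convex_closedBall z ‖h n‖) (Metric.mem_closedBall_self (norm_nonneg _)) (by
      rw [Metric.mem_closedBall, dist_eq_norm, add_sub_cancel_left])
  rw [dist_comm, dist_eq_norm]
  have h11 : Dh (h n) (f n) z - deriv g z
      = ((f n (z + h n) - deriv g z * (z + h n)) - (f n z - deriv g z * z)) / h n := by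
    unfold Dh
    field_simp
    ring
  rw [h11, norm_div]
  have hpos : 0 < ‖h n‖ := norm_pos_iff.2 h0n
  rw [div_lt_iff₀ hpos]
  rw [add_sub_cancel_left] at hmv
  calc _ ≤ ε / 2 * ‖h n‖ := hmv
    _ < ε * ‖h n‖ := by
      apply mul_lt_mul_of_pos_right _ hpos
      linarith

theorem findiff_iter (h : ℕ → ℂ)
    (hh0 : ∀ᶠ n in atTop, h n ≠ 0) (hh : Tendsto h atTop (𝓝 0)) (j : ℕ) :
    ∀ (f : ℕ → ℂ → ℂ) (g : ℂ → ℂ), (∀ n, Differentiable ℂ (f n)) →
      TendstoLocallyUniformly f g atTop →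
      (∀ n, Differentiable ℂ ((Dh (h n))^[j] (f n))) ∧
      TendstoLocallyUniformly (fun n => (Dh (h n))^[j] (f n)) (deriv^[j] g) atTop := by
  induction j with
  | zero =>
    intro f g hf hfg
    exact ⟨hf, hfg⟩
  | succ j ih =>
    intro f g hf hfg
    simp only [Function.iterate_succ_apply]
    exact ih (fun n => Dh (h n) (f n)) (deriv g) (fun n => Dh_differentiable _ _ (hf n))
      (Dh_tendsto f g h hf hh0 hh hfg)

theorem Dh_iter_near (f : ℕ → ℂ → ℂ) (g : ℂ → ℂ) (h : ℕ → ℂ) (hf : ∀ n, Differentiable ℂ (f n))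
    (hh0 : ∀ᶠ n in atTop, h n ≠ 0) (hh : Tendsto h atTop (𝓝 0))
    (hfg : TendstoLocallyUniformly f g atTop) (j : ℕ) (δ : ℝ) (hδ : 0 < δ) :
    ∃ ρ : ℝ, 0 < ρ ∧ ∀ᶠ n in atTop, ∀ z : ℂ, ‖z‖ ≤ ρ →
      ‖(Dh (h n))^[j] (f n) z - deriv^[j] g 0‖ ≤ δ := by
  obtain ⟨h1, h2⟩ := findiff_iter h hh0 hh j f g hf hfg
  have hc : Continuous (deriv^[j] g) :=
    h2.continuous (Eventually.frequently (Eventually.of_forall fun n => (h1 n).continuous))
  obtain ⟨η, hη, h3⟩ := Metric.continuous_iff.1 hc 0 (δ / 2) (by positivity)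
  have h4 := Metric.tendstoUniformlyOn_iff.1 ((findiff_tlu_iff _ _).1 h2 _
    (isCompact_closedBall (0 : ℂ) (η / 2))) (δ / 2) (by positivity)
  refine ⟨η / 2, by positivity, ?_⟩
  filter_upwards [h4] with n h4n z hz
  have h5 := h4n z (by rwa [Metric.mem_closedBall, dist_zero_right])
  have h6 := h3 z (by rw [dist_zero_right]; linarith)
  rw [dist_eq_norm] at h5 h6
  have h7 : (Dh (h n))^[j] (f n) z - deriv^[j] g 0
      = -(deriv^[j] g z - (Dh (h n))^[j] (f n) z) + (deriv^[j] g z - deriv^[j] g 0) := by ring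
  rw [h7]
  refine (norm_add_le _ _).trans ?_
  rw [norm_neg]
  linarith

end Pool.Agent.H.MP_cba12a_lc.SQ
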