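import Pool.Agent.H.MP_cba12a_lc.SQ.Moment
import Pool.Agent.H.MP_cba12a_lc.SQ.Radial
import Pool.Agent.H.MP_cba12a_lc.SQ.FinDiff

namespace Pool.Agent.H.MP_cba12a_lc.SQ

open Finset Filter Topology

private lemma asymgen_iter (h : ℂ) (z : ℕ → ℂ) (hz : ∀ n, z (n + 1) = z n + h) (j : ℕ) :
    ∀ (G : ℂ → ℂ) (Ψ : ℕ → ℝ) (c0 : ℂ), (∀ n, G (z n) = c0 * (Ψ n : ℂ)) →
      ∀ n, (Dh h)^[j] G (z n) = c0 / h ^ j * ((fd^[j] Ψ) n : ℂ) := by
  induction j with
  | zero =>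
    intro G Ψ c0 hG n
    simp [hG n]
  | succ j ih =>
    intro G Ψ c0 hG n
    rw [Function.iterate_succ_apply, Function.iterate_succ_apply]
    rw [ih (Dh h G) (fd Ψ) (c0 / h) (by
      intro n
      unfold Dh fd
      rw [← hz, hG, hG]
      push_cast
      ring) n]
    rw [pow_succ, div_div, mul_comm h (h ^ j)]

private lemma asymgen_fd (j : ℕ) : ∀ (Ψ : ℕ → ℝ) (i : ℕ) (K : ℝ),
    (∀ l ≤ j, |Ψ (i + l)| ≤ K) → |(fd^[j] Ψ) i| ≤ 2 ^ j * K := by
  induction j with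
  | zero =>
    intro Ψ i K h
    simpa using h 0 le_rfl
  | succ j ih =>
    intro Ψ i K h
    rw [Function.iterate_succ_apply]
    have h1 := ih (fd Ψ) i (2 * K) (by
      intro l hl
      unfold fd
      have h2 := h l (by omega)
      have h3 := h (l + 1) (by omega)
      rw [← add_assoc] at h3
      have h4 := abs_sub (Ψ (i + l + 1)) (Ψ (i + l))
      linarith)
    rw [pow_succ]
    linarith

private lemma asymgen_choose (m j i : ℕ) (h : i + j ≤ m) : (m - j).choose i ≤ m.choose (i + j) := by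
  have h1 : (m - j).choose i = (m - j).choose (m - j - i) := (Nat.choose_symm (by omega)).symm
  have h2 : m.choose (i + j) = m.choose (m - (i + j)) := (Nat.choose_symm h).symm
  rw [h1, h2, show m - (i + j) = m - j - i by omega]
  exact Nat.choose_le_choose _ (by omega)

/-- the sum over the far indices -/
private lemma asymgen_far (m j d : ℕ) (hm : 0 < m) (hj : j ≤ m) (η : ℝ) (t : ℝ) (ht : 0 ≤ t) :
    (∑ i ∈ range (m - j + 1), ((m - j).choose i : ℝ) * ((2 * ((i + j : ℕ) : ℝ) / m) ^ d *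
      (if η ≤ |2 * ((i + j : ℕ) : ℝ) / m - 1| then 1 else 0))) / 2 ^ m ≤
      Real.exp (-t * η) * (Real.exp ((d + t) ^ 2 / (2 * m)) + Real.exp ((d - t) ^ 2 / (2 * m))) := by
  refine le_trans ?_ (ex_far hm d t η ht)
  rw [ex_radial (fun n : ℕ => (2 * (n : ℝ) / m) ^ d * (if η ≤ |2 * (n : ℝ) / m - 1| then 1 else 0))]
  apply div_le_div_of_nonneg_right _ (by positivity)
  have hnn : ∀ n : ℕ, 0 ≤ (2 * (n : ℝ) / m) ^ d *
      (if η ≤ |2 * (n : ℝ) / m - 1| then (1 : ℝ) else 0) := by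
    intro n
    split <;> positivity
  calc _ ≤ ∑ i ∈ range (m - j + 1), (m.choose (j + i) : ℝ) * ((2 * ((j + i : ℕ) : ℝ) / m) ^ d *
      (if η ≤ |2 * ((j + i : ℕ) : ℝ) / m - 1| then 1 else 0)) := by
        apply sum_le_sum
        intro i hi
        rw [mem_range] at hi
        rw [add_comm j i]
        apply mul_le_mul_of_nonneg_right _ (hnn _)
        exact_mod_cast asymgen_choose m j i (by omega)
    _ = ∑ n ∈ Ico j (m + 1), (m.choose n : ℝ) * ((2 * (n : ℝ) / m) ^ d *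
      (if η ≤ |2 * (n : ℝ) / m - 1| then 1 else 0)) := by
        rw [sum_Ico_eq_sum_range]
        rw [show m + 1 - j = m - j + 1 by omega]
    _ ≤ _ := by
        apply sum_le_sum_of_subset_of_nonneg
        · intro n hn
          rw [mem_Ico] at hn
          exact mem_range.2 hn.2
        · intro n _ _
          exact mul_nonneg (by positivity) (hnn n)

private lemma asymgen_far' (L j d : ℕ) (hL : 1 ≤ L) (hd : d ≤ 2 * L) (hj : j ≤ L ^ 4) (ρ : ℝ) :
    (∑ i ∈ range (L ^ 4 - j + 1), ((L ^ 4 - j).choose i : ℝ) *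
      ((2 * ((i + j : ℕ) : ℝ) / ((L ^ 4 : ℕ) : ℝ)) ^ d *
      (if ρ / (2 * L) ≤ |2 * ((i + j : ℕ) : ℝ) / ((L ^ 4 : ℕ) : ℝ) - 1| then 1 else 0))) / 2 ^ (L ^ 4) ≤
      2 * Real.exp (9 / 2) * Real.exp (-(ρ / 2)) ^ L := by
  have hL' : (1 : ℝ) ≤ L := by exact_mod_cast hL
  refine (asymgen_far (L ^ 4) j d (by positivity) hj (ρ / (2 * L)) (L ^ 2) (by positivity)).trans ?_
  have e1 : Real.exp (-(L : ℝ) ^ 2 * (ρ / (2 * L))) = Real.exp (-(ρ / 2)) ^ L := by
    rw [← Real.exp_nat_mul]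
    congr 1
    field_simp
  have hd' : (d : ℝ) ≤ 2 * L := by exact_mod_cast hd
  have hd0 : (0 : ℝ) ≤ d := by positivity
  have h3 : (d : ℝ) + L ^ 2 ≤ 3 * L ^ 2 := by nlinarith
  have h4 : ((d : ℝ) + L ^ 2) ^ 2 ≤ 9 * (L : ℝ) ^ 4 := by
    have := pow_le_pow_left₀ (by positivity) h3 2
    calc _ ≤ (3 * (L : ℝ) ^ 2) ^ 2 := this
      _ = 9 * (L : ℝ) ^ 4 := by ring
  have h5 : ((d : ℝ) - L ^ 2) ^ 2 ≤ 9 * (L : ℝ) ^ 4 := by
    refine le_trans ?_ h4
    nlinarith [mul_nonneg hd0 (show (0 : ℝ) ≤ (L : ℝ) ^ 2 by positivity)]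
  have hL4 : (0 : ℝ) < (L : ℝ) ^ 4 := by positivity
  have h6 : Real.exp (((d : ℝ) + L ^ 2) ^ 2 / (2 * ((L ^ 4 : ℕ) : ℝ))) ≤ Real.exp (9 / 2) := by
    apply Real.exp_le_exp.2
    push_cast
    rw [div_le_div_iff₀ (by positivity) (by norm_num)]
    linarith
  have h7 : Real.exp (((d : ℝ) - L ^ 2) ^ 2 / (2 * ((L ^ 4 : ℕ) : ℝ))) ≤ Real.exp (9 / 2) := by
    apply Real.exp_le_exp.2
    push_cast
    rw [div_le_div_iff₀ (by positivity) (by norm_num)]
    linarith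
  rw [e1]
  have h8 : 0 < Real.exp (-(ρ / 2)) ^ L := by positivity
  nlinarith

theorem asym_gen (Φ : ℕ → ℕ → ℝ) (H : ℕ → ℂ → ℂ) (g : ℂ → ℂ) (hH : ∀ L, Differentiable ℂ (H L))
    (hconv : TendstoLocallyUniformly H g atTop)
    (hΦ : ∀ᶠ L : ℕ in atTop, ∀ n ≤ L ^ 4, 0 ≤ Φ L n ∧ Φ L n ≤ ((n : ℝ) / (L : ℝ) ^ 4) ^ (2 * L))
    (hHΦ : ∀ᶠ L : ℕ in atTop, ∀ n : ℕ,
      H L (L * (2 * n / (L : ℂ) ^ 4 - 1)) = ((2 ^ (2 * L) * Φ L n : ℝ) : ℂ))
    (j : ℕ) (c : ℝ) (hc : deriv^[j] g 0 = (c : ℂ)) :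
    Tendsto (fun L : ℕ => (2 : ℝ) ^ (2 * L) * ((L : ℝ) ^ 3) ^ j * crad (L ^ 4) j (Φ L)) atTop
      (𝓝 c) := by
  rw [Metric.tendsto_atTop']
  intro ε hε
  -- steps
  have hh : Tendsto (fun L : ℕ => (2 : ℂ) / (L : ℂ) ^ 3) atTop (𝓝 0) := by
    have h1 : Tendsto (fun L : ℕ => (1 : ℂ) / (L : ℂ)) atTop (𝓝 0) := by
      have := tendsto_one_div_atTop_nhds_zero_nat (𝕜 := ℂ)
      exact this
    have h2 : Tendsto (fun L : ℕ => 2 * ((1 : ℂ) / (L : ℂ)) ^ 3) atTop (𝓝 (2 * 0 ^ 3)) :=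
      (h1.pow 3).const_mul 2
    have h3 : (2 : ℂ) * 0 ^ 3 = 0 := by norm_num
    rw [h3] at h2
    refine h2.congr ?_
    intro L
    rw [div_pow, one_pow]
    ring
  have hh0 : ∀ᶠ L : ℕ in atTop, (2 : ℂ) / (L : ℂ) ^ 3 ≠ 0 := by
    filter_upwards [eventually_ge_atTop 1] with L hL
    have : (L : ℂ) ≠ 0 := by
      exact_mod_cast (show L ≠ 0 by omega)
    exact div_ne_zero (by norm_num) (pow_ne_zero _ this)
  obtain ⟨ρ, hρ, hnear⟩ := Dh_iter_near H g (fun L : ℕ => (2 : ℂ) / (L : ℂ) ^ 3) hH hh0 hh hconv j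
    (ε / 2) (by positivity)
  -- the far part tends to zero
  have hfar : ∀ᶠ L : ℕ in atTop, 2 ^ j * (((L : ℝ) ^ 3) ^ j + |c|) *
      (2 * Real.exp (9 / 2) * Real.exp (-(ρ / 2)) ^ L) < ε / 2 := by
    have hr : |Real.exp (-(ρ / 2))| < 1 := by
      rw [abs_of_pos (Real.exp_pos _), Real.exp_lt_one_iff]
      linarith
    have h1 := tendsto_pow_const_mul_const_pow_of_abs_lt_one (3 * j) hr
    have h2 := tendsto_pow_const_mul_const_pow_of_abs_lt_one 0 hr
    have h3 : Tendsto (fun n : ℕ => 2 ^ j * (2 * Real.exp (9 / 2)) *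
        ((n : ℝ) ^ (3 * j) * Real.exp (-(ρ / 2)) ^ n) + 2 ^ j * (2 * Real.exp (9 / 2)) * |c| *
        ((n : ℝ) ^ 0 * Real.exp (-(ρ / 2)) ^ n)) atTop (𝓝 (2 ^ j * (2 * Real.exp (9 / 2)) * 0 +
          2 ^ j * (2 * Real.exp (9 / 2)) * |c| * 0)) := (h1.const_mul _).add (h2.const_mul _)
    rw [mul_zero, mul_zero, add_zero] at h3
    filter_upwards [h3.eventually_lt_const (show (0 : ℝ) < ε / 2 by positivity)] with L hL
    refine lt_of_eq_of_lt ?_ hL
    rw [← pow_mul]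
    ring
  have hL3 : ∀ᶠ L : ℕ in atTop, 4 * (j : ℝ) ≤ ρ * (L : ℝ) ^ 3 := by
    have h1 : Tendsto (fun L : ℕ => ρ * (L : ℝ) ^ 3) atTop atTop := by
      apply Tendsto.const_mul_atTop hρ
      exact (tendsto_pow_atTop (by norm_num)).comp tendsto_natCast_atTop_atTop
    exact h1.eventually_ge_atTop _
  have hev : ∀ᶠ L : ℕ in atTop, dist ((2 : ℝ) ^ (2 * L) * ((L : ℝ) ^ 3) ^ j *
      crad (L ^ 4) j (Φ L)) c < ε := by
    filter_upwards [hΦ, hHΦ, hnear, hfar, hL3, eventually_ge_atTop 1, eventually_ge_atTop j]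
      with L hΦL hHL hnL hfL hL3 hL1 hLj
    have hL' : (1 : ℝ) ≤ L := by exact_mod_cast hL1
    have hLpos : (0 : ℝ) < L := by linarith
    have hLc : (L : ℂ) ≠ 0 := by exact_mod_cast (show L ≠ 0 by omega)
    have hjm : j ≤ L ^ 4 := hLj.trans (Nat.le_self_pow (by norm_num) L)
    set m := L ^ 4 with hm
    have hmc : ((m : ℕ) : ℝ) = (L : ℝ) ^ 4 := by rw [hm]; push_cast; rfl
    set D : ℕ → ℝ := fun i => 2 ^ (2 * L) * ((L : ℝ) ^ 3 / 2) ^ j * (fd^[j] (Φ L)) i with hD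
    -- the differences of the complex function
    have hDz : ∀ i : ℕ, (Dh (2 / (L : ℂ) ^ 3))^[j] (H L) (L * (2 * i / (L : ℂ) ^ 4 - 1)) =
        ((D i : ℝ) : ℂ) := by
      intro i
      have h1 := asymgen_iter (2 / (L : ℂ) ^ 3) (fun n : ℕ => (L : ℂ) * (2 * n / (L : ℂ) ^ 4 - 1))
        (by
          intro n
          push_cast
          field_simp
          ring) j (H L) (Φ L) (2 ^ (2 * L)) (by
          intro n
          rw [hHL n]
          push_cast
          ring) i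
      rw [h1, hD]
      push_cast
      rw [div_pow, div_pow]
      field_simp
    -- the sum
    have hsum1 : (2 : ℝ) ^ (2 * L) * ((L : ℝ) ^ 3) ^ j * crad m j (Φ L) =
        (∑ i ∈ range (m - j + 1), ((m - j).choose i : ℝ) * (2 ^ j * D i)) / 2 ^ m := by
      unfold crad
      rw [← mul_div_assoc, mul_sum]
      congr 1
      apply sum_congr rfl
      intro i _
      rw [hD]
      simp only
      rw [div_pow]
      field_simp
    have hsum2 : c = (∑ i ∈ range (m - j + 1), ((m - j).choose i : ℝ) * (2 ^ j * c)) / 2 ^ m := by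
      rw [← sum_mul]
      have h1 : ∑ i ∈ range (m - j + 1), ((m - j).choose i : ℝ) = 2 ^ (m - j) := by
        exact_mod_cast Nat.sum_range_choose (m - j)
      rw [h1]
      have h2 : (2 : ℝ) ^ m = 2 ^ (m - j) * 2 ^ j := by
        rw [← pow_add]
        congr 1
        omega
      rw [h2]
      field_simp
    rw [Real.dist_eq]
    have hdiff : (2 : ℝ) ^ (2 * L) * ((L : ℝ) ^ 3) ^ j * crad m j (Φ L) - c =
        (∑ i ∈ range (m - j + 1), ((m - j).choose i : ℝ) * (2 ^ j * (D i - c))) / 2 ^ m := by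
      rw [hsum1]
      conv_lhs => rw [hsum2]
      rw [← sub_div, ← sum_sub_distrib]
      congr 1
      apply sum_congr rfl
      intro i _
      ring
    -- pointwise bound
    have hpt : ∀ i ∈ range (m - j + 1), |((m - j).choose i : ℝ) * (2 ^ j * (D i - c))| ≤
        ((m - j).choose i : ℝ) * (2 ^ j * (ε / 2)) +
        2 ^ j * ((L : ℝ) ^ 3) ^ j * (((m - j).choose i : ℝ) *
          ((2 * ((i + j : ℕ) : ℝ) / ((m : ℕ) : ℝ)) ^ (2 * L) *
          (if ρ / (2 * L) ≤ |2 * ((i + j : ℕ) : ℝ) / ((m : ℕ) : ℝ) - 1| then 1 else 0))) +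
        2 ^ j * |c| * (((m - j).choose i : ℝ) *
          ((2 * ((i + j : ℕ) : ℝ) / ((m : ℕ) : ℝ)) ^ 0 *
          (if ρ / (2 * L) ≤ |2 * ((i + j : ℕ) : ℝ) / ((m : ℕ) : ℝ) - 1| then 1 else 0))) := by
      intro i hi
      rw [mem_range] at hi
      have hij : i + j ≤ m := by omega
      rw [abs_mul, abs_mul, abs_of_nonneg (show (0 : ℝ) ≤ ((m - j).choose i : ℝ) by positivity),
        abs_of_pos (show (0 : ℝ) < 2 ^ j by positivity)]
      have hC0 : (0 : ℝ) ≤ ((m - j).choose i : ℝ) := by positivity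
      have h2j : (0 : ℝ) < 2 ^ j := by positivity
      by_cases hn : ‖(L : ℂ) * (2 * i / (L : ℂ) ^ 4 - 1)‖ ≤ ρ
      · have h1 := hnL _ hn
        rw [hDz i, hc, ← Complex.ofReal_sub, Complex.norm_real, Real.norm_eq_abs] at h1
        have h2 : 0 ≤ 2 ^ j * ((L : ℝ) ^ 3) ^ j * (((m - j).choose i : ℝ) *
          ((2 * ((i + j : ℕ) : ℝ) / ((m : ℕ) : ℝ)) ^ (2 * L) *
          (if ρ / (2 * L) ≤ |2 * ((i + j : ℕ) : ℝ) / ((m : ℕ) : ℝ) - 1| then 1 else 0))) := by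
          split <;> positivity
        have h3 : 0 ≤ 2 ^ j * |c| * (((m - j).choose i : ℝ) *
          ((2 * ((i + j : ℕ) : ℝ) / ((m : ℕ) : ℝ)) ^ 0 *
          (if ρ / (2 * L) ≤ |2 * ((i + j : ℕ) : ℝ) / ((m : ℕ) : ℝ) - 1| then 1 else 0))) := by
          split <;> positivity
        have h4 : ((m - j).choose i : ℝ) * (2 ^ j * |D i - c|) ≤
            ((m - j).choose i : ℝ) * (2 ^ j * (ε / 2)) := by gcongr
        linarith
      · push Not at hn
        have hz : ‖(L : ℂ) * (2 * i / (L : ℂ) ^ 4 - 1)‖ = L * |2 * (i : ℝ) / (L : ℝ) ^ 4 - 1| := by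
          have e : (L : ℂ) * (2 * i / (L : ℂ) ^ 4 - 1) =
              (((L : ℝ) * (2 * (i : ℝ) / (L : ℝ) ^ 4 - 1) : ℝ) : ℂ) := by
            push_cast
            ring
          rw [e, Complex.norm_real, Real.norm_eq_abs, abs_mul, abs_of_pos hLpos]
        rw [hz] at hn
        have hcond : ρ / (2 * L) ≤ |2 * ((i + j : ℕ) : ℝ) / ((m : ℕ) : ℝ) - 1| := by
          have e : 2 * ((i + j : ℕ) : ℝ) / ((m : ℕ) : ℝ) - 1 =
              (2 * (i : ℝ) / (L : ℝ) ^ 4 - 1) - (-(2 * (j : ℝ) / (L : ℝ) ^ 4)) := by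
            rw [hmc]
            push_cast
            ring
          rw [e]
          have h1 := abs_sub_abs_le_abs_sub (2 * (i : ℝ) / (L : ℝ) ^ 4 - 1)
            (-(2 * (j : ℝ) / (L : ℝ) ^ 4))
          rw [abs_neg, abs_of_nonneg (show 0 ≤ 2 * (j : ℝ) / (L : ℝ) ^ 4 by positivity)] at h1
          have h2 : ρ / L < |2 * (i : ℝ) / (L : ℝ) ^ 4 - 1| := by
            rw [div_lt_iff₀ hLpos]
            linarith
          have h3 : 2 * (j : ℝ) / (L : ℝ) ^ 4 ≤ ρ / (2 * L) := by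
            rw [div_le_div_iff₀ (by positivity) (by positivity)]
            nlinarith
          have h4 : ρ / L = ρ / (2 * L) + ρ / (2 * L) := by
            field_simp
            ring
          linarith
        rw [if_pos hcond, mul_one, mul_one, pow_zero, mul_one]
        have hDb : |D i| ≤ ((L : ℝ) ^ 3) ^ j * (2 * ((i + j : ℕ) : ℝ) / ((m : ℕ) : ℝ)) ^ (2 * L) := by
          have h1 : |(fd^[j] (Φ L)) i| ≤ 2 ^ j * (((i + j : ℕ) : ℝ) / (L : ℝ) ^ 4) ^ (2 * L) := by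
            apply asymgen_fd
            intro l hl
            have h2 := hΦL (i + l) (by omega)
            rw [abs_of_nonneg h2.1]
            refine h2.2.trans ?_
            apply pow_le_pow_left₀ (by positivity)
            apply div_le_div_of_nonneg_right _ (by positivity)
            exact_mod_cast (show i + l ≤ i + j by omega)
          rw [hD]
          simp only
          rw [abs_mul, abs_of_nonneg (show 0 ≤ (2 : ℝ) ^ (2 * L) * ((L : ℝ) ^ 3 / 2) ^ j by positivity)]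
          calc (2 : ℝ) ^ (2 * L) * ((L : ℝ) ^ 3 / 2) ^ j * |(fd^[j] (Φ L)) i|
              ≤ (2 : ℝ) ^ (2 * L) * ((L : ℝ) ^ 3 / 2) ^ j *
                (2 ^ j * (((i + j : ℕ) : ℝ) / (L : ℝ) ^ 4) ^ (2 * L)) := by gcongr
            _ = ((L : ℝ) ^ 3) ^ j * (2 * ((i + j : ℕ) : ℝ) / ((m : ℕ) : ℝ)) ^ (2 * L) := by
                rw [hmc, div_pow ((L : ℝ) ^ 3) 2 j]
                have e : (2 * ((i + j : ℕ) : ℝ) / (L : ℝ) ^ 4) ^ (2 * L) =
                    2 ^ (2 * L) * (((i + j : ℕ) : ℝ) / (L : ℝ) ^ 4) ^ (2 * L) := by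
                  rw [← mul_pow]
                  congr 1
                  ring
                rw [e]
                field_simp
        have h1 : |D i - c| ≤ |D i| + |c| := abs_sub _ _
        have h2 : ((m - j).choose i : ℝ) * (2 ^ j * |D i - c|) ≤
            ((m - j).choose i : ℝ) * (2 ^ j * (((L : ℝ) ^ 3) ^ j *
              (2 * ((i + j : ℕ) : ℝ) / ((m : ℕ) : ℝ)) ^ (2 * L) + |c|)) := by
          gcongr
          linarith
        have h3 : 0 ≤ ((m - j).choose i : ℝ) * (2 ^ j * (ε / 2)) := by positivity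
        nlinarith
    rw [hdiff, abs_div, abs_of_pos (show (0 : ℝ) < 2 ^ m by positivity)]
    have hbig : |∑ i ∈ range (m - j + 1), ((m - j).choose i : ℝ) * (2 ^ j * (D i - c))| / 2 ^ m ≤
        (∑ i ∈ range (m - j + 1), ((m - j).choose i : ℝ) * (2 ^ j * (ε / 2))) / 2 ^ m +
        2 ^ j * ((L : ℝ) ^ 3) ^ j * ((∑ i ∈ range (m - j + 1), ((m - j).choose i : ℝ) *
          ((2 * ((i + j : ℕ) : ℝ) / ((m : ℕ) : ℝ)) ^ (2 * L) *
          (if ρ / (2 * L) ≤ |2 * ((i + j : ℕ) : ℝ) / ((m : ℕ) : ℝ) - 1| then 1 else 0))) / 2 ^ m) +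
        2 ^ j * |c| * ((∑ i ∈ range (m - j + 1), ((m - j).choose i : ℝ) *
          ((2 * ((i + j : ℕ) : ℝ) / ((m : ℕ) : ℝ)) ^ 0 *
          (if ρ / (2 * L) ≤ |2 * ((i + j : ℕ) : ℝ) / ((m : ℕ) : ℝ) - 1| then 1 else 0))) / 2 ^ m) := by
      have e : ∀ S1 S2 S3 P a b : ℝ, S1 / P + a * (S2 / P) + b * (S3 / P) =
          (S1 + a * S2 + b * S3) / P := by
        intro S1 S2 S3 P a b
        ring
      rw [e]
      apply div_le_div_of_nonneg_right _ (by positivity)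
      rw [mul_sum, mul_sum, ← sum_add_distrib, ← sum_add_distrib]
      exact (abs_sum_le_sum_abs _ _).trans (sum_le_sum hpt)
    have hA : (∑ i ∈ range (m - j + 1), ((m - j).choose i : ℝ) * (2 ^ j * (ε / 2))) / 2 ^ m =
        ε / 2 := by
      rw [← sum_mul]
      have h1 : ∑ i ∈ range (m - j + 1), ((m - j).choose i : ℝ) = 2 ^ (m - j) := by
        exact_mod_cast Nat.sum_range_choose (m - j)
      rw [h1]
      have h2 : (2 : ℝ) ^ m = 2 ^ (m - j) * 2 ^ j := by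
        rw [← pow_add]
        congr 1
        omega
      rw [h2]
      field_simp
    have hB := asymgen_far' L j (2 * L) hL1 le_rfl hjm ρ
    have hC := asymgen_far' L j 0 hL1 (by omega) hjm ρ
    rw [← hm] at hB hC
    have hB' := mul_le_mul_of_nonneg_left hB (show 0 ≤ 2 ^ j * ((L : ℝ) ^ 3) ^ j by positivity)
    have hC' := mul_le_mul_of_nonneg_left hC (show 0 ≤ 2 ^ j * |c| by positivity)
    nlinarith
  obtain ⟨N, hN⟩ := eventually_atTop.1 hev
  exact ⟨N, fun n hn => hN n hn.le⟩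

end Pool.Agent.H.MP_cba12a_lc.SQ
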