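import Pool.Agent.H.MP_cba12a_lc.SQ.Coeffs
import Pool.Agent.H.MP_cba12a_lc.SQ.BlockStep

namespace Pool.Agent.H.MP_cba12a_lc.SQ

open Finset Filter Topology

theorem baseex_iter {m : ℕ} (k d e U : ℕ) (hk : 1 ≤ k) (hd : d ≤ U) (he : 0 < e)
    (hU : 3 * U ^ 2 ≤ m) (hm : 2 ≤ m) (R0 : ℕ) (R M : ℕ → ℕ) (r : ℕ) (S : ℝ)
    (hS0 : Real.sqrt R0 ≤ S) (hS : ∀ l < r, Real.sqrt (R l) ≤ S)
    (hcond : S * (2 * ((R0 : ℝ) + ∑ l ∈ range r, (R l : ℝ)) * (1 / 2) ^ d) ≤ 1) :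
    ∀ i ≤ r, ∃ F : List (Finset (Fin m)), F.length ≤ R0 + ∑ l ∈ range i, R l * M l ∧
      Inv U (2 * ((R0 : ℝ) + ∑ l ∈ range i, (R l : ℝ)) * (1 / 2) ^ d) F ∧
      ∀ B : Finset (Fin m), B.card < k →
        |co (ind F) B - R0 * crad m B.card (ur m d)
          - ∑ l ∈ range i, R l * crad m B.card (blk m d e (M l))| ≤
          4 * (Real.sqrt R0 + ∑ l ∈ range i, Real.sqrt (R l)) * (1 / 2) ^ d * (m : ℝ) ^ k := by
  have hSnn : 0 ≤ S := (Real.sqrt_nonneg _).trans hS0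
  have hmono : ∀ i ≤ r, ∑ l ∈ range i, (R l : ℝ) ≤ ∑ l ∈ range r, (R l : ℝ) := by
    intro i hi
    apply sum_le_sum_of_subset_of_nonneg (range_subset_range.2 hi)
    intro _ _ _
    positivity
  intro i
  induction i with
  | zero =>
    intro _
    have hinv : Inv U 0 ([] : List (Finset (Fin m))) := by
      intro s _
      simp [ind_nil, ex]
    have hK : Real.sqrt R0 * (0 + 2 * R0 * (1 / 2) ^ d) ≤ 1 := by
      refine le_trans ?_ hcond
      apply mul_le_mul hS0 _ (by positivity) hSnn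
      rw [zero_add]
      have h1 : (0 : ℝ) ≤ ∑ l ∈ range r, (R l : ℝ) := sum_nonneg (fun _ _ => by positivity)
      apply mul_le_mul_of_nonneg_right _ (by positivity)
      linarith
    obtain ⟨F, h1, h2, -, -, h5⟩ := pure_step k R0 d U 0 hk hd hU hm [] hinv hK
    refine ⟨F, by simpa using h1, ?_, ?_⟩
    · simpa using h2
    · intro B hB
      have h6 := h5 B hB
      have h7 : co (ind ([] : List (Finset (Fin m)))) B = 0 := by
        have : ind ([] : List (Finset (Fin m))) = fun _ => 0 := by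
          funext x
          exact ind_nil x
        rw [this]
        simp [co, ex]
      rw [h7, sub_zero] at h6
      simpa using h6
  | succ i ih =>
    intro hi
    obtain ⟨F₀, h1, h2, h3⟩ := ih (by omega)
    have h4 : ∑ l ∈ range (i + 1), (R l : ℝ) ≤ ∑ l ∈ range r, (R l : ℝ) := hmono _ hi
    rw [sum_range_succ] at h4
    have hK : Real.sqrt (R i) * (2 * ((R0 : ℝ) + ∑ l ∈ range i, (R l : ℝ)) * (1 / 2) ^ d
        + 2 * R i * (1 / 2) ^ d) ≤ 1 := by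
      refine le_trans ?_ hcond
      have h5 : (0 : ℝ) ≤ ∑ l ∈ range i, (R l : ℝ) := sum_nonneg (fun _ _ => by positivity)
      apply mul_le_mul (hS i (by omega)) _ (by positivity) hSnn
      rw [← add_mul]
      apply mul_le_mul_of_nonneg_right _ (by positivity)
      linarith
    obtain ⟨F, h5, h6, -, -, h7⟩ := block_step k (R i) d e (M i) U _ hk hd he hU hm F₀ h2 hK
    refine ⟨F, ?_, ?_, ?_⟩
    · rw [sum_range_succ]
      omega
    · rw [sum_range_succ]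
      convert h6 using 1
      ring
    · intro B hB
      have h8 := h3 B hB
      have h9 := h7 B hB
      rw [sum_range_succ, sum_range_succ]
      have h10 : co (ind F) B - R0 * crad m B.card (ur m d)
          - (∑ l ∈ range i, R l * crad m B.card (blk m d e (M l))
            + R i * crad m B.card (blk m d e (M i)))
          = (co (ind F) B - co (ind F₀) B - R i * crad m B.card (blk m d e (M i)))
            + (co (ind F₀) B - R0 * crad m B.card (ur m d)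
              - ∑ l ∈ range i, R l * crad m B.card (blk m d e (M l))) := by ring
      rw [h10]
      refine (abs_add_le _ _).trans ((add_le_add h9 h8).trans (le_of_eq ?_))
      ring

theorem baseex_main_eq (L j υ r : ℕ) (hL : 0 < L) (lam c : Fin r → ℝ) (c0 : ℝ) :
    c0 * Real.log 2 * 2 ^ L * crad (L ^ 4) j (ur (L ^ 4) (2 * L))
      + ∑ l, c l * Real.log 2 * 2 ^ L *
          crad (L ^ 4) j (blk (L ^ 4) (2 * L) (υ * L) ⌊lam l * 2 ^ (υ * L)⌋₊)
      = Real.log 2 / (2 ^ L * ((L : ℝ) ^ 3) ^ j)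
          * (c0 * nvp L j + ∑ l, c l * nvb υ (lam l) L j) := by
  have hL0 : (L : ℝ) ≠ 0 := by exact_mod_cast hL.ne'
  have h2 : (2 : ℝ) ^ (2 * L) = 2 ^ L * 2 ^ L := by rw [two_mul, pow_add]
  rw [mul_add, mul_sum]
  congr 1
  · unfold nvp
    rw [h2]
    field_simp
  · apply sum_congr rfl
    intro l _
    unfold nvb
    rw [h2]
    field_simp

theorem baseex_fixed (k υ L r : ℕ) (hk : 1 ≤ k) (hυ : 0 < υ) (lam : Fin r → ℝ)
    (hlam : ∀ l, 0 < lam l) (C0 : ℝ) (hC0 : 0 ≤ C0) (hL : 4 ≤ L)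
    (hbig : Real.sqrt (C0 * 2 ^ L) * (2 * ((r + 1) * C0)) ≤ 2 ^ L)
    (c0 : ℝ) (c : Fin r → ℝ) (hc0 : 0 ≤ c0) (hc0' : c0 ≤ C0) (hc : ∀ l, 0 ≤ c l ∧ c l ≤ C0) :
    ∃ F : List (Finset (Fin (L ^ 4))),
      (F.length : ℝ) ≤ (C0 + C0 * ∑ l, lam l) * 2 ^ ((υ + 1) * L) ∧
      Inv (L ^ 2 / 2) (2 * ((r + 1) * C0) / 2 ^ L) F ∧
      ∀ B : Finset (Fin (L ^ 4)), B.card < k →
        |co (ind F) B - Real.log 2 / (2 ^ L * ((L : ℝ) ^ 3) ^ B.card)
          * (c0 * nvp L B.card + ∑ l, c l * nvb υ (lam l) L B.card)| ≤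
        (4 * ((r + 1) * Real.sqrt C0) + (r + 1)) * ((L : ℝ) ^ 4) ^ k
          / (2 ^ L * Real.sqrt (2 ^ L)) := by
  have hlog0 : 0 < Real.log 2 := Real.log_pos (by norm_num)
  have hlog1 : Real.log 2 ≤ 1 := by
    have := Real.log_two_lt_d9
    linarith
  set N : ℝ := 2 ^ L with hN
  have hN1 : 1 ≤ N := one_le_pow₀ (by norm_num)
  have hN0 : 0 < N := by linarith
  have hhalf : (1 / 2 : ℝ) ^ (2 * L) = 1 / (N * N) := by
    rw [two_mul, pow_add, hN, one_div, inv_pow]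
    field_simp
  set R0 : ℕ := ⌊c0 * Real.log 2 * N⌋₊ with hR0
  set R : ℕ → ℕ := fun l => if h : l < r then ⌊c ⟨l, h⟩ * Real.log 2 * N⌋₊ else 0 with hR
  set M : ℕ → ℕ := fun l => if h : l < r then ⌊lam ⟨l, h⟩ * 2 ^ (υ * L)⌋₊ else 0 with hM
  have hRi : ∀ l : Fin r, R l = ⌊c l * Real.log 2 * N⌋₊ := fun l => by
    rw [hR]
    simp [l.2]
  have hMi : ∀ l : Fin r, M l = ⌊lam l * 2 ^ (υ * L)⌋₊ := fun l => by
    rw [hM]
    simp [l.2]
  have hle : ∀ a : ℝ, 0 ≤ a → a ≤ C0 → (⌊a * Real.log 2 * N⌋₊ : ℝ) ≤ C0 * N := by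
    intro a ha ha'
    refine (Nat.floor_le (by positivity)).trans ?_
    apply mul_le_mul_of_nonneg_right _ hN0.le
    calc a * Real.log 2 ≤ a * 1 := mul_le_mul_of_nonneg_left hlog1 ha
      _ ≤ C0 := by rw [mul_one]; exact ha'
  have hR0' : (R0 : ℝ) ≤ C0 * N := hle c0 hc0 hc0'
  have hR' : ∀ l < r, (R l : ℝ) ≤ C0 * N := by
    intro l hl
    have := hRi ⟨l, hl⟩
    simp only at this
    rw [this]
    exact hle _ (hc _).1 (hc _).2
  have hsum : (R0 : ℝ) + ∑ l ∈ range r, (R l : ℝ) ≤ (r + 1) * C0 * N := by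
    have h1 : ∑ l ∈ range r, (R l : ℝ) ≤ ∑ l ∈ range r, C0 * N :=
      sum_le_sum (fun l hl => hR' l (mem_range.1 hl))
    rw [sum_const, card_range, nsmul_eq_mul] at h1
    linarith
  have hm : 2 ≤ L ^ 4 := by
    calc 2 ≤ 4 ^ 4 := by norm_num
      _ ≤ L ^ 4 := Nat.pow_le_pow_left hL 4
  have hd : 2 * L ≤ L ^ 2 / 2 := by
    rw [Nat.le_div_iff_mul_le (by norm_num)]
    nlinarith
  have hU : 3 * (L ^ 2 / 2) ^ 2 ≤ L ^ 4 := by
    have h1 : L ^ 2 / 2 * 2 ≤ L ^ 2 := Nat.div_mul_le_self _ _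
    have h3 : (L ^ 2 / 2 * 2) ^ 2 ≤ (L ^ 2) ^ 2 := Nat.pow_le_pow_left h1 2
    have h4 : (L ^ 2) ^ 2 = L ^ 4 := by ring
    rw [h4, mul_pow] at h3
    omega
  have hdm : 2 * L ≤ L ^ 4 := by
    have h1 : L ^ 2 / 2 ≤ L ^ 2 := Nat.div_le_self _ _
    have h3 : L ^ 2 ≤ L ^ 4 := Nat.pow_le_pow_right (by omega) (by norm_num)
    omega
  have hcond : Real.sqrt (C0 * N) * (2 * ((R0 : ℝ) + ∑ l ∈ range r, (R l : ℝ))
      * (1 / 2) ^ (2 * L)) ≤ 1 := by
    rw [hhalf]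
    have h1 : 2 * ((R0 : ℝ) + ∑ l ∈ range r, (R l : ℝ)) * (1 / (N * N))
        ≤ 2 * ((r + 1) * C0) / N := by
      rw [mul_one_div, div_le_div_iff₀ (by positivity) hN0]
      nlinarith
    calc _ ≤ Real.sqrt (C0 * N) * (2 * ((r + 1) * C0) / N) :=
          mul_le_mul_of_nonneg_left h1 (Real.sqrt_nonneg _)
      _ = (Real.sqrt (C0 * N) * (2 * ((r + 1) * C0))) / N := by ring
      _ ≤ 1 := by rw [div_le_one hN0]; exact hbig
  obtain ⟨F, h1, h3, h4⟩ := baseex_iter (m := L ^ 4) k (2 * L) (υ * L) (L ^ 2 / 2) hk hd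
    (Nat.mul_pos hυ (by omega)) hU hm R0 R M r (Real.sqrt (C0 * N))
    (Real.sqrt_le_sqrt hR0') (fun l hl => Real.sqrt_le_sqrt (hR' l hl)) hcond r le_rfl
  refine ⟨F, ?_, ?_, ?_⟩
  · have h5 : (F.length : ℝ) ≤ R0 + ∑ l ∈ range r, (R l : ℝ) * M l := by exact_mod_cast h1
    have h6 : ∑ l ∈ range r, (R l : ℝ) * M l ≤ ∑ l : Fin r, C0 * N * (lam l * 2 ^ (υ * L)) := by
      rw [sum_range]
      apply sum_le_sum
      intro l _
      apply mul_le_mul (hR' l l.2) _ (by positivity) (by positivity)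
      rw [hMi]
      exact Nat.floor_le (mul_nonneg (hlam l).le (by positivity))
    have h7 : ∑ l : Fin r, C0 * N * (lam l * 2 ^ (υ * L))
        = C0 * (∑ l, lam l) * (N * 2 ^ (υ * L)) := by
      rw [← mul_sum, ← sum_mul]
      ring
    have h8 : (2 : ℝ) ^ ((υ + 1) * L) = N * 2 ^ (υ * L) := by
      rw [add_mul, one_mul, pow_add, hN]
      ring
    have h9 : N ≤ N * 2 ^ (υ * L) := le_mul_of_one_le_right hN0.le (one_le_pow₀ (by norm_num))
    have h10 : C0 * N ≤ C0 * (N * 2 ^ (υ * L)) := mul_le_mul_of_nonneg_left h9 hC0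
    rw [h8]
    linarith
  · intro s hs
    refine (h3 s hs).trans ?_
    rw [hhalf, mul_one_div, div_le_div_iff₀ (by positivity) hN0]
    nlinarith
  · intro B hB
    set j := B.card with hj
    have hjm : j ≤ L ^ 4 := by
      have := card_le_univ B
      rwa [Fintype.card_fin] at this
    have h5 := h4 B hB
    have hmain := baseex_main_eq L j υ r (by omega) lam c c0
    rw [← hmain]
    have hsplit : co (ind F) B - (c0 * Real.log 2 * N * crad (L ^ 4) j (ur (L ^ 4) (2 * L))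
        + ∑ l, c l * Real.log 2 * N *
          crad (L ^ 4) j (blk (L ^ 4) (2 * L) (υ * L) ⌊lam l * 2 ^ (υ * L)⌋₊))
        = (co (ind F) B - R0 * crad (L ^ 4) j (ur (L ^ 4) (2 * L))
          - ∑ l ∈ range r, R l * crad (L ^ 4) j (blk (L ^ 4) (2 * L) (υ * L) (M l)))
          + ((R0 - c0 * Real.log 2 * N) * crad (L ^ 4) j (ur (L ^ 4) (2 * L))
            + ∑ l : Fin r, (R l - c l * Real.log 2 * N) *
              crad (L ^ 4) j (blk (L ^ 4) (2 * L) (υ * L) (M l))) := by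
      rw [sum_range]
      have : ∑ l : Fin r, c l * Real.log 2 * N *
          crad (L ^ 4) j (blk (L ^ 4) (2 * L) (υ * L) ⌊lam l * 2 ^ (υ * L)⌋₊)
          = ∑ l : Fin r, c l * Real.log 2 * N *
          crad (L ^ 4) j (blk (L ^ 4) (2 * L) (υ * L) (M l)) := by
        apply sum_congr rfl
        intro l _
        rw [hMi]
      rw [this]
      simp only [sub_mul, sum_sub_distrib]
      ring
    rw [hsplit]
    have hround : ∀ a : ℝ, 0 ≤ a → |(⌊a⌋₊ : ℝ) - a| ≤ 1 := by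
      intro a ha
      have h6 := Nat.floor_le ha
      have h7 := Nat.lt_floor_add_one a
      rw [abs_le]
      constructor <;> linarith
    have h6 : |(R0 - c0 * Real.log 2 * N) * crad (L ^ 4) j (ur (L ^ 4) (2 * L))|
        ≤ 1 / (N * N) := by
      rw [abs_mul, ← hhalf, ← one_mul ((1 / 2 : ℝ) ^ (2 * L))]
      exact mul_le_mul (hround _ (by positivity)) (abs_crad_ur_le _ _ _ hdm hjm)
        (abs_nonneg _) zero_le_one
    have h7 : |∑ l : Fin r, (R l - c l * Real.log 2 * N) *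
              crad (L ^ 4) j (blk (L ^ 4) (2 * L) (υ * L) (M l))| ≤ r * (1 / (N * N)) := by
      refine (abs_sum_le_sum_abs _ _).trans ?_
      have h8 : ∀ l ∈ (univ : Finset (Fin r)), |(R l - c l * Real.log 2 * N) *
              crad (L ^ 4) j (blk (L ^ 4) (2 * L) (υ * L) (M l))| ≤ 1 / (N * N) := by
        intro l _
        rw [abs_mul, ← hhalf, ← one_mul ((1 / 2 : ℝ) ^ (2 * L))]
        refine mul_le_mul ?_ (abs_crad_blk_le _ _ _ _ _ hdm hjm) (abs_nonneg _) zero_le_one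
        rw [hRi]
        have := (hc l).1
        exact hround _ (by positivity)
      refine (sum_le_sum h8).trans (le_of_eq ?_)
      rw [sum_const, card_univ, Fintype.card_fin, nsmul_eq_mul]
    have h8 : Real.sqrt R0 + ∑ l ∈ range r, Real.sqrt (R l) ≤ (r + 1) * Real.sqrt (C0 * N) := by
      have h9 : ∑ l ∈ range r, Real.sqrt (R l) ≤ ∑ l ∈ range r, Real.sqrt (C0 * N) :=
        sum_le_sum (fun l hl => Real.sqrt_le_sqrt (hR' l (mem_range.1 hl)))
      rw [sum_const, card_range, nsmul_eq_mul] at h9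
      have := Real.sqrt_le_sqrt hR0'
      linarith
    have hsq : Real.sqrt N * Real.sqrt N = N := Real.mul_self_sqrt hN0.le
    have hsq0 : 0 < Real.sqrt N := Real.sqrt_pos.2 hN0
    have hsq1 : Real.sqrt N ≤ N := by
      have : 1 ≤ Real.sqrt N := Real.one_le_sqrt.2 hN1
      nlinarith
    have hmk : (1 : ℝ) ≤ ((L : ℝ) ^ 4) ^ k := by
      apply one_le_pow₀
      apply one_le_pow₀
      exact_mod_cast (by omega : 1 ≤ L)
    have hcast : (((L ^ 4 : ℕ) : ℝ)) = (L : ℝ) ^ 4 := by push_cast; ring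
    rw [hcast] at h5
    refine (abs_add_le _ _).trans ?_
    have h9 : 4 * (Real.sqrt R0 + ∑ l ∈ range r, Real.sqrt (R l)) * (1 / 2) ^ (2 * L)
        * ((L : ℝ) ^ 4) ^ k
        ≤ 4 * ((r + 1) * Real.sqrt C0) * ((L : ℝ) ^ 4) ^ k / (N * Real.sqrt N) := by
      rw [hhalf]
      have h10 : Real.sqrt (C0 * N) = Real.sqrt C0 * Real.sqrt N := Real.sqrt_mul hC0 N
      rw [h10] at h8
      have h11 : 4 * ((r + 1) * Real.sqrt C0) * ((L : ℝ) ^ 4) ^ k / (N * Real.sqrt N)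
          = 4 * ((r + 1) * (Real.sqrt C0 * Real.sqrt N)) * (1 / (N * N)) * ((L : ℝ) ^ 4) ^ k := by
        have h12 : (1 : ℝ) / (N * Real.sqrt N) = Real.sqrt N * (1 / (N * N)) := by
          rw [mul_one_div, div_eq_div_iff (by positivity) (by positivity)]
          nlinarith
        calc _ = 4 * ((r + 1) * Real.sqrt C0) * ((L : ℝ) ^ 4) ^ k * (1 / (N * Real.sqrt N)) := by
              ring
          _ = _ := by rw [h12]; ring
      rw [h11]
      apply mul_le_mul_of_nonneg_right _ (by positivity)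
      apply mul_le_mul_of_nonneg_right _ (by positivity)
      linarith
    have h10 : |(R0 - c0 * Real.log 2 * N) * crad (L ^ 4) j (ur (L ^ 4) (2 * L))
            + ∑ l : Fin r, (R l - c l * Real.log 2 * N) *
              crad (L ^ 4) j (blk (L ^ 4) (2 * L) (υ * L) (M l))|
        ≤ (r + 1) * ((L : ℝ) ^ 4) ^ k / (N * Real.sqrt N) := by
      refine (abs_add_le _ _).trans ((add_le_add h6 h7).trans ?_)
      have h12 : (1 : ℝ) / (N * N) ≤ 1 / (N * Real.sqrt N) :=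
        one_div_le_one_div_of_le (by positivity) (mul_le_mul_of_nonneg_left hsq1 hN0.le)
      calc 1 / (N * N) + r * (1 / (N * N)) = (r + 1) * (1 / (N * N)) := by ring
        _ ≤ (r + 1) * (1 / (N * Real.sqrt N)) :=
            mul_le_mul_of_nonneg_left h12 (by positivity)
        _ ≤ (r + 1) * (1 / (N * Real.sqrt N)) * ((L : ℝ) ^ 4) ^ k :=
            le_mul_of_one_le_right (by positivity) hmk
        _ = _ := by ring
    calc _ ≤ 4 * ((r + 1) * Real.sqrt C0) * ((L : ℝ) ^ 4) ^ k / (N * Real.sqrt N)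
          + (r + 1) * ((L : ℝ) ^ 4) ^ k / (N * Real.sqrt N) := add_le_add (h5.trans h9) h10
      _ = _ := by ring

theorem base_exists (k υ : ℕ) (hk : 3 ≤ k)
    (hυ : 4 * Real.log (40000 * ((k : ℝ) - 1) ^ 5) ≤ υ) :
    ∃ ε C : ℝ, 0 < ε ∧ 0 ≤ C ∧ ∀ᶠ L : ℕ in atTop, ∀ Pl : ℕ → ℝ,
      (∀ j, |Pl j| * ((L : ℝ) ^ 3) ^ j * 2 ^ L ≤ ε) →
      ∃ F : List (Finset (Fin (L ^ 4))), (F.length : ℝ) ≤ C * 2 ^ ((υ + 1) * L) ∧
        Inv (L ^ 2 / 2) (C / 2 ^ L) F ∧
        |co (ind F) ∅ - Real.log 2 / 2 ^ L| ≤ C * ((L : ℝ) ^ 4) ^ k / (2 ^ L * Real.sqrt (2 ^ L)) ∧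
        ∀ B : Finset (Fin (L ^ 4)), 2 ≤ B.card → B.card < k →
          |co (ind F) B + Pl B.card| ≤ C * ((L : ℝ) ^ 4) ^ k / (2 ^ L * Real.sqrt (2 ^ L)) := by
  have hlog0 : 0 < Real.log 2 := Real.log_pos (by norm_num)
  obtain ⟨r, lam, ε, C0, hlam, hε, hC0, hev⟩ := base_coeffs k υ hk hυ
  have hυ0 : 0 < υ := by
    have hk' : (3 : ℝ) ≤ k := by exact_mod_cast hk
    have h1 : (1 : ℝ) < 40000 * ((k : ℝ) - 1) ^ 5 := by
      have h2 : (1 : ℝ) ≤ ((k : ℝ) - 1) ^ 5 := one_le_pow₀ (by linarith)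
      linarith
    have h2 := Real.log_pos h1
    have h3 : (0 : ℝ) < υ := by linarith
    exact_mod_cast h3
  have hsl : 0 ≤ ∑ l, lam l := sum_nonneg (fun l _ => (hlam l).le)
  set C : ℝ := (C0 + C0 * ∑ l, lam l) + 2 * ((r + 1) * C0)
    + (4 * ((r + 1) * Real.sqrt C0) + (r + 1)) with hC
  have ha : 0 ≤ C0 + C0 * ∑ l, lam l := by positivity
  have hb : 0 ≤ 2 * (((r : ℝ) + 1) * C0) := by positivity
  have hc : 0 ≤ 4 * (((r : ℝ) + 1) * Real.sqrt C0) + (r + 1) := by positivity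
  refine ⟨ε * Real.log 2, C, by positivity, by linarith, ?_⟩
  have hbig : ∀ᶠ L : ℕ in atTop, Real.sqrt (C0 * 2 ^ L) * (2 * ((r + 1) * C0)) ≤ (2 : ℝ) ^ L := by
    have h1 : Tendsto (fun L : ℕ => (2 : ℝ) ^ L) atTop atTop :=
      tendsto_pow_atTop_atTop_of_one_lt (by norm_num)
    filter_upwards [h1.eventually_ge_atTop (C0 * (2 * ((r + 1) * C0)) ^ 2)] with L hL
    have hN : (0 : ℝ) < 2 ^ L := by positivity
    have h2 : Real.sqrt (C0 * 2 ^ L) * (2 * ((r + 1) * C0))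
        = Real.sqrt (C0 * 2 ^ L * (2 * ((r + 1) * C0)) ^ 2) := by
      have h5 : (0 : ℝ) ≤ C0 * 2 ^ L := by positivity
      rw [Real.sqrt_mul h5 ((2 * (((r : ℝ) + 1) * C0)) ^ 2), Real.sqrt_sq hb]
    rw [h2]
    apply Real.sqrt_le_iff.2
    refine ⟨hN.le, ?_⟩
    calc C0 * 2 ^ L * (2 * ((r + 1) * C0)) ^ 2 = (C0 * (2 * ((r + 1) * C0)) ^ 2) * 2 ^ L := by ring
      _ ≤ 2 ^ L * 2 ^ L := mul_le_mul_of_nonneg_right hL hN.le
      _ = (2 ^ L) ^ 2 := by ring
  filter_upwards [hev, hbig, eventually_ge_atTop 4] with L h1 h2 h3 Pl hPl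
  have hL0 : (0 : ℝ) < L := by exact_mod_cast (by omega : 0 < L)
  have hN0 : (0 : ℝ) < 2 ^ L := by positivity
  obtain ⟨c0, c, hc0, hc0', hcc, he0, hej⟩ := h1
    (fun j => - (Pl j * ((L : ℝ) ^ 3) ^ j * 2 ^ L / Real.log 2)) (fun j => by
      rw [abs_neg, abs_div, abs_mul, abs_mul, abs_of_pos hlog0, abs_of_pos hN0,
        abs_of_nonneg (by positivity : (0 : ℝ) ≤ ((L : ℝ) ^ 3) ^ j), div_le_iff₀ hlog0]
      exact hPl j)
  obtain ⟨F, hF1, hF2, hF3⟩ := baseex_fixed k υ L r (by omega) hυ0 lam hlam C0 hC0 h3 h2 c0 c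
    hc0 hc0' hcc
  have hE : (4 * ((r + 1) * Real.sqrt C0) + (r + 1)) * ((L : ℝ) ^ 4) ^ k
      / (2 ^ L * Real.sqrt (2 ^ L)) ≤ C * ((L : ℝ) ^ 4) ^ k / (2 ^ L * Real.sqrt (2 ^ L)) := by
    apply div_le_div_of_nonneg_right _ (by positivity)
    apply mul_le_mul_of_nonneg_right _ (by positivity)
    rw [hC]
    linarith
  refine ⟨F, hF1.trans ?_, ?_, ?_, ?_⟩
  · apply mul_le_mul_of_nonneg_right _ (by positivity)
    rw [hC]
    linarith
  · intro s hs
    refine (hF2 s hs).trans ?_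
    apply div_le_div_of_nonneg_right _ hN0.le
    rw [hC]
    linarith
  · have h4 := hF3 ∅ (by rw [card_empty]; omega)
    rw [card_empty, he0, pow_zero, mul_one, mul_one] at h4
    exact h4.trans hE
  · intro B hB2 hBk
    have h4 := hF3 B hBk
    rw [hej _ hB2 hBk] at h4
    have h5 : Real.log 2 / (2 ^ L * ((L : ℝ) ^ 3) ^ B.card)
        * -(Pl B.card * ((L : ℝ) ^ 3) ^ B.card * 2 ^ L / Real.log 2) = - Pl B.card := by
      field_simp
    rw [h5, sub_neg_eq_add] at h4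
    exact h4.trans hE

end Pool.Agent.H.MP_cba12a_lc.SQ
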