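import Mathlib

/-!
# Cube averages and coefficients

Points of the cube are identified with their sets of ones, subsets of `Fin m`.
-/

namespace Pool.Agent.H.MP_cba12a_lc.SQ

open Finset

variable {m : ℕ}

/-- average over all subsets of `Fin m` -/
noncomputable def ex (f : Finset (Fin m) → ℝ) : ℝ := (∑ x, f x) / 2 ^ m

/-- the character of `B` at the point with set of ones `x` -/
noncomputable def chi (B x : Finset (Fin m)) : ℝ := ∏ a ∈ B, (if a ∈ x then (1 : ℝ) else -1)

/-- the coefficient of `f` at `B` -/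
noncomputable def co (f : Finset (Fin m) → ℝ) (B : Finset (Fin m)) : ℝ :=
  ex fun x => f x * chi B x

/-- the conjunction of the variables in `T` -/
noncomputable def cj (T x : Finset (Fin m)) : ℝ := if T ⊆ x then 1 else 0

/-- the monotone DNF with the list of terms `F` -/
noncomputable def ind (F : List (Finset (Fin m))) (x : Finset (Fin m)) : ℝ :=
  if ∃ T ∈ F, T ⊆ x then 1 else 0

theorem ex_add (f g : Finset (Fin m) → ℝ) : ex (fun x => f x + g x) = ex f + ex g := by
  simp only [ex, sum_add_distrib, add_div]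

theorem ex_sub (f g : Finset (Fin m) → ℝ) : ex (fun x => f x - g x) = ex f - ex g := by
  simp only [ex, sum_sub_distrib, sub_div]

theorem ex_mul_left (c : ℝ) (f : Finset (Fin m) → ℝ) : ex (fun x => c * f x) = c * ex f := by
  simp only [ex, ← mul_sum, mul_div_assoc]

theorem ex_sum {ι : Type*} (s : Finset ι) (f : ι → Finset (Fin m) → ℝ) :
    ex (fun x => ∑ i ∈ s, f i x) = ∑ i ∈ s, ex (f i) := by
  simp only [ex]
  rw [sum_comm, sum_div]

theorem ex_mono {f g : Finset (Fin m) → ℝ} (h : ∀ x, f x ≤ g x) : ex f ≤ ex g := by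
  unfold ex
  gcongr with x
  exact h x

theorem ex_nonneg {f : Finset (Fin m) → ℝ} (h : ∀ x, 0 ≤ f x) : 0 ≤ ex f := by
  unfold ex
  have : 0 ≤ ∑ x, f x := sum_nonneg fun x _ => h x
  positivity

theorem ex_const (c : ℝ) : ex (fun _ : Finset (Fin m) => c) = c := by
  unfold ex
  simp

theorem abs_chi (B x : Finset (Fin m)) : |chi B x| = 1 := by
  unfold chi
  rw [abs_prod]
  apply prod_eq_one
  intro a _
  split <;> simp

theorem chi_empty (x : Finset (Fin m)) : chi ∅ x = 1 := by
  simp [chi]

theorem co_empty (f : Finset (Fin m) → ℝ) : co f ∅ = ex f := by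
  simp [co, chi_empty]

theorem abs_ex_le {f g : Finset (Fin m) → ℝ} (h : ∀ x, |f x| ≤ g x) : |ex f| ≤ ex g := by
  rw [abs_le]
  constructor
  · have h1 : ex (fun x => (-1) * g x) ≤ ex f := ex_mono fun x => by
      have := (abs_le.1 (h x)).1
      linarith
    rw [ex_mul_left] at h1
    linarith
  · exact ex_mono fun x => (abs_le.1 (h x)).2

theorem abs_co_le {f g : Finset (Fin m) → ℝ} (h : ∀ x, |f x| ≤ g x) (B : Finset (Fin m)) :
    |co f B| ≤ ex g := by
  apply abs_ex_le
  intro x
  rw [abs_mul, abs_chi, mul_one]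
  exact h x

theorem co_add (f g : Finset (Fin m) → ℝ) (B : Finset (Fin m)) :
    co (fun x => f x + g x) B = co f B + co g B := by
  unfold co
  rw [← ex_add]
  congr 1
  funext x
  ring

theorem co_sub (f g : Finset (Fin m) → ℝ) (B : Finset (Fin m)) :
    co (fun x => f x - g x) B = co f B - co g B := by
  unfold co
  rw [← ex_sub]
  congr 1
  funext x
  ring

theorem co_mul_left (c : ℝ) (f : Finset (Fin m) → ℝ) (B : Finset (Fin m)) :
    co (fun x => c * f x) B = c * co f B := by
  unfold co
  rw [← ex_mul_left]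
  congr 1
  funext x
  ring

theorem co_sum {ι : Type*} (s : Finset ι) (f : ι → Finset (Fin m) → ℝ) (B : Finset (Fin m)) :
    co (fun x => ∑ i ∈ s, f i x) B = ∑ i ∈ s, co (f i) B := by
  unfold co
  rw [← ex_sum]
  congr 1
  funext x
  rw [sum_mul]

theorem cj_nonneg (T x : Finset (Fin m)) : 0 ≤ cj T x := by
  unfold cj; split <;> norm_num

theorem cj_le_one (T x : Finset (Fin m)) : cj T x ≤ 1 := by
  unfold cj; split <;> norm_num

theorem ind_nonneg (F : List (Finset (Fin m))) (x : Finset (Fin m)) : 0 ≤ ind F x := by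
  unfold ind; split <;> norm_num

theorem ind_le_one (F : List (Finset (Fin m))) (x : Finset (Fin m)) : ind F x ≤ 1 := by
  unfold ind; split <;> norm_num

theorem ind_nil (x : Finset (Fin m)) : ind [] x = 0 := by
  simp [ind]

theorem ind_singleton (T x : Finset (Fin m)) : ind [T] x = cj T x := by
  simp [ind, cj]

theorem ind_append (F G : List (Finset (Fin m))) (x : Finset (Fin m)) :
    ind (F ++ G) x = ind F x + ind G x - ind F x * ind G x := by
  unfold ind
  by_cases h1 : ∃ T ∈ F, T ⊆ x
  · have h3 : ∃ T ∈ F ++ G, T ⊆ x := by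
      obtain ⟨T, hT, hx⟩ := h1
      exact ⟨T, List.mem_append_left _ hT, hx⟩
    rw [if_pos h1, if_pos h3]
    ring
  · by_cases h2 : ∃ T ∈ G, T ⊆ x
    · have h3 : ∃ T ∈ F ++ G, T ⊆ x := by
        obtain ⟨T, hT, hx⟩ := h2
        exact ⟨T, List.mem_append_right _ hT, hx⟩
      rw [if_neg h1, if_pos h2, if_pos h3]
      ring
    · have h3 : ¬ ∃ T ∈ F ++ G, T ⊆ x := by
        rintro ⟨T, hT, hx⟩
        rcases List.mem_append.1 hT with h | h
        · exact h1 ⟨T, h, hx⟩
        · exact h2 ⟨T, h, hx⟩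
      rw [if_neg h1, if_neg h2, if_neg h3]
      ring

/-- if all terms of `F` contain `D`, then `ind F` is at most the conjunction of `D` -/
theorem ind_le_cj (F : List (Finset (Fin m))) (D : Finset (Fin m)) (h : ∀ T ∈ F, D ⊆ T)
    (x : Finset (Fin m)) : ind F x ≤ cj D x := by
  unfold ind cj
  by_cases h1 : ∃ T ∈ F, T ⊆ x
  · obtain ⟨T, hT, hx⟩ := h1
    rw [if_pos ⟨T, hT, hx⟩, if_pos ((h T hT).trans hx)]
  · rw [if_neg h1]
    split <;> norm_num

/-- sums over all subsets factor over the coordinates -/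
theorem sum_prod_mem (u v : Fin m → ℝ) :
    ∑ x : Finset (Fin m), ∏ a, (if a ∈ x then u a else v a) = ∏ a, (u a + v a) := by
  rw [prod_add, ← powerset_univ]
  apply sum_congr rfl
  intro x _
  rw [← prod_mul_prod_compl x]
  congr 1
  · apply prod_congr rfl
    intro a ha
    rw [if_pos ha]
  · rw [compl_eq_univ_sdiff]
    apply prod_congr rfl
    intro a ha
    rw [if_neg (mem_sdiff.1 ha).2]

theorem ex_prod_mem (u v : Fin m → ℝ) :
    ex (fun x => ∏ a, (if a ∈ x then u a else v a)) = ∏ a, ((u a + v a) / 2) := by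
  unfold ex
  rw [sum_prod_mem, prod_div_distrib]
  simp

theorem cj_eq_prod (T x : Finset (Fin m)) :
    cj T x = ∏ a, (if a ∈ x then (1 : ℝ) else (if a ∈ T then 0 else 1)) := by
  unfold cj
  by_cases h : T ⊆ x
  · rw [if_pos h]
    symm
    apply prod_eq_one
    intro a _
    by_cases ha : a ∈ x
    · rw [if_pos ha]
    · rw [if_neg ha, if_neg fun h' => ha (h h')]
  · rw [if_neg h]
    obtain ⟨a, haT, hax⟩ := not_subset.1 h
    symm
    apply prod_eq_zero (mem_univ a)
    rw [if_neg hax, if_pos haT]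

theorem chi_eq_prod (B x : Finset (Fin m)) :
    chi B x = ∏ a, (if a ∈ x then (1 : ℝ) else (if a ∈ B then -1 else 1)) := by
  unfold chi
  rw [← prod_subset (subset_univ B)]
  · apply prod_congr rfl
    intro a ha
    by_cases h : a ∈ x
    · rw [if_pos h, if_pos h]
    · rw [if_neg h, if_neg h, if_pos ha]
  · intro a _ ha
    by_cases h : a ∈ x
    · rw [if_pos h]
    · rw [if_neg h, if_neg ha]

/-- the coefficients of a conjunction -/
theorem co_cj (T B : Finset (Fin m)) : co (cj T) B = if B ⊆ T then (1 / 2 : ℝ) ^ T.card else 0 := by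
  unfold co
  have h1 : (fun x : Finset (Fin m) => cj T x * chi B x) = fun x => ∏ a, (if a ∈ x then (1 : ℝ)
      else (if a ∈ T then 0 else 1) * (if a ∈ B then -1 else 1)) := by
    funext x
    rw [cj_eq_prod, chi_eq_prod, ← prod_mul_distrib]
    apply prod_congr rfl
    intro a _
    by_cases h : a ∈ x
    · simp [h]
    · simp only [if_neg h]
  rw [h1, ex_prod_mem]
  by_cases h : B ⊆ T
  · rw [if_pos h]
    have h2 : ∀ a : Fin m, ((1 : ℝ) + (if a ∈ T then 0 else 1) * (if a ∈ B then -1 else 1)) / 2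
        = if a ∈ T then 1 / 2 else 1 := by
      intro a
      by_cases ha : a ∈ T
      · rw [if_pos ha, if_pos ha]
        ring
      · rw [if_neg ha, if_neg ha, if_neg fun h' => ha (h h')]
        ring
    rw [prod_congr rfl fun a _ => h2 a, prod_ite]
    simp
  · rw [if_neg h]
    obtain ⟨a, haB, haT⟩ := not_subset.1 h
    apply prod_eq_zero (mem_univ a)
    rw [if_neg haT, if_pos haB]
    norm_num

theorem ex_cj (T : Finset (Fin m)) : ex (cj T) = (1 / 2 : ℝ) ^ T.card := by
  rw [← co_empty, co_cj, if_pos (empty_subset _)]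

end Pool.Agent.H.MP_cba12a_lc.SQ
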