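import Pool.Agent.H.MP_cba12a_lc.SQ.Defs

namespace Pool.Agent.H.MP_cba12a_lc.SQ

open Finset Filter Topology

theorem persist_kappa {ι J : Type} [Fintype ι] [Nonempty ι] [Fintype J] (v : ι → J → ℝ)
    (hpos : ∀ w : J → ℝ, w ≠ 0 → ∃ i, ∑ j, w j * v i j < 0) :
    ∃ κ : ℝ, 0 < κ ∧ ∀ w : J → ℝ, ∃ i, ∑ j, w j * v i j ≤ -κ * ‖w‖ := by
  classical
  set g : (J → ℝ) → ℝ := fun w =>
    (univ : Finset ι).inf' univ_nonempty (fun i => ∑ j, w j * v i j) with hg
  have hgc : Continuous g := by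
    apply Continuous.finset_inf'_apply
    intro i _
    exact continuous_finsetSum _ fun j _ => (continuous_apply j).mul continuous_const
  have hcomp : IsCompact (Metric.sphere (0 : J → ℝ) 1) := isCompact_sphere _ _
  have hsph : ∀ w : J → ℝ, w ≠ 0 → ‖w‖⁻¹ • w ∈ Metric.sphere (0 : J → ℝ) 1 := by
    intro w hw
    rw [mem_sphere_zero_iff_norm, norm_smul, norm_inv, norm_norm,
      inv_mul_cancel₀ (norm_ne_zero_iff.2 hw)]
  rcases (Metric.sphere (0 : J → ℝ) 1).eq_empty_or_nonempty with h | h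
  · refine ⟨1, one_pos, fun w => ?_⟩
    have hw : w = 0 := by
      by_contra hw
      have := hsph w hw
      rw [h] at this
      exact this
    obtain ⟨i⟩ := ‹Nonempty ι›
    exact ⟨i, by simp [hw]⟩
  · obtain ⟨w0, hw0, hmax⟩ := hcomp.exists_isMaxOn h hgc.continuousOn
    have hw0' : w0 ≠ 0 := by
      intro h0
      rw [mem_sphere_zero_iff_norm, h0, norm_zero] at hw0
      norm_num at hw0
    have hneg : g w0 < 0 := by
      obtain ⟨i, hi⟩ := hpos w0 hw0'
      exact (inf'_le _ (mem_univ i)).trans_lt hi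
    refine ⟨-g w0, by linarith, fun w => ?_⟩
    by_cases hw : w = 0
    · obtain ⟨i⟩ := ‹Nonempty ι›
      exact ⟨i, by simp [hw]⟩
    · have hn : 0 < ‖w‖ := norm_pos_iff.2 hw
      have h2 : g (‖w‖⁻¹ • w) ≤ g w0 := hmax (hsph w hw)
      obtain ⟨i, _, hi⟩ := exists_mem_eq_inf' univ_nonempty
        (fun i => ∑ j, (‖w‖⁻¹ • w) j * v i j)
      refine ⟨i, ?_⟩
      have h3 : ∑ j, (‖w‖⁻¹ • w) j * v i j = ‖w‖⁻¹ * ∑ j, w j * v i j := by
        rw [mul_sum]
        refine sum_congr rfl fun j _ => ?_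
        simp only [Pi.smul_apply, smul_eq_mul]
        ring
      have h4 : ‖w‖⁻¹ * ∑ j, w j * v i j ≤ g w0 := by
        rw [← h3, ← hi]
        exact h2
      have := mul_le_mul_of_nonneg_left h4 hn.le
      rw [← mul_assoc, mul_inv_cancel₀ hn.ne', one_mul] at this
      linarith

theorem persist_sum_le {J : Type} [Fintype J] (w b : J → ℝ) (ε : ℝ) (hb : ∀ j, |b j| ≤ ε) :
    |∑ j, w j * b j| ≤ ε * Fintype.card J * ‖w‖ := by
  calc |∑ j, w j * b j| ≤ ∑ j, |w j * b j| := abs_sum_le_sum_abs _ _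
    _ ≤ ∑ _j : J, ε * ‖w‖ := by
      refine sum_le_sum fun j _ => ?_
      rw [abs_mul, mul_comm]
      have h1 : |w j| ≤ ‖w‖ := by
        rw [← Real.norm_eq_abs]
        exact norm_le_pi_norm w j
      have h2 := abs_nonneg (b j)
      have h3 := hb j
      gcongr
      · linarith
    _ = ε * Fintype.card J * ‖w‖ := by
      rw [sum_const, card_univ, nsmul_eq_mul]
      ring

theorem persist {ι J : Type} [Fintype ι] [Nonempty ι] [Fintype J] (v : ι → J → ℝ) (μ : ι → ℝ)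
    (hμ : ∀ i, 0 < μ i) (hpos : ∀ w : J → ℝ, w ≠ 0 → ∃ i, ∑ j, w j * v i j < 0) :
    ∃ ε C : ℝ, 0 < ε ∧ ∀ (v' : ι → J → ℝ) (μ' : ι → ℝ), (∀ i j, |v' i j - v i j| ≤ ε) →
      (∀ i, |μ' i - μ i| ≤ ε) → ∀ b : J → ℝ, (∀ j, |b j| ≤ ε) →
      ∃ c : ι → ℝ, (∀ i, 0 ≤ c i ∧ c i ≤ C) ∧ ∑ i, c i * μ' i = 1 ∧
        ∀ j, ∑ i, c i * v' i j = b j := by
  classical
  obtain ⟨κ, hκ, hk⟩ := persist_kappa v hpos
  obtain ⟨i0, hi0⟩ := Finite.exists_min μ
  obtain ⟨i1, hi1⟩ := Finite.exists_max μ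
  set m0 := μ i0 with hm0
  set M := μ i1 with hM
  have hm0p : 0 < m0 := hμ i0
  have hMp : 0 < M := hμ i1
  set q : ℝ := (Fintype.card J : ℝ) with hq
  have hq0 : 0 ≤ q := Nat.cast_nonneg _
  set ε : ℝ := min (m0 / 2) (min 1 (κ / (4 * (M + 2) * (q + 1)))) with hε
  have hε0 : 0 < ε := by
    rw [hε]
    refine lt_min (by linarith) (lt_min one_pos (by positivity))
  have hε1 : ε ≤ m0 / 2 := min_le_left _ _
  have hε2 : ε ≤ 1 := (min_le_right _ _).trans (min_le_left _ _)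
  have hε3 : ε * (4 * (M + 2) * (q + 1)) ≤ κ := by
    rw [← le_div_iff₀ (by positivity)]
    exact (min_le_right _ _).trans (min_le_right _ _)
  have hε4 : 4 * (ε * q) * (M + 2) ≤ κ := by nlinarith [mul_pos hε0 hMp]
  refine ⟨ε, 2 / m0, hε0, ?_⟩
  intro v' μ' hv' hμ' b hb
  have hμ'1 : ∀ i, m0 / 2 ≤ μ' i := by
    intro i
    have h1 := abs_le.1 (hμ' i)
    have h2 := hi0 i
    linarith [h1.1]
  have hμ'2 : ∀ i, μ' i ≤ M + 1 := by
    intro i
    have h1 := abs_le.1 (hμ' i)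
    have h2 := hi1 i
    linarith [h1.2]
  have hμ'0 : ∀ i, 0 < μ' i := fun i => by linarith [hμ'1 i]
  set z : ι → J → ℝ := fun i j => v' i j / μ' i with hz
  set L := Fintype.linearCombination ℝ z with hL
  set S := L '' stdSimplex ℝ ι with hS
  have hconv : Convex ℝ S := (convex_stdSimplex ℝ ι).linear_image L
  have hcomp : IsCompact S := (isCompact_stdSimplex ℝ ι).image L.continuous_of_finiteDimensional
  have hbS : b ∈ S := by
    by_contra hbS
    obtain ⟨f, u, hu1, hu2⟩ := geometric_hahn_banach_point_closed hconv hcomp.isClosed hbS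
    set w : J → ℝ := fun j => f (Pi.single j 1) with hw
    have hf : ∀ y : J → ℝ, f y = ∑ j, w j * y j := by
      intro y
      have h1 := LinearMap.pi_apply_eq_sum_univ f.toLinearMap y
      change f y = _ at h1
      rw [h1]
      refine sum_congr rfl fun j _ => ?_
      rw [smul_eq_mul, mul_comm]
      congr 1
      change f _ = f _
      congr 1
      funext j'
      simp only [Pi.single_apply, eq_comm]
    have hzS : ∀ i, z i ∈ S := by
      intro i
      refine ⟨Pi.single i 1, single_mem_stdSimplex ℝ i, ?_⟩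
      rw [hL, Fintype.linearCombination_apply]
      rw [Finset.sum_eq_single i]
      · simp
      · intro j _ hj
        simp [Pi.single_apply, hj]
      · simp
    obtain ⟨i, hi⟩ := hk w
    have h1 : f b < f (z i) := hu1.trans (hu2 _ (hzS i))
    have h2 : ∑ j, w j * v' i j = μ' i * f (z i) := by
      rw [hf, mul_sum]
      refine sum_congr rfl fun j _ => ?_
      rw [hz]
      field_simp [(hμ'0 i).ne']
    have h3 : |f b| ≤ ε * q * ‖w‖ := by
      rw [hf]
      exact persist_sum_le w b ε hb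
    have h4 : ∑ j, w j * v' i j ≤ ∑ j, w j * v i j + ε * q * ‖w‖ := by
      have h5 := persist_sum_le w (fun j => v' i j - v i j) ε (fun j => hv' i j)
      have h6 : ∑ j, w j * (v' i j - v i j) = ∑ j, w j * v' i j - ∑ j, w j * v i j := by
        rw [← sum_sub_distrib]
        refine sum_congr rfl fun j _ => by ring
      rw [h6] at h5
      linarith [(abs_le.1 h5).2]
    have h7 : μ' i * f b < μ' i * f (z i) := mul_lt_mul_of_pos_left h1 (hμ'0 i)
    have h8 : -(ε * q * ‖w‖) ≤ f b := (abs_le.1 h3).1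
    have hn : 0 ≤ ‖w‖ := norm_nonneg w
    have hwn : 0 < ‖w‖ := by
      rcases hn.eq_or_lt with h | h
      · exfalso
        have hw0 : w = 0 := norm_eq_zero.1 h.symm
        rw [hf, hf, hw0] at h1
        simp at h1
      · exact h
    have h9 : -((M + 1) * (ε * q * ‖w‖)) ≤ μ' i * f b := by
      have e0 : 0 ≤ ε * q * ‖w‖ := by positivity
      calc -((M + 1) * (ε * q * ‖w‖)) ≤ -(μ' i * (ε * q * ‖w‖)) := by
            have := mul_le_mul_of_nonneg_right (hμ'2 i) e0
            linarith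
        _ = μ' i * -(ε * q * ‖w‖) := by ring
        _ ≤ μ' i * f b := mul_le_mul_of_nonneg_left h8 (hμ'0 i).le
    have h10 : 4 * (ε * q) * (M + 2) * ‖w‖ ≤ κ * ‖w‖ := mul_le_mul_of_nonneg_right hε4 hn
    have h11 : 0 < κ * ‖w‖ := mul_pos hκ hwn
    have e1 : 4 * (ε * q) * (M + 2) * ‖w‖ =
        4 * ((M + 1) * (ε * q * ‖w‖)) + 4 * (ε * q * ‖w‖) := by ring
    have e2 : 0 ≤ ε * q * ‖w‖ := by positivity
    have e3 : 0 ≤ (M + 1) * (ε * q * ‖w‖) := by positivity
    linarith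
  obtain ⟨a, ha, hab⟩ := hbS
  refine ⟨fun i => a i / μ' i, ?_, ?_, ?_⟩
  · intro i
    have h1 : 0 ≤ a i := ha.1 i
    have h2 : a i ≤ 1 := by
      rw [← ha.2]
      exact single_le_sum (fun j _ => ha.1 j) (mem_univ i)
    refine ⟨div_nonneg h1 (hμ'0 i).le, ?_⟩
    rw [div_le_div_iff₀ (hμ'0 i) hm0p]
    have := hμ'1 i
    nlinarith
  · rw [← ha.2]
    refine sum_congr rfl fun i _ => ?_
    rw [div_mul_cancel₀ _ (hμ'0 i).ne']
  · intro j
    rw [← hab, hL, Fintype.linearCombination_apply, Finset.sum_apply]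
    refine sum_congr rfl fun i _ => ?_
    rw [Pi.smul_apply, smul_eq_mul, hz]
    ring

end Pool.Agent.H.MP_cba12a_lc.SQ
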