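import Pool.Agent.H.MP_cba12a_lc.SQ.Family
import Pool.Agent.H.MP_cba12a_lc.SQ.Persist
import Pool.Agent.H.MP_cba12a_lc.SQ.Asym

namespace Pool.Agent.H.MP_cba12a_lc.SQ

open Finset Filter Topology

/-- limit values -/
private noncomputable def coeffs_v (υ : ℕ) {r : ℕ} (lam : Fin r → ℝ) (i : Option (Fin r))
    (j : ℕ) : ℝ :=
  i.elim (2 ^ j) fun l => 2 ^ j - Real.exp (-lam l) * (PP 2 υ j).eval (lam l)

/-- values at finite `L` -/
private noncomputable def coeffs_n (υ : ℕ) {r : ℕ} (lam : Fin r → ℝ) (L : ℕ) (i : Option (Fin r))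
    (j : ℕ) : ℝ :=
  i.elim (nvp L j) fun l => nvb υ (lam l) L j

private theorem coeffs_tendsto (υ : ℕ) (hυ : 1 ≤ υ) {r : ℕ} (lam : Fin r → ℝ)
    (hlam : ∀ l, 0 < lam l) (i : Option (Fin r)) (j : ℕ) :
    Tendsto (fun L => coeffs_n υ lam L i j) atTop (𝓝 (coeffs_v υ lam i j)) := by
  cases i with
  | none => exact asym_ur j
  | some l => exact asym_blk υ hυ (lam l) (hlam l) j

private theorem coeffs_ev (υ : ℕ) (hυ : 1 ≤ υ) {r : ℕ} (lam : Fin r → ℝ)
    (hlam : ∀ l, 0 < lam l) (i : Option (Fin r)) (j : ℕ) (ε : ℝ) (hε : 0 < ε) :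
    ∀ᶠ L in atTop, |coeffs_n υ lam L i j - coeffs_v υ lam i j| ≤ ε := by
  have h := (coeffs_tendsto υ hυ lam hlam i j).eventually (Metric.ball_mem_nhds _ hε)
  filter_upwards [h] with L hL
  rw [Real.dist_eq] at hL
  exact hL.le

theorem base_coeffs (k υ : ℕ) (hk : 3 ≤ k)
    (hυ : 4 * Real.log (40000 * ((k : ℝ) - 1) ^ 5) ≤ υ) :
    ∃ (r : ℕ) (lam : Fin r → ℝ) (ε C : ℝ), (∀ l, 0 < lam l) ∧ 0 < ε ∧ 0 ≤ C ∧
      ∀ᶠ L : ℕ in atTop, ∀ b : ℕ → ℝ, (∀ j, |b j| ≤ ε) →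
        ∃ (c0 : ℝ) (c : Fin r → ℝ), 0 ≤ c0 ∧ c0 ≤ C ∧ (∀ l, 0 ≤ c l ∧ c l ≤ C) ∧
          c0 * nvp L 0 + ∑ l, c l * nvb υ (lam l) L 0 = 1 ∧
          ∀ j, 2 ≤ j → j < k → c0 * nvp L j + ∑ l, c l * nvb υ (lam l) L j = b j := by
  have hυ1 : 1 ≤ υ := by
    have hk3 : (3 : ℝ) ≤ k := by exact_mod_cast hk
    have h1 : (1 : ℝ) < 40000 * ((k : ℝ) - 1) ^ 5 := by
      have h2 : (1 : ℝ) ≤ ((k : ℝ) - 1) ^ 5 := one_le_pow₀ (by linarith)
      linarith
    have h2 := Real.log_pos h1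
    have h3 : (0 : ℝ) < υ := by linarith
    exact_mod_cast h3
  obtain ⟨r, lam, hlam, hfam⟩ := finite_family k υ hk hυ
  have hpos : ∀ w : ↥(Ico 2 k) → ℝ, w ≠ 0 →
      ∃ i : Option (Fin r), ∑ j : ↥(Ico 2 k), w j * coeffs_v υ lam i j < 0 := by
    intro w hw
    have hw' : ∃ j, w j ≠ 0 := by
      by_contra hcon
      push Not at hcon
      exact hw (funext hcon)
    obtain ⟨j0, hj0⟩ := hw'
    classical
    set w' : ℕ → ℝ := fun j => if h : j ∈ Ico 2 k then w ⟨j, h⟩ else 0 with hw'def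
    have hw'j : ∀ j : ↥(Ico 2 k), w' j = w j := by
      intro j
      rw [hw'def]
      simp only
      rw [dif_pos j.2]
    have hsum : ∀ f : ℕ → ℝ, ∑ j ∈ Ico 2 k, w' j * f j = ∑ j : ↥(Ico 2 k), w j * f j := by
      intro f
      rw [← Finset.sum_coe_sort]
      exact Finset.sum_congr rfl fun j _ => by rw [hw'j]
    rcases hfam w' ⟨j0, j0.2, by rw [hw'j]; exact hj0⟩ with h | ⟨l, h⟩
    · refine ⟨none, ?_⟩
      rw [hsum] at h
      exact h
    · refine ⟨some l, ?_⟩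
      rw [hsum (fun j => 2 ^ j - Real.exp (-lam l) * (PP 2 υ j).eval (lam l))] at h
      exact h
  obtain ⟨ε, C, hε, hper⟩ := persist (ι := Option (Fin r)) (J := ↥(Ico 2 k))
    (fun i j => coeffs_v υ lam i j) (fun i => coeffs_v υ lam i 0)
    (by
      intro i
      cases i with
      | none => simp [coeffs_v]
      | some l =>
        have h1 : Real.exp (-lam l) < 1 := Real.exp_lt_one_iff.2 (by linarith [hlam l])
        simp only [coeffs_v, Option.elim, PP, Polynomial.eval_one]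
        linarith) hpos
  refine ⟨r, lam, ε, max C 0, hlam, hε, le_max_right _ _, ?_⟩
  have hev1 : ∀ᶠ L in atTop, ∀ i : Option (Fin r), ∀ j : ↥(Ico 2 k),
      |coeffs_n υ lam L i j - coeffs_v υ lam i j| ≤ ε := by
    rw [Filter.eventually_all]
    intro i
    rw [Filter.eventually_all]
    intro j
    exact coeffs_ev υ hυ1 lam hlam i j ε hε
  have hev2 : ∀ᶠ L in atTop, ∀ i : Option (Fin r),
      |coeffs_n υ lam L i 0 - coeffs_v υ lam i 0| ≤ ε := by
    rw [Filter.eventually_all]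
    intro i
    exact coeffs_ev υ hυ1 lam hlam i 0 ε hε
  filter_upwards [hev1, hev2] with L h1 h2 b hb
  obtain ⟨c, hc, hc0, hcj⟩ := hper (fun i j => coeffs_n υ lam L i j)
    (fun i => coeffs_n υ lam L i 0) h1 h2 (fun j => b j) (fun j => hb j)
  refine ⟨c none, fun l => c (some l), (hc none).1, (hc none).2.trans (le_max_left _ _),
    fun l => ⟨(hc (some l)).1, (hc (some l)).2.trans (le_max_left _ _)⟩, ?_, ?_⟩
  · rw [Fintype.sum_option] at hc0
    exact hc0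
  · intro j hj2 hjk
    have h3 := hcj ⟨j, by rw [mem_Ico]; exact ⟨hj2, hjk⟩⟩
    rw [Fintype.sum_option] at h3
    exact h3

end Pool.Agent.H.MP_cba12a_lc.SQ
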