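import Pool.Agent.H.MP_cba12a_lc.SQ.Defs

namespace Pool.Agent.H.MP_cba12a_lc.SQ

open Finset Filter Topology

theorem sum_col {m N : ℕ} (π : Fin m → Equiv.Perm (Fin N)) (G : Fin N → (Fin m → Bool) → ℝ) :
    ∑ x : Fin m → Fin N → Bool, ∏ c, G c (col π c x) = ∏ c, ∑ y, G c y := by
  rw [Finset.prod_univ_sum, Fintype.piFinset_univ]
  let e : (Fin m → Fin N → Bool) ≃ (Fin N → Fin m → Bool) :=
    { toFun := fun x c a => x a (π a c)
      invFun := fun X a c => X ((π a).symm c) a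
      left_inv := by
        intro x
        funext a c
        simp
      right_inv := by
        intro X
        funext c a
        simp }
  exact Fintype.sum_equiv e _ _ (fun x => rfl)

theorem WT_eq {m N : ℕ} (β : Fin m → ℝ) (π : Fin m → Equiv.Perm (Fin N))
    (x : Fin m → Fin N → Bool) : WT β x = ∏ c, wt β (col π c x) := by
  unfold WT wt col
  rw [Finset.prod_comm (s := (univ : Finset (Fin N)))]
  refine prod_congr rfl fun a _ => ?_
  exact (Equiv.prod_comp (π a) (fun c => (1 + β a * sg (x a c)) / 2)).symm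

theorem wt_nonneg {m : ℕ} (β : Fin m → ℝ) (hβ : ∀ a, |β a| ≤ 1) (y : Fin m → Bool) :
    0 ≤ wt β y := by
  unfold wt
  refine prod_nonneg fun a _ => ?_
  have h1 := abs_le.1 (hβ a)
  unfold sg
  split_ifs
  · linarith
  · linarith

theorem sum_wt {m : ℕ} (β : Fin m → ℝ) : ∑ y, wt β y = 1 := by
  unfold wt
  have h1 : ∏ a : Fin m, ∑ b : Bool, (1 + β a * sg b) / 2 =
      ∑ y : Fin m → Bool, ∏ a, (1 + β a * sg (y a)) / 2 := by
    rw [Finset.prod_univ_sum, Fintype.piFinset_univ]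
  rw [← h1]
  refine prod_eq_one fun a _ => ?_
  rw [Fintype.sum_bool]
  simp only [sg, if_true, Bool.false_eq_true, if_false]
  ring

theorem WT_nonneg {m N : ℕ} (β : Fin m → ℝ) (hβ : ∀ a, |β a| ≤ 1) (x : Fin m → Fin N → Bool) :
    0 ≤ WT β x := by
  rw [WT_eq β (fun _ => 1)]
  exact prod_nonneg fun c _ => wt_nonneg β hβ _

theorem sum_WT {m N : ℕ} (β : Fin m → ℝ) : ∑ x : Fin m → Fin N → Bool, WT β x = 1 := by
  have h1 : ∀ x : Fin m → Fin N → Bool, WT β x =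
      ∏ c, wt β (col (fun _ => (1 : Equiv.Perm (Fin N))) c x) := fun x => WT_eq β _ x
  rw [sum_congr rfl fun x _ => h1 x, sum_col (fun _ => (1 : Equiv.Perm (Fin N))) (fun _ => wt β)]
  exact prod_eq_one fun c _ => sum_wt β

theorem cols_norm {m N : ℕ} (β : Fin m → ℝ) (hβ : ∀ a, |β a| ≤ 1) (r : (Fin m → Bool) → ℝ)
    (ρ : ℝ) (h2 : ∑ y, wt β y * r y ^ 2 ≤ ρ ^ 2) (π : Fin m → Equiv.Perm (Fin N))
    (A : Finset (Fin N)) : ∑ x, WT β x * rA r π A x ^ 2 ≤ (ρ ^ 2) ^ A.card := by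
  have h1 : ∀ x, WT β x * rA r π A x ^ 2 =
      ∏ c, (wt β (col π c x) * (if c ∈ A then r (col π c x) ^ 2 else 1)) := by
    intro x
    rw [prod_mul_distrib, ← WT_eq, prod_ite_mem, univ_inter, rA, prod_pow]
  have h3 : ∑ x, WT β x * rA r π A x ^ 2 =
      ∏ c : Fin N, ∑ y, (wt β y * (if c ∈ A then r y ^ 2 else 1)) := by
    rw [sum_congr rfl fun x _ => h1 x]
    exact sum_col π (fun c y => wt β y * (if c ∈ A then r y ^ 2 else 1))
  have h4 : ∀ c : Fin N, ∑ y, (wt β y * (if c ∈ A then r y ^ 2 else 1)) =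
      if c ∈ A then ∑ y, wt β y * r y ^ 2 else 1 := by
    intro c
    by_cases h : c ∈ A
    · simp only [if_pos h]
    · simp only [if_neg h, mul_one]
      exact sum_wt β
  rw [h3, prod_congr rfl fun c _ => h4 c, prod_ite_mem, univ_inter, prod_const]
  have h5 : 0 ≤ ∑ y, wt β y * r y ^ 2 :=
    sum_nonneg fun y _ => mul_nonneg (wt_nonneg β hβ y) (sq_nonneg _)
  exact pow_le_pow_left₀ h5 h2 _

theorem norm_rA {m N : ℕ} (β : Fin m → ℝ) (hβ : ∀ a, |β a| ≤ 1) (r : (Fin m → Bool) → ℝ) (ρ : ℝ)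
    (hρ : 0 ≤ ρ) (h2 : ∑ y, wt β y * r y ^ 2 ≤ ρ ^ 2) (π π' : Fin m → Equiv.Perm (Fin N))
    (A A' : Finset (Fin N)) :
    |∑ x, WT β x * rA r π A x * rA r π' A' x| ≤ ρ ^ (A.card + A'.card) := by
  have h1 := cols_norm β hβ r ρ h2 π A
  have h3 := cols_norm β hβ r ρ h2 π' A'
  have h4 : (∑ x, WT β x * rA r π A x * rA r π' A' x) ^ 2 ≤
      (∑ x, WT β x * rA r π A x ^ 2) * ∑ x, WT β x * rA r π' A' x ^ 2 := by
    have e1 : ∀ x, WT β x * rA r π A x * rA r π' A' x =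
        (Real.sqrt (WT β x) * rA r π A x) * (Real.sqrt (WT β x) * rA r π' A' x) := by
      intro x
      have e2 : Real.sqrt (WT β x) * Real.sqrt (WT β x) = WT β x :=
        Real.mul_self_sqrt (WT_nonneg β hβ x)
      calc WT β x * rA r π A x * rA r π' A' x
          = (Real.sqrt (WT β x) * Real.sqrt (WT β x)) * rA r π A x * rA r π' A' x := by rw [e2]
        _ = _ := by ring
    have e3 : ∀ (q : Fin m → Equiv.Perm (Fin N)) (B : Finset (Fin N)),
        ∑ x, WT β x * rA r q B x ^ 2 = ∑ x, (Real.sqrt (WT β x) * rA r q B x) ^ 2 := by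
      intro q B
      refine sum_congr rfl fun x _ => ?_
      rw [mul_pow, Real.sq_sqrt (WT_nonneg β hβ x)]
    rw [sum_congr rfl fun x _ => e1 x, e3, e3]
    exact Finset.sum_mul_sq_le_sq_mul_sq _ _ _
  have h0 : 0 ≤ ∑ x, WT β x * rA r π' A' x ^ 2 :=
    sum_nonneg fun x _ => mul_nonneg (WT_nonneg β hβ x) (sq_nonneg _)
  have h5 : (∑ x, WT β x * rA r π A x * rA r π' A' x) ^ 2 ≤ (ρ ^ (A.card + A'.card)) ^ 2 := by
    calc _ ≤ _ := h4
      _ ≤ (ρ ^ 2) ^ A.card * (ρ ^ 2) ^ A'.card := by gcongr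
      _ = _ := by
        rw [← pow_mul, ← pow_mul, ← pow_add, ← pow_mul]
        congr 1
        ring
  exact abs_le_of_sq_le_sq h5 (pow_nonneg hρ _)

end Pool.Agent.H.MP_cba12a_lc.SQ
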