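import Pool.Agent.H.MP_cba12a_lc.SQ.Main

/-!
# Small formulas

The hard formulas on `n ^ δ` of the `n` variables have at most `n ^ (C δ log (K / δ))` terms, which is
`n ^ γ` for any `γ > 0` if `δ` is small.
-/

set_option autoImplicit false

namespace Pool.Agent.H.MP_cba12a_lc.SQ

open Finset Filter Topology

/-- the final numerical estimate -/
theorem ev_final_real (C : ℕ) (ε : ℝ) (hε : 0 < ε) :
    ∀ᶠ L : ℕ in atTop, ∀ y : ℝ, (L : ℝ) ^ 4 * 2 ^ L ≤ y → y < ((L : ℝ) + 1) ^ 4 * 2 ^ (L + 1) →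
      (L : ℝ) ^ C / Real.sqrt (2 ^ L) + 1 / y ≤ y ^ (-(1 / 2 : ℝ) + ε) := by
  have hr : (1 : ℝ) < 2 ^ ε := Real.one_lt_rpow (by norm_num) hε
  filter_upwards [ev_pow_le (C + 2) 16 _ hr (by norm_num), eventually_ge_atTop 1] with L hL hL1
  intro y hy1 hy2
  have hL1' : (1 : ℝ) ≤ L := by exact_mod_cast hL1
  set s := Real.sqrt (2 ^ L) with hs
  have hs1 : 1 ≤ s := by
    rw [hs]
    apply Real.one_le_sqrt.2
    exact one_le_pow₀ (by norm_num)
  have hs0 : 0 < s := by linarith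
  have hss : s * s = 2 ^ L := Real.mul_self_sqrt (by positivity)
  have hn3 : (2 : ℝ) ^ L ≤ y := by
    refine le_trans ?_ hy1
    exact le_mul_of_one_le_left (by positivity) (one_le_pow₀ hL1')
  have hn0 : (0 : ℝ) < y := by
    have : (0 : ℝ) < 2 ^ L := by positivity
    linarith
  have h4 : Real.sqrt y ≤ 8 * (L : ℝ) ^ 2 * s := by
    rw [Real.sqrt_le_left (by positivity)]
    calc y ≤ ((L : ℝ) + 1) ^ 4 * 2 ^ (L + 1) := hy2.le
      _ ≤ (2 * (L : ℝ)) ^ 4 * 2 ^ (L + 1) := by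
          gcongr
          linarith
      _ = 32 * (L : ℝ) ^ 4 * (s * s) := by rw [hss, pow_succ]; ring
      _ ≤ 64 * (L : ℝ) ^ 4 * (s * s) := by gcongr; norm_num
      _ = (8 * (L : ℝ) ^ 2 * s) ^ 2 := by ring
  have h6 : ((2 : ℝ) ^ ε) ^ L ≤ y ^ ε := by
    calc ((2 : ℝ) ^ ε) ^ L = ((2 : ℝ) ^ L) ^ ε := by
          rw [← Real.rpow_natCast, ← Real.rpow_mul (by norm_num), mul_comm,
            Real.rpow_mul (by norm_num), Real.rpow_natCast]
      _ ≤ y ^ ε := Real.rpow_le_rpow (by positivity) hn3 hε.le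
  have h7 : y ^ (-(1 / 2 : ℝ) + ε) = y ^ ε / Real.sqrt y := by
    rw [Real.rpow_add hn0, Real.rpow_neg hn0.le, ← Real.sqrt_eq_rpow]
    field_simp
  have hsn : 0 < Real.sqrt y := Real.sqrt_pos.2 hn0
  have h8 : 1 / y ≤ 1 / s := by
    apply one_div_le_one_div_of_le hs0
    calc s ≤ s * s := le_mul_of_one_le_left hs0.le hs1
      _ = 2 ^ L := hss
      _ ≤ y := hn3
  rw [h7]
  have hLC : (1 : ℝ) ≤ (L : ℝ) ^ C := one_le_pow₀ hL1'
  calc (L : ℝ) ^ C / s + 1 / y ≤ (L : ℝ) ^ C / s + 1 / s := by gcongr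
    _ ≤ 2 * (L : ℝ) ^ C / s := by
        rw [← add_div]
        gcongr
        linarith
    _ = (16 * (L : ℝ) ^ (C + 2)) / (8 * (L : ℝ) ^ 2 * s) := by
        field_simp
        ring
    _ ≤ y ^ ε / (8 * (L : ℝ) ^ 2 * s) := by
        gcongr
        exact hL.trans h6
    _ ≤ y ^ ε / Real.sqrt y := by
        gcongr

/-- There is a constant `C` such that for all `K ≥ 2`, `0 < δ ≤ 1` and `ε > 0` and all large `n`:
every randomised statistical query learner making `n ^ K` queries of tolerance `n ^ (-K)` has error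
more than `1 / 2 - n ^ (-δ / 2 + ε)` with probability at least `1 - n ^ (-K)` for some monotone DNF
target with at most `n ^ (C * δ * log (K / δ))` terms and some valid oracle. -/
theorem delta_bound : ∃ C : ℝ, ∀ K : ℕ, 2 ≤ K → ∀ δ : ℝ, 0 < δ → δ ≤ 1 → ∀ ε : ℝ, 0 < ε →
    ∃ n₀ : ℕ, ∀ n : ℕ, n₀ ≤ n → ∀ (Ω : Type) [Fintype Ω] (A : Ω → Learner n),
      ∃ F : List (Finset (Fin n)),
        (F.length : ℝ) ≤ (n : ℝ) ^ (C * (δ * Real.logb 2 (K / δ))) ∧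
        ∃ O : Query n → ℝ, Valid (mdnf F) (1 / (n : ℝ) ^ K) O ∧
          ((univ.filter fun ω => err ((A ω).out ((A ω).answers O (n ^ K))) (mdnf F) ≤
            1 / 2 - (n : ℝ) ^ (-(δ / 2) + ε)).card : ℝ) ≤ Fintype.card Ω / (n : ℝ) ^ K := by
  classical
  refine ⟨303, ?_⟩
  intro K hK δ hδ hδ1 ε hε
  have hKR : (2 : ℝ) ≤ K := by exact_mod_cast hK
  -- the number `k`
  have hKδ : (2 : ℝ) ≤ K / δ := by
    rw [le_div_iff₀ hδ]
    nlinarith
  set k := ⌈(K : ℝ) / δ⌉₊ with hkdef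
  have hk1 : (K : ℝ) / δ ≤ k := Nat.le_ceil _
  have hk : 2 ≤ k := by
    have : (2 : ℝ) ≤ k := hKδ.trans hk1
    exact_mod_cast this
  have hk2 : (k : ℝ) ≤ 2 * (K / δ) := by
    have := Nat.ceil_lt_add_one (a := (K : ℝ) / δ) (by positivity)
    linarith
  set κ := 8 * k + 2 with hκ
  set υ := 150 * Nat.log 2 k with hυ
  set w := Real.logb 2 (K / δ) with hw
  have hw1 : 1 ≤ w := by
    rw [hw, Real.le_logb_iff_rpow_le (by norm_num) (by positivity), Real.rpow_one]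
    exact hKδ
  have hυw : ((υ + 3 : ℕ) : ℝ) ≤ 303 * w := by
    have h1 : ((Nat.log 2 k : ℕ) : ℝ) ≤ 1 + w := by
      have h2 : ((Nat.log 2 k : ℕ) : ℝ) ≤ Real.logb 2 k := by
        rw [Real.le_logb_iff_rpow_le (by norm_num) (by positivity), Real.rpow_natCast]
        exact_mod_cast Nat.pow_log_le_self 2 (by omega)
      have h3 : Real.logb 2 k ≤ Real.logb 2 (2 * (K / δ)) :=
        Real.logb_le_logb_of_le (by norm_num) (by positivity) hk2
      have h4 : Real.logb 2 (2 * (K / δ)) = 1 + w := by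
        rw [Real.logb_mul (by norm_num) (by positivity), Real.logb_self_eq_one (by norm_num)]
      linarith
    rw [hυ]
    push_cast
    linarith
  obtain ⟨C₁, hC₁⟩ := link κ υ (by omega) (width_bound k hk)
  have hev := hC₁.and ((ev_final_real C₁ (ε / δ) (by positivity)).and
    ((ev_pow_le 4 32 2 (by norm_num) (by norm_num)).and (eventually_ge_atTop 4)))
  obtain ⟨L₀, hL₀⟩ := eventually_atTop.1 hev
  obtain ⟨Y₀, hY₀⟩ := exists_L L₀
  refine ⟨⌈(Y₀ : ℝ) ^ (1 / δ)⌉₊ + 1, ?_⟩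
  intro n hn Ω _ A
  have hnpos : 0 < n := by omega
  have hnR : (0 : ℝ) < n := by exact_mod_cast hnpos
  have hn1R : (1 : ℝ) ≤ n := by exact_mod_cast hnpos
  set y := (n : ℝ) ^ δ with hy
  have hy0 : 0 < y := Real.rpow_pos_of_pos hnR _
  have hy1 : 1 ≤ y := Real.one_le_rpow hn1R hδ.le
  have hyn : y ≤ n := by
    calc y ≤ (n : ℝ) ^ (1 : ℝ) := Real.rpow_le_rpow_of_exponent_le hn1R hδ1
      _ = n := Real.rpow_one _
  have hyY : (Y₀ : ℝ) ≤ y := by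
    have h1 : (Y₀ : ℝ) ^ (1 / δ) ≤ n := by
      have h2 : (Y₀ : ℝ) ^ (1 / δ) ≤ ⌈(Y₀ : ℝ) ^ (1 / δ)⌉₊ := Nat.le_ceil _
      have h3 : ((⌈(Y₀ : ℝ) ^ (1 / δ)⌉₊ + 1 : ℕ) : ℝ) ≤ n := by exact_mod_cast hn
      push_cast at h3
      linarith
    calc (Y₀ : ℝ) = ((Y₀ : ℝ) ^ (1 / δ)) ^ δ := by
          rw [← Real.rpow_mul (by positivity), one_div_mul_cancel hδ.ne', Real.rpow_one]
      _ ≤ y := Real.rpow_le_rpow (by positivity) h1 hδ.le
  obtain ⟨L, hLL, hn1, hn2⟩ := hY₀ ⌊y⌋₊ (Nat.le_floor hyY)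
  obtain ⟨⟨F, M, hlen, hM, hdev⟩, hfin, hpoly, hL4⟩ := hL₀ L hLL
  have hL1 : 1 ≤ L := by omega
  have hly : (L : ℝ) ^ 4 * 2 ^ L ≤ y := by
    have h1 : ((L ^ 4 * 2 ^ L : ℕ) : ℝ) ≤ (⌊y⌋₊ : ℝ) := by exact_mod_cast hn1
    push_cast at h1
    exact h1.trans (Nat.floor_le hy0.le)
  have hyl : y < ((L : ℝ) + 1) ^ 4 * 2 ^ (L + 1) := by
    have h1 : ((⌊y⌋₊ + 1 : ℕ) : ℝ) ≤ (((L + 1) ^ 4 * 2 ^ (L + 1) : ℕ) : ℝ) := by
      exact_mod_cast hn2
    push_cast at h1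
    exact lt_of_lt_of_le (Nat.lt_floor_add_one y) h1
  have h2y : (2 : ℝ) ^ L ≤ y := by
    refine le_trans ?_ hly
    exact le_mul_of_one_le_left (by positivity) (one_le_pow₀ (by exact_mod_cast hL1))
  have hy4 : y ≤ 2 ^ (2 * L) := by
    have hL1' : (1 : ℝ) ≤ L := by exact_mod_cast hL1
    calc y ≤ ((L : ℝ) + 1) ^ 4 * 2 ^ (L + 1) := hyl.le
      _ ≤ (2 * (L : ℝ)) ^ 4 * 2 ^ (L + 1) := by
          gcongr
          linarith
      _ = (32 * (L : ℝ) ^ 4) * 2 ^ L := by rw [pow_succ]; ring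
      _ ≤ 2 ^ L * 2 ^ L := by gcongr
      _ = 2 ^ (2 * L) := by rw [two_mul, pow_add]
  have hLn : L ^ 4 * 2 ^ L ≤ n := by
    have h1 : ((L ^ 4 * 2 ^ L : ℕ) : ℝ) ≤ (n : ℝ) := by
      push_cast
      exact hly.trans hyn
    exact_mod_cast h1
  set r := n - L ^ 4 * 2 ^ L with hr
  have hnr : n = L ^ 4 * 2 ^ L + r := by omega
  let e : Fin n ≃ (Fin (L ^ 4) × Fin (2 ^ L)) ⊕ Fin r :=
    (finCongr hnr).trans (finSumFinEquiv.symm.trans
      (Equiv.sumCongr finProdFinEquiv.symm (Equiv.refl _)))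
  have hτ : (0 : ℝ) < 1 / (n : ℝ) ^ K := by positivity
  obtain ⟨π, O, hO, hcard⟩ := sq_core e F M ((L : ℝ) ^ C₁ / Real.sqrt (2 ^ L))
    ((1 / 2) ^ ((κ - 1) * L)) hM hdev (n ^ K) (1 / (n : ℝ) ^ K) hτ Ω A
  refine ⟨FF e F π, ?_, O, hO, ?_⟩
  · have h1 : (FF e F π).length ≤ (2 ^ L) ^ (υ + 3) := by
      rw [length_FF]
      calc 2 ^ L * F.length ≤ 2 ^ L * 2 ^ ((υ + 2) * L) := Nat.mul_le_mul_left _ hlen
        _ = (2 ^ L) ^ (υ + 3) := by
            rw [← pow_mul, ← pow_add]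
            congr 1
            ring
    calc (((FF e F π).length : ℕ) : ℝ) ≤ ((2 : ℝ) ^ L) ^ (υ + 3) := by exact_mod_cast h1
      _ ≤ y ^ (υ + 3) := by gcongr
      _ = (n : ℝ) ^ (δ * ((υ + 3 : ℕ) : ℝ)) := by
          rw [hy, ← Real.rpow_natCast, ← Real.rpow_mul hnR.le]
      _ ≤ (n : ℝ) ^ (303 * (δ * w)) := by
          apply Real.rpow_le_rpow_of_exponent_le hn1R
          calc δ * ((υ + 3 : ℕ) : ℝ) ≤ δ * (303 * w) := by gcongr
            _ = 303 * (δ * w) := by ring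
  · have hadv : (L : ℝ) ^ C₁ / Real.sqrt (2 ^ L) + 1 / (n : ℝ) ^ K ≤
        (n : ℝ) ^ (-(δ / 2) + ε) := by
      have h1 := hfin y hly hyl
      have h2 : y ^ (-(1 / 2 : ℝ) + ε / δ) = (n : ℝ) ^ (-(δ / 2) + ε) := by
        rw [hy, ← Real.rpow_mul hnR.le]
        congr 1
        field_simp
      rw [h2] at h1
      have h3 : 1 / (n : ℝ) ^ K ≤ 1 / y := by
        apply one_div_le_one_div_of_le hy0
        exact hyn.trans (le_self_pow₀ hn1R (by omega))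
      linarith
    have hsub : (univ.filter fun ω => err ((A ω).out ((A ω).answers O (n ^ K)))
        (mdnf (FF e F π)) ≤ 1 / 2 - (n : ℝ) ^ (-(δ / 2) + ε)) ⊆
        univ.filter fun ω => err ((A ω).out ((A ω).answers O (n ^ K))) (mdnf (FF e F π)) ≤
          1 / 2 - (L : ℝ) ^ C₁ / Real.sqrt (2 ^ L) - 1 / (n : ℝ) ^ K := by
      intro ω hω
      rw [mem_filter] at hω ⊢
      refine ⟨mem_univ _, hω.2.trans ?_⟩
      linarith
    have hle : (((univ.filter fun ω => err ((A ω).out ((A ω).answers O (n ^ K)))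
        (mdnf (FF e F π)) ≤ 1 / 2 - (n : ℝ) ^ (-(δ / 2) + ε)).card : ℕ) : ℝ) ≤
        (Fintype.card Ω : ℝ) * ((((n ^ K : ℕ) : ℝ) + 1) *
          (4 * (1 / 2) ^ ((κ - 1) * L) / (1 / (n : ℝ) ^ K) ^ 2)) := by
      refine le_trans ?_ hcard
      have := card_le_card hsub
      exact_mod_cast this
    have hn1' : (1 : ℝ) ≤ (n : ℝ) ^ K := one_le_pow₀ hn1R
    have h1 : ((((n ^ K : ℕ) : ℝ) + 1)) ≤ 2 * (n : ℝ) ^ K := by
      push_cast
      linarith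
    have h2 : (4 * (1 / 2 : ℝ) ^ ((κ - 1) * L) / (1 / (n : ℝ) ^ K) ^ 2) =
        4 * (1 / 2 : ℝ) ^ ((κ - 1) * L) * ((n : ℝ) ^ K) ^ 2 := by
      field_simp
    have h3 : ((n : ℝ) ^ K) ^ 4 ≤ 2 ^ (8 * k * L) := by
      calc ((n : ℝ) ^ K) ^ 4 = y ^ ((4 : ℝ) * (K / δ)) := by
            rw [hy, ← Real.rpow_mul hnR.le, ← pow_mul, ← Real.rpow_natCast]
            congr 1
            push_cast
            field_simp
        _ ≤ ((2 : ℝ) ^ (2 * L)) ^ ((4 : ℝ) * (K / δ)) := by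
            apply Real.rpow_le_rpow hy0.le hy4 (by positivity)
        _ ≤ ((2 : ℝ) ^ (2 * L)) ^ ((4 * k : ℕ) : ℝ) := by
            apply Real.rpow_le_rpow_of_exponent_le (one_le_pow₀ (by norm_num))
            push_cast
            linarith
        _ = 2 ^ (8 * k * L) := by
            rw [Real.rpow_natCast, ← pow_mul]
            congr 1
            ring
    have h4 : (1 / 2 : ℝ) ^ ((κ - 1) * L) = 1 / (2 ^ (8 * k * L) * 2 ^ L) := by
      rw [one_div_pow, ← pow_add]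
      congr 2
      rw [hκ, show 8 * k + 2 - 1 = 8 * k + 1 by omega]
      ring
    have h5 : (8 : ℝ) ≤ 2 ^ L := by
      calc (8 : ℝ) = 2 ^ 3 := by norm_num
        _ ≤ 2 ^ L := pow_le_pow_right₀ (by norm_num) (by omega)
    have hfinal : (((n ^ K : ℕ) : ℝ) + 1) *
        (4 * (1 / 2) ^ ((κ - 1) * L) / (1 / (n : ℝ) ^ K) ^ 2) ≤ 1 / (n : ℝ) ^ K := by
      rw [h2, h4]
      have h6 : 8 * ((n : ℝ) ^ K) ^ 4 ≤ 2 ^ (8 * k * L) * 2 ^ L := by
        calc 8 * ((n : ℝ) ^ K) ^ 4 ≤ 2 ^ L * 2 ^ (8 * k * L) := by gcongr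
          _ = 2 ^ (8 * k * L) * 2 ^ L := mul_comm _ _
      calc (((n ^ K : ℕ) : ℝ) + 1) * (4 * (1 / (2 ^ (8 * k * L) * 2 ^ L)) * ((n : ℝ) ^ K) ^ 2)
          ≤ (2 * (n : ℝ) ^ K) * (4 * (1 / (2 ^ (8 * k * L) * 2 ^ L)) * ((n : ℝ) ^ K) ^ 2) := by
            gcongr
        _ = (8 * ((n : ℝ) ^ K) ^ 4 / (2 ^ (8 * k * L) * 2 ^ L)) / (n : ℝ) ^ K := by
            field_simp
            ring
        _ ≤ 1 / (n : ℝ) ^ K := by
            gcongr
            rw [div_le_one (by positivity)]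
            exact h6
    calc (((univ.filter fun ω => err ((A ω).out ((A ω).answers O (n ^ K)))
        (mdnf (FF e F π)) ≤ 1 / 2 - (n : ℝ) ^ (-(δ / 2) + ε)).card : ℕ) : ℝ) ≤ _ := hle
      _ ≤ (Fintype.card Ω : ℝ) * (1 / (n : ℝ) ^ K) :=
          mul_le_mul_of_nonneg_left hfinal (by positivity)
      _ = Fintype.card Ω / (n : ℝ) ^ K := mul_one_div _ _

end Pool.Agent.H.MP_cba12a_lc.SQ
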