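import Pool.Agent.H.MP_cba12a_lc.SQ.Profile

namespace Pool.Agent.H.MP_cba12a_lc.SQ

open Finset Filter Topology

/-- scaling of the polynomials -/
theorem PP_scale (a b c : ℝ) (j : ℕ) : PP (a * c) (b * c) j = Polynomial.C (c ^ j) * PP a b j := by
  induction j with
  | zero => simp [PP]
  | succ j ih =>
    rw [PP, PP, ih, Polynomial.derivative_C_mul, pow_succ]
    simp only [Polynomial.C_mul]
    ring

theorem family_core (k υ : ℕ) (hk : 3 ≤ k)
    (hυ : 4 * Real.log (40000 * ((k : ℝ) - 1) ^ 5) ≤ υ) (w : ℕ → ℝ)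
    (hA : 0 ≤ ∑ j ∈ Ico 2 k, w j * 2 ^ j)
    (hg : ∀ x : ℝ, 0 < x →
      0 ≤ ∑ j ∈ Ico 2 k, w j * (2 ^ j - Real.exp (-x) * (PP 2 υ j).eval x)) :
    ∀ j ∈ Ico 2 k, w j = 0 := by
  have hk3 : (3 : ℝ) ≤ k := by exact_mod_cast hk
  have hlog : 0 < Real.log (40000 * ((k : ℝ) - 1) ^ 5) := by
    apply Real.log_pos
    have h1 : (1 : ℝ) ≤ ((k : ℝ) - 1) ^ 5 := one_le_pow₀ (by linarith)
    linarith
  have hυ0 : (0 : ℝ) < υ := by linarith
  have hn : ((k - 1 : ℕ) : ℝ) = (k : ℝ) - 1 := by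
    rw [Nat.cast_sub (by omega)]
    push_cast
    ring
  have hIcc : Icc 2 (k - 1) = Ico 2 k := by
    ext j
    simp only [Finset.mem_Icc, Finset.mem_Ico]
    omega
  have hsc : ∀ j, PP 2 (υ : ℝ) j = Polynomial.C ((υ : ℝ) ^ j) * PP (2 / υ) 1 j := by
    intro j
    have := PP_scale (2 / (υ : ℝ)) 1 υ j
    rw [div_mul_cancel₀ _ hυ0.ne', one_mul] at this
    exact this
  have hpow : ∀ j, (υ : ℝ) ^ j * (2 / (υ : ℝ)) ^ j = 2 ^ j := by
    intro j
    rw [← mul_pow, mul_div_cancel₀ _ hυ0.ne']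
  have key := profile (k - 1) (by omega) (2 / (υ : ℝ)) (by positivity) (by
      rw [hn]
      calc 2 / (υ : ℝ) * (2 * Real.log (40000 * ((k : ℝ) - 1) ^ 5))
          = (4 * Real.log (40000 * ((k : ℝ) - 1) ^ 5)) / υ := by ring
        _ ≤ 1 := by rw [div_le_one hυ0]; exact hυ) (fun j => w j * (υ : ℝ) ^ j) (by
      rw [hIcc]
      refine hA.trans (le_of_eq (Finset.sum_congr rfl fun j _ => ?_))
      rw [mul_assoc, hpow]) (fun x hx _ => by
      rw [hIcc]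
      have hx0 : 0 < x := by
        refine lt_of_lt_of_le ?_ hx
        rw [hn]
        have : (0 : ℝ) < (k : ℝ) - 1 := by linarith
        positivity
      have h1 := hg x hx0
      have h2 : ∑ j ∈ Ico 2 k, w j * (2 ^ j - Real.exp (-x) * (PP 2 υ j).eval x)
          = ∑ j ∈ Ico 2 k, w j * (υ : ℝ) ^ j * (2 / (υ : ℝ)) ^ j
            - ∑ j ∈ Ico 2 k, w j * (υ : ℝ) ^ j * (Real.exp (-x) * (PP (2 / (υ : ℝ)) 1 j).eval x) := by
        rw [← Finset.sum_sub_distrib]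
        refine Finset.sum_congr rfl fun j _ => ?_
        rw [hsc j, Polynomial.eval_mul, Polynomial.eval_C, ← hpow j]
        ring
      rw [h2] at h1
      linarith)
  intro j hj
  have h3 := key j (by rw [hIcc]; exact hj)
  have h4 : w j * (υ : ℝ) ^ j = 0 := h3
  exact (mul_eq_zero.1 h4).resolve_right (pow_ne_zero _ hυ0.ne')

theorem finite_family (k υ : ℕ) (hk : 3 ≤ k)
    (hυ : 4 * Real.log (40000 * ((k : ℝ) - 1) ^ 5) ≤ υ) :
    ∃ (r : ℕ) (lam : Fin r → ℝ), (∀ l, 0 < lam l) ∧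
      ∀ w : ℕ → ℝ, (∃ j ∈ Ico 2 k, w j ≠ 0) →
        ∑ j ∈ Ico 2 k, w j * 2 ^ j < 0 ∨
        ∃ l, ∑ j ∈ Ico 2 k, w j * (2 ^ j - Real.exp (-lam l) * (PP 2 υ j).eval (lam l)) < 0 := by
  classical
  let A : (Ico 2 k → ℝ) → ℝ := fun v => ∑ j : Ico 2 k, v j * 2 ^ (j : ℕ)
  let g : ℝ → (Ico 2 k → ℝ) → ℝ := fun x v =>
    ∑ j : Ico 2 k, v j * (2 ^ (j : ℕ) - Real.exp (-x) * (PP 2 υ j).eval x)
  let U : Option {x : ℝ // 0 < x} → Set (Ico 2 k → ℝ) := fun o =>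
    match o with
    | none => {v | A v < 0}
    | some x => {v | g x.1 v < 0}
  have hUo : ∀ o, IsOpen (U o) := by
    intro o
    cases o with
    | none =>
      change IsOpen {v | A v < 0}
      exact isOpen_lt (by fun_prop) continuous_const
    | some x =>
      change IsOpen {v | g x.1 v < 0}
      exact isOpen_lt (by fun_prop) continuous_const
  have hAw : ∀ w : ℕ → ℝ, A (fun j => w j) = ∑ j ∈ Ico 2 k, w j * 2 ^ j := by
    intro w
    exact Finset.sum_coe_sort (Ico 2 k) (fun j => w j * 2 ^ j)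
  have hgw : ∀ (x : ℝ) (w : ℕ → ℝ), g x (fun j => w j)
      = ∑ j ∈ Ico 2 k, w j * (2 ^ j - Real.exp (-x) * (PP 2 υ j).eval x) := by
    intro x w
    exact Finset.sum_coe_sort (Ico 2 k)
      (fun j => w j * (2 ^ j - Real.exp (-x) * (PP 2 υ j).eval x))
  have hcov : Metric.sphere (0 : Ico 2 k → ℝ) 1 ⊆ ⋃ o, U o := by
    intro v hv
    by_contra hcon
    rw [Set.mem_iUnion, not_exists] at hcon
    let w : ℕ → ℝ := fun j => if h : j ∈ Ico 2 k then v ⟨j, h⟩ else 0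
    have hwv : (fun j : Ico 2 k => w j) = v := by
      funext j
      have : w (j : ℕ) = v ⟨j, j.2⟩ := dif_pos j.2
      rw [this]
    have h1 := hcon none
    have h2 : 0 ≤ A v := not_lt.1 h1
    have h2' : 0 ≤ ∑ j ∈ Ico 2 k, w j * 2 ^ j := by
      rw [← hAw w, hwv]
      exact h2
    have h3 := family_core k υ hk hυ w h2' (fun x hx => by
      have h4 := hcon (some ⟨x, hx⟩)
      have h5 : 0 ≤ g x v := not_lt.1 h4
      rw [← hgw x w, hwv]
      exact h5)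
    have h6 : v = 0 := by
      rw [← hwv]
      funext j
      exact h3 j j.2
    rw [h6] at hv
    simp at hv
  obtain ⟨t, ht⟩ := (isCompact_sphere (0 : Ico 2 k → ℝ) 1).elim_finite_subcover U hUo hcov
  let t' : Finset {x : ℝ // 0 < x} := t.eraseNone
  refine ⟨t'.card, fun i => ((t'.equivFin.symm i : t') : {x : ℝ // 0 < x}).1, fun i =>
    ((t'.equivFin.symm i : t') : {x : ℝ // 0 < x}).2, ?_⟩
  rintro w ⟨j0, hj0, hwj0⟩
  set v : Ico 2 k → ℝ := fun j => w j with hv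
  have hv0 : v ≠ 0 := fun h => hwj0 (congrFun h ⟨j0, hj0⟩)
  have hnv : 0 < ‖v‖ := norm_pos_iff.2 hv0
  have hmem : ‖v‖⁻¹ • v ∈ Metric.sphere (0 : Ico 2 k → ℝ) 1 := by
    rw [mem_sphere_zero_iff_norm, norm_smul, norm_inv, norm_norm, inv_mul_cancel₀ hnv.ne']
  have h1 := ht hmem
  rw [Set.mem_iUnion₂] at h1
  obtain ⟨o, ho, h2⟩ := h1
  have hinv : 0 < ‖v‖⁻¹ := inv_pos.2 hnv
  cases o with
  | none =>
    left
    have h3 : A (‖v‖⁻¹ • v) < 0 := h2
    have h4 : A (‖v‖⁻¹ • v) = ‖v‖⁻¹ * A v := by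
      simp only [A, Pi.smul_apply, smul_eq_mul, Finset.mul_sum, mul_assoc]
    rw [h4] at h3
    have h5 : A v < 0 := by
      by_contra h6
      exact absurd h3 (not_lt.2 (mul_nonneg hinv.le (not_lt.1 h6)))
    rw [hAw] at h5
    exact h5
  | some x =>
    right
    have hx : x ∈ t' := Finset.mem_eraseNone.2 ho
    refine ⟨t'.equivFin ⟨x, hx⟩, ?_⟩
    beta_reduce
    rw [Equiv.symm_apply_apply]
    have h3 : g x.1 (‖v‖⁻¹ • v) < 0 := h2
    have h4 : g x.1 (‖v‖⁻¹ • v) = ‖v‖⁻¹ * g x.1 v := by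
      simp only [g, Pi.smul_apply, smul_eq_mul, Finset.mul_sum, mul_assoc]
    rw [h4] at h3
    have h5 : g x.1 v < 0 := by
      by_contra h6
      exact absurd h3 (not_lt.2 (mul_nonneg hinv.le (not_lt.1 h6)))
    rw [hgw] at h5
    exact h5

end Pool.Agent.H.MP_cba12a_lc.SQ
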