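import Pool.Agent.H.MP_cba12a_lc.SQ.BaseEx
import Pool.Agent.H.MP_cba12a_lc.SQ.Iterate

namespace Pool.Agent.H.MP_cba12a_lc.SQ

open Finset Filter Topology

private theorem gadget_pow (d : ℕ) : ∀ᶠ L : ℕ in atTop, (L : ℝ) ^ d ≤ 2 ^ L := by
  have h := tendsto_pow_const_div_const_pow_of_one_lt d (show (1 : ℝ) < 2 by norm_num)
  have h1 : ∀ᶠ L : ℕ in atTop, (L : ℝ) ^ d / 2 ^ L < 1 :=
    h.eventually (gt_mem_nhds (by norm_num))
  filter_upwards [h1] with L hL
  have h2 : (0 : ℝ) < 2 ^ L := by positivity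
  rw [div_lt_one h2] at hL
  exact hL.le

theorem gadget (k E υ : ℕ) (hk : 3 ≤ k)
    (hυ : 4 * Real.log (40000 * ((k : ℝ) - 1) ^ 5) ≤ υ) :
    ∃ C : ℕ, ∀ᶠ L : ℕ in atTop, ∃ F : List (Finset (Fin (L ^ 4))),
      F.length ≤ 2 ^ ((υ + 2) * L) ∧
      |2 ^ L * co (ind F) ∅ - Real.log 2| ≤ (L : ℝ) ^ C / Real.sqrt (2 ^ L) ∧
      ∀ B : Finset (Fin (L ^ 4)), 2 ≤ B.card → B.card < k →
        |co (ind F) B - Qf F B| ≤ 1 / 2 ^ (E * L) := by
  obtain ⟨ε, C, hε, hC, hbase⟩ := base_exists k υ hk hυ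
  have hiter := iterate k (4 * E + 4) hk C ε hC hε
  refine ⟨24 * k + 1, ?_⟩
  obtain ⟨K, hK⟩ := exists_nat_ge (C + 4 * C ^ 2 + 2 * C + (4 * E + 4) + 3 * (E + 1) + 2)
  filter_upwards [hbase, hiter, gadget_pow (8 * k), eventually_ge_atTop K] with L hb hi h8 hLK
  obtain ⟨Pl, hPl, hP⟩ := hi
  obtain ⟨F₀, hlen, hInv, h0, hB⟩ := hb Pl hPl
  have hLK' : (K : ℝ) ≤ L := by exact_mod_cast hLK
  have hL : C + 4 * C ^ 2 + 2 * C + (4 * E + 4) + 3 * (E + 1) + 2 ≤ (L : ℝ) := hK.trans hLK'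
  have hE0 : (0 : ℝ) ≤ E := Nat.cast_nonneg E
  have hC2 : 0 ≤ C ^ 2 := sq_nonneg C
  have hL1 : (1 : ℝ) ≤ L := by linarith
  have hN : (L : ℝ) ≤ 2 ^ L := by
    have := (Nat.lt_two_pow_self (n := L)).le
    exact_mod_cast this
  set N : ℝ := 2 ^ L with hNdef
  have hN1 : 1 ≤ N := hL1.trans hN
  have hN0 : 0 < N := by linarith
  have hs1 : 1 ≤ Real.sqrt N := by
    rw [Real.one_le_sqrt]
    exact hN1
  have hs0 : 0 < Real.sqrt N := by linarith
  have hNs : 0 < N * Real.sqrt N := mul_pos hN0 hs0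
  set m : ℝ := (L : ℝ) ^ 4 with hm
  have hm1 : 1 ≤ m := one_le_pow₀ hL1
  have hLm : (L : ℝ) ≤ m := by
    calc (L : ℝ) = (L : ℝ) ^ 1 := (pow_one _).symm
      _ ≤ (L : ℝ) ^ 4 := pow_le_pow_right₀ hL1 (by norm_num)
  have hmk : m ≤ m ^ k := by
    calc m = m ^ 1 := (pow_one _).symm
      _ ≤ m ^ k := pow_le_pow_right₀ hm1 (by omega)
  have hmk1 : 1 ≤ m ^ k := hm1.trans hmk
  have hmk2 : m ^ (2 * k) = m ^ k * m ^ k := by rw [two_mul, pow_add]
  have hex : ex (ind F₀) ≤ C / N := by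
    have := hInv 0 (Nat.zero_le _)
    simpa using this
  have hz : C / N ≤ 1 / 2 := by
    rw [div_le_div_iff₀ hN0 (by norm_num)]
    nlinarith
  -- the hypothesis of the iteration
  have hyp : ∀ B : Finset (Fin (L ^ 4)), 2 ≤ B.card → B.card < k →
      |co (ind F₀) B + Pl B.card - Qf F₀ B| ≤ m ^ (2 * k) / (N * Real.sqrt N) := by
    intro B h2 hk'
    have h1 := hB B h2 hk'
    have h3 := abs_Qf_le F₀ (C / N) hz hex B h2
    have h4 : |co (ind F₀) B + Pl B.card - Qf F₀ B| ≤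
        C * m ^ k / (N * Real.sqrt N) + 4 * (C / N) ^ 2 := by
      calc |co (ind F₀) B + Pl B.card - Qf F₀ B|
          ≤ |co (ind F₀) B + Pl B.card| + |Qf F₀ B| := abs_sub _ _
        _ ≤ _ := add_le_add h1 h3
    refine h4.trans ?_
    have h5 : 4 * (C / N) ^ 2 ≤ 4 * C ^ 2 * m ^ k / (N * Real.sqrt N) := by
      have h6 : 4 * (C / N) ^ 2 = 4 * C ^ 2 / (N * N) := by
        field_simp
      rw [h6]
      have h7 : N * Real.sqrt N ≤ N * N := by
        apply mul_le_mul_of_nonneg_left _ hN0.le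
        rw [Real.sqrt_le_left hN0.le]
        nlinarith
      calc 4 * C ^ 2 / (N * N) ≤ 4 * C ^ 2 / (N * Real.sqrt N) :=
            div_le_div_of_nonneg_left (by positivity) hNs h7
        _ ≤ 4 * C ^ 2 * m ^ k / (N * Real.sqrt N) := by
            apply div_le_div_of_nonneg_right _ hNs.le
            nlinarith
    have h8' : C * m ^ k / (N * Real.sqrt N) + 4 * C ^ 2 * m ^ k / (N * Real.sqrt N) ≤
        m ^ (2 * k) / (N * Real.sqrt N) := by
      rw [← add_div]
      apply div_le_div_of_nonneg_right _ hNs.le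
      rw [hmk2]
      have : C + 4 * C ^ 2 ≤ m ^ k := by linarith
      nlinarith
    linarith
  obtain ⟨F, hFlen, hle, hdiff, hfin⟩ := hP F₀ hInv hyp
  refine ⟨F, ?_, ?_, ?_⟩
  · -- the number of terms
    have h1 : (F.length : ℝ) ≤ C * 2 ^ ((υ + 1) * L) + (4 * E + 4) * 2 ^ L := by
      have : (F.length : ℝ) ≤ F₀.length + (4 * E + 4 : ℕ) * 2 ^ L := by exact_mod_cast hFlen
      push_cast at this
      linarith
    have h2 : (2 : ℝ) ^ L ≤ 2 ^ ((υ + 1) * L) := by
      apply pow_le_pow_right₀ (by norm_num)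
      nlinarith [Nat.zero_le (υ * L)]
    have h3 : (2 : ℝ) ^ ((υ + 2) * L) = 2 ^ L * 2 ^ ((υ + 1) * L) := by
      rw [← pow_add]
      congr 1
      ring
    have h4 : (0 : ℝ) < 2 ^ ((υ + 1) * L) := by positivity
    have h5 : C + (4 * E + 4) ≤ (2 : ℝ) ^ L := by
      rw [← hNdef]
      linarith
    have h6 : (F.length : ℝ) ≤ 2 ^ ((υ + 2) * L) := by
      rw [h3]
      have h7 : ((4 : ℝ) * E + 4) * 2 ^ L ≤ (4 * E + 4) * 2 ^ ((υ + 1) * L) :=
        mul_le_mul_of_nonneg_left h2 (by positivity)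
      nlinarith
    exact_mod_cast h6
  · -- the coefficient at the empty set
    have h1 : co (ind F) ∅ = co (ind F₀) ∅ + ex (fun x => ind F x - ind F₀ x) := by
      rw [co_empty, co_empty, ex_sub]
      ring
    have h2 : 0 ≤ ex (fun x => ind F x - ind F₀ x) := ex_nonneg fun x => sub_nonneg.mpr (hle x)
    have h3 : N * co (ind F) ∅ - Real.log 2 =
        N * (co (ind F₀) ∅ - Real.log 2 / N) + N * ex (fun x => ind F x - ind F₀ x) := by
      rw [h1]
      field_simp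
      ring
    rw [h3]
    have h4 : |N * (co (ind F₀) ∅ - Real.log 2 / N)| ≤ C * m ^ k / Real.sqrt N := by
      rw [abs_mul, abs_of_pos hN0]
      calc N * |co (ind F₀) ∅ - Real.log 2 / N| ≤ N * (C * m ^ k / (N * Real.sqrt N)) :=
            mul_le_mul_of_nonneg_left h0 hN0.le
        _ = C * m ^ k / Real.sqrt N := by field_simp
    have h5 : |N * ex (fun x => ind F x - ind F₀ x)| ≤ m ^ (6 * k) / Real.sqrt N := by
      rw [abs_mul, abs_of_pos hN0, abs_of_nonneg h2]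
      calc N * ex (fun x => ind F x - ind F₀ x) ≤ N * (m ^ (6 * k) / (N * Real.sqrt N)) :=
            mul_le_mul_of_nonneg_left hdiff hN0.le
        _ = m ^ (6 * k) / Real.sqrt N := by field_simp
    calc _ ≤ |N * (co (ind F₀) ∅ - Real.log 2 / N)| + |N * ex (fun x => ind F x - ind F₀ x)| :=
          abs_add_le _ _
      _ ≤ C * m ^ k / Real.sqrt N + m ^ (6 * k) / Real.sqrt N := add_le_add h4 h5
      _ = (C * m ^ k + m ^ (6 * k)) / Real.sqrt N := by rw [add_div]
      _ ≤ (L : ℝ) ^ (24 * k + 1) / Real.sqrt N := by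
          apply div_le_div_of_nonneg_right _ hs0.le
          have h6 : m ^ (6 * k) = (L : ℝ) ^ (24 * k) := by
            rw [hm, ← pow_mul]
            congr 1
            ring
          have h7 : m ^ k ≤ m ^ (6 * k) := pow_le_pow_right₀ hm1 (by omega)
          have h8' : 0 < m ^ (6 * k) := by positivity
          rw [pow_succ, ← h6]
          nlinarith
  · -- the other coefficients
    intro B h2 hk'
    refine (hfin B h2 hk').trans ?_
    have h1 : m ^ (2 * k) ≤ N * Real.sqrt N := by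
      have : m ^ (2 * k) = (L : ℝ) ^ (8 * k) := by
        rw [hm, ← pow_mul]
        congr 1
        ring
      rw [this]
      nlinarith
    have h3 : m ^ (2 * k) / (N * Real.sqrt N) ≤ 1 := by
      rw [div_le_one hNs]
      exact h1
    have h4 : E * L ≤ (4 * E + 4) * (L / 4) := by
      have h5 : 3 * (E + 1) ≤ L := by
        have : (3 : ℝ) * (E + 1) ≤ L := by linarith
        exact_mod_cast this
      have h6 : L ≤ 4 * (L / 4) + 3 := by omega
      have h7 : (E + 1) * L ≤ (E + 1) * (4 * (L / 4) + 3) := Nat.mul_le_mul_left _ h6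
      nlinarith
    calc m ^ (2 * k) / (N * Real.sqrt N) / 2 ^ ((4 * E + 4) * (L / 4))
        ≤ 1 / 2 ^ ((4 * E + 4) * (L / 4)) := div_le_div_of_nonneg_right h3 (by positivity)
      _ ≤ 1 / 2 ^ (E * L) := by
          apply one_div_le_one_div_of_le (by positivity)
          exact pow_le_pow_right₀ (by norm_num) h4

end Pool.Agent.H.MP_cba12a_lc.SQ
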