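import Pool.Agent.H.MP_cba12a_lc.SQ.Defs

namespace Pool.Agent.H.MP_cba12a_lc.SQ

open Finset Filter Topology

theorem interpsq_A (i' : ℕ) : ∀ m ≤ i',
    (∏ j ∈ range m, (((j : ℝ) + 1) ^ 2 / |((i' : ℝ) + 1) ^ 2 - ((j : ℝ) + 1) ^ 2|)) *
      ((i'.factorial : ℝ) * ((i' + 1 + m).factorial : ℝ)) =
      (m.factorial : ℝ) ^ 2 * ((i' - m).factorial : ℝ) * ((i' + 1).factorial : ℝ) := by
  intro m
  induction m with
  | zero =>
    intro _
    simp
  | succ m ih =>
    intro hm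
    have h1 := ih (by omega)
    obtain ⟨q, hq⟩ : ∃ q, i' - m = q + 1 := ⟨i' - m - 1, by omega⟩
    have hq' : i' - (m + 1) = q := by omega
    have hi : (i' : ℝ) = m + q + 1 := by
      have : i' = m + q + 1 := by omega
      rw [this]; push_cast; ring
    have habs : |((i' : ℝ) + 1) ^ 2 - ((m : ℝ) + 1) ^ 2| = ((q : ℝ) + 1) * (i' + 1 + m + 1) := by
      rw [abs_of_nonneg]
      · rw [hi]; ring
      · have hm0 : (0 : ℝ) ≤ m := Nat.cast_nonneg m
        have hq0 : (0 : ℝ) ≤ q := Nat.cast_nonneg q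
        rw [hi]; nlinarith
    rw [prod_range_succ, habs, hq', Nat.factorial_succ m, show i' + 1 + (m + 1) = (i' + 1 + m) + 1 by
      ring, Nat.factorial_succ (i' + 1 + m)]
    rw [hq, Nat.factorial_succ q] at h1
    have hq1 : ((q : ℝ) + 1) ≠ 0 := by positivity
    have hi1 : ((i' : ℝ) + 1 + m + 1) ≠ 0 := by positivity
    push_cast at h1 ⊢
    field_simp
    linear_combination h1

theorem interpsq_B (i : ℕ) : ∀ d : ℕ,
    (∏ k ∈ range d, (((i : ℝ) + 1 + k) ^ 2 / |(i : ℝ) ^ 2 - ((i : ℝ) + 1 + k) ^ 2|)) *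
      ((i.factorial : ℝ) ^ 2 * (d.factorial : ℝ) * ((2 * i + d).factorial : ℝ)) =
      ((i + d).factorial : ℝ) ^ 2 * ((2 * i).factorial : ℝ) := by
  intro d
  induction d with
  | zero => simp
  | succ d ih =>
    have habs : |(i : ℝ) ^ 2 - ((i : ℝ) + 1 + d) ^ 2| = ((d : ℝ) + 1) * (2 * i + d + 1) := by
      rw [abs_sub_comm, abs_of_nonneg]
      · ring
      · have hi0 : (0 : ℝ) ≤ i := Nat.cast_nonneg i
        have hd0 : (0 : ℝ) ≤ d := Nat.cast_nonneg d
        nlinarith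
    rw [prod_range_succ, habs, Nat.factorial_succ d, show 2 * i + (d + 1) = (2 * i + d) + 1 by ring,
      Nat.factorial_succ (2 * i + d), show i + (d + 1) = (i + d) + 1 by ring,
      Nat.factorial_succ (i + d)]
    have hd1 : ((d : ℝ) + 1) ≠ 0 := by positivity
    have hi1 : (2 * (i : ℝ) + d + 1) ≠ 0 := by positivity
    push_cast at ih ⊢
    field_simp
    linear_combination ((i : ℝ) + d + 1) ^ 2 * ih

theorem interpsq_fact (i d : ℕ) : (i + d).factorial ^ 2 ≤ d.factorial * (2 * i + d).factorial := by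
  induction i with
  | zero => simp [sq]
  | succ i ih =>
    have h1 : i + 1 + d = (i + d) + 1 := by ring
    have h2 : 2 * (i + 1) + d = (2 * i + d + 1) + 1 := by ring
    rw [h1, h2, Nat.factorial_succ, Nat.factorial_succ (2 * i + d + 1), Nat.factorial_succ (2 * i + d)]
    have h3 : (i + d + 1) * (i + d + 1) ≤ (2 * i + d + 1 + 1) * (2 * i + d + 1) :=
      Nat.mul_le_mul (by omega) (by omega)
    calc ((i + d + 1) * (i + d).factorial) ^ 2 = ((i + d + 1) * (i + d + 1)) * (i + d).factorial ^ 2 := by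
          ring
      _ ≤ ((2 * i + d + 1 + 1) * (2 * i + d + 1)) * (d.factorial * (2 * i + d).factorial) :=
          Nat.mul_le_mul h3 ih
      _ = _ := by ring

theorem interpsq_bound (i n : ℕ) (hi : 1 ≤ i) (hn : i ≤ n) :
    ∏ j ∈ (Icc 1 n).erase i, ((j : ℝ) ^ 2 / |(i : ℝ) ^ 2 - (j : ℝ) ^ 2|) ≤ 2 := by
  obtain ⟨i', rfl⟩ : ∃ i', i = i' + 1 := ⟨i - 1, by omega⟩
  obtain ⟨d, rfl⟩ : ∃ d, n = i' + 1 + d := ⟨n - (i' + 1), by omega⟩
  have hset : (Icc 1 (i' + 1 + d)).erase (i' + 1) =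
      (range i').image (fun j => j + 1) ∪ (range d).image (fun k => i' + 1 + 1 + k) := by
    ext x
    simp only [mem_erase, mem_Icc, mem_union, mem_image, mem_range]
    constructor
    · rintro ⟨h1, h2, h3⟩
      rcases Nat.lt_or_ge x (i' + 1) with h | h
      · exact Or.inl ⟨x - 1, by omega, by omega⟩
      · exact Or.inr ⟨x - (i' + 1 + 1), by omega, by omega⟩
    · rintro (⟨a, h1, h2⟩ | ⟨a, h1, h2⟩) <;> omega
  have hdisj : Disjoint ((range i').image (fun j => j + 1))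
      ((range d).image (fun k => i' + 1 + 1 + k)) := by
    rw [disjoint_left]
    intro x hx hx'
    simp only [mem_image, mem_range] at hx hx'
    obtain ⟨a, h1, h2⟩ := hx
    obtain ⟨b, h3, h4⟩ := hx'
    omega
  rw [hset, prod_union hdisj, prod_image (by intro a _ b _ h; simpa using h),
    prod_image (by intro a _ b _ h; simpa using h)]
  have hA := interpsq_A i' i' le_rfl
  have hB := interpsq_B (i' + 1) d
  have hF := interpsq_fact (i' + 1) d
  set PA := ∏ x ∈ range i', ((((x + 1 : ℕ) : ℝ)) ^ 2 / |((i' + 1 : ℕ) : ℝ) ^ 2 -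
    (((x + 1 : ℕ) : ℝ)) ^ 2|) with hPA
  set PB := ∏ x ∈ range d, ((((i' + 1 + 1 + x : ℕ) : ℝ)) ^ 2 / |((i' + 1 : ℕ) : ℝ) ^ 2 -
    (((i' + 1 + 1 + x : ℕ) : ℝ)) ^ 2|) with hPB
  have eA : PA = ∏ j ∈ range i', (((j : ℝ) + 1) ^ 2 / |((i' : ℝ) + 1) ^ 2 - ((j : ℝ) + 1) ^ 2|) := by
    rw [hPA]; push_cast; rfl
  have eB : PB = ∏ k ∈ range d, ((((i' + 1 : ℕ) : ℝ) + 1 + k) ^ 2 /
      |((i' + 1 : ℕ) : ℝ) ^ 2 - (((i' + 1 : ℕ) : ℝ) + 1 + k) ^ 2|) := by
    rw [hPB]; push_cast; rfl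
  rw [← eA] at hA
  rw [← eB] at hB
  rw [Nat.sub_self, Nat.factorial_zero] at hA
  have h2i : (2 * (i' + 1)).factorial = (2 * (i' + 1)) * (i' + 1 + i').factorial := by
    rw [show 2 * (i' + 1) = (i' + 1 + i') + 1 by ring, Nat.factorial_succ]
  have hi1 : (i' + 1).factorial = (i' + 1) * i'.factorial := Nat.factorial_succ i'
  rw [h2i] at hB
  have fpos : ∀ n : ℕ, (0 : ℝ) < (n.factorial : ℝ) := fun n => by
    exact_mod_cast Nat.factorial_pos n
  set a : ℝ := (i'.factorial : ℝ) with ha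
  set b : ℝ := ((i' + 1 + i').factorial : ℝ) with hb
  set c : ℝ := (d.factorial : ℝ) with hc
  set D : ℝ := ((2 * (i' + 1) + d).factorial : ℝ) with hD
  set e : ℝ := ((i' + 1 + d).factorial : ℝ) with he
  have hi1' : ((i' + 1).factorial : ℝ) = ((i' : ℝ) + 1) * a := by
    rw [hi1]; push_cast; rfl
  have hF' : e ^ 2 ≤ c * D := by
    rw [he, hc, hD]; exact_mod_cast hF
  rw [hi1'] at hA hB
  push_cast at hA hB
  have ha0 : 0 < a := fpos _
  have hb0 : 0 < b := fpos _
  have hc0 : 0 < c := fpos _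
  have hD0 : 0 < D := fpos _
  have hi0 : (0 : ℝ) < (i' : ℝ) + 1 := by positivity
  -- PA * b = a * (i'+1) ... 
  have hA' : PA * b = ((i' : ℝ) + 1) * a * a := by
    have : a * (PA * b) = a * (((i' : ℝ) + 1) * a * a) := by linear_combination hA
    exact mul_left_cancel₀ (ne_of_gt ha0) this
  have key : PA * PB * (c * D) = 2 * e ^ 2 := by
    have h5 : (((i' : ℝ) + 1) ^ 2 * a ^ 2 * b) * (PA * PB * (c * D)) =
        (((i' : ℝ) + 1) ^ 2 * a ^ 2 * b) * (2 * e ^ 2) := by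
      have : (((i' : ℝ) + 1) ^ 2 * a ^ 2 * b) * (PA * PB * (c * D)) =
          (PA * b) * (PB * ((((i' : ℝ) + 1) * a) ^ 2 * c * D)) := by ring
      rw [this, hA', hB]
      ring
    exact mul_left_cancel₀ (by positivity) h5
  have hcD : 0 < c * D := mul_pos hc0 hD0
  have : PA * PB * (c * D) ≤ 2 * (c * D) := by rw [key]; linarith
  exact le_of_mul_le_mul_right this hcD

/-- interpolation at the nodes `i ^ 2 * τ` -/
theorem interp_sq (n : ℕ) (Q : Polynomial ℝ) (hQ : Q.natDegree ≤ n) (τ x : ℝ) (hτ : 0 < τ)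
    (hx0 : 0 ≤ x) (hx : x ≤ τ) :
    ∃ ℓ : ℕ → ℝ, (∀ i ∈ Icc 1 n, |ℓ i| ≤ 2 * x / ((i : ℝ) ^ 2 * τ)) ∧
      Q.eval x = Q.eval 0 * ∏ i ∈ Icc 1 n, (1 - x / ((i : ℝ) ^ 2 * τ)) +
        ∑ i ∈ Icc 1 n, Q.eval ((i : ℝ) ^ 2 * τ) * ℓ i := by
  set v : ℕ → ℝ := fun i => (i : ℝ) ^ 2 * τ with hv
  have hinj : Set.InjOn v (range (n + 1) : Finset ℕ) := by
    intro i _ j _ hij
    simp only [hv] at hij
    have h1 : (i : ℝ) ^ 2 = (j : ℝ) ^ 2 := mul_right_cancel₀ (ne_of_gt hτ) hij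
    have h2 : (i : ℝ) = j := (pow_left_inj₀ (Nat.cast_nonneg i) (Nat.cast_nonneg j)
      two_ne_zero).mp h1
    exact_mod_cast h2
  have hdeg : Q.degree < (range (n + 1)).card := by
    rw [card_range]
    refine lt_of_le_of_lt Polynomial.degree_le_natDegree ?_
    exact_mod_cast Nat.lt_succ_of_le hQ
  have hQ1 := Lagrange.eq_interpolate hinj hdeg
  have heval : Q.eval x = ∑ i ∈ range (n + 1), Q.eval (v i) *
      (Lagrange.basis (range (n + 1)) v i).eval x := by
    conv_lhs => rw [hQ1]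
    rw [Lagrange.interpolate_apply, Polynomial.eval_finset_sum]
    refine sum_congr rfl fun i _ => ?_
    rw [Polynomial.eval_mul, Polynomial.eval_C]
  have hbas : ∀ i, (Lagrange.basis (range (n + 1)) v i).eval x =
      ∏ j ∈ (range (n + 1)).erase i, ((v i - v j)⁻¹ * (x - v j)) := by
    intro i
    unfold Lagrange.basis Lagrange.basisDivisor
    rw [Polynomial.eval_prod]
    refine prod_congr rfl fun j _ => ?_
    rw [Polynomial.eval_mul, Polynomial.eval_C, Polynomial.eval_sub, Polynomial.eval_X,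
      Polynomial.eval_C]
  have hr0 : (range (n + 1)).erase 0 = Icc 1 n := by
    ext j; simp only [mem_erase, mem_range, mem_Icc]; omega
  refine ⟨fun i => (Lagrange.basis (range (n + 1)) v i).eval x, ?_, ?_⟩
  · intro i hi
    rw [mem_Icc] at hi
    beta_reduce
    rw [hbas i]
    have hre : (range (n + 1)).erase i = insert 0 ((Icc 1 n).erase i) := by
      ext j; simp only [mem_erase, mem_range, mem_insert, mem_Icc]; omega
    rw [hre, prod_insert (by simp)]
    have hi0 : (0 : ℝ) < i := by exact_mod_cast hi.1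
    have hvi : 0 < v i := by simp only [hv]; positivity
    have hv0 : v 0 = 0 := by simp [hv]
    rw [abs_mul, hv0, sub_zero, sub_zero, abs_mul, abs_inv, abs_of_pos hvi, abs_of_nonneg hx0,
      abs_prod]
    have hprod : ∏ j ∈ (Icc 1 n).erase i, |(v i - v j)⁻¹ * (x - v j)| ≤
        ∏ j ∈ (Icc 1 n).erase i, ((j : ℝ) ^ 2 / |(i : ℝ) ^ 2 - (j : ℝ) ^ 2|) := by
      refine prod_le_prod (fun j _ => abs_nonneg _) fun j hj => ?_
      rw [mem_erase, mem_Icc] at hj
      have hj0 : (0 : ℝ) < j := by exact_mod_cast hj.2.1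
      have hj1 : (1 : ℝ) ≤ j := by exact_mod_cast hj.2.1
      have hvj : v j = (j : ℝ) ^ 2 * τ := rfl
      have hxj : x ≤ v j := by
        rw [hvj]
        calc x ≤ τ := hx
          _ = 1 * τ := (one_mul τ).symm
          _ ≤ (j : ℝ) ^ 2 * τ := by
            apply mul_le_mul_of_nonneg_right _ hτ.le
            nlinarith
      have hne : (i : ℝ) ^ 2 - (j : ℝ) ^ 2 ≠ 0 := by
        intro h0
        have h2 : (i : ℝ) ^ 2 = (j : ℝ) ^ 2 := by linarith
        have h3 : (i : ℝ) = j := (pow_left_inj₀ (Nat.cast_nonneg i) (Nat.cast_nonneg j)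
          two_ne_zero).mp h2
        exact hj.1 (by exact_mod_cast h3.symm)
      have habs : |v i - v j| = |(i : ℝ) ^ 2 - (j : ℝ) ^ 2| * τ := by
        rw [hvj]
        simp only [hv]
        rw [← sub_mul, abs_mul, abs_of_pos hτ]
      rw [abs_mul, abs_inv, habs, abs_of_nonpos (by linarith : x - v j ≤ 0)]
      have hpos : 0 < |(i : ℝ) ^ 2 - (j : ℝ) ^ 2| := abs_pos.mpr hne
      rw [inv_mul_eq_div, div_le_div_iff₀ (mul_pos hpos hτ) hpos]
      have : -(x - v j) ≤ (j : ℝ) ^ 2 * τ := by rw [← hvj]; linarith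
      nlinarith [mul_le_mul_of_nonneg_right this hpos.le]
    have hb := interpsq_bound i n hi.1 hi.2
    calc (v i)⁻¹ * x * ∏ j ∈ (Icc 1 n).erase i, |(v i - v j)⁻¹ * (x - v j)|
        ≤ (v i)⁻¹ * x * 2 := by
          apply mul_le_mul_of_nonneg_left (hprod.trans hb)
          positivity
      _ = 2 * x / ((i : ℝ) ^ 2 * τ) := by
          simp only [hv]
          rw [div_eq_mul_inv]; ring
  · rw [heval]
    have hs : ∑ i ∈ range (n + 1), Q.eval (v i) * (Lagrange.basis (range (n + 1)) v i).eval x =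
        Q.eval (v 0) * (Lagrange.basis (range (n + 1)) v 0).eval x +
        ∑ i ∈ Icc 1 n, Q.eval (v i) * (Lagrange.basis (range (n + 1)) v i).eval x := by
      rw [← add_sum_erase (range (n + 1)) _ (mem_range.mpr (Nat.succ_pos n)), hr0]
    rw [hs, hbas 0, hr0]
    have hv0 : v 0 = 0 := by simp [hv]
    rw [hv0]
    congr 2
    refine prod_congr rfl fun j hj => ?_
    rw [mem_Icc] at hj
    have hj0 : (0 : ℝ) < j := by exact_mod_cast hj.1
    have hvj : 0 < v j := by simp only [hv]; positivity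
    have : v j = (j : ℝ) ^ 2 * τ := rfl
    rw [← this, zero_sub, inv_neg, neg_mul, ← mul_neg, neg_sub, inv_mul_eq_div, sub_div,
      div_self (ne_of_gt hvj)]

end Pool.Agent.H.MP_cba12a_lc.SQ
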