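import Pool.Agent.H.MP_cba12a_lc.SQ.Gadget
import Pool.Agent.H.MP_cba12a_lc.SQ.Kernel
import Pool.Agent.H.MP_cba12a_lc.SQ.SsumB
import Pool.Agent.H.MP_cba12a_lc.SQ.Fourier
import Pool.Agent.H.MP_cba12a_lc.SQ.MBound

namespace Pool.Agent.H.MP_cba12a_lc.SQ

open Finset Filter Topology

private lemma link_co_one {m : ℕ} (B : Finset (Fin m)) :
    co (fun _ => (1 : ℝ)) B = if B = ∅ then 1 else 0 := by
  have h : (fun _ : Finset (Fin m) => (1 : ℝ)) = cj ∅ := by
    funext x
    simp [cj]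
  rw [h, co_cj]
  simp [subset_empty]

private lemma link_co_chi {m : ℕ} (B' B : Finset (Fin m)) :
    co (chi B') B = if B' = B then 1 else 0 := by
  unfold co
  have h1 : (fun x : Finset (Fin m) => chi B' x * chi B x) = fun x => ∏ a, (if a ∈ x then (1 : ℝ)
      else (if a ∈ B' then -1 else 1) * (if a ∈ B then -1 else 1)) := by
    funext x
    rw [chi_eq_prod, chi_eq_prod, ← prod_mul_distrib]
    apply prod_congr rfl
    intro a _
    by_cases h : a ∈ x
    · simp [h]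
    · simp only [if_neg h]
  rw [h1, ex_prod_mem]
  by_cases h : B' = B
  · rw [if_pos h]
    apply prod_eq_one
    intro a _
    subst h
    by_cases ha : a ∈ B'
    · simp [ha]
    · simp [ha]
  · rw [if_neg h]
    have h2 : ∃ a, ¬ (a ∈ B' ↔ a ∈ B) := by
      by_contra hcon
      push Not at hcon
      exact h (Finset.ext hcon)
    obtain ⟨a, ha⟩ := h2
    apply prod_eq_zero (mem_univ a)
    by_cases h3 : a ∈ B'
    · have h4 : a ∉ B := fun h4 => ha ⟨fun _ => h4, fun _ => h3⟩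
      simp [h3, h4]
    · have h4 : a ∈ B := by
        by_contra h4
        exact ha ⟨fun h5 => absurd h5 h3, fun h5 => absurd h5 h4⟩
      simp [h3, h4]

/-- the corrected function -/
private noncomputable def linkE {m : ℕ} (κ : ℕ) (F : List (Finset (Fin m))) (B : Finset (Fin m)) :
    ℝ := if 2 ≤ B.card ∧ B.card < 2 * κ then co (ind F) B - Qf F B else 0

private noncomputable def linkH {m : ℕ} (κ : ℕ) (F : List (Finset (Fin m)))
    (x : Finset (Fin m)) : ℝ := 1 - ind F x + ∑ B, linkE κ F B * chi B x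

private lemma link_co_H {m : ℕ} (κ : ℕ) (F : List (Finset (Fin m))) (B : Finset (Fin m)) :
    co (linkH κ F) B = (if B = ∅ then 1 else 0) - co (ind F) B + linkE κ F B := by
  have h1 : linkH κ F = fun x => (fun x => (fun _ : Finset (Fin m) => (1 : ℝ)) x - ind F x) x +
      (fun x => ∑ B' ∈ univ, (fun B' x => linkE κ F B' * chi B' x) B' x) x := by
    funext x
    rfl
  rw [h1, co_add, co_sub, co_sum, link_co_one]
  congr 1
  have h2 : ∀ B' : Finset (Fin m), co ((fun B' x => linkE κ F B' * chi B' x) B') B =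
      if B' = B then linkE κ F B' else 0 := by
    intro B'
    have : co ((fun B' x => linkE κ F B' * chi B' x) B') B = linkE κ F B' * co (chi B') B :=
      co_mul_left _ _ _
    rw [this, link_co_chi]
    by_cases h : B' = B <;> simp [h]
  rw [sum_congr rfl fun B' _ => h2 B']
  simp

private lemma link_coeff {m : ℕ} (κ : ℕ) (F : List (Finset (Fin m)))
    (hη : 1 - co (ind F) ∅ ≠ 0) (B : Finset (Fin m)) (hB : B.card < 2 * κ) :
    (∑ y : Fin m → Bool, linkH κ F (ones y) * chi B (ones y)) / 2 ^ m =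
      (1 - co (ind F) ∅) * ∏ a ∈ B, (-co (ind F) {a} / (1 - co (ind F) ∅)) := by
  rw [sum_ones (fun x => linkH κ F x * chi B x)]
  have h0 : (∑ x, linkH κ F x * chi B x) / 2 ^ m = co (linkH κ F) B := rfl
  rw [h0, link_co_H]
  rcases Nat.lt_or_ge B.card 2 with h | h
  · have h1 : linkE κ F B = 0 := by
      unfold linkE
      rw [if_neg (by omega)]
    rw [h1]
    rcases Nat.lt_or_ge B.card 1 with h2 | h2
    · have h3 : B = ∅ := card_eq_zero.1 (by omega)
      subst h3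
      simp
    · obtain ⟨a, rfl⟩ := card_eq_one.1 (show B.card = 1 by omega)
      rw [if_neg (by simp), prod_singleton]
      field_simp
      ring
  · have h1 : linkE κ F B = co (ind F) B - Qf F B := by
      unfold linkE
      rw [if_pos ⟨h, hB⟩]
    rw [h1, if_neg (by rintro rfl; simp at h)]
    unfold Qf
    ring


private lemma link_prod_sub {ι : Type*} (s : Finset ι) (f g : ι → ℝ) (δ : ℝ) (hδ : 0 ≤ δ)
    (hf : ∀ i ∈ s, |f i| ≤ 1) (hg : ∀ i ∈ s, |g i - f i| ≤ δ) :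
    |∏ i ∈ s, g i - ∏ i ∈ s, f i| ≤ (1 + δ) ^ s.card - 1 := by
  classical
  induction s using Finset.induction_on with
  | empty => simp
  | insert a s ha ih =>
    have hf' : ∀ i ∈ s, |f i| ≤ 1 := fun i hi => hf i (mem_insert_of_mem hi)
    have hg' : ∀ i ∈ s, |g i - f i| ≤ δ := fun i hi => hg i (mem_insert_of_mem hi)
    have ih' := ih hf' hg'
    rw [prod_insert ha, prod_insert ha, card_insert_of_notMem ha]
    have e : g a * ∏ i ∈ s, g i - f a * ∏ i ∈ s, f i =
        (g a - f a) * ∏ i ∈ s, g i + f a * (∏ i ∈ s, g i - ∏ i ∈ s, f i) := by ring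
    have h1 : |∏ i ∈ s, g i| ≤ (1 + δ) ^ s.card := by
      rw [abs_prod]
      calc ∏ i ∈ s, |g i| ≤ ∏ i ∈ s, (1 + δ) := by
            apply Finset.prod_le_prod
            · intro i _
              exact abs_nonneg _
            · intro i hi
              have h2 : g i = (g i - f i) + f i := by ring
              rw [h2]
              refine (abs_add_le _ _).trans ?_
              have := hf' i hi
              have := hg' i hi
              linarith
        _ = (1 + δ) ^ s.card := by rw [prod_const]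
    have h2 := hf a (mem_insert_self _ _)
    have h3 := hg a (mem_insert_self _ _)
    rw [e]
    refine (abs_add_le _ _).trans ?_
    rw [abs_mul, abs_mul]
    have h4 : |g a - f a| * |∏ i ∈ s, g i| ≤ δ * (1 + δ) ^ s.card :=
      mul_le_mul h3 h1 (abs_nonneg _) hδ
    have h5 : |f a| * |∏ i ∈ s, g i - ∏ i ∈ s, f i| ≤ 1 * ((1 + δ) ^ s.card - 1) :=
      mul_le_mul h2 ih' (abs_nonneg _) (by norm_num)
    rw [pow_succ]
    linarith

private lemma link_pow_sub_one (n : ℕ) (δ : ℝ) (hδ : 0 ≤ δ) (h : n * δ ≤ 1) :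
    (1 + δ) ^ n - 1 ≤ 2 * (n * δ) := by
  have h1 : (1 + δ) ^ n ≤ Real.exp (n * δ) := by
    rw [Real.exp_nat_mul]
    apply pow_le_pow_left₀ (by linarith)
    have := Real.add_one_le_exp δ
    linarith
  have h0 : 0 ≤ n * δ := by positivity
  have h2 := Real.abs_exp_sub_one_sub_id_le (x := n * δ) (by rw [abs_of_nonneg h0]; exact h)
  have h3 := (abs_le.1 h2).2
  nlinarith

private lemma link_V {m : ℕ} (β : Fin m → ℝ) (b : ℝ) (hb : 0 ≤ b) (hβ : ∀ a, |β a| ≤ b)
    (h : m * b ≤ 1) (y : Fin m → Bool) :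
    |∏ a, (1 + β a * sg (y a)) - 1| ≤ 2 * (m * b) := by
  have h1 := link_prod_sub (univ : Finset (Fin m)) (fun _ => (1 : ℝ))
    (fun a => 1 + β a * sg (y a)) b hb (by intro i _; simp) (by
      intro i _
      have : (1 + β i * sg (y i)) - 1 = β i * sg (y i) := by ring
      rw [this, abs_mul]
      have h2 : |sg (y i)| = 1 := by
        unfold sg
        split <;> simp
      rw [h2, mul_one]
      exact hβ i)
  simp only [prod_const_one, card_univ, Fintype.card_fin] at h1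
  exact h1.trans (link_pow_sub_one m b hb h)

private lemma link_wt {m : ℕ} (β : Fin m → ℝ) (y : Fin m → Bool) :
    wt β y = (∏ a, (1 + β a * sg (y a))) / 2 ^ m := by
  unfold wt
  rw [prod_div_distrib]
  simp

private lemma link_sum_ind {m : ℕ} (F : List (Finset (Fin m))) :
    (∑ y : Fin m → Bool, ind F (ones y)) / 2 ^ m = co (ind F) ∅ := by
  rw [sum_ones (fun x => ind F x), co_empty]
  rfl

private noncomputable def linkB {m : ℕ} (F : List (Finset (Fin m))) (a : Fin m) : ℝ :=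
  -co (ind F) {a} / (1 - co (ind F) ∅)

private lemma link_z_nonneg {m : ℕ} (F : List (Finset (Fin m))) : 0 ≤ co (ind F) ∅ := by
  rw [co_empty]
  exact ex_nonneg (ind_nonneg F)

private lemma link_B_le {m N : ℕ} (F : List (Finset (Fin m))) (hN : 2 ≤ N)
    (hz : (N : ℝ) * co (ind F) ∅ ≤ 1) (a : Fin m) : |linkB F a| ≤ 2 / N := by
  have hz0 := link_z_nonneg F
  have hN' : (2 : ℝ) ≤ N := by exact_mod_cast hN
  have hz1 : co (ind F) ∅ ≤ 1 / N := by
    rw [le_div_iff₀ (by linarith)]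
    linarith
  have hz2 : co (ind F) ∅ ≤ 1 / 2 := by
    refine hz1.trans ?_
    apply one_div_le_one_div_of_le (by norm_num) hN'
  have h1 : |co (ind F) {a}| ≤ co (ind F) ∅ := by
    rw [co_empty (ind F)]
    exact abs_co_le (fun x => by rw [abs_of_nonneg (ind_nonneg F x)]) _
  unfold linkB
  rw [abs_div, abs_neg, abs_of_pos (show 0 < 1 - co (ind F) ∅ by linarith)]
  rw [div_le_iff₀ (by linarith)]
  have h2 : 2 / (N : ℝ) = 2 * (1 / N) := by ring
  have h3 : 0 ≤ 1 / (N : ℝ) := by positivity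
  rw [h2]
  nlinarith

private lemma link_H_sub {m : ℕ} (κ : ℕ) (F : List (Finset (Fin m))) (x : Finset (Fin m)) :
    |linkH κ F x - (1 - ind F x)| ≤ ∑ B, |linkE κ F B| := by
  unfold linkH
  have : 1 - ind F x + ∑ B, linkE κ F B * chi B x - (1 - ind F x) =
      ∑ B, linkE κ F B * chi B x := by ring
  rw [this]
  refine (abs_sum_le_sum_abs _ _).trans ?_
  apply sum_le_sum
  intro B _
  rw [abs_mul, abs_chi, mul_one]

private lemma link_h2 {m N κ : ℕ} (hm : 1 ≤ m) (hN1 : 100 * m ≤ N) (hN2 : 11 * m ^ 2 ≤ N)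
    (F : List (Finset (Fin m))) (hz : (N : ℝ) * co (ind F) ∅ ≤ 1)
    (hδ : ∑ B : Finset (Fin m), |linkE κ F B| ≤ m / N) :
    ∑ y, wt (linkB F) y * (linkH κ F (ones y) / ((1 - co (ind F) ∅) *
      ∏ a, (1 + linkB F a * sg (y a))) - 1) ^ 2 ≤ (6 / Real.sqrt N) ^ 2 := by
  have hm' : (1 : ℝ) ≤ m := by exact_mod_cast hm
  have hN1' : 100 * (m : ℝ) ≤ N := by exact_mod_cast hN1
  have hN2' : 11 * (m : ℝ) ^ 2 ≤ N := by exact_mod_cast hN2
  have hNpos : (0 : ℝ) < N := by linarith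
  have hN2n : 2 ≤ N := by omega
  have hz0 := link_z_nonneg F
  set z := co (ind F) ∅ with hzdef
  set q : ℝ := m / N with hq
  have hq0 : 0 < q := by positivity
  have hq1 : q ≤ 1 / 100 := by
    rw [hq, div_le_iff₀ hNpos]
    linarith
  have hz1 : z ≤ 1 / N := by
    rw [le_div_iff₀ hNpos]
    linarith
  have hz2 : z ≤ q := by
    refine hz1.trans ?_
    rw [hq]
    gcongr
  have hb : ∀ y : Fin m → Bool, |∏ a, (1 + linkB F a * sg (y a)) - 1| ≤ 4 * q := by
    intro y
    have h1 := link_V (linkB F) (2 / N) (by positivity) (link_B_le F hN2n hz) (by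
      have : (m : ℝ) * (2 / N) = 2 * q := by rw [hq]; ring
      rw [this]
      linarith) y
    have : 2 * ((m : ℝ) * (2 / N)) = 4 * q := by rw [hq]; ring
    rw [this] at h1
    exact h1
  have key : ∀ y : Fin m → Bool, wt (linkB F) y * (linkH κ F (ones y) / ((1 - z) *
      ∏ a, (1 + linkB F a * sg (y a))) - 1) ^ 2 ≤
      (2 * (2 * ind F (ones y) + 72 * q ^ 2)) / 2 ^ m := by
    intro y
    rw [link_wt]
    set V := ∏ a, (1 + linkB F a * sg (y a)) with hV
    have hVb := abs_le.1 (hb y)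
    rw [← hV] at hVb
    have hV1 : (24 : ℝ) / 25 ≤ V := by linarith [hVb.1]
    have hV0 : 0 < V := by linarith
    have hη : (99 : ℝ) / 100 ≤ 1 - z := by linarith
    have hη0 : 0 < 1 - z := by linarith
    have e1 : V / 2 ^ m * (linkH κ F (ones y) / ((1 - z) * V) - 1) ^ 2 =
        ((linkH κ F (ones y) - (1 - z) * V) ^ 2 / ((1 - z) ^ 2 * V)) / 2 ^ m := by
      field_simp
    rw [e1]
    apply div_le_div_of_nonneg_right _ (by positivity)
    rw [div_le_iff₀ (by positivity)]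
    have h1 : |linkH κ F (ones y) - (1 - z) * V| ≤ ind F (ones y) + 6 * q := by
      have h2 := abs_le.1 ((link_H_sub κ F (ones y)).trans hδ)
      have h3 := ind_nonneg F (ones y)
      have h4 := ind_le_one F (ones y)
      rw [abs_le]
      constructor
      · nlinarith [h2.1, h2.2, hVb.1, hVb.2]
      · nlinarith [h2.1, h2.2, hVb.1, hVb.2]
    have h2 : (linkH κ F (ones y) - (1 - z) * V) ^ 2 ≤ (ind F (ones y) + 6 * q) ^ 2 := by
      rw [← sq_abs (linkH κ F (ones y) - (1 - z) * V)]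
      exact pow_le_pow_left₀ (abs_nonneg _) h1 2
    have h3 : (ind F (ones y) + 6 * q) ^ 2 ≤ 2 * ind F (ones y) + 72 * q ^ 2 := by
      have h4 : ind F (ones y) ^ 2 ≤ ind F (ones y) := by
        have := ind_nonneg F (ones y)
        have := ind_le_one F (ones y)
        nlinarith
      nlinarith [sq_nonneg (ind F (ones y) - 6 * q)]
    have h5 : 1 / 2 ≤ (1 - z) ^ 2 * V := by nlinarith
    have h6 : 0 ≤ 2 * ind F (ones y) + 72 * q ^ 2 := by
      have := ind_nonneg F (ones y)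
      positivity
    nlinarith
  refine (sum_le_sum fun y _ => key y).trans ?_
  rw [← sum_div, ← mul_sum, sum_add_distrib, ← mul_sum, sum_const, card_univ]
  have hc : (Fintype.card (Fin m → Bool) : ℝ) = 2 ^ m := by simp
  have e2 : (2 * (2 * ∑ y : Fin m → Bool, ind F (ones y) +
      Fintype.card (Fin m → Bool) • (72 * q ^ 2))) / 2 ^ m = 2 * (2 * z + 72 * q ^ 2) := by
    rw [nsmul_eq_mul, hc, hzdef, ← link_sum_ind F]
    field_simp
  have hsq : (6 / Real.sqrt N) ^ 2 = 36 / N := by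
    rw [div_pow, Real.sq_sqrt hNpos.le]
    norm_num
  rw [e2, hsq]
  have h7 : q ^ 2 ≤ 1 / (11 * N) := by
    rw [hq, div_pow, div_le_div_iff₀ (by positivity) (by positivity)]
    nlinarith
  have h8 : 2 * (2 * z + 72 * q ^ 2) ≤ 2 * (2 * (1 / N) + 72 * (1 / (11 * N))) := by linarith
  refine h8.trans ?_
  have h9 : 2 * (2 * (1 / (N : ℝ)) + 72 * (1 / (11 * N))) = (188 / 11) / N := by
    field_simp
    norm_num
  rw [h9]
  gcongr
  norm_num


private noncomputable def linkM {m N : ℕ} (F : List (Finset (Fin m)))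
    (x : Fin m → Fin N → Bool) : ℝ :=
  (1 - co (ind F) ∅) ^ N * ∏ a, ∏ c, (1 + linkB F a * sg (x a c))

private lemma link_card_arr (m N : ℕ) :
    (Fintype.card (Fin m → Fin N → Bool) : ℝ) = 2 ^ (m * N) := by
  simp only [Fintype.card_fun, Fintype.card_fin, Fintype.card_bool]
  push_cast
  rw [← pow_mul, mul_comm]

private lemma link_card_perm (m N : ℕ) :
    (Fintype.card (Fin m → Equiv.Perm (Fin N)) : ℝ) = (N.factorial : ℝ) ^ m := by
  simp only [Fintype.card_fun, Fintype.card_fin, Fintype.card_perm]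
  push_cast
  rfl

private lemma link_WT {m N : ℕ} (β : Fin m → ℝ) (x : Fin m → Fin N → Bool) :
    ∏ a, ∏ c, (1 + β a * sg (x a c)) = 2 ^ (m * N) * WT β x := by
  unfold WT
  have h : ∀ a : Fin m, ∏ c : Fin N, (1 + β a * sg (x a c)) / 2 =
      (∏ c : Fin N, (1 + β a * sg (x a c))) / 2 ^ N := by
    intro a
    rw [prod_div_distrib]
    simp
  rw [prod_congr rfl fun a _ => h a, prod_div_distrib]
  simp only [prod_const, card_univ, Fintype.card_fin]
  rw [← pow_mul, mul_comm N m]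
  field_simp

private lemma link_T {m N κ : ℕ} (hm : 1 ≤ m) (hN1 : 100 * m ≤ N)
    (F : List (Finset (Fin m))) (hz : (N : ℝ) * co (ind F) ∅ ≤ 1) (t : ℝ)
    (hδ : ∑ B : Finset (Fin m), |linkE κ F B| ≤ t / (2 * N)) (ht : t ≤ 1)
    (ψ : (Fin m → Fin N → Bool) → ℝ) (hψ : ∀ x, |ψ x| ≤ 1) (π : Fin m → Equiv.Perm (Fin N)) :
    |(∑ x, ψ x * (∏ c, (1 - ind F (ones (col π c x))) - linkM F x)) / 2 ^ (m * N)| ≤
      |∑ x, WT (linkB F) x * ψ x * (∏ c, (1 + (linkH κ F (ones (col π c x)) /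
        ((1 - co (ind F) ∅) * ∏ a, (1 + linkB F a * sg (col π c x a))) - 1)) - 1)| + t := by
  have hm' : (1 : ℝ) ≤ m := by exact_mod_cast hm
  have hN1' : 100 * (m : ℝ) ≤ N := by exact_mod_cast hN1
  have hNpos : (0 : ℝ) < N := by linarith
  have hN2n : 2 ≤ N := by omega
  have hz0 := link_z_nonneg F
  set z := co (ind F) ∅ with hzdef
  have hz1 : z ≤ 1 / 100 := by nlinarith
  have hη0 : 0 < 1 - z := by linarith
  have hη1 : 1 - z ≤ 1 := by linarith
  have hVpos : ∀ y : Fin m → Bool, 0 < ∏ a, (1 + linkB F a * sg (y a)) := by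
    intro y
    apply prod_pos
    intro a _
    have h1 := link_B_le F hN2n hz a
    have h2 : |linkB F a * sg (y a)| ≤ 2 / N := by
      rw [abs_mul]
      have h2 : |sg (y a)| = 1 := by
        unfold sg
        split <;> simp
      rw [h2, mul_one]
      exact h1
    have h3 : 2 / (N : ℝ) ≤ 1 / 50 := by
      rw [div_le_div_iff₀ hNpos (by norm_num)]
      linarith
    linarith [(abs_le.1 h2).1]
  have hprod : ∀ x : Fin m → Fin N → Bool,
      ∏ c, linkH κ F (ones (col π c x)) - linkM F x =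
      (1 - z) ^ N * 2 ^ (m * N) * (WT (linkB F) x * (∏ c, (1 + (linkH κ F (ones (col π c x)) /
        ((1 - z) * ∏ a, (1 + linkB F a * sg (col π c x a))) - 1)) - 1)) := by
    intro x
    have e1 : ∏ c, linkH κ F (ones (col π c x)) = (1 - z) ^ N *
        (∏ c, ∏ a, (1 + linkB F a * sg (col π c x a))) *
        ∏ c, (1 + (linkH κ F (ones (col π c x)) /
        ((1 - z) * ∏ a, (1 + linkB F a * sg (col π c x a))) - 1)) := by
      have e2 : (1 - z) ^ N = ∏ _c : Fin N, (1 - z) := by simp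
      rw [e2, ← prod_mul_distrib, ← prod_mul_distrib]
      apply prod_congr rfl
      intro c _
      have := (hVpos (col π c x)).ne'
      field_simp
      ring
    have e3 : ∏ c, ∏ a, (1 + linkB F a * sg (col π c x a)) = 2 ^ (m * N) * WT (linkB F) x := by
      rw [WT_eq (linkB F) π x]
      have : ∀ c : Fin N, wt (linkB F) (col π c x) =
          (∏ a, (1 + linkB F a * sg (col π c x a))) / 2 ^ m := fun c => link_wt _ _
      rw [prod_congr rfl fun c _ => this c, prod_div_distrib]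
      simp only [prod_const, card_univ, Fintype.card_fin]
      rw [← pow_mul]
      field_simp
    rw [e1, e3]
    unfold linkM
    rw [link_WT]
    ring
  -- the error of replacing `H`
  have hdiff : ∀ x : Fin m → Fin N → Bool,
      |∏ c, (1 - ind F (ones (col π c x))) - ∏ c, linkH κ F (ones (col π c x))| ≤ t := by
    intro x
    set δ := ∑ B : Finset (Fin m), |linkE κ F B| with hδd
    have hδ0 : 0 ≤ δ := sum_nonneg fun B _ => abs_nonneg _
    have h1 := link_prod_sub (univ : Finset (Fin N)) (fun c => 1 - ind F (ones (col π c x)))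
      (fun c => linkH κ F (ones (col π c x))) δ hδ0 (by
        intro c _
        have := ind_nonneg F (ones (col π c x))
        have := ind_le_one F (ones (col π c x))
        rw [abs_le]
        constructor <;> linarith) (fun c _ => link_H_sub κ F _)
    rw [abs_sub_comm]
    refine h1.trans ?_
    simp only [card_univ, Fintype.card_fin]
    have h2 : (N : ℝ) * δ ≤ t / 2 := by
      have := mul_le_mul_of_nonneg_left hδ hNpos.le
      refine this.trans (le_of_eq ?_)
      field_simp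
    refine (link_pow_sub_one N δ hδ0 (by linarith)).trans ?_
    linarith
  have e4 : (∑ x, ψ x * (∏ c, (1 - ind F (ones (col π c x))) - linkM F x)) / 2 ^ (m * N) =
      (1 - z) ^ N * (∑ x, WT (linkB F) x * ψ x * (∏ c, (1 + (linkH κ F (ones (col π c x)) /
        ((1 - z) * ∏ a, (1 + linkB F a * sg (col π c x a))) - 1)) - 1)) +
      (∑ x, ψ x * (∏ c, (1 - ind F (ones (col π c x))) -
        ∏ c, linkH κ F (ones (col π c x)))) / 2 ^ (m * N) := by
    have e5 : ∀ x : Fin m → Fin N → Bool, ψ x * (∏ c, (1 - ind F (ones (col π c x))) - linkM F x) =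
        ((1 - z) ^ N * 2 ^ (m * N)) * (WT (linkB F) x * ψ x *
          (∏ c, (1 + (linkH κ F (ones (col π c x)) /
        ((1 - z) * ∏ a, (1 + linkB F a * sg (col π c x a))) - 1)) - 1)) +
        ψ x * (∏ c, (1 - ind F (ones (col π c x))) -
        ∏ c, linkH κ F (ones (col π c x))) := by
      intro x
      have := hprod x
      linear_combination ψ x * this
    rw [sum_congr rfl fun x _ => e5 x, sum_add_distrib, ← mul_sum, add_div]
    congr 1
    field_simp
  rw [e4]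
  refine (abs_add_le _ _).trans ?_
  apply add_le_add
  · rw [abs_mul]
    have h1 : |(1 - z) ^ N| ≤ 1 := by
      rw [abs_of_nonneg (by positivity)]
      exact pow_le_one₀ hη0.le hη1
    exact mul_le_of_le_one_left (abs_nonneg _) h1
  · rw [abs_div, abs_of_pos (show (0 : ℝ) < 2 ^ (m * N) by positivity), div_le_iff₀ (by positivity)]
    refine (abs_sum_le_sum_abs _ _).trans ?_
    have h1 : ∀ x : Fin m → Fin N → Bool, |ψ x * (∏ c, (1 - ind F (ones (col π c x))) -
        ∏ c, linkH κ F (ones (col π c x)))| ≤ t := by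
      intro x
      rw [abs_mul]
      have h2 := hdiff x
      have h3 := hψ x
      have h4 := abs_nonneg (∏ c, (1 - ind F (ones (col π c x))) -
        ∏ c, linkH κ F (ones (col π c x)))
      have h5 := abs_nonneg (ψ x)
      nlinarith
    refine (sum_le_sum fun x _ => h1 x).trans ?_
    rw [sum_const, card_univ, nsmul_eq_mul, link_card_arr]
    linarith

private lemma link_core {m N κ : ℕ} (hκ : 1 ≤ κ) (hm : 1 ≤ m) (hN1 : 100 * m ≤ N)
    (hN2 : 11 * m ^ 2 ≤ N)
    (F : List (Finset (Fin m))) (hz : (N : ℝ) * co (ind F) ∅ ≤ 1) (t : ℝ)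
    (hδ : ∑ B : Finset (Fin m), |linkE κ F B| ≤ t / (2 * N)) (ht : t ≤ 1)
    (ψ : (Fin m → Fin N → Bool) → ℝ) (hψ : ∀ x, |ψ x| ≤ 1) :
    ∑ π : Fin m → Equiv.Perm (Fin N),
      ((∑ x, ψ x * (∏ c, (1 - ind F (ones (col π c x))) - linkM F x)) / 2 ^ (m * N)) ^ 2 ≤
      (N.factorial : ℝ) ^ m * (2 * Ssum m N κ (6 / Real.sqrt N) ^ 2 + 2 * t ^ 2) := by
  have hm' : (1 : ℝ) ≤ m := by exact_mod_cast hm
  have hN1' : 100 * (m : ℝ) ≤ N := by exact_mod_cast hN1
  have hNpos : (0 : ℝ) < N := by linarith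
  have hN2n : 2 ≤ N := by omega
  have hz0 := link_z_nonneg F
  have hz1 : co (ind F) ∅ ≤ 1 / 100 := by nlinarith
  have hη0 : 0 < 1 - co (ind F) ∅ := by linarith
  have hBlt : ∀ a, |linkB F a| < 1 := by
    intro a
    refine (link_B_le F hN2n hz a).trans_lt ?_
    rw [div_lt_iff₀ hNpos]
    linarith
  have hδ' : ∑ B : Finset (Fin m), |linkE κ F B| ≤ m / N := by
    refine hδ.trans ?_
    rw [div_le_div_iff₀ (by positivity) hNpos]
    nlinarith
  set r : (Fin m → Bool) → ℝ := fun y => linkH κ F (ones y) / ((1 - co (ind F) ∅) *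
      ∏ a, (1 + linkB F a * sg (y a))) - 1 with hr
  have hk := kernel (m := m) (N := N) (κ := κ) (by omega) hκ (linkB F) (fun a => (hBlt a).le) r
    (6 / Real.sqrt N) (by positivity) (by
      intro S hS G hG
      exact orth_of_coeff (k := 2 * κ) (linkB F) hBlt (1 - co (ind F) ∅) hη0.ne'
        (fun y => linkH κ F (ones y)) (fun B hB => link_coeff κ F hη0.ne' B hB) S hS G hG)
    (link_h2 hm hN1 hN2 F hz hδ') ψ hψ
  have h1 : ∀ π : Fin m → Equiv.Perm (Fin N),
      ((∑ x, ψ x * (∏ c, (1 - ind F (ones (col π c x))) - linkM F x)) / 2 ^ (m * N)) ^ 2 ≤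
      2 * (∑ x, WT (linkB F) x * ψ x * (∏ c, (1 + r (col π c x)) - 1)) ^ 2 + 2 * t ^ 2 := by
    intro π
    have h2 := link_T hm hN1 F hz t hδ ht ψ hψ π
    have h3 : |(∑ x, ψ x * (∏ c, (1 - ind F (ones (col π c x))) - linkM F x)) / 2 ^ (m * N)| ≤
        |∑ x, WT (linkB F) x * ψ x * (∏ c, (1 + r (col π c x)) - 1)| + t := h2
    rw [← sq_abs ((∑ x, ψ x * (∏ c, (1 - ind F (ones (col π c x))) - linkM F x)) / 2 ^ (m * N)),
      ← sq_abs (∑ x, WT (linkB F) x * ψ x * (∏ c, (1 + r (col π c x)) - 1))]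
    have h4 := pow_le_pow_left₀ (abs_nonneg _) h3 2
    nlinarith [sq_nonneg (|∑ x, WT (linkB F) x * ψ x * (∏ c, (1 + r (col π c x)) - 1)| - t)]
  refine (sum_le_sum fun π _ => h1 π).trans ?_
  rw [sum_add_distrib, ← mul_sum, sum_const, card_univ, nsmul_eq_mul, link_card_perm]
  nlinarith


private lemma link_exp_lip {u v : ℝ} (hu : 0 ≤ u) :
    Real.exp (-u) - Real.exp (-v) ≤ |u - v| := by
  rcases le_total u v with h | h
  · have h1 : Real.exp (-v) = Real.exp (-u) * Real.exp (-(v - u)) := by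
      rw [← Real.exp_add]
      congr 1
      ring
    have h2 : 1 - (v - u) ≤ Real.exp (-(v - u)) := by
      have := Real.add_one_le_exp (-(v - u))
      linarith
    have h3 : Real.exp (-u) ≤ 1 := by
      rw [Real.exp_le_one_iff]
      linarith
    have h4 : 0 < Real.exp (-u) := Real.exp_pos _
    rw [h1, abs_sub_comm, abs_of_nonneg (by linarith)]
    nlinarith
  · have h1 : Real.exp (-u) ≤ Real.exp (-v) := Real.exp_le_exp.2 (by linarith)
    have := abs_nonneg (u - v)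
    linarith

private lemma link_eta {N : ℕ} (z : ℝ) (hz0 : 0 ≤ z) (hz1 : z ≤ 1 / 100) :
    |(1 - z) ^ N - 1 / 2| ≤ |N * z - Real.log 2| + 2 * (N * z ^ 2) := by
  have hlog : (1 : ℝ) / 2 = Real.exp (-Real.log 2) := by
    rw [Real.exp_neg, Real.exp_log (by norm_num)]
    norm_num
  have hl0 : 0 ≤ Real.log 2 := Real.log_nonneg (by norm_num)
  have hup : (1 - z) ^ N ≤ Real.exp (-(N * z)) := by
    have h1 : 1 - z ≤ Real.exp (-z) := by
      have := Real.add_one_le_exp (-z)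
      linarith
    have h2 : Real.exp (-(N * z)) = Real.exp (-z) ^ N := by
      rw [← Real.exp_nat_mul]
      congr 1
      ring
    rw [h2]
    exact pow_le_pow_left₀ (by linarith) h1 N
  have hlow : Real.exp (-(N * z + 2 * (N * z ^ 2))) ≤ (1 - z) ^ N := by
    have h1 : Real.exp (-(z + 2 * z ^ 2)) ≤ 1 - z := by
      have h2 := Real.abs_exp_sub_one_sub_id_le (x := -(z + 2 * z ^ 2)) (by
        rw [abs_neg, abs_of_nonneg (by positivity)]
        nlinarith)
      have h3 := (abs_le.1 h2).2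
      nlinarith [mul_nonneg hz0 hz0, mul_nonneg (mul_nonneg hz0 hz0) hz0]
    have h2 : Real.exp (-(N * z + 2 * (N * z ^ 2))) = Real.exp (-(z + 2 * z ^ 2)) ^ N := by
      rw [← Real.exp_nat_mul]
      congr 1
      ring
    rw [h2]
    exact pow_le_pow_left₀ (Real.exp_pos _).le h1 N
  have hNz : 0 ≤ N * z := by positivity
  have hNz2 : 0 ≤ 2 * (N * z ^ 2) := by positivity
  have h1 := link_exp_lip (u := N * z) (v := Real.log 2) hNz
  have h2 := link_exp_lip (u := Real.log 2) (v := N * z + 2 * (N * z ^ 2)) hl0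
  rw [← hlog] at h1 h2
  have h3 : |Real.log 2 - (N * z + 2 * (N * z ^ 2))| ≤ |N * z - Real.log 2| + 2 * (N * z ^ 2) := by
    have e : Real.log 2 - (N * z + 2 * (N * z ^ 2)) =
        -(N * z - Real.log 2) + -(2 * (N * z ^ 2)) := by ring
    rw [e]
    refine (abs_add_le _ _).trans ?_
    rw [abs_neg, abs_neg, abs_of_nonneg hNz2]
  rw [abs_le]
  constructor <;> linarith

private lemma link_Mb {m N : ℕ} (hm : 1 ≤ m) (hN1 : 100 * m ≤ N) (F : List (Finset (Fin m)))
    (hz : (N : ℝ) * co (ind F) ∅ ≤ 1) :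
    (∑ x : Fin m → Fin N → Bool, |linkM F x - 1 / 2|) / 2 ^ (m * N) ≤
      |N * co (ind F) ∅ - Real.log 2| + 2 / N + Real.sqrt (8 * m / N) := by
  have hm' : (1 : ℝ) ≤ m := by exact_mod_cast hm
  have hN1' : 100 * (m : ℝ) ≤ N := by exact_mod_cast hN1
  have hNpos : (0 : ℝ) < N := by linarith
  have hN2n : 2 ≤ N := by omega
  have hz0 := link_z_nonneg F
  have hz1 : co (ind F) ∅ ≤ 1 / 100 := by nlinarith
  have h1 := M_bound (m := m) (N := N) (linkB F) (1 - co (ind F) ∅) (by linarith) (by linarith)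
  refine h1.trans ?_
  have h2 := link_eta (N := N) (co (ind F) ∅) hz0 hz1
  have h3 : 2 * ((N : ℝ) * co (ind F) ∅ ^ 2) ≤ 2 / N := by
    have h4 : co (ind F) ∅ ≤ 1 / N := by
      rw [le_div_iff₀ hNpos]
      linarith
    have h5 : (N : ℝ) * co (ind F) ∅ ^ 2 ≤ 1 / N := by
      calc (N : ℝ) * co (ind F) ∅ ^ 2 = (N * co (ind F) ∅) * co (ind F) ∅ := by ring
        _ ≤ 1 * (1 / N) := mul_le_mul hz h4 hz0 (by norm_num)
        _ = 1 / N := by ring
    have h6 : 2 / (N : ℝ) = 2 * (1 / N) := by ring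
    rw [h6]
    linarith
  have h4 : (N : ℝ) * ∑ a, linkB F a ^ 2 ≤ 4 * m / N := by
    have h5 : ∑ a, linkB F a ^ 2 ≤ m * (2 / N) ^ 2 := by
      calc ∑ a, linkB F a ^ 2 ≤ ∑ _a : Fin m, (2 / (N : ℝ)) ^ 2 := by
            apply sum_le_sum
            intro a _
            rw [← sq_abs (linkB F a)]
            exact pow_le_pow_left₀ (abs_nonneg _) (link_B_le F hN2n hz a) 2
        _ = m * (2 / N) ^ 2 := by simp
    calc (N : ℝ) * ∑ a, linkB F a ^ 2 ≤ N * (m * (2 / N) ^ 2) :=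
          mul_le_mul_of_nonneg_left h5 hNpos.le
      _ = 4 * m / N := by
          field_simp
          ring
  have h5 : Real.exp (N * ∑ a, linkB F a ^ 2) - 1 ≤ 8 * m / N := by
    have h6 : 0 ≤ (N : ℝ) * ∑ a, linkB F a ^ 2 :=
      mul_nonneg hNpos.le (sum_nonneg fun a _ => sq_nonneg _)
    have h7 : 4 * (m : ℝ) / N ≤ 1 := by
      rw [div_le_one hNpos]
      linarith
    have h8 := Real.abs_exp_sub_one_sub_id_le (x := N * ∑ a, linkB F a ^ 2) (by
      rw [abs_of_nonneg h6]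
      exact h4.trans h7)
    have h9 := (abs_le.1 h8).2
    have h10 : 8 * (m : ℝ) / N = 2 * (4 * m / N) := by ring
    rw [h10]
    nlinarith
  have h6 := Real.sqrt_le_sqrt h5
  linarith

private lemma link_sumE {m κ : ℕ} (hm : 1 ≤ m) (F : List (Finset (Fin m))) (ε : ℝ) (hε : 0 ≤ ε)
    (h : ∀ B : Finset (Fin m), 2 ≤ B.card → B.card < 2 * κ → |co (ind F) B - Qf F B| ≤ ε) :
    ∑ B : Finset (Fin m), |linkE κ F B| ≤ 2 * κ * (m : ℝ) ^ (2 * κ) * ε := by
  have h1 : ∀ B : Finset (Fin m), |linkE κ F B| ≤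
      (fun j => if j < 2 * κ then ε else 0) B.card := by
    intro B
    unfold linkE
    by_cases h2 : 2 ≤ B.card ∧ B.card < 2 * κ
    · rw [if_pos h2]
      simp only [h2.2, if_true]
      exact h B h2.1 h2.2
    · rw [if_neg h2, abs_zero]
      simp only
      split <;> simp [hε]
  refine (sum_le_sum fun B _ => h1 B).trans ?_
  have h2 := Finset.sum_powerset_apply_card (fun j => if j < 2 * κ then ε else 0)
    (x := (univ : Finset (Fin m)))
  rw [powerset_univ] at h2
  rw [h2]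
  simp only [card_univ, Fintype.card_fin, nsmul_eq_mul]
  have hm' : (1 : ℝ) ≤ m := by exact_mod_cast hm
  have h3 : ∀ j ∈ range (m + 1), ((m.choose j : ℕ) : ℝ) * (if j < 2 * κ then ε else 0) ≤
      if j < 2 * κ then (m : ℝ) ^ (2 * κ) * ε else 0 := by
    intro j _
    by_cases hj : j < 2 * κ
    · rw [if_pos hj, if_pos hj]
      apply mul_le_mul_of_nonneg_right _ hε
      calc ((m.choose j : ℕ) : ℝ) ≤ (m : ℝ) ^ j := by
            exact_mod_cast Nat.choose_le_pow m j
        _ ≤ (m : ℝ) ^ (2 * κ) := pow_le_pow_right₀ hm' hj.le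
    · rw [if_neg hj, if_neg hj, mul_zero]
  refine (sum_le_sum h3).trans ?_
  rw [← sum_filter, sum_const, nsmul_eq_mul, mul_assoc]
  apply mul_le_mul_of_nonneg_right _ (by positivity)
  have h4 : ((range (m + 1)).filter fun j => j < 2 * κ) ⊆ range (2 * κ) := by
    intro j hj
    rw [mem_filter] at hj
    exact mem_range.2 hj.2
  have h5 := card_le_card h4
  rw [card_range] at h5
  exact_mod_cast h5

private lemma link_ev_poly (a : ℕ) (c : ℝ) : ∀ᶠ L : ℕ in atTop, c * (L : ℝ) ^ a ≤ 2 ^ L := by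
  have h := tendsto_pow_const_div_const_pow_of_one_lt a (show (1 : ℝ) < 2 by norm_num)
  have h2 : Tendsto (fun n : ℕ => c * ((n : ℝ) ^ a / 2 ^ n)) atTop (𝓝 (c * 0)) := h.const_mul c
  rw [mul_zero] at h2
  filter_upwards [h2.eventually_lt_const (show (0 : ℝ) < 1 by norm_num)] with L hL
  have h3 : (0 : ℝ) < 2 ^ L := by positivity
  have h4 : c * ((L : ℝ) ^ a / 2 ^ L) = (c * (L : ℝ) ^ a) / 2 ^ L := by ring
  rw [h4, div_lt_one h3] at hL
  exact hL.le

theorem link (κ υ : ℕ) (hκ : 2 ≤ κ)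
    (hυ : 4 * Real.log (40000 * (2 * (κ : ℝ) - 1) ^ 5) ≤ υ) :
    ∃ C : ℕ, ∀ᶠ L : ℕ in atTop, ∃ (F : List (Finset (Fin (L ^ 4))))
      (M : (Fin (L ^ 4) → Fin (2 ^ L) → Bool) → ℝ),
      F.length ≤ 2 ^ ((υ + 2) * L) ∧
      (∑ x, |M x - 1 / 2|) / 2 ^ (L ^ 4 * 2 ^ L) ≤ (L : ℝ) ^ C / Real.sqrt (2 ^ L) ∧
      ∀ ψ : (Fin (L ^ 4) → Fin (2 ^ L) → Bool) → ℝ, (∀ x, |ψ x| ≤ 1) →
        ∑ π : Fin (L ^ 4) → Equiv.Perm (Fin (2 ^ L)),
          ((∑ x, ψ x * (∏ c, (1 - ind F (ones (col π c x))) - M x)) / 2 ^ (L ^ 4 * 2 ^ L)) ^ 2 ≤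
          ((2 ^ L).factorial : ℝ) ^ (L ^ 4) * (1 / 2) ^ ((κ - 1) * L) := by
  obtain ⟨C0, hC0⟩ := gadget (2 * κ) (κ + 3) υ (by omega) (by push_cast; exact hυ)
  refine ⟨C0 + 3, ?_⟩
  filter_upwards [hC0, link_ev_poly 4 100, link_ev_poly 8 11, link_ev_poly (2 * C0) (100 / 9),
    link_ev_poly (8 * κ) (8 * κ), Ssum_bound κ hκ, eventually_ge_atTop 4]
    with L hL h100 h11 hC hκL hS hL4
  obtain ⟨F, hF1, hF2, hF3⟩ := hL
  have hL4' : (4 : ℝ) ≤ L := by exact_mod_cast hL4
  have hNpos : (0 : ℝ) < 2 ^ L := by positivity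
  have hcast : ((2 ^ L : ℕ) : ℝ) = 2 ^ L := by push_cast; rfl
  have hm1 : 1 ≤ L ^ 4 := Nat.one_le_pow _ _ (by omega)
  have hN1 : 100 * L ^ 4 ≤ 2 ^ L := by exact_mod_cast h100
  have hN2 : 11 * (L ^ 4) ^ 2 ≤ 2 ^ L := by
    rw [← pow_mul]
    exact_mod_cast h11
  have hsq : (0 : ℝ) < Real.sqrt (2 ^ L) := Real.sqrt_pos.2 hNpos
  have hCs : (L : ℝ) ^ C0 / Real.sqrt (2 ^ L) ≤ 3 / 10 := by
    rw [div_le_iff₀ hsq]
    refine (pow_le_pow_iff_left₀ (by positivity) (by positivity) two_ne_zero).1 ?_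
    rw [mul_pow, Real.sq_sqrt hNpos.le, ← pow_mul]
    have : (3 / 10 : ℝ) ^ 2 = 9 / 100 := by norm_num
    rw [this, mul_comm C0 2]
    linarith
  have hlog2 : Real.log 2 ≤ 7 / 10 := by
    have := Real.log_two_lt_d9
    linarith
  have hz : ((2 ^ L : ℕ) : ℝ) * co (ind F) ∅ ≤ 1 := by
    rw [hcast]
    have := (abs_le.1 (hF2.trans hCs)).2
    linarith
  set s : ℝ := (1 / 2) ^ ((κ - 1) * L) with hs
  have hs0 : 0 < s := by positivity
  have hs1 : s ≤ 1 := pow_le_one₀ (by norm_num) (by norm_num)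
  have hδ : ∑ B : Finset (Fin (L ^ 4)), |linkE κ F B| ≤ (1 / 2 * s) / (2 * ((2 ^ L : ℕ) : ℝ)) := by
    refine (link_sumE hm1 F (1 / 2 ^ ((κ + 3) * L)) (by positivity) hF3).trans ?_
    rw [hcast]
    have e1 : s * 2 ^ ((κ - 1) * L) = 1 := by
      rw [hs, ← mul_pow]
      norm_num
    have e2 : (2 : ℝ) ^ ((κ + 3) * L) = 2 ^ ((κ - 1) * L) * 2 ^ L * (2 ^ L) ^ 3 := by
      rw [← pow_mul, ← pow_add, ← pow_add]
      congr 1
      have : (κ + 3) = (κ - 1) + 4 := by omega
      rw [this]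
      ring
    have e3 : (((L ^ 4 : ℕ) : ℝ)) ^ (2 * κ) = (L : ℝ) ^ (8 * κ) := by
      push_cast
      rw [← pow_mul]
      congr 1
      ring
    rw [e3, mul_one_div, div_le_div_iff₀ (by positivity) (by positivity), e2]
    have h1 : (1 : ℝ) ≤ 2 ^ L := one_le_pow₀ (by norm_num)
    have h2 : 8 * (κ : ℝ) * (L : ℝ) ^ (8 * κ) ≤ (2 ^ L) ^ 3 := by
      refine hκL.trans ?_
      calc (2 : ℝ) ^ L = (2 ^ L) ^ 1 := by ring
        _ ≤ (2 ^ L) ^ 3 := pow_le_pow_right₀ h1 (by norm_num)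
    have e4 : 1 / 2 * s * (2 ^ ((κ - 1) * L) * 2 ^ L * (2 ^ L) ^ 3) =
        1 / 2 * (2 ^ L * (2 ^ L) ^ 3) := by
      linear_combination (1 / 2 * (2 ^ L * (2 ^ L) ^ 3)) * e1
    rw [e4]
    nlinarith
  refine ⟨F, linkM F, hF1, ?_, ?_⟩
  · refine (link_Mb hm1 hN1 F hz).trans ?_
    rw [hcast]
    have h1 : 2 / (2 : ℝ) ^ L ≤ 2 / Real.sqrt (2 ^ L) := by
      apply div_le_div_of_nonneg_left (by norm_num) hsq
      rw [Real.sqrt_le_left (by positivity)]
      have : (1 : ℝ) ≤ 2 ^ L := one_le_pow₀ (by norm_num)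
      nlinarith
    have h2 : Real.sqrt (8 * ((L ^ 4 : ℕ) : ℝ) / 2 ^ L) ≤ 3 * (L : ℝ) ^ 2 / Real.sqrt (2 ^ L) := by
      rw [Real.sqrt_div (by positivity)]
      apply div_le_div_of_nonneg_right _ hsq.le
      rw [Real.sqrt_le_left (by positivity)]
      push_cast
      nlinarith [pow_pos (show (0 : ℝ) < L by linarith) 4]
    have h3 : (L : ℝ) ^ C0 + 2 + 3 * (L : ℝ) ^ 2 ≤ (L : ℝ) ^ (C0 + 3) := by
      have h4 : (1 : ℝ) ≤ (L : ℝ) ^ C0 := one_le_pow₀ (by linarith)
      have h5 : 3 + 3 * (L : ℝ) ^ 2 ≤ (L : ℝ) ^ 3 := by nlinarith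
      rw [pow_add]
      have h6 : 0 ≤ (L : ℝ) ^ 2 := by positivity
      nlinarith
    calc |2 ^ L * co (ind F) ∅ - Real.log 2| + 2 / 2 ^ L + Real.sqrt (8 * ((L ^ 4 : ℕ) : ℝ) / 2 ^ L)
        ≤ (L : ℝ) ^ C0 / Real.sqrt (2 ^ L) + 2 / Real.sqrt (2 ^ L) +
          3 * (L : ℝ) ^ 2 / Real.sqrt (2 ^ L) := by linarith
      _ = ((L : ℝ) ^ C0 + 2 + 3 * (L : ℝ) ^ 2) / Real.sqrt (2 ^ L) := by ring
      _ ≤ (L : ℝ) ^ (C0 + 3) / Real.sqrt (2 ^ L) := div_le_div_of_nonneg_right h3 hsq.le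
  · intro ψ hψ
    have h1 := link_core (κ := κ) (by omega) hm1 hN1 hN2 F hz (1 / 2 * s) hδ (by linarith) ψ hψ
    refine h1.trans ?_
    apply mul_le_mul_of_nonneg_left _ (by positivity)
    rw [hcast]
    have h2 : s ^ 2 ≤ s := by nlinarith
    nlinarith

end Pool.Agent.H.MP_cba12a_lc.SQ
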