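import Pool.Agent.H.MP_cba12a_lc.SQ.Core
import Pool.Agent.H.MP_cba12a_lc.SQ.Link

/-!
# The lower bound: choice of the parameters
-/

namespace Pool.Agent.H.MP_cba12a_lc.SQ

open Finset Filter Topology

/-- the width parameter is large enough -/
theorem width_bound (k : ℕ) (hk : 2 ≤ k) :
    4 * Real.log (40000 * (2 * ((8 * k + 2 : ℕ) : ℝ) - 1) ^ 5) ≤ ((150 * Nat.log 2 k : ℕ) : ℝ) := by
  have hk0 : k ≠ 0 := by omega
  set l := Nat.log 2 k with hl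
  have hl1 : 1 ≤ l := by
    rw [hl]
    exact Nat.log_pos (by norm_num) hk
  have h1 : k < 2 ^ (l + 1) := Nat.lt_pow_succ_log_self (by norm_num) k
  have h2 : (2 * ((8 * k + 2 : ℕ) : ℝ) - 1) ≤ 18 * 2 ^ (l + 1) := by
    have h3 : (k : ℝ) ≤ 2 ^ (l + 1) := by exact_mod_cast h1.le
    have h4 : (2 : ℝ) ≤ k := by exact_mod_cast hk
    push_cast
    linarith
  have h0 : (1 : ℝ) ≤ 2 * ((8 * k + 2 : ℕ) : ℝ) - 1 := by
    have h4 : (2 : ℝ) ≤ k := by exact_mod_cast hk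
    push_cast
    linarith
  have h5 : 40000 * (2 * ((8 * k + 2 : ℕ) : ℝ) - 1) ^ 5 ≤ (2 : ℝ) ^ (42 + 5 * l) := by
    calc 40000 * (2 * ((8 * k + 2 : ℕ) : ℝ) - 1) ^ 5
        ≤ 40000 * (18 * 2 ^ (l + 1)) ^ 5 := by
          gcongr
      _ = (40000 * 18 ^ 5 * 2 ^ 5) * 2 ^ (5 * l) := by ring
      _ ≤ 2 ^ 42 * 2 ^ (5 * l) := by
          gcongr
          norm_num
      _ = (2 : ℝ) ^ (42 + 5 * l) := by rw [pow_add]
  have h6 : Real.log (40000 * (2 * ((8 * k + 2 : ℕ) : ℝ) - 1) ^ 5) ≤ (42 + 5 * l) * Real.log 2 := by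
    calc Real.log (40000 * (2 * ((8 * k + 2 : ℕ) : ℝ) - 1) ^ 5)
        ≤ Real.log ((2 : ℝ) ^ (42 + 5 * l)) := Real.log_le_log (by positivity) h5
      _ = (42 + 5 * l) * Real.log 2 := by
          rw [Real.log_pow]
          push_cast
          ring
  have h7 : Real.log 2 ≤ 0.7 := by
    have := Real.log_two_lt_d9
    linarith
  have h8 : (1 : ℝ) ≤ l := by exact_mod_cast hl1
  have h9 : (42 + 5 * (l : ℝ)) * Real.log 2 ≤ (42 + 5 * l) * 0.7 := by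
    gcongr
  have h10 : ((150 * l : ℕ) : ℝ) = 150 * (l : ℝ) := by push_cast; ring
  rw [h10]
  linarith

/-- choice of the parameter `L` -/
theorem exists_L (L₀ : ℕ) : ∃ n₀ : ℕ, ∀ n ≥ n₀, ∃ L ≥ L₀, L ^ 4 * 2 ^ L ≤ n ∧
    n < (L + 1) ^ 4 * 2 ^ (L + 1) := by
  refine ⟨L₀ ^ 4 * 2 ^ L₀, ?_⟩
  intro n hn
  have hex : ∃ b, ∀ L, L ^ 4 * 2 ^ L ≤ n → L ≤ b := by
    refine ⟨n, ?_⟩
    intro L hL
    rcases Nat.eq_zero_or_pos L with h | h
    · omega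
    · calc L ≤ L ^ 4 := Nat.le_self_pow (by norm_num) L
        _ ≤ L ^ 4 * 2 ^ L := Nat.le_mul_of_pos_right _ (by positivity)
        _ ≤ n := hL
  obtain ⟨b, hb⟩ := hex
  have hL0 : L₀ ^ 4 * 2 ^ L₀ ≤ n := hn
  set L := Nat.findGreatest (fun L => L ^ 4 * 2 ^ L ≤ n) b with hLdef
  refine ⟨L, Nat.le_findGreatest (hb _ hL0) hL0, ?_, ?_⟩
  · exact Nat.findGreatest_spec (P := fun L => L ^ 4 * 2 ^ L ≤ n) (hb _ hL0) hL0
  · by_contra hc
    have h1 : (L + 1) ^ 4 * 2 ^ (L + 1) ≤ n := not_lt.1 hc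
    have h2 := Nat.le_findGreatest (P := fun L => L ^ 4 * 2 ^ L ≤ n) (hb _ h1) h1
    omega

theorem ev_pow_le (a : ℕ) (c r : ℝ) (hr : 1 < r) (hc : 0 ≤ c) :
    ∀ᶠ L : ℕ in atTop, c * (L : ℝ) ^ a ≤ r ^ L := by
  have h1 := tendsto_pow_const_div_const_pow_of_one_lt a hr
  have h2 : ∀ᶠ L : ℕ in atTop, (L : ℝ) ^ a / r ^ L < 1 / (c + 1) :=
    h1.eventually_lt_const (by positivity)
  filter_upwards [h2] with L hL
  have h3 : (0 : ℝ) < r ^ L := by positivity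
  rw [div_lt_div_iff₀ h3 (by positivity)] at hL
  have h4 : 0 ≤ (L : ℝ) ^ a := by positivity
  nlinarith

/-- the final numerical estimate -/
theorem ev_final (C k : ℕ) (hk : 2 ≤ k) (ε : ℝ) (hε : 0 < ε) :
    ∀ᶠ L : ℕ in atTop, ∀ n : ℕ, L ^ 4 * 2 ^ L ≤ n → n < (L + 1) ^ 4 * 2 ^ (L + 1) →
      (L : ℝ) ^ C / Real.sqrt (2 ^ L) + 1 / (n : ℝ) ^ k ≤ (n : ℝ) ^ (-(1 / 2 : ℝ) + ε) := by
  have hr : (1 : ℝ) < 2 ^ ε := Real.one_lt_rpow (by norm_num) hε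
  filter_upwards [ev_pow_le (C + 2) 16 _ hr (by norm_num), eventually_ge_atTop 1] with L hL hL1
  intro n hn1 hn2
  have hL1' : (1 : ℝ) ≤ L := by exact_mod_cast hL1
  set s := Real.sqrt (2 ^ L) with hs
  have hs1 : 1 ≤ s := by
    rw [hs]
    apply Real.one_le_sqrt.2
    exact one_le_pow₀ (by norm_num)
  have hs0 : 0 < s := by linarith
  have hss : s * s = 2 ^ L := Real.mul_self_sqrt (by positivity)
  have hn3 : (2 : ℝ) ^ L ≤ n := by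
    have h1 : 2 ^ L ≤ n := by
      calc 2 ^ L ≤ L ^ 4 * 2 ^ L := Nat.le_mul_of_pos_left _ (by positivity)
        _ ≤ n := hn1
    exact_mod_cast h1
  have hn0 : (0 : ℝ) < n := by
    have : (0 : ℝ) < 2 ^ L := by positivity
    linarith
  have hn1' : (1 : ℝ) ≤ n := by
    have : (1 : ℝ) ≤ 2 ^ L := one_le_pow₀ (by norm_num)
    linarith
  have h4 : Real.sqrt n ≤ 8 * (L : ℝ) ^ 2 * s := by
    rw [Real.sqrt_le_left (by positivity)]
    have h5 : (n : ℝ) ≤ ((L : ℝ) + 1) ^ 4 * 2 ^ (L + 1) := by exact_mod_cast hn2.le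
    calc (n : ℝ) ≤ ((L : ℝ) + 1) ^ 4 * 2 ^ (L + 1) := h5
      _ ≤ (2 * (L : ℝ)) ^ 4 * 2 ^ (L + 1) := by
          gcongr
          linarith
      _ = 32 * (L : ℝ) ^ 4 * (s * s) := by rw [hss, pow_succ]; ring
      _ ≤ 64 * (L : ℝ) ^ 4 * (s * s) := by gcongr; norm_num
      _ = (8 * (L : ℝ) ^ 2 * s) ^ 2 := by ring
  have h6 : ((2 : ℝ) ^ ε) ^ L ≤ (n : ℝ) ^ ε := by
    calc ((2 : ℝ) ^ ε) ^ L = ((2 : ℝ) ^ L) ^ ε := by
          rw [← Real.rpow_natCast, ← Real.rpow_mul (by norm_num), mul_comm,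
            Real.rpow_mul (by norm_num), Real.rpow_natCast]
      _ ≤ (n : ℝ) ^ ε := Real.rpow_le_rpow (by positivity) hn3 hε.le
  have h7 : (n : ℝ) ^ (-(1 / 2 : ℝ) + ε) = (n : ℝ) ^ ε / Real.sqrt n := by
    rw [Real.rpow_add hn0, Real.rpow_neg hn0.le, ← Real.sqrt_eq_rpow]
    field_simp
  have hsn : 0 < Real.sqrt n := Real.sqrt_pos.2 hn0
  have h8 : 1 / (n : ℝ) ^ k ≤ 1 / s := by
    apply one_div_le_one_div_of_le hs0
    calc s ≤ s * s := le_mul_of_one_le_left hs0.le hs1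
      _ = 2 ^ L := hss
      _ ≤ n := hn3
      _ ≤ (n : ℝ) ^ k := le_self_pow₀ hn1' (by omega)
  rw [h7]
  have hLC : (1 : ℝ) ≤ (L : ℝ) ^ C := one_le_pow₀ hL1'
  calc (L : ℝ) ^ C / s + 1 / (n : ℝ) ^ k ≤ (L : ℝ) ^ C / s + 1 / s := by gcongr
    _ ≤ 2 * (L : ℝ) ^ C / s := by
        rw [← add_div]
        gcongr
        linarith
    _ = (16 * (L : ℝ) ^ (C + 2)) / (8 * (L : ℝ) ^ 2 * s) := by
        field_simp
        ring
    _ ≤ (n : ℝ) ^ ε / (8 * (L : ℝ) ^ 2 * s) := by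
        gcongr
        exact hL.trans h6
    _ ≤ (n : ℝ) ^ ε / Real.sqrt n := by
        gcongr

/-- There is a constant `C` such that for all `k ≥ 2` and `ε > 0` and all large `n`: every
randomised statistical query learner making `n ^ k` queries of tolerance `n ^ (-k)` has error
more than `1 / 2 - n ^ (-1/2 + ε)` with probability at least `1 - n ^ (-k)` for some monotone DNF
target with at most `n ^ (C * log k)` terms and some valid oracle. -/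
theorem main_bound : ∃ C : ℕ, ∀ k : ℕ, 2 ≤ k → ∀ ε : ℝ, 0 < ε → ∃ n₀ : ℕ, ∀ n : ℕ, n₀ ≤ n →
    ∀ (Ω : Type) [Fintype Ω] (A : Ω → Learner n),
      ∃ F : List (Finset (Fin n)), F.length ≤ n ^ (C * Nat.log 2 k) ∧
        ∃ O : Query n → ℝ, Valid (mdnf F) (1 / (n : ℝ) ^ k) O ∧
          ((univ.filter fun ω => err ((A ω).out ((A ω).answers O (n ^ k))) (mdnf F) ≤
            1 / 2 - (n : ℝ) ^ (-(1 / 2 : ℝ) + ε)).card : ℝ) ≤ Fintype.card Ω / (n : ℝ) ^ k := by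
  classical
  refine ⟨153, ?_⟩
  intro k hk ε hε
  set κ := 8 * k + 2 with hκ
  set υ := 150 * Nat.log 2 k with hυ
  obtain ⟨C₁, hC₁⟩ := link κ υ (by omega) (width_bound k hk)
  have hev := hC₁.and ((ev_final C₁ k hk ε hε).and
    ((ev_pow_le 4 32 2 (by norm_num) (by norm_num)).and (eventually_ge_atTop 4)))
  obtain ⟨L₀, hL₀⟩ := eventually_atTop.1 hev
  obtain ⟨n₀, hn₀⟩ := exists_L L₀
  refine ⟨n₀, ?_⟩
  intro n hn Ω _ A
  obtain ⟨L, hLL, hn1, hn2⟩ := hn₀ n hn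
  obtain ⟨⟨F, M, hlen, hM, hdev⟩, hfin, hpoly, hL4⟩ := hL₀ L hLL
  have hL1 : 1 ≤ L := by omega
  -- sizes
  have hn3 : 2 ^ L ≤ n := by
    calc 2 ^ L ≤ L ^ 4 * 2 ^ L := Nat.le_mul_of_pos_left _ (by positivity)
      _ ≤ n := hn1
  have hnpos : 0 < n := lt_of_lt_of_le (by positivity) hn3
  have hn4 : n ≤ 2 ^ (2 * L) := by
    have h1 : (n : ℝ) ≤ 2 ^ (2 * L) := by
      have h2 : (n : ℝ) ≤ ((L : ℝ) + 1) ^ 4 * 2 ^ (L + 1) := by exact_mod_cast hn2.le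
      have hL1' : (1 : ℝ) ≤ L := by exact_mod_cast hL1
      calc (n : ℝ) ≤ ((L : ℝ) + 1) ^ 4 * 2 ^ (L + 1) := h2
        _ ≤ (2 * (L : ℝ)) ^ 4 * 2 ^ (L + 1) := by
            gcongr
            linarith
        _ = (32 * (L : ℝ) ^ 4) * 2 ^ L := by rw [pow_succ]; ring
        _ ≤ 2 ^ L * 2 ^ L := by gcongr
        _ = 2 ^ (2 * L) := by rw [two_mul, pow_add]
    exact_mod_cast h1
  set r := n - L ^ 4 * 2 ^ L with hr
  have hnr : n = L ^ 4 * 2 ^ L + r := by omega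
  let e : Fin n ≃ (Fin (L ^ 4) × Fin (2 ^ L)) ⊕ Fin r :=
    (finCongr hnr).trans (finSumFinEquiv.symm.trans
      (Equiv.sumCongr finProdFinEquiv.symm (Equiv.refl _)))
  have hτ : (0 : ℝ) < 1 / (n : ℝ) ^ k := by positivity
  obtain ⟨π, O, hO, hcard⟩ := sq_core e F M ((L : ℝ) ^ C₁ / Real.sqrt (2 ^ L))
    ((1 / 2) ^ ((κ - 1) * L)) hM hdev (n ^ k) (1 / (n : ℝ) ^ k) hτ Ω A
  refine ⟨FF e F π, ?_, O, hO, ?_⟩
  · rw [length_FF]
    calc 2 ^ L * F.length ≤ 2 ^ L * 2 ^ ((υ + 2) * L) := Nat.mul_le_mul_left _ hlen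
      _ = (2 ^ L) ^ (υ + 3) := by
          rw [← pow_mul, ← pow_add]
          congr 1
          ring
      _ ≤ n ^ (υ + 3) := Nat.pow_le_pow_left hn3 _
      _ ≤ n ^ (153 * Nat.log 2 k) := by
          apply Nat.pow_le_pow_right hnpos
          have : 1 ≤ Nat.log 2 k := Nat.log_pos (by norm_num) hk
          omega
  · have hsub : (univ.filter fun ω => err ((A ω).out ((A ω).answers O (n ^ k)))
        (mdnf (FF e F π)) ≤ 1 / 2 - (n : ℝ) ^ (-(1 / 2 : ℝ) + ε)) ⊆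
        univ.filter fun ω => err ((A ω).out ((A ω).answers O (n ^ k))) (mdnf (FF e F π)) ≤
          1 / 2 - (L : ℝ) ^ C₁ / Real.sqrt (2 ^ L) - 1 / (n : ℝ) ^ k := by
      intro ω hω
      rw [mem_filter] at hω ⊢
      refine ⟨mem_univ _, hω.2.trans ?_⟩
      have := hfin n hn1 hn2
      linarith
    have hle : (((univ.filter fun ω => err ((A ω).out ((A ω).answers O (n ^ k)))
        (mdnf (FF e F π)) ≤ 1 / 2 - (n : ℝ) ^ (-(1 / 2 : ℝ) + ε)).card : ℕ) : ℝ) ≤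
        (Fintype.card Ω : ℝ) * ((((n ^ k : ℕ) : ℝ) + 1) *
          (4 * (1 / 2) ^ ((κ - 1) * L) / (1 / (n : ℝ) ^ k) ^ 2)) := by
      refine le_trans ?_ hcard
      have := card_le_card hsub
      exact_mod_cast this
    have hn1' : (1 : ℝ) ≤ (n : ℝ) ^ k := one_le_pow₀ (by exact_mod_cast hnpos)
    have h1 : ((((n ^ k : ℕ) : ℝ) + 1)) ≤ 2 * (n : ℝ) ^ k := by
      push_cast
      linarith
    have h2 : (4 * (1 / 2 : ℝ) ^ ((κ - 1) * L) / (1 / (n : ℝ) ^ k) ^ 2) =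
        4 * (1 / 2 : ℝ) ^ ((κ - 1) * L) * ((n : ℝ) ^ k) ^ 2 := by
      field_simp
    have h3 : ((n : ℝ) ^ k) ^ 4 ≤ 2 ^ (8 * k * L) := by
      calc ((n : ℝ) ^ k) ^ 4 ≤ (((2 : ℝ) ^ (2 * L)) ^ k) ^ 4 := by
            gcongr
            exact_mod_cast hn4
        _ = 2 ^ (8 * k * L) := by
            rw [← pow_mul, ← pow_mul]
            congr 1
            ring
    have h4 : (1 / 2 : ℝ) ^ ((κ - 1) * L) = 1 / (2 ^ (8 * k * L) * 2 ^ L) := by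
      rw [one_div_pow, ← pow_add]
      congr 2
      rw [hκ, show 8 * k + 2 - 1 = 8 * k + 1 by omega]
      ring
    have h5 : (8 : ℝ) ≤ 2 ^ L := by
      calc (8 : ℝ) = 2 ^ 3 := by norm_num
        _ ≤ 2 ^ L := pow_le_pow_right₀ (by norm_num) (by omega)
    have hfinal : (((n ^ k : ℕ) : ℝ) + 1) *
        (4 * (1 / 2) ^ ((κ - 1) * L) / (1 / (n : ℝ) ^ k) ^ 2) ≤ 1 / (n : ℝ) ^ k := by
      rw [h2, h4]
      have h6 : 8 * ((n : ℝ) ^ k) ^ 4 ≤ 2 ^ (8 * k * L) * 2 ^ L := by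
        calc 8 * ((n : ℝ) ^ k) ^ 4 ≤ 2 ^ L * 2 ^ (8 * k * L) := by gcongr
          _ = 2 ^ (8 * k * L) * 2 ^ L := mul_comm _ _
      calc (((n ^ k : ℕ) : ℝ) + 1) * (4 * (1 / (2 ^ (8 * k * L) * 2 ^ L)) * ((n : ℝ) ^ k) ^ 2)
          ≤ (2 * (n : ℝ) ^ k) * (4 * (1 / (2 ^ (8 * k * L) * 2 ^ L)) * ((n : ℝ) ^ k) ^ 2) := by
            gcongr
        _ = (8 * ((n : ℝ) ^ k) ^ 4 / (2 ^ (8 * k * L) * 2 ^ L)) / (n : ℝ) ^ k := by
            field_simp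
            ring
        _ ≤ 1 / (n : ℝ) ^ k := by
            gcongr
            rw [div_le_one (by positivity)]
            exact h6
    calc (((univ.filter fun ω => err ((A ω).out ((A ω).answers O (n ^ k)))
        (mdnf (FF e F π)) ≤ 1 / 2 - (n : ℝ) ^ (-(1 / 2 : ℝ) + ε)).card : ℕ) : ℝ) ≤ _ := hle
      _ ≤ (Fintype.card Ω : ℝ) * (1 / (n : ℝ) ^ k) :=
          mul_le_mul_of_nonneg_left hfinal (by positivity)
      _ = Fintype.card Ω / (n : ℝ) ^ k := mul_one_div _ _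

end Pool.Agent.H.MP_cba12a_lc.SQ
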