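import Pool.Agent.H.MP_cba12a_lc.SQ.Defs

namespace Pool.Agent.H.MP_cba12a_lc.SQ

open Finset Filter Topology MeasureTheory

theorem mom_intg (s : ℝ) (hs : 0 < s) (P : Polynomial ℝ) :
    IntegrableOn (fun x : ℝ => x ^ (s - 1) * (Real.exp (-x) * P.eval x)) (Set.Ioi 0) := by
  induction P using Polynomial.induction_on' with
  | add p q hp hq =>
    have h := hp.add hq
    refine h.congr_fun ?_ measurableSet_Ioi
    intro x _
    simp only [Pi.add_apply, Polynomial.eval_add]
    ring
  | monomial n a =>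
    have h : IntegrableOn (fun x : ℝ => a * (Real.exp (-x) * x ^ (s + n - 1))) (Set.Ioi 0) :=
      (Real.GammaIntegral_convergent (s := s + n) (by positivity)).const_mul a
    refine h.congr_fun ?_ measurableSet_Ioi
    intro x hx
    have hx' : (0 : ℝ) < x := hx
    have h1 : x ^ (s + n - 1) = x ^ (s - 1) * x ^ n := by
      rw [← Real.rpow_natCast x n, ← Real.rpow_add hx']
      congr 1
      ring
    simp only [Polynomial.eval_monomial]
    rw [h1]
    ring

theorem mom_tendsto (s : ℝ) (P : Polynomial ℝ) :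
    Tendsto (fun x : ℝ => x ^ s * (Real.exp (-x) * P.eval x)) atTop (𝓝 0) := by
  induction P using Polynomial.induction_on' with
  | add p q hp hq =>
    have h := hp.add hq
    rw [add_zero] at h
    refine h.congr ?_
    intro x
    rw [Polynomial.eval_add]
    ring
  | monomial n a =>
    have h := (tendsto_rpow_mul_exp_neg_mul_atTop_nhds_zero (s + n) 1 one_pos).const_mul a
    rw [mul_zero] at h
    refine h.congr' ?_
    filter_upwards [eventually_gt_atTop 0] with x hx
    have h1 : x ^ (s + n) = x ^ s * x ^ n := by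
      rw [← Real.rpow_natCast x n, ← Real.rpow_add hx]
    rw [Polynomial.eval_monomial, h1, neg_one_mul]
    ring

theorem mom_hasDerivAt (P : Polynomial ℝ) (x : ℝ) :
    HasDerivAt (fun x : ℝ => Real.exp (-x) * P.eval x)
      (Real.exp (-x) * (P.derivative.eval x - P.eval x)) x := by
  have h1 : HasDerivAt (fun x : ℝ => Real.exp (-x)) (Real.exp (-x) * (-1)) x :=
    (hasDerivAt_neg x).exp
  exact (h1.fun_mul (P.hasDerivAt x)).congr_deriv (by ring)

theorem mom_succ (α : ℝ) (j : ℕ) (x : ℝ) :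
    α * (Real.exp (-x) * (PP α 1 j).eval x) +
      x * (Real.exp (-x) * ((PP α 1 j).derivative.eval x - (PP α 1 j).eval x)) =
      Real.exp (-x) * (PP α 1 (j + 1)).eval x := by
  rw [PP]
  simp only [Polynomial.eval_add, Polynomial.eval_sub, Polynomial.eval_mul, Polynomial.eval_C,
    Polynomial.eval_X]
  ring

theorem mom_rpow (α : ℝ) (x : ℝ) (hx : 0 < x) : x ^ α = x ^ (α - 1) * x := by
  rw [Real.rpow_sub_one hx.ne']
  field_simp

theorem mom_deriv_pow (α : ℝ) (j : ℕ) (x : ℝ) (hx : 0 < x) :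
    HasDerivAt (fun x : ℝ => x ^ α * (Real.exp (-x) * (PP α 1 j).eval x))
      (x ^ (α - 1) * (Real.exp (-x) * (PP α 1 (j + 1)).eval x)) x := by
  have h1 := Real.hasDerivAt_rpow_const (x := x) (p := α) (Or.inl hx.ne')
  refine (h1.fun_mul (mom_hasDerivAt (PP α 1 j) x)).congr_deriv ?_
  rw [← mom_succ, mom_rpow α x hx]
  ring

theorem mom_cont (P : Polynomial ℝ) : Continuous fun x : ℝ => Real.exp (-x) * P.eval x := by
  have := P.continuous
  fun_prop

theorem int_pow (α : ℝ) (h0 : 0 < α) (h1 : α < 1) (j : ℕ) (hj : 1 ≤ j) :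
    MeasureTheory.IntegrableOn (fun x : ℝ => x ^ (α - 1) * (Real.exp (-x) * (PP α 1 j).eval x))
      (Set.Ioi 0) ∧
    ∫ x in Set.Ioi (0 : ℝ), x ^ (α - 1) * (Real.exp (-x) * (PP α 1 j).eval x) = 0 := by
  obtain ⟨i, rfl⟩ : ∃ i, j = i + 1 := ⟨j - 1, by omega⟩
  have hint := mom_intg α h0 (PP α 1 (i + 1))
  refine ⟨hint, ?_⟩
  have hc : ContinuousWithinAt (fun x : ℝ => x ^ α * (Real.exp (-x) * (PP α 1 i).eval x))
      (Set.Ici 0) 0 := by
    apply Continuous.continuousWithinAt
    exact (Real.continuous_rpow_const h0.le).mul (mom_cont _)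
  have := integral_Ioi_of_hasDerivAt_of_tendsto hc
    (fun x hx => mom_deriv_pow α i x hx) hint (mom_tendsto α (PP α 1 i))
  rw [this]
  simp [Real.zero_rpow h0.ne']

theorem mom_abs_log (β : ℝ) (hβ : 0 < β) (x : ℝ) (hx : 0 < x) :
    |Real.log x| ≤ β⁻¹ * x ^ (-β) + x := by
  have h1 : Real.log x ≤ x := Real.log_le_self hx.le
  have h2 : -Real.log x ≤ β⁻¹ * x ^ (-β) := by
    have h3 : Real.log (x ^ (-β)) ≤ x ^ (-β) := Real.log_le_self (by positivity)
    rw [Real.log_rpow hx] at h3
    rw [le_inv_mul_iff₀ hβ]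
    linarith
  have h3 : 0 ≤ β⁻¹ * x ^ (-β) := by positivity
  rw [abs_le]
  constructor <;> linarith

theorem mom_intg_log (α : ℝ) (h0 : 0 < α) (P : Polynomial ℝ) :
    IntegrableOn (fun x : ℝ => x ^ (α - 1) * Real.log x * (Real.exp (-x) * P.eval x))
      (Set.Ioi 0) := by
  have hA := (mom_intg (α / 2) (by positivity) P).norm
  have hB := (mom_intg (α + 1) (by positivity) P).norm
  have hg := (hA.const_mul ((α / 2)⁻¹)).add hB
  refine Integrable.mono' hg ?_ ?_
  · apply Measurable.aestronglyMeasurable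
    have h1 : Measurable fun x : ℝ => P.eval x := P.continuous.measurable
    have h2 : Measurable fun x : ℝ => Real.exp (-x) := by fun_prop
    have h3 : Measurable fun x : ℝ => x ^ (α - 1) := by fun_prop
    exact (h3.mul Real.measurable_log).mul (h2.mul h1)
  · rw [ae_restrict_iff' measurableSet_Ioi]
    filter_upwards with x hx
    have hx' : (0 : ℝ) < x := hx
    have hl := mom_abs_log (α / 2) (by positivity) x hx'
    have e1 : x ^ (α / 2 - 1) = x ^ (α - 1) * x ^ (-(α / 2)) := by
      rw [← Real.rpow_add hx']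
      congr 1
      ring
    have e2 : x ^ (α + 1 - 1) = x ^ (α - 1) * x := by
      rw [← mom_rpow α x hx']
      congr 1
      ring
    have hp1 : 0 ≤ x ^ (α - 1) := by positivity
    have hp2 : 0 ≤ x ^ (-(α / 2)) := by positivity
    simp only [Pi.add_apply, Real.norm_eq_abs]
    rw [e1, e2]
    simp only [abs_mul, abs_of_nonneg hp1, abs_of_nonneg hp2, abs_of_pos hx']
    have hq : 0 ≤ x ^ (α - 1) * (|Real.exp (-x)| * |P.eval x|) := by positivity
    calc x ^ (α - 1) * |Real.log x| * (|Real.exp (-x)| * |P.eval x|)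
        = |Real.log x| * (x ^ (α - 1) * (|Real.exp (-x)| * |P.eval x|)) := by ring
      _ ≤ ((α / 2)⁻¹ * x ^ (-(α / 2)) + x) * (x ^ (α - 1) * (|Real.exp (-x)| * |P.eval x|)) :=
          mul_le_mul_of_nonneg_right hl hq
      _ = _ := by ring

theorem int_log (α : ℝ) (h0 : 0 < α) (h1 : α < 1) (j : ℕ) (hj : 2 ≤ j) :
    MeasureTheory.IntegrableOn
      (fun x : ℝ => x ^ (α - 1) * Real.log x * (Real.exp (-x) * (PP α 1 j).eval x)) (Set.Ioi 0) ∧
    ∫ x in Set.Ioi (0 : ℝ), x ^ (α - 1) * Real.log x * (Real.exp (-x) * (PP α 1 j).eval x) = 0 := by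
  obtain ⟨i, rfl⟩ : ∃ i, j = i + 2 := ⟨j - 2, by omega⟩
  have hint := mom_intg_log α h0 (PP α 1 (i + 2))
  refine ⟨hint, ?_⟩
  set Z : ℝ → ℝ := fun x => Real.log x * x ^ α * (Real.exp (-x) * (PP α 1 (i + 1)).eval x) -
    x ^ α * (Real.exp (-x) * (PP α 1 i).eval x) with hZ
  have hZd : ∀ x ∈ Set.Ioi (0 : ℝ), HasDerivAt Z
      (x ^ (α - 1) * Real.log x * (Real.exp (-x) * (PP α 1 (i + 2)).eval x)) x := by
    intro x hx
    have hx' : (0 : ℝ) < x := hx
    have h2 := (Real.hasDerivAt_log hx'.ne').mul (mom_deriv_pow α (i + 1) x hx')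
    have h3 := h2.sub (mom_deriv_pow α i x hx')
    have h4 : Z = ((fun x : ℝ => Real.log x) * fun x : ℝ => x ^ α * (Real.exp (-x) *
        (PP α 1 (i + 1)).eval x)) - fun x : ℝ => x ^ α * (Real.exp (-x) * (PP α 1 i).eval x) := by
      funext y
      simp only [hZ, Pi.sub_apply, Pi.mul_apply]
      ring
    rw [h4]
    refine h3.congr_deriv ?_
    rw [mom_rpow α x hx']
    field_simp
    ring
  have hc : ContinuousWithinAt Z (Set.Ici 0) 0 := by
    rw [← continuousWithinAt_Ioi_iff_Ici]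
    have hA : ContinuousWithinAt (fun x : ℝ => x ^ α * (Real.exp (-x) * (PP α 1 i).eval x))
        (Set.Ioi 0) 0 := by
      apply Continuous.continuousWithinAt
      exact (Real.continuous_rpow_const h0.le).mul (mom_cont _)
    have hB : ContinuousWithinAt (fun x : ℝ => Real.log x * x ^ α) (Set.Ioi 0) 0 := by
      unfold ContinuousWithinAt
      have := tendsto_log_mul_rpow_nhdsGT_zero h0
      simpa using this
    have hC : ContinuousWithinAt (fun x : ℝ => Real.exp (-x) * (PP α 1 (i + 1)).eval x)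
        (Set.Ioi 0) 0 := (mom_cont _).continuousWithinAt
    exact (hB.mul hC).sub hA
  have hlim : Tendsto Z atTop (𝓝 0) := by
    have hA := mom_tendsto α (PP α 1 i)
    have hB := mom_tendsto (α + 1) (PP α 1 (i + 1))
    have hC : Tendsto (fun x : ℝ => Real.log x / x) atTop (𝓝 0) :=
      Real.isLittleO_log_id_atTop.tendsto_div_nhds_zero
    have hD := (hC.mul hB).sub hA
    rw [zero_mul, sub_zero] at hD
    refine hD.congr' ?_
    filter_upwards [eventually_gt_atTop 0] with x hx
    simp only [hZ]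
    rw [Real.rpow_add_one hx.ne']
    field_simp
  have := integral_Ioi_of_hasDerivAt_of_tendsto hc hZd hint hlim
  rw [this]
  simp [hZ, Real.zero_rpow h0.ne']

end Pool.Agent.H.MP_cba12a_lc.SQ
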