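import Pool.Agent.H.MP_cba12a_lc.SQ.InterpSq

namespace Pool.Agent.H.MP_cba12a_lc.SQ

open Finset Filter Topology

private theorem nearzero_prod (s : Finset ℕ) (a : ℕ → ℝ) (h0 : ∀ i ∈ s, 0 ≤ a i)
    (h1 : ∀ i ∈ s, a i ≤ 1) :
    0 ≤ ∏ i ∈ s, (1 - a i) ∧ ∏ i ∈ s, (1 - a i) ≤ 1 ∧ 1 - ∑ i ∈ s, a i ≤ ∏ i ∈ s, (1 - a i) := by
  classical
  induction s using Finset.induction_on with
  | empty => simp
  | insert j s hj ih =>
    obtain ⟨i1, i2, i3⟩ := ih (fun i hi => h0 i (mem_insert_of_mem hi))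
      (fun i hi => h1 i (mem_insert_of_mem hi))
    have hj0 := h0 j (mem_insert_self _ _)
    have hj1 := h1 j (mem_insert_self _ _)
    rw [prod_insert hj, sum_insert hj]
    refine ⟨mul_nonneg (by linarith) i1, ?_, ?_⟩
    · exact mul_le_one₀ (by linarith) i1 i2
    · have h2 : a j * ∏ i ∈ s, (1 - a i) ≤ a j * 1 := mul_le_mul_of_nonneg_left i2 hj0
      nlinarith

private theorem nearzero_sum2 (n : ℕ) : ∑ i ∈ Icc 1 n, 1 / ((i : ℝ) ^ 2) ≤ 2 := by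
  have h : ∀ n : ℕ, 1 ≤ n → ∑ i ∈ Icc 1 n, 1 / ((i : ℝ) ^ 2) ≤ 2 - 1 / (n : ℝ) := by
    intro n hn
    induction n, hn using Nat.le_induction with
    | base => norm_num
    | succ n hn ih =>
      rw [Finset.sum_Icc_succ_top (by omega)]
      have hn0 : (0 : ℝ) < n := by exact_mod_cast hn
      have h2 : 1 / (((n + 1 : ℕ) : ℝ) ^ 2) ≤ 1 / (n : ℝ) - 1 / ((n + 1 : ℕ) : ℝ) := by
        push_cast
        rw [div_sub_div _ _ hn0.ne' (by positivity), div_le_div_iff₀ (by positivity)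
          (by positivity)]
        nlinarith
      linarith
  rcases Nat.eq_zero_or_pos n with rfl | hn
  · simp
  · have := h n hn
    have h2 : (0 : ℝ) ≤ 1 / (n : ℝ) := by positivity
    linarith

private theorem nearzero_sum4 (n : ℕ) : ∑ i ∈ Icc 1 n, 1 / ((i : ℝ) ^ 2) * (1 / (i : ℝ) ^ 2) ≤ 2 := by
  refine le_trans (Finset.sum_le_sum fun i hi => ?_) (nearzero_sum2 n)
  rw [mem_Icc] at hi
  have hi1 : (1 : ℝ) ≤ i := by exact_mod_cast hi.1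
  have h1 : 1 / (i : ℝ) ^ 2 ≤ 1 := by
    rw [div_le_one (by positivity)]
    exact one_le_pow₀ hi1
  have h2 : 0 ≤ 1 / (i : ℝ) ^ 2 := by positivity
  calc 1 / ((i : ℝ) ^ 2) * (1 / (i : ℝ) ^ 2) ≤ 1 / ((i : ℝ) ^ 2) * 1 :=
        mul_le_mul_of_nonneg_left h1 h2
    _ = _ := by ring

private theorem nearzero_point (n : ℕ) (hn : 2 ≤ n) (Q : Polynomial ℝ) (hQ : Q.natDegree ≤ n)
    (hC : 0 ≤ Q.eval 0) (τ0 : ℝ) (hτ0 : τ0 = 1 / (2 * (n : ℝ) ^ 2))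
    (hψ : ∀ y, τ0 ≤ y → y ≤ 1 → 0 ≤ Q.eval 0 - Real.exp (-y) * Q.eval y)
    (x : ℝ) (hx0 : 0 ≤ x) (hx : x ≤ τ0) (τ : ℝ) (h1 : τ0 ≤ τ) (h2 : τ ≤ 2 * τ0) :
    |Q.eval 0 - Real.exp (-x) * Q.eval x| ≤ 15 * (x / τ0) * Q.eval 0 +
      ∑ i ∈ Icc 1 n, 6 * x / ((i : ℝ) ^ 2 * τ0) *
        (Q.eval 0 - Real.exp (-((i : ℝ) ^ 2 * τ)) * Q.eval ((i : ℝ) ^ 2 * τ)) := by
  have hn0 : (2 : ℝ) ≤ n := by exact_mod_cast hn
  have hτ00 : 0 < τ0 := by rw [hτ0]; positivity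
  have hτ01 : τ0 ≤ 1 := by
    rw [hτ0, div_le_one (by positivity)]
    nlinarith
  have hτ : 0 < τ := by linarith
  obtain ⟨ℓ, hℓ, hint⟩ := interp_sq n Q hQ τ x hτ hx0 (by linarith)
  set C := Q.eval 0 with hCdef
  set P := ∏ i ∈ Icc 1 n, (1 - x / ((i : ℝ) ^ 2 * τ)) with hP
  set E := Real.exp (-x) with hE
  have hE0 : 0 < E := Real.exp_pos _
  have hE1 : E ≤ 1 := Real.exp_le_one_iff.2 (by linarith)
  have hEx : 1 - x ≤ E := by
    have := Real.add_one_le_exp (-x)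
    linarith
  -- the nodes
  have hnode : ∀ i ∈ Icc 1 n, τ0 ≤ (i : ℝ) ^ 2 * τ ∧ (i : ℝ) ^ 2 * τ ≤ 1 := by
    intro i hi
    rw [mem_Icc] at hi
    have hi1 : (1 : ℝ) ≤ i := by exact_mod_cast hi.1
    have hin : (i : ℝ) ≤ n := by exact_mod_cast hi.2
    have hi2 : (1 : ℝ) ≤ (i : ℝ) ^ 2 := one_le_pow₀ hi1
    have hin2 : (i : ℝ) ^ 2 ≤ (n : ℝ) ^ 2 := pow_le_pow_left₀ (by linarith) hin 2
    constructor
    · nlinarith
    · calc (i : ℝ) ^ 2 * τ ≤ (n : ℝ) ^ 2 * (2 * τ0) :=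
            mul_le_mul hin2 h2 hτ.le (by positivity)
        _ = 1 := by rw [hτ0]; field_simp
  -- the product
  have hfac : ∀ i ∈ Icc 1 n, x / ((i : ℝ) ^ 2 * τ) ≤ (x / τ0) * (1 / (i : ℝ) ^ 2) := by
    intro i hi
    rw [mem_Icc] at hi
    have hi1 : (1 : ℝ) ≤ i := by exact_mod_cast hi.1
    have h3 : x / ((i : ℝ) ^ 2 * τ) ≤ x / ((i : ℝ) ^ 2 * τ0) :=
      div_le_div_of_nonneg_left hx0 (by positivity) (mul_le_mul_of_nonneg_left h1 (by positivity))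
    refine h3.trans (le_of_eq ?_)
    field_simp
  have hxτ : 0 ≤ x / τ0 := div_nonneg hx0 hτ00.le
  obtain ⟨hP0, hP1, hPs⟩ := nearzero_prod (Icc 1 n) (fun i => x / ((i : ℝ) ^ 2 * τ))
    (fun i hi => div_nonneg hx0 (by positivity))
    (fun i hi => by
      rw [div_le_one (by
        rw [mem_Icc] at hi
        have : (0 : ℝ) < i := by exact_mod_cast hi.1
        positivity)]
      exact hx.trans (hnode i hi).1)
  have hsum : ∑ i ∈ Icc 1 n, x / ((i : ℝ) ^ 2 * τ) ≤ 2 * (x / τ0) := by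
    calc ∑ i ∈ Icc 1 n, x / ((i : ℝ) ^ 2 * τ) ≤ ∑ i ∈ Icc 1 n, (x / τ0) * (1 / (i : ℝ) ^ 2) :=
          Finset.sum_le_sum hfac
      _ = (x / τ0) * ∑ i ∈ Icc 1 n, 1 / (i : ℝ) ^ 2 := by rw [Finset.mul_sum]
      _ ≤ (x / τ0) * 2 := mul_le_mul_of_nonneg_left (nearzero_sum2 n) hxτ
      _ = _ := by ring
  have hPlow : 1 - 2 * (x / τ0) ≤ P := by linarith
  have hxx : x ≤ x / τ0 := by
    rw [le_div_iff₀ hτ00]
    nlinarith
  have hEP : |1 - E * P| ≤ 3 * (x / τ0) := by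
    have h3 : E * P ≤ 1 := mul_le_one₀ hE1 hP0 hP1
    have h4 : 1 - E * P = (1 - E) + E * (1 - P) := by ring
    have h5 : E * (1 - P) ≤ 1 * (1 - P) := mul_le_mul_of_nonneg_right hE1 (by linarith)
    rw [abs_of_nonneg (by linarith)]
    linarith
  -- the terms
  have hexpi : ∀ i ∈ Icc 1 n, E * Real.exp ((i : ℝ) ^ 2 * τ) * |ℓ i| ≤
      6 * x / ((i : ℝ) ^ 2 * τ0) := by
    intro i hi
    have hle := hℓ i hi
    obtain ⟨_, h4⟩ := hnode i hi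
    rw [mem_Icc] at hi
    have hi1 : (1 : ℝ) ≤ i := by exact_mod_cast hi.1
    have h3 : 2 * x / ((i : ℝ) ^ 2 * τ) ≤ 2 * x / ((i : ℝ) ^ 2 * τ0) :=
      div_le_div_of_nonneg_left (by positivity) (by positivity)
        (mul_le_mul_of_nonneg_left h1 (by positivity))
    have h5 : Real.exp ((i : ℝ) ^ 2 * τ) ≤ 3 :=
      (Real.exp_le_exp.2 h4).trans Real.exp_one_lt_three.le
    have h6 : E * Real.exp ((i : ℝ) ^ 2 * τ) ≤ 1 * 3 :=
      mul_le_mul hE1 h5 (Real.exp_pos _).le zero_le_one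
    calc E * Real.exp ((i : ℝ) ^ 2 * τ) * |ℓ i| ≤ (1 * 3) * (2 * x / ((i : ℝ) ^ 2 * τ0)) :=
          mul_le_mul h6 (hle.trans h3) (abs_nonneg _) (by norm_num)
      _ = _ := by ring
  have hval : ∀ i, Q.eval ((i : ℝ) ^ 2 * τ) = Real.exp ((i : ℝ) ^ 2 * τ) *
      (C - (C - Real.exp (-((i : ℝ) ^ 2 * τ)) * Q.eval ((i : ℝ) ^ 2 * τ))) := by
    intro i
    have : Real.exp ((i : ℝ) ^ 2 * τ) * Real.exp (-((i : ℝ) ^ 2 * τ)) = 1 := by
      rw [← Real.exp_add]; simp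
    linear_combination - Q.eval ((i : ℝ) ^ 2 * τ) * this
  set ψ : ℕ → ℝ := fun i => C - Real.exp (-((i : ℝ) ^ 2 * τ)) * Q.eval ((i : ℝ) ^ 2 * τ) with hψi
  have hψ0 : ∀ i ∈ Icc 1 n, 0 ≤ ψ i := fun i hi => hψ _ (hnode i hi).1 (hnode i hi).2
  have hmain : C - E * Q.eval x = C * (1 - E * P) -
      C * ∑ i ∈ Icc 1 n, E * Real.exp ((i : ℝ) ^ 2 * τ) * ℓ i +
      ∑ i ∈ Icc 1 n, ψ i * (E * Real.exp ((i : ℝ) ^ 2 * τ) * ℓ i) := by
    have h3 : ∑ i ∈ Icc 1 n, Q.eval ((i : ℝ) ^ 2 * τ) * ℓ i =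
        ∑ i ∈ Icc 1 n, (C - ψ i) * (Real.exp ((i : ℝ) ^ 2 * τ) * ℓ i) := by
      refine Finset.sum_congr rfl fun i _ => ?_
      rw [hval i]; ring
    rw [hint, h3, Finset.mul_sum, ← sub_eq_zero]
    have h4 : E * (C * P + ∑ i ∈ Icc 1 n, (C - ψ i) * (Real.exp ((i : ℝ) ^ 2 * τ) * ℓ i)) =
        E * C * P + ∑ i ∈ Icc 1 n, (C * (E * Real.exp ((i : ℝ) ^ 2 * τ) * ℓ i) -
          ψ i * (E * Real.exp ((i : ℝ) ^ 2 * τ) * ℓ i)) := by
      rw [mul_add, Finset.mul_sum]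
      congr 1
      · ring
      · exact Finset.sum_congr rfl fun i _ => by ring
    rw [h4, Finset.sum_sub_distrib]
    ring
  have hs1 : |∑ i ∈ Icc 1 n, E * Real.exp ((i : ℝ) ^ 2 * τ) * ℓ i| ≤ 12 * (x / τ0) := by
    calc |∑ i ∈ Icc 1 n, E * Real.exp ((i : ℝ) ^ 2 * τ) * ℓ i|
        ≤ ∑ i ∈ Icc 1 n, |E * Real.exp ((i : ℝ) ^ 2 * τ) * ℓ i| := Finset.abs_sum_le_sum_abs _ _
      _ ≤ ∑ i ∈ Icc 1 n, 6 * (x / τ0) * (1 / (i : ℝ) ^ 2) := by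
        refine Finset.sum_le_sum fun i hi => ?_
        rw [abs_mul, abs_of_pos (mul_pos hE0 (Real.exp_pos _))]
        refine (hexpi i hi).trans (le_of_eq ?_)
        rw [mem_Icc] at hi
        have hi1 : (1 : ℝ) ≤ i := by exact_mod_cast hi.1
        field_simp
      _ = 6 * (x / τ0) * ∑ i ∈ Icc 1 n, 1 / (i : ℝ) ^ 2 := by rw [Finset.mul_sum]
      _ ≤ 6 * (x / τ0) * 2 := mul_le_mul_of_nonneg_left (nearzero_sum2 n) (by positivity)
      _ = _ := by ring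
  have hs2 : |∑ i ∈ Icc 1 n, ψ i * (E * Real.exp ((i : ℝ) ^ 2 * τ) * ℓ i)| ≤
      ∑ i ∈ Icc 1 n, 6 * x / ((i : ℝ) ^ 2 * τ0) * ψ i := by
    refine (Finset.abs_sum_le_sum_abs _ _).trans (Finset.sum_le_sum fun i hi => ?_)
    rw [abs_mul, abs_of_nonneg (hψ0 i hi), abs_mul,
      abs_of_pos (mul_pos hE0 (Real.exp_pos _)), mul_comm (ψ i)]
    exact mul_le_mul_of_nonneg_right (hexpi i hi) (hψ0 i hi)
  rw [hmain]
  have t1 : |C * (1 - E * P)| ≤ C * (3 * (x / τ0)) := by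
    rw [abs_mul, abs_of_nonneg hC]
    exact mul_le_mul_of_nonneg_left hEP hC
  have t2 : |C * ∑ i ∈ Icc 1 n, E * Real.exp ((i : ℝ) ^ 2 * τ) * ℓ i| ≤ C * (12 * (x / τ0)) := by
    rw [abs_mul, abs_of_nonneg hC]
    exact mul_le_mul_of_nonneg_left hs1 hC
  have t3 := abs_add_le (C * (1 - E * P) - C * ∑ i ∈ Icc 1 n, E * Real.exp ((i : ℝ) ^ 2 * τ) * ℓ i)
    (∑ i ∈ Icc 1 n, ψ i * (E * Real.exp ((i : ℝ) ^ 2 * τ) * ℓ i))
  have t4 := abs_sub (C * (1 - E * P)) (C * ∑ i ∈ Icc 1 n, E * Real.exp ((i : ℝ) ^ 2 * τ) * ℓ i)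
  linarith

theorem near_zero (n : ℕ) (hn : 2 ≤ n) (Q : Polynomial ℝ) (hQ : Q.natDegree ≤ n)
    (hC : 0 ≤ Q.eval 0)
    (hψ : ∀ y, 1 / (2 * (n : ℝ) ^ 2) ≤ y → y ≤ 1 → 0 ≤ Q.eval 0 - Real.exp (-y) * Q.eval y)
    (x : ℝ) (hx0 : 0 ≤ x) (hx : x ≤ 1 / (2 * (n : ℝ) ^ 2)) :
    |Q.eval 0 - Real.exp (-x) * Q.eval x| ≤
      (30 * (n : ℝ) ^ 2 * Q.eval 0 + 48 * (n : ℝ) ^ 4 *
        ∫ y in (1 / (2 * (n : ℝ) ^ 2))..1, (Q.eval 0 - Real.exp (-y) * Q.eval y)) * x := by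
  have hn0 : (2 : ℝ) ≤ n := by exact_mod_cast hn
  set τ0 : ℝ := 1 / (2 * (n : ℝ) ^ 2) with hτ0
  have hτ00 : 0 < τ0 := by rw [hτ0]; positivity
  have hτ01 : τ0 ≤ 1 := by
    rw [hτ0, div_le_one (by positivity)]
    nlinarith
  set ψ : ℝ → ℝ := fun y => Q.eval 0 - Real.exp (-y) * Q.eval y with hψdef
  have hcont : Continuous ψ := by
    rw [hψdef]
    have := Q.continuous
    fun_prop
  set J : ℝ := ∫ y in τ0..1, ψ y with hJ
  have hJ0 : 0 ≤ J := intervalIntegral.integral_nonneg hτ01 fun y hy => hψ y hy.1 hy.2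
  -- the integrals of the dilates
  have hdil : ∀ i ∈ Icc 1 n, ∫ τ in τ0..(2 * τ0), ψ ((i : ℝ) ^ 2 * τ) ≤ 1 / (i : ℝ) ^ 2 * J := by
    intro i hi
    rw [mem_Icc] at hi
    have hi1 : (1 : ℝ) ≤ i := by exact_mod_cast hi.1
    have hin : (i : ℝ) ≤ n := by exact_mod_cast hi.2
    have hi2 : (1 : ℝ) ≤ (i : ℝ) ^ 2 := one_le_pow₀ hi1
    have hin2 : (i : ℝ) ^ 2 ≤ (n : ℝ) ^ 2 := pow_le_pow_left₀ (by linarith) hin 2
    rw [intervalIntegral.integral_comp_mul_left ψ (by positivity : ((i : ℝ) ^ 2) ≠ 0),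
      smul_eq_mul, one_div]
    refine mul_le_mul_of_nonneg_left ?_ (by positivity)
    refine intervalIntegral.integral_mono_interval ?_ ?_ ?_ ?_ (hcont.intervalIntegrable _ _)
    · nlinarith
    · nlinarith
    · calc (i : ℝ) ^ 2 * (2 * τ0) ≤ (n : ℝ) ^ 2 * (2 * τ0) :=
            mul_le_mul_of_nonneg_right hin2 (by positivity)
        _ = 1 := by rw [hτ0]; field_simp
    · rw [Filter.EventuallyLE, MeasureTheory.ae_restrict_iff' measurableSet_Ioc]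
      exact Filter.Eventually.of_forall fun y hy => hψ y hy.1.le hy.2
  have hle : τ0 ≤ 2 * τ0 := by linarith
  have hint : ∫ τ in τ0..(2 * τ0), |ψ x| ≤ ∫ τ in τ0..(2 * τ0), (15 * (x / τ0) * Q.eval 0 +
      ∑ i ∈ Icc 1 n, 6 * x / ((i : ℝ) ^ 2 * τ0) * ψ ((i : ℝ) ^ 2 * τ)) := by
    refine intervalIntegral.integral_mono_on hle ?_ ?_ fun τ hτ => ?_
    · exact intervalIntegrable_const
    · refine Continuous.intervalIntegrable ?_ _ _
      refine continuous_const.add (continuous_finsetSum _ fun i _ => ?_)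
      exact continuous_const.mul (hcont.comp (continuous_const.mul continuous_id))
    · exact nearzero_point n hn Q hQ hC τ0 rfl hψ x hx0 hx τ hτ.1 hτ.2
  rw [intervalIntegral.integral_const, smul_eq_mul,
    intervalIntegral.integral_add intervalIntegrable_const (by
      refine Continuous.intervalIntegrable ?_ _ _
      refine continuous_finsetSum _ fun i _ => ?_
      exact continuous_const.mul (hcont.comp (continuous_const.mul continuous_id))),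
    intervalIntegral.integral_const, smul_eq_mul,
    intervalIntegral.integral_finsetSum (fun i _ => by
      refine Continuous.intervalIntegrable ?_ _ _
      exact continuous_const.mul (hcont.comp (continuous_const.mul continuous_id)))] at hint
  have hsum : ∑ i ∈ Icc 1 n, ∫ τ in τ0..(2 * τ0), 6 * x / ((i : ℝ) ^ 2 * τ0) *
      ψ ((i : ℝ) ^ 2 * τ) ≤ 12 * x / τ0 * J := by
    calc ∑ i ∈ Icc 1 n, ∫ τ in τ0..(2 * τ0), 6 * x / ((i : ℝ) ^ 2 * τ0) *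
        ψ ((i : ℝ) ^ 2 * τ) ≤
          ∑ i ∈ Icc 1 n, (6 * x / τ0 * J) * (1 / ((i : ℝ) ^ 2) * (1 / (i : ℝ) ^ 2)) := by
          refine Finset.sum_le_sum fun i hi => ?_
          rw [intervalIntegral.integral_const_mul]
          have h1 := hdil i hi
          rw [mem_Icc] at hi
          have hi1 : (1 : ℝ) ≤ i := by exact_mod_cast hi.1
          calc 6 * x / ((i : ℝ) ^ 2 * τ0) * ∫ τ in τ0..(2 * τ0), ψ ((i : ℝ) ^ 2 * τ) ≤
                6 * x / ((i : ℝ) ^ 2 * τ0) * (1 / (i : ℝ) ^ 2 * J) :=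
                mul_le_mul_of_nonneg_left h1 (by positivity)
            _ = _ := by field_simp
      _ = (6 * x / τ0 * J) * ∑ i ∈ Icc 1 n, (1 / ((i : ℝ) ^ 2) * (1 / (i : ℝ) ^ 2)) := by
        rw [Finset.mul_sum]
      _ ≤ (6 * x / τ0 * J) * 2 :=
        mul_le_mul_of_nonneg_left (nearzero_sum4 n) (mul_nonneg (by positivity) hJ0)
      _ = _ := by ring
  have hfin : τ0 * |ψ x| ≤ τ0 * ((15 * (x / τ0) * Q.eval 0) + 12 * x / τ0 ^ 2 * J) := by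
    have e1 : (2 * τ0 - τ0) = τ0 := by ring
    rw [e1] at hint
    calc τ0 * |ψ x| ≤ τ0 * (15 * (x / τ0) * Q.eval 0) + 12 * x / τ0 * J := by linarith
      _ = _ := by field_simp
  have hfin2 := le_of_mul_le_mul_left hfin hτ00
  refine hfin2.trans (le_of_eq ?_)
  rw [hτ0]
  field_simp
  ring

end Pool.Agent.H.MP_cba12a_lc.SQ
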