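import Pool.Agent.H.MP_cba12a_lc.SQ.Mom
import Pool.Agent.H.MP_cba12a_lc.SQ.NearZero
import Pool.Agent.H.MP_cba12a_lc.SQ.TailB

namespace Pool.Agent.H.MP_cba12a_lc.SQ

open Finset Filter Topology

private theorem profile_coeff_succ (a b : ℝ) (j M : ℕ) :
    (PP a b (j + 1)).coeff (M + 1) = a * (PP a b j).coeff (M + 1) +
      b * ((PP a b j).coeff (M + 1) * (M + 1)) - b * (PP a b j).coeff M := by
  rw [PP]
  simp only [Polynomial.coeff_sub, Polynomial.coeff_add, Polynomial.coeff_C_mul,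
    Polynomial.coeff_X_mul, Polynomial.coeff_derivative]

private theorem profile_coeff (a b : ℝ) (j : ℕ) :
    (∀ N, j < N → (PP a b j).coeff N = 0) ∧ (PP a b j).coeff j = (-b) ^ j := by
  induction j with
  | zero =>
    constructor
    · intro N hN
      rw [PP, Polynomial.coeff_one]
      simp [hN.ne']
    · simp [PP]
  | succ j ih =>
    constructor
    · intro N hN
      obtain ⟨M, rfl⟩ : ∃ M, N = M + 1 := ⟨N - 1, by omega⟩
      rw [profile_coeff_succ, ih.1 (M + 1) (by omega), ih.1 M (by omega)]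
      ring
    · rw [profile_coeff_succ, ih.1 (j + 1) (by omega), ih.2]
      ring

theorem natDegree_PP (a b : ℝ) (hb : b ≠ 0) (j : ℕ) : (PP a b j).natDegree = j := by
  apply le_antisymm
  · rw [Polynomial.natDegree_le_iff_coeff_eq_zero]
    exact (profile_coeff a b j).1
  · apply Polynomial.le_natDegree_of_ne_zero
    rw [(profile_coeff a b j).2]
    exact pow_ne_zero _ (neg_ne_zero.mpr hb)

theorem eval_zero_PP (a b : ℝ) (j : ℕ) : (PP a b j).eval 0 = a ^ j := by
  induction j with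
  | zero => simp [PP]
  | succ j ih =>
    rw [PP]
    simp only [Polynomial.eval_sub, Polynomial.eval_add, Polynomial.eval_mul, Polynomial.eval_C,
      Polynomial.eval_X, ih]
    ring

/-- the weight function -/
private noncomputable def profile_rho (α lo x : ℝ) : ℝ :=
  x ^ (α - 1) * (Real.log x - Real.log lo)

/-- its primitive -/
private noncomputable def profile_F (α lo x : ℝ) : ℝ :=
  x ^ α / α * (Real.log x - Real.log lo) - x ^ α / α ^ 2

private theorem profile_F_deriv (α lo x : ℝ) (hα : 0 < α) (hx : 0 < x) :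
    HasDerivAt (profile_F α lo) (profile_rho α lo x) x := by
  have h1 : HasDerivAt (fun y : ℝ => y ^ α) (α * x ^ (α - 1)) x :=
    Real.hasDerivAt_rpow_const (Or.inl hx.ne')
  have h2 : HasDerivAt (fun y : ℝ => Real.log y - Real.log lo) (x⁻¹) x :=
    (Real.hasDerivAt_log hx.ne').sub_const _
  have h3 := ((h1.div_const α).mul h2).sub (h1.div_const (α ^ 2))
  have h4 : x ^ (α - 1) = x ^ α * x⁻¹ := by
    rw [Real.rpow_sub hx, Real.rpow_one, div_eq_mul_inv]
  refine h3.congr_deriv ?_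
  unfold profile_rho
  rw [h4]
  field_simp
  ring

private theorem profile_F_zero (α lo : ℝ) (hα : 0 < α) : profile_F α lo 0 = 0 := by
  unfold profile_F
  rw [Real.zero_rpow hα.ne']
  simp

private theorem profile_F_cont (α lo b : ℝ) (hα : 0 < α) :
    ContinuousOn (profile_F α lo) (Set.Icc 0 b) := by
  intro x hx
  rcases hx.1.eq_or_lt with h0 | h0
  · subst h0
    have ht : Tendsto (fun x : ℝ => Real.log x * x ^ α) (𝓝[>] 0) (𝓝 0) :=
      tendsto_log_mul_rpow_nhdsGT_zero hα
    have hp : Tendsto (fun x : ℝ => x ^ α) (𝓝[>] 0) (𝓝 0) := by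
      have h := (Real.continuousAt_rpow_const 0 α (Or.inr hα.le)).tendsto
      rw [Real.zero_rpow hα.ne'] at h
      exact h.mono_left nhdsWithin_le_nhds
    have hF : Tendsto (profile_F α lo) (𝓝[>] 0) (𝓝 (profile_F α lo 0)) := by
      rw [profile_F_zero α lo hα]
      have h := ((ht.div_const α).sub ((hp.div_const α).mul_const (Real.log lo))).sub
        (hp.div_const (α ^ 2))
      simp only [zero_div, zero_mul, sub_zero] at h
      refine h.congr (fun y => ?_)
      unfold profile_F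
      ring
    have hc : ContinuousWithinAt (profile_F α lo) (Set.Ici 0) 0 := by
      rw [← continuousWithinAt_Ioi_iff_Ici]
      exact hF
    exact hc.mono Set.Icc_subset_Ici_self
  · exact (profile_F_deriv α lo x hα h0).continuousAt.continuousWithinAt

private theorem profile_rho_int (α lo : ℝ) (hα : 0 < α) (hlo : 0 < lo) :
    MeasureTheory.IntegrableOn (profile_rho α lo) (Set.Ioc 0 lo) ∧
      ∫ x in (0 : ℝ)..lo, profile_rho α lo x = - (lo ^ α / α ^ 2) := by
  have h1 : MeasureTheory.IntegrableOn (fun x => -profile_rho α lo x) (Set.Ioc 0 lo) := by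
    apply intervalIntegral.integrableOn_deriv_of_nonneg (g := fun x => -profile_F α lo x)
    · exact (profile_F_cont α lo lo hα).neg
    · intro x hx
      exact (profile_F_deriv α lo x hα hx.1).neg
    · intro x hx
      unfold profile_rho
      have h2 : Real.log x ≤ Real.log lo := Real.log_le_log hx.1 hx.2.le
      have h3 : 0 ≤ x ^ (α - 1) := Real.rpow_nonneg hx.1.le _
      nlinarith [mul_nonneg h3 (sub_nonneg.mpr h2)]
  have h4 : MeasureTheory.IntegrableOn (profile_rho α lo) (Set.Ioc 0 lo) := by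
    have := h1.neg
    simpa using! this
  refine ⟨h4, ?_⟩
  rw [intervalIntegral.integral_eq_sub_of_hasDerivAt_of_le hlo.le (profile_F_cont α lo lo hα)
    (fun x hx => profile_F_deriv α lo x hα hx.1)
    ((intervalIntegrable_iff_integrableOn_Ioc_of_le hlo.le).mpr h4), profile_F_zero α lo hα]
  unfold profile_F
  ring

private theorem profile_rho_cont (α lo a : ℝ) (ha : 0 < a) :
    ContinuousOn (profile_rho α lo) (Set.Ici a) := by
  intro x hx
  have hx0 : 0 < x := lt_of_lt_of_le ha hx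
  have h1 : ContinuousAt (fun y : ℝ => y ^ (α - 1)) x :=
    Real.continuousAt_rpow_const x (α - 1) (Or.inl hx0.ne')
  have h2 : ContinuousAt (fun y : ℝ => Real.log y - Real.log lo) x :=
    (Real.continuousAt_log hx0.ne').sub continuousAt_const
  exact (h1.mul h2).continuousWithinAt

private theorem profile_rho_int' (α lo L : ℝ) (hα : 0 < α) (hlo : 0 < lo) (hL : lo ≤ L) :
    ∫ x in lo..L, profile_rho α lo x = profile_F α lo L + lo ^ α / α ^ 2 := by
  rw [intervalIntegral.integral_eq_sub_of_hasDerivAt_of_le hL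
    (f := profile_F α lo) (fun x hx =>
      (profile_F_deriv α lo x hα (lt_of_lt_of_le hlo hx.1)).continuousAt.continuousWithinAt)
    (fun x hx => profile_F_deriv α lo x hα (hlo.trans hx.1))]
  · unfold profile_F
    ring
  · apply ContinuousOn.intervalIntegrable
    rw [Set.uIcc_of_le hL]
    exact (profile_rho_cont α lo lo hlo).mono Set.Icc_subset_Ici_self


/-- pointwise estimate of the tail -/
private theorem profile_tail_pt (n : ℕ) (hn : 2 ≤ n) (α : ℝ) (hα1 : α ≤ 1)
    (x : ℝ) (hx : 100 * (n : ℝ) ≤ x) :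
    0 ≤ profile_rho α (1 / (400 * (n : ℝ) ^ 4)) x ∧
    Real.exp (-x / 2) * (16 * Real.exp 1 * x / (100 * n)) ^ n *
      profile_rho α (1 / (400 * (n : ℝ) ^ 4)) x ≤ Real.exp (-(1 / 4) * x) := by
  have hn2 : (2 : ℝ) ≤ n := by exact_mod_cast hn
  have hn0 : (0 : ℝ) < n := by linarith
  have hx200 : (200 : ℝ) ≤ x := by linarith
  have hx0 : (0 : ℝ) < x := by linarith
  -- the weight
  have hlog : Real.log x - Real.log (1 / (400 * (n : ℝ) ^ 4)) = Real.log (400 * (n : ℝ) ^ 4 * x) := by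
    rw [Real.log_div one_ne_zero (by positivity), Real.log_one,
      Real.log_mul (by positivity) hx0.ne']
    ring
  have h4 : 400 * (n : ℝ) ^ 4 ≤ x ^ 4 := by
    have h1 : (100 * (n : ℝ)) ^ 4 ≤ x ^ 4 := pow_le_pow_left₀ (by positivity) hx 4
    have h2 : 400 * (n : ℝ) ^ 4 ≤ (100 * (n : ℝ)) ^ 4 := by
      have : (0 : ℝ) ≤ (n : ℝ) ^ 4 := by positivity
      rw [mul_pow]
      norm_num
      linarith
    linarith
  have h5 : Real.log (400 * (n : ℝ) ^ 4 * x) ≤ 5 * x := by
    have h1 : Real.log (400 * (n : ℝ) ^ 4 * x) ≤ Real.log (x ^ 5) := by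
      apply Real.log_le_log (by positivity)
      have : 400 * (n : ℝ) ^ 4 * x ≤ x ^ 4 * x := mul_le_mul_of_nonneg_right h4 hx0.le
      calc 400 * (n : ℝ) ^ 4 * x ≤ x ^ 4 * x := this
        _ = x ^ 5 := by ring
    rw [Real.log_pow] at h1
    have h2 : Real.log x ≤ x - 1 := Real.log_le_sub_one_of_pos hx0
    push_cast at h1
    linarith
  have h6 : 0 ≤ Real.log (400 * (n : ℝ) ^ 4 * x) := by
    apply Real.log_nonneg
    have h1 : (1 : ℝ) ≤ (n : ℝ) ^ 4 := one_le_pow₀ (by linarith)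
    have h2 : (1 : ℝ) * 1 ≤ (400 * (n : ℝ) ^ 4) * x :=
      mul_le_mul (by linarith) (by linarith) (by norm_num) (by linarith)
    linarith
  have h7 : x ^ (α - 1) ≤ 1 := Real.rpow_le_one_of_one_le_of_nonpos (by linarith) (by linarith)
  have h8 : 0 ≤ x ^ (α - 1) := Real.rpow_nonneg hx0.le _
  have hrho0 : 0 ≤ profile_rho α (1 / (400 * (n : ℝ) ^ 4)) x := by
    unfold profile_rho
    rw [hlog]
    exact mul_nonneg h8 h6
  have hrho1 : profile_rho α (1 / (400 * (n : ℝ) ^ 4)) x ≤ 5 * x := by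
    unfold profile_rho
    rw [hlog]
    calc x ^ (α - 1) * Real.log (400 * (n : ℝ) ^ 4 * x)
        ≤ 1 * Real.log (400 * (n : ℝ) ^ 4 * x) := mul_le_mul_of_nonneg_right h7 h6
      _ ≤ 5 * x := by linarith
  -- 5 x <= exp (x / 5)
  have h9 : 5 * x ≤ Real.exp ((1 / 5) * x) := by
    have h1 : 1 + (1 / 20) * x ≤ Real.exp ((1 / 20) * x) := by
      have := Real.add_one_le_exp ((1 / 20) * x)
      linarith
    have h2 : Real.exp ((1 / 5) * x) = Real.exp ((1 / 20) * x) ^ 4 := by
      rw [← Real.exp_nat_mul]; congr 1; push_cast; ring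
    rw [h2]
    set y := Real.exp ((1 / 20) * x) with hy
    have hy10 : (10 : ℝ) ≤ y := by linarith
    have h3 : (1000 : ℝ) ≤ y ^ 3 := by
      calc (1000 : ℝ) = 10 ^ 3 := by norm_num
        _ ≤ y ^ 3 := pow_le_pow_left₀ (by norm_num) hy10 3
    calc 5 * x ≤ 1000 * y := by linarith
      _ ≤ y ^ 3 * y := mul_le_mul_of_nonneg_right h3 (by linarith)
      _ = y ^ 4 := by ring
  -- the power
  have h16 : 16 * Real.exp 1 ≤ Real.exp 4 := by
    have h1 : (2.7 : ℝ) < Real.exp 1 := by
      have := Real.exp_one_gt_d9; linarith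
    have h2 : Real.exp 4 = Real.exp 1 ^ 3 * Real.exp 1 := by
      rw [← Real.exp_nat_mul, ← Real.exp_add]; congr 1; norm_num
    rw [h2]
    have h3 : (16 : ℝ) ≤ Real.exp 1 ^ 3 := by
      calc (16 : ℝ) ≤ 2.7 ^ 3 := by norm_num
        _ ≤ Real.exp 1 ^ 3 := pow_le_pow_left₀ (by norm_num) h1.le 3
    exact mul_le_mul_of_nonneg_right h3 (Real.exp_pos 1).le
  have hpow : (16 * Real.exp 1 * x / (100 * n)) ^ n ≤ Real.exp ((1 / 25) * x) := by
    have h1 : x / (100 * n) ≤ Real.exp (x / (100 * n) - 1) := by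
      have := Real.add_one_le_exp (x / (100 * n) - 1)
      linarith
    have h2 : 16 * Real.exp 1 * x / (100 * n) ≤ Real.exp (3 + x / (100 * n)) := by
      have h3 : 16 * Real.exp 1 * x / (100 * n) = 16 * Real.exp 1 * (x / (100 * n)) := by ring
      rw [h3]
      calc 16 * Real.exp 1 * (x / (100 * n)) ≤ Real.exp 4 * Real.exp (x / (100 * n) - 1) := by
            apply mul_le_mul h16 h1 (by positivity) (Real.exp_pos _).le
        _ = Real.exp (3 + x / (100 * n)) := by
            rw [← Real.exp_add]; congr 1; ring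
    calc (16 * Real.exp 1 * x / (100 * n)) ^ n ≤ Real.exp (3 + x / (100 * n)) ^ n :=
          pow_le_pow_left₀ (by positivity) h2 n
      _ = Real.exp (3 * n + (1 / 100) * x) := by
          rw [← Real.exp_nat_mul]
          congr 1
          field_simp
      _ ≤ Real.exp ((1 / 25) * x) := by
          apply Real.exp_le_exp.mpr
          linarith
  refine ⟨hrho0, ?_⟩
  have hpow0 : 0 ≤ (16 * Real.exp 1 * x / (100 * n)) ^ n := by positivity
  calc Real.exp (-x / 2) * (16 * Real.exp 1 * x / (100 * n)) ^ n *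
        profile_rho α (1 / (400 * (n : ℝ) ^ 4)) x
      ≤ Real.exp (-x / 2) * Real.exp ((1 / 25) * x) * Real.exp ((1 / 5) * x) := by
        apply mul_le_mul _ (hrho1.trans h9) hrho0 (by positivity)
        exact mul_le_mul_of_nonneg_left hpow (Real.exp_pos _).le
    _ = Real.exp (-x / 2 + (1 / 25) * x + (1 / 5) * x) := by
        rw [Real.exp_add, Real.exp_add]
    _ ≤ Real.exp (-(1 / 4) * x) := by
        apply Real.exp_le_exp.mpr
        linarith

/-- bounds for the weight -/
private theorem profile_rho_lower (n : ℕ) (hn : 2 ≤ n) (α : ℝ) (hα0 : 0 < α) (hα1 : α ≤ 1) :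
    (∀ x, 1 / (2 * (n : ℝ) ^ 2) ≤ x → x ≤ 1 →
      1 ≤ profile_rho α (1 / (400 * (n : ℝ) ^ 4)) x) ∧
    (∀ x, 25 / 2 * (n : ℝ) ≤ x → x ≤ 50 * n →
      1 / (50 * n) ≤ profile_rho α (1 / (400 * (n : ℝ) ^ 4)) x) := by
  have hn2 : (2 : ℝ) ≤ n := by exact_mod_cast hn
  have hn0 : (0 : ℝ) < n := by linarith
  have he : Real.exp 1 < 3 := by
    have := Real.exp_one_lt_d9; linarith
  have key : ∀ x : ℝ, 0 < x → 3 ≤ 400 * (n : ℝ) ^ 4 * x →
      1 ≤ Real.log x - Real.log (1 / (400 * (n : ℝ) ^ 4)) := by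
    intro x hx0 h
    have hlog : Real.log x - Real.log (1 / (400 * (n : ℝ) ^ 4)) =
        Real.log (400 * (n : ℝ) ^ 4 * x) := by
      rw [Real.log_div one_ne_zero (by positivity), Real.log_one,
        Real.log_mul (by positivity) hx0.ne']
      ring
    rw [hlog, Real.le_log_iff_exp_le (by positivity)]
    linarith
  have hn24 : (4 : ℝ) ≤ (n : ℝ) ^ 2 := by
    calc (4 : ℝ) = 2 ^ 2 := by norm_num
      _ ≤ (n : ℝ) ^ 2 := pow_le_pow_left₀ (by norm_num) hn2 2
  constructor
  · intro x h1 h2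
    have hx0 : 0 < x := lt_of_lt_of_le (by positivity) h1
    have h3 : 3 ≤ 400 * (n : ℝ) ^ 4 * x := by
      have : 400 * (n : ℝ) ^ 4 * (1 / (2 * (n : ℝ) ^ 2)) ≤ 400 * (n : ℝ) ^ 4 * x :=
        mul_le_mul_of_nonneg_left h1 (by positivity)
      have h4 : 400 * (n : ℝ) ^ 4 * (1 / (2 * (n : ℝ) ^ 2)) = 200 * (n : ℝ) ^ 2 := by
        field_simp; ring
      linarith
    have h5 := key x hx0 h3
    have h6 : 1 ≤ x ^ (α - 1) :=
      Real.one_le_rpow_of_pos_of_le_one_of_nonpos hx0 h2 (by linarith)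
    unfold profile_rho
    exact one_le_mul_of_one_le_of_one_le h6 h5
  · intro x h1 h2
    have hx25 : (25 : ℝ) ≤ x := by linarith
    have hx0 : 0 < x := by linarith
    have h3 : 3 ≤ 400 * (n : ℝ) ^ 4 * x := by
      have h3 : (1 : ℝ) ≤ (n : ℝ) ^ 4 := one_le_pow₀ (by linarith)
      have h4 : (1 : ℝ) * 25 ≤ (400 * (n : ℝ) ^ 4) * x :=
        mul_le_mul (by linarith) hx25 (by norm_num) (by linarith)
      linarith
    have h5 := key x hx0 h3
    have h6 : 1 / (50 * n) ≤ x ^ (α - 1) := by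
      have h7 : x ^ (-1 : ℝ) ≤ x ^ (α - 1) :=
        Real.rpow_le_rpow_of_exponent_le (by linarith) (by linarith)
      rw [Real.rpow_neg_one] at h7
      have h8 : 1 / (50 * (n : ℝ)) ≤ x⁻¹ := by
        rw [← one_div]
        exact one_div_le_one_div_of_le hx0 h2
      linarith
    unfold profile_rho
    have h9 : 0 ≤ x ^ (α - 1) := le_trans (by positivity) h6
    exact h6.trans (le_mul_of_one_le_right h9 h5)

/-- the main inequality -/
private theorem profile_ineq (n : ℕ) (hn : 2 ≤ n) (α : ℝ) (hα0 : 0 < α)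
    (hα : α * (2 * Real.log (40000 * (n : ℝ) ^ 5)) ≤ 1) (Q : Polynomial ℝ)
    (hQ : Q.natDegree ≤ n) (hC : 0 ≤ Q.eval 0)
    (hψ : ∀ x : ℝ, 1 / (400 * (n : ℝ) ^ 4) ≤ x → x ≤ 100 * n →
      0 ≤ Q.eval 0 - Real.exp (-x) * Q.eval x)
    (i1 : MeasureTheory.IntegrableOn (fun x : ℝ => x ^ (α - 1) * (Real.exp (-x) * Q.eval x))
      (Set.Ioi 0))
    (z1 : ∫ x in Set.Ioi (0 : ℝ), x ^ (α - 1) * (Real.exp (-x) * Q.eval x) = 0)
    (i2 : MeasureTheory.IntegrableOn
      (fun x : ℝ => x ^ (α - 1) * Real.log x * (Real.exp (-x) * Q.eval x)) (Set.Ioi 0))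
    (z2 : ∫ x in Set.Ioi (0 : ℝ), x ^ (α - 1) * Real.log x * (Real.exp (-x) * Q.eval x) = 0) :
    Q.eval 0 = 0 ∧ ∀ x : ℝ, 1 / (400 * (n : ℝ) ^ 4) < x → x ≤ 100 * n → Q.eval x = 0 := by
  have hn2 : (2 : ℝ) ≤ n := by exact_mod_cast hn
  have hn0 : (0 : ℝ) < n := by linarith
  have hn4 : (16 : ℝ) ≤ (n : ℝ) ^ 4 := by
    calc (16 : ℝ) = 2 ^ 4 := by norm_num
      _ ≤ (n : ℝ) ^ 4 := pow_le_pow_left₀ (by norm_num) hn2 4
  have hn24 : (4 : ℝ) ≤ (n : ℝ) ^ 2 := by
    calc (4 : ℝ) = 2 ^ 2 := by norm_num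
      _ ≤ (n : ℝ) ^ 2 := pow_le_pow_left₀ (by norm_num) hn2 2
  -- the logarithm
  have hR : 10 ≤ Real.log (40000 * (n : ℝ) ^ 5) := by
    rw [Real.le_log_iff_exp_le (by positivity)]
    have h1 : Real.exp 10 ≤ 40000 := by
      have h2 : Real.exp 10 = Real.exp 1 ^ 10 := by
        rw [← Real.exp_nat_mul]; norm_num
      rw [h2]
      calc Real.exp 1 ^ 10 ≤ 2.7182818286 ^ 10 :=
            pow_le_pow_left₀ (Real.exp_pos 1).le Real.exp_one_lt_d9.le 10
        _ ≤ 40000 := by norm_num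
    have h3 : (1 : ℝ) ≤ (n : ℝ) ^ 5 := one_le_pow₀ (by linarith)
    linarith
  set R := Real.log (40000 * (n : ℝ) ^ 5) with hRdef
  have hα20 : α ≤ 1 / 20 := by
    have h1 : α * 20 ≤ α * (2 * R) := mul_le_mul_of_nonneg_left (by linarith) hα0.le
    linarith
  have hα1 : α ≤ 1 := by linarith
  set lo : ℝ := 1 / (400 * (n : ℝ) ^ 4) with hlodef
  set L : ℝ := 100 * (n : ℝ) with hLdef
  have hlo0 : 0 < lo := by rw [hlodef]; positivity
  have hlo1 : lo ≤ 1 / (2 * (n : ℝ) ^ 2) := by
    rw [hlodef]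
    apply one_div_le_one_div_of_le (by positivity)
    have h1 : (n : ℝ) ^ 2 * 4 ≤ (n : ℝ) ^ 2 * (n : ℝ) ^ 2 :=
      mul_le_mul_of_nonneg_left hn24 (by positivity)
    have h2 : (n : ℝ) ^ 4 = (n : ℝ) ^ 2 * (n : ℝ) ^ 2 := by ring
    have h3 : 0 ≤ (n : ℝ) ^ 2 := by positivity
    rw [h2]
    linarith
  have hτ1 : 1 / (2 * (n : ℝ) ^ 2) ≤ 1 := by
    rw [div_le_one (by positivity)]; linarith
  have hτ0 : 0 < 1 / (2 * (n : ℝ) ^ 2) := by positivity
  have hL200 : 200 ≤ L := by rw [hLdef]; linarith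
  have hloL : lo ≤ L := by linarith
  have hloL' : lo < L := by linarith
  obtain ⟨hr1, hr2⟩ := profile_rho_lower n hn α hα0 hα1
  rw [← hlodef] at hr1 hr2
  -- functions
  set C := Q.eval 0 with hCdef
  set φ : ℝ → ℝ := fun x => Real.exp (-x) * Q.eval x with hφdef
  set ρ : ℝ → ℝ := profile_rho α lo with hρdef
  have hρ0 : ∀ x, lo ≤ x → 0 ≤ ρ x := by
    intro x hx
    have hx0 : 0 < x := lt_of_lt_of_le hlo0 hx
    rw [hρdef]; unfold profile_rho
    exact mul_nonneg (Real.rpow_nonneg hx0.le _)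
      (sub_nonneg.mpr (Real.log_le_log hlo0 hx))
  have hφc : Continuous φ := by
    rw [hφdef]
    exact (Real.continuous_exp.comp continuous_neg).mul Q.continuous
  -- integrability of φ ρ
  have hφρeq : (fun x => φ x * ρ x) = fun x => x ^ (α - 1) * Real.log x * (Real.exp (-x) * Q.eval x)
      - Real.log lo * (x ^ (α - 1) * (Real.exp (-x) * Q.eval x)) := by
    funext x
    rw [hφdef, hρdef]
    unfold profile_rho
    ring
  have hI : MeasureTheory.IntegrableOn (fun x => φ x * ρ x) (Set.Ioi 0) := by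
    rw [hφρeq]
    exact i2.sub (i1.const_mul _)
  have hz : ∫ x in Set.Ioi (0 : ℝ), φ x * ρ x = 0 := by
    rw [hφρeq, MeasureTheory.integral_sub i2 (i1.const_mul _), MeasureTheory.integral_const_mul,
      z1, z2]
    simp
  have hIab : ∀ a b : ℝ, 0 ≤ a → a ≤ b → IntervalIntegrable (fun x => φ x * ρ x)
      MeasureTheory.volume a b := by
    intro a b ha hab
    rw [intervalIntegrable_iff_integrableOn_Ioc_of_le hab]
    exact hI.mono_set (fun x hx => lt_of_le_of_lt ha hx.1)
  have hsplit : (∫ x in (0 : ℝ)..lo, φ x * ρ x) + (∫ x in lo..L, φ x * ρ x) +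
      (∫ x in Set.Ioi L, φ x * ρ x) = 0 := by
    rw [intervalIntegral.integral_add_adjacent_intervals (hIab 0 lo le_rfl hlo0.le)
      (hIab lo L hlo0.le hloL),
      intervalIntegral.integral_interval_add_Ioi hI
        (hI.mono_set (Set.Ioi_subset_Ioi (by linarith))), hz]
  -- the function ψ ρ
  have hρc : ContinuousOn ρ (Set.Icc lo L) :=
    (profile_rho_cont α lo lo hlo0).mono Set.Icc_subset_Ici_self
  have hψρc : ContinuousOn (fun x => (C - φ x) * ρ x) (Set.Icc lo L) :=
    (continuous_const.sub hφc).continuousOn.mul hρc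
  have hψρi : ∀ a b : ℝ, lo ≤ a → a ≤ b → b ≤ L → IntervalIntegrable
      (fun x => (C - φ x) * ρ x) MeasureTheory.volume a b := by
    intro a b ha hab hb
    apply ContinuousOn.intervalIntegrable
    rw [Set.uIcc_of_le hab]
    exact hψρc.mono (Set.Icc_subset_Icc ha hb)
  have hψρ0 : ∀ x, lo ≤ x → x ≤ L → 0 ≤ (C - φ x) * ρ x :=
    fun x h1 h2 => mul_nonneg (hψ x h1 h2) (hρ0 x h1)
  set I := ∫ x in lo..L, (C - φ x) * ρ x with hIdef
  have hI0 : 0 ≤ I := by
    rw [hIdef]
    exact intervalIntegral.integral_nonneg hloL (fun x hx => hψρ0 x hx.1 hx.2)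
  have hsub : ∀ a b : ℝ, lo ≤ a → a ≤ b → b ≤ L → ∫ x in a..b, (C - φ x) * ρ x ≤ I := by
    intro a b ha hab hb
    apply intervalIntegral.integral_mono_interval ha hab hb _ (hψρi lo L le_rfl hloL le_rfl)
    filter_upwards [MeasureTheory.ae_restrict_mem measurableSet_Ioc] with x hx
    exact hψρ0 x hx.1.le hx.2
  have hψi : ∀ a b : ℝ, IntervalIntegrable (fun x => C - φ x) MeasureTheory.volume a b :=
    fun a b => (continuous_const.sub hφc).intervalIntegrable a b
  have hJ : ∫ x in (1 / (2 * (n : ℝ) ^ 2))..1, (C - φ x) ≤ I := by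
    refine le_trans ?_ (hsub (1 / (2 * (n : ℝ) ^ 2)) 1 hlo1 hτ1 (by linarith))
    apply intervalIntegral.integral_mono_on hτ1 (hψi _ _) (hψρi _ _ hlo1 hτ1 (by linarith))
    intro x hx
    have h1 := hψ x (hlo1.trans hx.1) (by linarith [hx.2])
    have h2 := hr1 x hx.1 hx.2
    have h3 : 0 ≤ C - φ x := h1
    show C - φ x ≤ (C - φ x) * ρ x
    exact le_mul_of_one_le_right h3 h2
  have hJ' : ∫ x in (25 / 2 * (n : ℝ))..(50 * n), (C - φ x) ≤ 50 * n * I := by
    have hab : 25 / 2 * (n : ℝ) ≤ 50 * n := by linarith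
    have ha : lo ≤ 25 / 2 * (n : ℝ) := by linarith
    have hb : 50 * (n : ℝ) ≤ L := by rw [hLdef]; linarith
    have h1 : ∫ x in (25 / 2 * (n : ℝ))..(50 * n), (C - φ x) ≤
        ∫ x in (25 / 2 * (n : ℝ))..(50 * n), 50 * n * ((C - φ x) * ρ x) := by
      apply intervalIntegral.integral_mono_on hab (hψi _ _)
        ((hψρi _ _ ha hab hb).const_mul _)
      intro x hx
      have h2 : 0 ≤ C - φ x := hψ x (ha.trans hx.1) (hx.2.trans hb)
      have h3 := hr2 x hx.1 hx.2
      have h4 : 1 ≤ 50 * n * ρ x := by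
        rw [div_le_iff₀ (by positivity)] at h3
        linarith
      show C - φ x ≤ 50 * n * ((C - φ x) * ρ x)
      calc C - φ x ≤ (C - φ x) * (50 * n * ρ x) := le_mul_of_one_le_right h2 h4
        _ = 50 * n * ((C - φ x) * ρ x) := by ring
    rw [intervalIntegral.integral_const_mul] at h1
    exact h1.trans (mul_le_mul_of_nonneg_left (hsub _ _ ha hab hb) (by positivity))
  -- part near zero
  set B := 30 * (n : ℝ) ^ 2 * C + 48 * (n : ℝ) ^ 4 * I with hBdef
  have hB0 : 0 ≤ B := by rw [hBdef]; positivity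
  have hnear : ∀ x, 0 ≤ x → x ≤ lo → |C - φ x| ≤ B * x := by
    intro x hx0 hx1
    have h1 := near_zero n hn Q hQ hC
      (fun y hy1 hy2 => hψ y (hlo1.trans hy1) (by linarith)) x hx0 (hx1.trans hlo1)
    refine h1.trans (mul_le_mul_of_nonneg_right ?_ hx0)
    rw [hBdef]
    have h2 : 48 * (n : ℝ) ^ 4 * ∫ y in (1 / (2 * (n : ℝ) ^ 2))..1,
        (Q.eval 0 - Real.exp (-y) * Q.eval y) ≤ 48 * (n : ℝ) ^ 4 * I :=
      mul_le_mul_of_nonneg_left hJ (by positivity)
    linarith
  obtain ⟨hρi, hρv⟩ := profile_rho_int α lo hα0 hlo0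
  have hρi' : IntervalIntegrable ρ MeasureTheory.volume 0 lo :=
    (intervalIntegrable_iff_integrableOn_Ioc_of_le hlo0.le).mpr hρi
  have hlogi : IntervalIntegrable (fun x => Real.log lo - Real.log x) MeasureTheory.volume 0 lo :=
    intervalIntegrable_const.sub intervalIntegral.intervalIntegrable_log'
  have hlogv : ∫ x in (0 : ℝ)..lo, (Real.log lo - Real.log x) = lo := by
    rw [intervalIntegral.integral_sub intervalIntegrable_const
      intervalIntegral.intervalIntegrable_log', intervalIntegral.integral_const, integral_log]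
    simp
  have hA : ∫ x in (0 : ℝ)..lo, φ x * ρ x ≤ C * (- (lo ^ α / α ^ 2)) + B * lo := by
    have h1 : ∫ x in (0 : ℝ)..lo, φ x * ρ x ≤
        ∫ x in (0 : ℝ)..lo, (C * ρ x + B * (Real.log lo - Real.log x)) := by
      apply intervalIntegral.integral_mono_on_of_le_Ioo hlo0.le (hIab 0 lo le_rfl hlo0.le)
        ((hρi'.const_mul C).add (hlogi.const_mul B))
      intro x hx
      have h2 := hnear x hx.1.le hx.2.le
      have h3 : 0 ≤ Real.log lo - Real.log x :=
        sub_nonneg.mpr (Real.log_le_log hx.1 hx.2.le)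
      have hlo1' : lo ≤ 1 := by linarith
      have h4 : x ^ α ≤ 1 := Real.rpow_le_one hx.1.le (by linarith [hx.2]) hα0.le
      have h5 : x * x ^ (α - 1) = x ^ α := by
        rw [Real.rpow_sub hx.1, Real.rpow_one, mul_div_assoc', mul_comm x,
          mul_div_assoc, div_self hx.1.ne', mul_one]
      have h6 : 0 ≤ x ^ (α - 1) := Real.rpow_nonneg hx.1.le _
      have h7 : ρ x = - (x ^ (α - 1) * (Real.log lo - Real.log x)) := by
        rw [hρdef]; unfold profile_rho; ring
      have h8 : (C - φ x) * (x ^ (α - 1) * (Real.log lo - Real.log x)) ≤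
          B * (Real.log lo - Real.log x) := by
        calc (C - φ x) * (x ^ (α - 1) * (Real.log lo - Real.log x))
            ≤ B * x * (x ^ (α - 1) * (Real.log lo - Real.log x)) :=
              mul_le_mul_of_nonneg_right ((le_abs_self _).trans h2) (mul_nonneg h6 h3)
          _ = B * (Real.log lo - Real.log x) * x ^ α := by rw [← h5]; ring
          _ ≤ B * (Real.log lo - Real.log x) * 1 :=
              mul_le_mul_of_nonneg_left h4 (mul_nonneg hB0 h3)
          _ = B * (Real.log lo - Real.log x) := by ring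
      show φ x * ρ x ≤ C * ρ x + B * (Real.log lo - Real.log x)
      rw [h7]
      linarith
    rw [intervalIntegral.integral_add (hρi'.const_mul C) (hlogi.const_mul B),
      intervalIntegral.integral_const_mul, intervalIntegral.integral_const_mul, hlogv, hρv] at h1
    exact h1
  -- the middle part
  have hρi2 : IntervalIntegrable ρ MeasureTheory.volume lo L := by
    apply ContinuousOn.intervalIntegrable
    rw [Set.uIcc_of_le hloL]
    exact hρc
  have hM : ∫ x in lo..L, φ x * ρ x = C * (profile_F α lo L + lo ^ α / α ^ 2) - I := by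
    have h1 : (fun x => φ x * ρ x) = fun x => C * ρ x - (C - φ x) * ρ x := by
      funext x; ring
    rw [h1, intervalIntegral.integral_sub (hρi2.const_mul C) (hψρi lo L le_rfl hloL le_rfl),
      intervalIntegral.integral_const_mul, profile_rho_int' α lo L hα0 hlo0 hloL]
  have hF : profile_F α lo L ≤ -1 := by
    have hlog : Real.log L - Real.log lo = R := by
      rw [hRdef, hLdef, hlodef, Real.log_div one_ne_zero (by positivity), Real.log_one,
        zero_sub, sub_neg_eq_add, ← Real.log_mul (by positivity) (by positivity)]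
      congr 1; ring
    unfold profile_F
    rw [hlog]
    have h1 : 1 ≤ L ^ α := Real.one_le_rpow (by linarith) hα0.le
    have h2 : L ^ α / α * R - L ^ α / α ^ 2 = - (L ^ α * ((1 - α * R) / α ^ 2)) := by
      field_simp
      ring
    rw [h2]
    have h3 : 1 ≤ (1 - α * R) / α ^ 2 := by
      rw [le_div_iff₀ (by positivity)]
      have h4 : α * α ≤ 1 / 20 * (1 / 20) := mul_le_mul hα20 hα20 hα0.le (by norm_num)
      have h5 : α * (2 * R) = 2 * (α * R) := by ring
      have h6 : α ^ 2 = α * α := by ring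
      rw [h6]
      linarith
    have h4 := one_le_mul_of_one_le_of_one_le h1 h3
    linarith
  -- the tail
  have hT : ∫ x in Set.Ioi L, φ x * ρ x ≤ (C + 4 * I) * (1 / 1000) := by
    have hint : MeasureTheory.IntegrableOn (fun x : ℝ => (C + 4 * I) * Real.exp (-(1 / 4) * x))
        (Set.Ioi L) := (integrableOn_exp_mul_Ioi (by norm_num) L).const_mul _
    have h1 : ∫ x in Set.Ioi L, φ x * ρ x ≤
        ∫ x in Set.Ioi L, (C + 4 * I) * Real.exp (-(1 / 4) * x) := by
      apply MeasureTheory.setIntegral_mono_on (hI.mono_set (Set.Ioi_subset_Ioi (by linarith)))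
        hint measurableSet_Ioi
      intro x hx
      have hx1 : 100 * (n : ℝ) ≤ x := le_of_lt hx
      obtain ⟨h2, h3⟩ := profile_tail_pt n hn α hα1 x hx1
      have h4 := tail_bound n (by omega) Q hQ C hC
        (fun y hy1 hy2 => hψ y (by linarith) (by rw [hLdef]; linarith)) x hx1
      have h5 : C + 8 / (100 * n) * ∫ y in (25 / 2 * (n : ℝ))..(50 * n),
          (C - Real.exp (-y) * Q.eval y) ≤ C + 4 * I := by
        have h6 : 8 / (100 * (n : ℝ)) * ∫ y in (25 / 2 * (n : ℝ))..(50 * n),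
            (C - Real.exp (-y) * Q.eval y) ≤ 8 / (100 * n) * (50 * n * I) :=
          mul_le_mul_of_nonneg_left hJ' (by positivity)
        have h7 : 8 / (100 * (n : ℝ)) * (50 * n * I) = 4 * I := by
          field_simp; ring
        linarith
      have hE : 0 ≤ Real.exp (-x / 2) * (16 * Real.exp 1 * x / (100 * n)) ^ n := by
        have hx0 : 0 ≤ x := by linarith
        positivity
      have h8 : φ x ≤ Real.exp (-x / 2) * (16 * Real.exp 1 * x / (100 * n)) ^ n *
          (C + 4 * I) :=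
        (le_abs_self _).trans (h4.trans (mul_le_mul_of_nonneg_left h5 hE))
      show φ x * ρ x ≤ (C + 4 * I) * Real.exp (-(1 / 4) * x)
      calc φ x * ρ x ≤ Real.exp (-x / 2) * (16 * Real.exp 1 * x / (100 * n)) ^ n *
            (C + 4 * I) * ρ x := mul_le_mul_of_nonneg_right h8 h2
        _ = (C + 4 * I) * (Real.exp (-x / 2) * (16 * Real.exp 1 * x / (100 * n)) ^ n *
            profile_rho α (1 / (400 * (n : ℝ) ^ 4)) x) := by
            rw [hρdef, hlodef]; ring
        _ ≤ (C + 4 * I) * Real.exp (-(1 / 4) * x) :=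
            mul_le_mul_of_nonneg_left h3 (by positivity)
    refine h1.trans ?_
    rw [MeasureTheory.integral_const_mul, integral_exp_mul_Ioi (by norm_num) L]
    apply mul_le_mul_of_nonneg_left _ (by positivity)
    have h2 : Real.exp (-(1 / 4) * L) ≤ 1 / 4000 := by
      have h3 : Real.exp (-(1 / 4) * L) ≤ Real.exp (-50) := by
        apply Real.exp_le_exp.mpr; linarith
      have h4 : (4000 : ℝ) ≤ Real.exp 50 := by
        have h5 : (11 : ℝ) ≤ Real.exp 10 := by
          have := Real.add_one_le_exp (10 : ℝ); linarith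
        have h6 : Real.exp 50 = Real.exp 10 ^ 5 := by
          rw [← Real.exp_nat_mul]; norm_num
        rw [h6]
        calc (4000 : ℝ) ≤ 11 ^ 5 := by norm_num
          _ ≤ Real.exp 10 ^ 5 := pow_le_pow_left₀ (by norm_num) h5 5
      rw [Real.exp_neg] at h3
      refine h3.trans ?_
      rw [← one_div]
      exact one_div_le_one_div_of_le (by norm_num) h4
    have h3 : -Real.exp (-(1 / 4) * L) / -(1 / 4) = 4 * Real.exp (-(1 / 4) * L) := by ring
    rw [h3]
    linarith
  -- conclusion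
  have hBlo : B * lo ≤ (1 / 50) * C + (3 / 25) * I := by
    rw [hBdef, hlodef]
    have h1 : (30 * (n : ℝ) ^ 2 * C + 48 * (n : ℝ) ^ 4 * I) * (1 / (400 * (n : ℝ) ^ 4)) =
        (3 / 40) * (1 / (n : ℝ) ^ 2) * C + (3 / 25) * I := by
      field_simp
      ring
    rw [h1]
    have h2 : 1 / (n : ℝ) ^ 2 ≤ 1 / 4 := one_div_le_one_div_of_le (by norm_num) hn24
    have h3 : 1 / (n : ℝ) ^ 2 * C ≤ 1 / 4 * C := mul_le_mul_of_nonneg_right h2 hC
    have h4 : 3 / 40 * (1 / (n : ℝ) ^ 2) * C = 3 / 40 * (1 / (n : ℝ) ^ 2 * C) := by ring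
    rw [h4]
    linarith
  have hCF : C * profile_F α lo L ≤ C * (-1) := mul_le_mul_of_nonneg_left hF hC
  have hfin : (109 / 125) * I + (979 / 1000) * C ≤ 0 := by
    rw [hM, mul_add] at hsplit
    rw [mul_neg] at hA
    linarith
  have hC0 : C = 0 := by linarith
  have hI00 : I = 0 := by linarith
  refine ⟨hC0, ?_⟩
  intro x hx1 hx2
  have h1 : (C - φ x) * ρ x = 0 := by
    by_contra hne
    have h2 : 0 < (C - φ x) * ρ x := lt_of_le_of_ne (hψρ0 x hx1.le hx2) (Ne.symm hne)
    have h3 := intervalIntegral.integral_pos hloL' hψρc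
      (fun y hy => hψρ0 y hy.1.le hy.2) ⟨x, ⟨hx1.le, hx2⟩, h2⟩
    rw [← hIdef, hI00] at h3
    exact lt_irrefl _ h3
  have h2 : ρ x ≠ 0 := by
    have hx0 : 0 < x := hlo0.trans hx1
    have h3 : 0 < ρ x := by
      rw [hρdef]; unfold profile_rho
      exact mul_pos (Real.rpow_pos_of_pos hx0 _)
        (sub_pos.mpr (Real.log_lt_log hlo0 hx1))
    exact h3.ne'
  have h3 : C - φ x = 0 := by
    rcases mul_eq_zero.mp h1 with h | h
    · exact h
    · exact absurd h h2
  rw [hC0, zero_sub, neg_eq_zero, hφdef] at h3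
  rcases mul_eq_zero.mp h3 with h | h
  · exact absurd h (Real.exp_pos _).ne'
  · exact h

theorem profile (n : ℕ) (hn : 2 ≤ n) (α : ℝ) (hα0 : 0 < α)
    (hα : α * (2 * Real.log (40000 * (n : ℝ) ^ 5)) ≤ 1) (w : ℕ → ℝ)
    (h0 : 0 ≤ ∑ j ∈ Icc 2 n, w j * α ^ j)
    (h1 : ∀ x : ℝ, 1 / (400 * (n : ℝ) ^ 4) ≤ x → x ≤ 100 * n →
      ∑ j ∈ Icc 2 n, w j * (Real.exp (-x) * (PP α 1 j).eval x) ≤ ∑ j ∈ Icc 2 n, w j * α ^ j) :
    ∀ j ∈ Icc 2 n, w j = 0 := by
  have hn2 : (2 : ℝ) ≤ n := by exact_mod_cast hn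
  have hα1 : α < 1 := by
    have hR : 10 ≤ Real.log (40000 * (n : ℝ) ^ 5) := by
      rw [Real.le_log_iff_exp_le (by positivity)]
      have h1 : Real.exp 10 ≤ 40000 := by
        have h2 : Real.exp 10 = Real.exp 1 ^ 10 := by
          rw [← Real.exp_nat_mul]; norm_num
        rw [h2]
        calc Real.exp 1 ^ 10 ≤ 2.7182818286 ^ 10 :=
              pow_le_pow_left₀ (Real.exp_pos 1).le Real.exp_one_lt_d9.le 10
          _ ≤ 40000 := by norm_num
      have h3 : (1 : ℝ) ≤ (n : ℝ) ^ 5 := one_le_pow₀ (by linarith)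
      linarith
    have h1 : α * 20 ≤ α * (2 * Real.log (40000 * (n : ℝ) ^ 5)) :=
      mul_le_mul_of_nonneg_left (by linarith) hα0.le
    linarith
  set Q : Polynomial ℝ := ∑ j ∈ Icc 2 n, Polynomial.C (w j) * PP α 1 j with hQdef
  have hQe : ∀ x, Q.eval x = ∑ j ∈ Icc 2 n, w j * (PP α 1 j).eval x := by
    intro x
    rw [hQdef, Polynomial.eval_finsetSum]
    refine Finset.sum_congr rfl (fun j _ => ?_)
    rw [Polynomial.eval_mul, Polynomial.eval_C]
  have hQ0 : Q.eval 0 = ∑ j ∈ Icc 2 n, w j * α ^ j := by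
    rw [hQe]
    refine Finset.sum_congr rfl (fun j _ => ?_)
    rw [eval_zero_PP]
  have hφe : ∀ x, Real.exp (-x) * Q.eval x =
      ∑ j ∈ Icc 2 n, w j * (Real.exp (-x) * (PP α 1 j).eval x) := by
    intro x
    rw [hQe, Finset.mul_sum]
    refine Finset.sum_congr rfl (fun j _ => ?_)
    ring
  have hQn : Q.natDegree ≤ n := by
    rw [hQdef]
    apply Polynomial.natDegree_sum_le_of_forall_le
    intro j hj
    refine (Polynomial.natDegree_C_mul_le _ _).trans ?_
    rw [natDegree_PP α 1 one_ne_zero j]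
    exact (Finset.mem_Icc.mp hj).2
  have e1 : (fun x : ℝ => x ^ (α - 1) * (Real.exp (-x) * Q.eval x)) =
      fun x => ∑ j ∈ Icc 2 n, w j * (x ^ (α - 1) * (Real.exp (-x) * (PP α 1 j).eval x)) := by
    funext x
    rw [hφe, Finset.mul_sum]
    refine Finset.sum_congr rfl (fun j _ => ?_)
    ring
  have e2 : (fun x : ℝ => x ^ (α - 1) * Real.log x * (Real.exp (-x) * Q.eval x)) =
      fun x => ∑ j ∈ Icc 2 n,
        w j * (x ^ (α - 1) * Real.log x * (Real.exp (-x) * (PP α 1 j).eval x)) := by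
    funext x
    rw [hφe, Finset.mul_sum]
    refine Finset.sum_congr rfl (fun j _ => ?_)
    ring
  have j1 : ∀ j ∈ Icc 2 n, MeasureTheory.IntegrableOn
      (fun x : ℝ => w j * (x ^ (α - 1) * (Real.exp (-x) * (PP α 1 j).eval x))) (Set.Ioi 0) :=
    fun j hj => (int_pow α hα0 hα1 j (by have := (Finset.mem_Icc.mp hj).1; omega)).1.const_mul _
  have j2 : ∀ j ∈ Icc 2 n, MeasureTheory.IntegrableOn
      (fun x : ℝ => w j * (x ^ (α - 1) * Real.log x * (Real.exp (-x) * (PP α 1 j).eval x)))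
      (Set.Ioi 0) :=
    fun j hj => (int_log α hα0 hα1 j (Finset.mem_Icc.mp hj).1).1.const_mul _
  have hres := profile_ineq n hn α hα0 hα Q hQn (by rw [hQ0]; exact h0)
    (by
      intro x hx1 hx2
      rw [hQ0, hφe]
      exact sub_nonneg.mpr (h1 x hx1 hx2))
    (by
      rw [e1]
      exact MeasureTheory.integrable_finsetSum _ j1)
    (by
      rw [e1, MeasureTheory.integral_finsetSum _ j1]
      apply Finset.sum_eq_zero
      intro j hj
      rw [MeasureTheory.integral_const_mul,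
        (int_pow α hα0 hα1 j (by have := (Finset.mem_Icc.mp hj).1; omega)).2, mul_zero])
    (by
      rw [e2]
      exact MeasureTheory.integrable_finsetSum _ j2)
    (by
      rw [e2, MeasureTheory.integral_finsetSum _ j2]
      apply Finset.sum_eq_zero
      intro j hj
      rw [MeasureTheory.integral_const_mul, (int_log α hα0 hα1 j (Finset.mem_Icc.mp hj).1).2,
        mul_zero])
  have hQz : Q = 0 := by
    apply Polynomial.eq_zero_of_infinite_isRoot
    have hlt : 1 / (400 * (n : ℝ) ^ 4) < 100 * n := by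
      have h2 : 1 / (400 * (n : ℝ) ^ 4) ≤ 1 := by
        rw [div_le_one (by positivity)]
        have : (1 : ℝ) ≤ (n : ℝ) ^ 4 := one_le_pow₀ (by linarith)
        linarith
      linarith
    refine (Set.Ioo_infinite hlt).mono ?_
    intro x hx
    exact hres.2 x hx.1 hx.2.le
  -- all weights vanish
  by_contra hcon
  push Not at hcon
  obtain ⟨j₀, hj₀, hw₀⟩ := hcon
  obtain ⟨j, hj, hmax⟩ := Finset.exists_max_image ((Icc 2 n).filter (fun j => w j ≠ 0)) id
    ⟨j₀, Finset.mem_filter.mpr ⟨hj₀, hw₀⟩⟩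
  rw [Finset.mem_filter] at hj
  have hcoef : Q.coeff j = w j * (-1) ^ j := by
    rw [hQdef, Polynomial.finsetSum_coeff]
    rw [Finset.sum_eq_single_of_mem j hj.1]
    · rw [Polynomial.coeff_C_mul, (profile_coeff α 1 j).2]
    · intro i hi hij
      rw [Polynomial.coeff_C_mul]
      rcases lt_or_gt_of_ne hij with h | h
      · rw [(profile_coeff α 1 i).1 j h, mul_zero]
      · have : w i = 0 := by
          by_contra hwi
          have h2 := hmax i (Finset.mem_filter.mpr ⟨hi, hwi⟩)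
          simp only [id] at h2
          omega
        rw [this, zero_mul]
  rw [hQz, Polynomial.coeff_zero] at hcoef
  rcases mul_eq_zero.mp hcoef.symm with h | h
  · exact hj.2 h
  · exact (pow_ne_zero j (by norm_num : (-1 : ℝ) ≠ 0)) h

end Pool.Agent.H.MP_cba12a_lc.SQ
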