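import Pool.Agent.H.MP_cba12a_lc.SQ.Defs

namespace Pool.Agent.H.MP_cba12a_lc.SQ

open Finset Filter Topology

theorem schur {X P : Type} [Fintype X] [Fintype P] [Nonempty P] (W : X → ℝ) (hW : ∀ x, 0 ≤ W x)
    (hW1 : ∑ x, W x = 1) (D : P → X → ℝ) (ρ : ℝ)
    (hD : ∀ p, ∑ p', |∑ x, W x * D p x * D p' x| ≤ ρ) (ψ : X → ℝ) (hψ : ∀ x, |ψ x| ≤ 1) :
    ∑ p, (∑ x, W x * ψ x * D p x) ^ 2 ≤ ρ := by
  set a : P → ℝ := fun p => ∑ x, W x * ψ x * D p x with ha
  set T := ∑ p, a p ^ 2 with hT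
  have hT0 : 0 ≤ T := sum_nonneg fun p _ => sq_nonneg _
  have h1 : T = ∑ x, (Real.sqrt (W x) * ψ x) * (Real.sqrt (W x) * ∑ p, a p * D p x) := by
    have e1 : T = ∑ p, ∑ x, a p * (W x * ψ x * D p x) := by
      rw [hT]
      refine sum_congr rfl fun p _ => ?_
      rw [← mul_sum]
      change a p ^ 2 = a p * a p
      ring
    rw [e1, sum_comm]
    refine sum_congr rfl fun x _ => ?_
    have e2 : Real.sqrt (W x) * Real.sqrt (W x) = W x := Real.mul_self_sqrt (hW x)
    have e3 : ∑ p, a p * (W x * ψ x * D p x) = W x * ψ x * ∑ p, a p * D p x := by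
      rw [mul_sum]
      refine sum_congr rfl fun p _ => by ring
    rw [e3]
    calc W x * ψ x * ∑ p, a p * D p x
        = (Real.sqrt (W x) * Real.sqrt (W x)) * ψ x * ∑ p, a p * D p x := by rw [e2]
      _ = _ := by ring
  have h2 : T ^ 2 ≤ (∑ x, (Real.sqrt (W x) * ψ x) ^ 2) *
      (∑ x, (Real.sqrt (W x) * ∑ p, a p * D p x) ^ 2) := by
    conv_lhs => rw [h1]
    exact Finset.sum_mul_sq_le_sq_mul_sq _ _ _
  have h3 : ∑ x, (Real.sqrt (W x) * ψ x) ^ 2 ≤ 1 := by
    rw [← hW1]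
    refine sum_le_sum fun x _ => ?_
    rw [mul_pow, Real.sq_sqrt (hW x)]
    have h5 : ψ x ^ 2 ≤ 1 := by
      rw [← sq_abs]
      have := hψ x
      have h0 := abs_nonneg (ψ x)
      nlinarith
    have := hW x
    nlinarith
  have h4 : ∑ x, (Real.sqrt (W x) * ∑ p, a p * D p x) ^ 2 =
      ∑ p, ∑ p', a p * a p' * ∑ x, W x * D p x * D p' x := by
    have e1 : ∀ x, (Real.sqrt (W x) * ∑ p, a p * D p x) ^ 2 =
        ∑ p, ∑ p', a p * a p' * (W x * D p x * D p' x) := by
      intro x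
      rw [mul_pow, Real.sq_sqrt (hW x), sq (∑ p, a p * D p x), sum_mul_sum, mul_sum]
      refine sum_congr rfl fun p _ => ?_
      rw [mul_sum]
      refine sum_congr rfl fun p' _ => ?_
      ring
    rw [sum_congr rfl fun x _ => e1 x, sum_comm]
    refine sum_congr rfl fun p _ => ?_
    rw [sum_comm]
    refine sum_congr rfl fun p' _ => ?_
    exact (mul_sum _ _ _).symm
  have h5 : ∑ p, ∑ p', a p * a p' * ∑ x, W x * D p x * D p' x ≤ ρ * T := by
    have e1 : ∀ p p', a p * a p' * ∑ x, W x * D p x * D p' x ≤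
        a p ^ 2 / 2 * |∑ x, W x * D p x * D p' x| + a p' ^ 2 / 2 * |∑ x, W x * D p x * D p' x| := by
      intro p p'
      have f1 : a p * a p' * ∑ x, W x * D p x * D p' x ≤
          |a p * a p'| * |∑ x, W x * D p x * D p' x| := by
        rw [← abs_mul]
        exact le_abs_self _
      have f2 : |a p * a p'| ≤ (a p ^ 2 + a p' ^ 2) / 2 := by
        rw [abs_le]
        constructor
        · nlinarith [sq_nonneg (a p + a p')]
        · nlinarith [sq_nonneg (a p - a p')]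
      have f3 := mul_le_mul_of_nonneg_right f2 (abs_nonneg (∑ x, W x * D p x * D p' x))
      linarith
    have e2 : ∑ p, ∑ p', a p * a p' * ∑ x, W x * D p x * D p' x ≤
        ∑ p, ∑ p', (a p ^ 2 / 2 * |∑ x, W x * D p x * D p' x| +
          a p' ^ 2 / 2 * |∑ x, W x * D p x * D p' x|) :=
      sum_le_sum fun p _ => sum_le_sum fun p' _ => e1 p p'
    refine e2.trans ?_
    simp only [sum_add_distrib]
    have e3 : ∑ p, ∑ p', a p ^ 2 / 2 * |∑ x, W x * D p x * D p' x| ≤ ρ * T / 2 := by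
      rw [hT, mul_sum, sum_div]
      refine sum_le_sum fun p _ => ?_
      rw [← mul_sum]
      have := hD p
      have h0 : 0 ≤ a p ^ 2 / 2 := by positivity
      nlinarith
    have e4 : ∑ p, ∑ p', a p' ^ 2 / 2 * |∑ x, W x * D p x * D p' x| ≤ ρ * T / 2 := by
      rw [sum_comm]
      refine le_trans (le_of_eq ?_) e3
      refine sum_congr rfl fun p _ => ?_
      refine sum_congr rfl fun p' _ => ?_
      congr 2
      refine sum_congr rfl fun x _ => ?_
      ring
    linarith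
  have hρ : 0 ≤ ρ := by
    obtain ⟨p⟩ := ‹Nonempty P›
    exact (sum_nonneg fun p' _ => abs_nonneg _).trans (hD p)
  have h6 : T ^ 2 ≤ ρ * T := by
    have h7 : 0 ≤ ∑ x, (Real.sqrt (W x) * ∑ p, a p * D p x) ^ 2 :=
      sum_nonneg fun x _ => sq_nonneg _
    calc T ^ 2 ≤ _ := h2
      _ ≤ 1 * (∑ x, (Real.sqrt (W x) * ∑ p, a p * D p x) ^ 2) := by gcongr
      _ ≤ ρ * T := by rw [one_mul, h4]; exact h5
  rcases hT0.eq_or_lt with h | h
  · rw [← h]
    exact hρ
  · have : T * T ≤ ρ * T := by rw [← sq]; exact h6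
    exact le_of_mul_le_mul_right this h

end Pool.Agent.H.MP_cba12a_lc.SQ
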